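import Mathlib

/-!
# Recognising reduced clique graphs of chordal graphs: combinatorial definitions

`H` is a simple graph on a type `V`, all vertex sets are `Set V`.

* A *relation on triangles* is a map `F : V → V → V → Prop`, `F u v w` is read `uv|w`
  (`w` is separated from `u, v` first).
* `Pure H X F`: the rules (symmetry, consistency, D1, D2, K) inside the vertex set `X`.
* `Cp F y v`: the component of `v` under the relation `a b|y`.
* `DT V`: binary trees with leaves in `V`; `Valid H E t`: the decomposition tree `t` is valid with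
  ambient set `E`; `TC H S t`: the set `S` is compatible with `t`; `Sp t u v w`: the first node
  of `t` that separates `u, v, w` has `u, v` on the same side.
* `Dec H E C`: the set `C` has a valid tree with ambient set `E`.
-/

namespace Pool.Agent.H8.CR

open Relation

variable {V : Type*}

/-- `u, v, w` is a triangle of `H` inside `X`. -/
def Tri (H : SimpleGraph V) (X : Set V) (u v w : V) : Prop :=
  u ∈ X ∧ v ∈ X ∧ w ∈ X ∧ H.Adj u v ∧ H.Adj u w ∧ H.Adj v w

/-- A pure relation on the triangles of `H` inside `X`; `F u v w` is read `uv|w`. -/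
structure Pure (H : SimpleGraph V) (X : Set V) (F : V → V → V → Prop) : Prop where
  tri : ∀ u v w, F u v w → Tri H X u v w
  symm : ∀ u v w, F u v w → F v u w
  cons : ∀ u v w, F u v w → ¬ F u w v
  d1 : ∀ u v w x, F u v w → x ∈ X → ¬ H.Adj x w → H.Adj x u → H.Adj x v → F u v x
  d2 : ∀ u v w x, F u v w → x ∈ X → ¬ H.Adj x u → H.Adj x v → H.Adj x w → F x v w
  k : ∀ a b c d, F a b c → d ∈ X → H.Adj d a → H.Adj d b → H.Adj d c →
    F a b d ∨ (F a d c ∧ F b d c)

/-- Every triangle inside `X` is resolved by `F`. -/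
def Full (H : SimpleGraph V) (X : Set V) (F : V → V → V → Prop) : Prop :=
  ∀ u v w, Tri H X u v w → F u v w ∨ F u w v ∨ F v w u

/-- The triangle `u, v, w` is not resolved by `F`. -/
def Unres (H : SimpleGraph V) (X : Set V) (F : V → V → V → Prop) (u v w : V) : Prop :=
  Tri H X u v w ∧ ¬ F u v w ∧ ¬ F u w v ∧ ¬ F v w u

/-- The component of `v` under the relation `a b|y`. -/
def Cp (F : V → V → V → Prop) (y v : V) : Set V := {u | ReflTransGen (fun a b => F a b y) v u}

/-- `S ⊆ X` is closed: `p q|t` whenever `p, q ∈ S`, `t ∈ X \ S` form a triangle. -/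
def Closed (H : SimpleGraph V) (X : Set V) (F : V → V → V → Prop) (S : Set V) : Prop :=
  S ⊆ X ∧ ∀ p q t, p ∈ S → q ∈ S → H.Adj p q → t ∈ X → t ∉ S → H.Adj t p → H.Adj t q → F p q t

/-- The restriction of a relation to a vertex set. -/
def Rs (F : V → V → V → Prop) (Y : Set V) (u v w : V) : Prop := F u v w ∧ u ∈ Y ∧ v ∈ Y ∧ w ∈ Y

/-- Reachability inside the vertex set `S`. -/
def Rch (H : SimpleGraph V) (S : Set V) (a b : V) : Prop :=
  ReflTransGen (fun x y => H.Adj x y ∧ x ∈ S ∧ y ∈ S) a b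

/-- The vertex set `S` is connected (or empty). -/
def Conn (H : SimpleGraph V) (S : Set V) : Prop := ∀ a ∈ S, ∀ b ∈ S, Rch H S a b

/-- The complement of `H` is connected on `S` (or `S` is empty). -/
def CoConn (H : SimpleGraph V) (S : Set V) : Prop :=
  ∀ a ∈ S, ∀ b ∈ S, ReflTransGen (fun x y => x ∈ S ∧ y ∈ S ∧ ¬ H.Adj x y) a b

/-- The component of `u` in the complement of `H[B]`. -/
def CoCp (H : SimpleGraph V) (B : Set V) (u : V) : Set V :=
  {x | ReflTransGen (fun a b => a ∈ B ∧ b ∈ B ∧ ¬ H.Adj a b) u x}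

/-- Every function on the edges inside `S` with values modulo two which sums to zero over all
triangles inside `S` is the coboundary of a function on the vertices. -/
def Zp (H : SimpleGraph V) (S : Set V) : Prop :=
  ∀ φ : V → V → ZMod 2, (∀ a b, φ a b = φ b a) →
    (∀ a b c, Tri H S a b c → φ a b + φ b c + φ a c = 0) →
    ∃ f : V → ZMod 2, ∀ a ∈ S, ∀ b ∈ S, H.Adj a b → φ a b = f a + f b

/-- Binary trees with leaves in `V`. -/
inductive DT (V : Type*)
  | leaf (v : V) : DT V
  | node (l r : DT V) : DT V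

/-- The set of the leaves. -/
def DT.supp : DT V → Set V
  | .leaf v => {v}
  | .node l r => l.supp ∪ r.supp

open Classical in
/-- Replace the leaf `a` by the tree `s`. -/
noncomputable def DT.sub : DT V → V → DT V → DT V
  | .leaf v, a, s => if v = a then s else .leaf v
  | .node l r, a, s => .node (l.sub a s) (r.sub a s)

/-- Rename the leaves. -/
def DT.map {W : Type*} : DT V → (V → W) → DT W
  | .leaf v, f => .leaf (f v)
  | .node l r, f => .node (l.map f) (r.map f)

/-- `S` is compatible with the pair `A`, `B`. -/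
def NC (H : SimpleGraph V) (A B S : Set V) : Prop :=
  (∀ a ∈ A, a ∉ S) ∨ (∀ b ∈ B, b ∉ S) ∨ (∀ a ∈ A, ∀ b ∈ B, H.Adj a b → a ∈ S ∧ b ∈ S)

/-- The vertex sets `A`, `B` are disjoint, there is an edge between them, and the edges between
them form a complete bipartite graph. -/
def Cut (H : SimpleGraph V) (A B : Set V) : Prop :=
  Disjoint A B ∧ (∃ a ∈ A, ∃ b ∈ B, H.Adj a b) ∧
    ∀ a ∈ A, ∀ b ∈ B, ∀ a' ∈ A, ∀ b' ∈ B, H.Adj a b → H.Adj a' b' → H.Adj a b'

/-- The decomposition tree is valid with ambient vertex set `E`. -/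
def Valid (H : SimpleGraph V) (E : Set V) : DT V → Prop
  | .leaf _ => True
  | .node l r => Cut H l.supp r.supp ∧
      (∀ u ∈ E, u ∉ l.supp → u ∉ r.supp → NC H l.supp r.supp (H.neighborSet u)) ∧
      Valid H E l ∧ Valid H E r

/-- The vertex set `S` is compatible with all nodes of the tree. -/
def TC (H : SimpleGraph V) (S : Set V) : DT V → Prop
  | .leaf _ => True
  | .node l r => NC H l.supp r.supp S ∧ TC H S l ∧ TC H S r

/-- The first node that separates `u, v, w` has `u, v` on one side and `w` on the other. -/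
def Sp : DT V → V → V → V → Prop
  | .leaf _, _, _, _ => False
  | .node l r, u, v, w => (u ∈ l.supp ∧ v ∈ l.supp ∧ w ∈ r.supp) ∨
      (u ∈ r.supp ∧ v ∈ r.supp ∧ w ∈ l.supp) ∨ Sp l u v w ∨ Sp r u v w

/-- The relation on triangles given by a tree. -/
def al (H : SimpleGraph V) (t : DT V) (u v w : V) : Prop := Tri H t.supp u v w ∧ Sp t u v w

/-- The vertex set `C` can be decomposed with ambient vertex set `E`. -/
def Dec (H : SimpleGraph V) (E C : Set V) : Prop := ∃ t : DT V, t.supp = C ∧ Valid H E t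

/-- Pure, full, connected, and all neighbourhoods of outer vertices (from `E`) are closed and
connected. -/
structure Good0 (H : SimpleGraph V) (E X : Set V) (F : V → V → V → Prop) : Prop where
  pure : Pure H X F
  full : Full H X F
  conn : Conn H X
  ne : X.Nonempty
  nb : ∀ u ∈ E, u ∉ X → Conn H (H.neighborSet u ∩ X) ∧ Closed H X F (H.neighborSet u ∩ X)

/-- The data of one cut: `X = C1 ⊔ C2`, all edges between `C1` and `C2` are edges between
`Cp F b a ⊆ C1` and `Cp F a b ⊆ C2`, where `a ∈ C1`, `b ∈ C2` are adjacent. -/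
structure CutD (H : SimpleGraph V) (X : Set V) (F : V → V → V → Prop) (C1 C2 : Set V)
    (a b : V) : Prop where
  un : C1 ∪ C2 = X
  dj : Disjoint C1 C2
  ha : a ∈ C1
  hb : b ∈ C2
  ab : H.Adj a b
  hA : Cp F b a ⊆ C1
  hB : Cp F a b ⊆ C2
  cr : ∀ x ∈ C1, ∀ y ∈ C2, H.Adj x y → x ∈ Cp F b a ∧ y ∈ Cp F a b

/-- Criterion `(*)`: for every edge `a b` the vertex `b` cannot be reached from `a` by edges `x y`
such that `Cp F x y ∪ Cp F y x` does not contain both `a` and `b`. -/
def Star (H : SimpleGraph V) (X : Set V) (F : V → V → V → Prop) : Prop :=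
  ∀ a ∈ X, ∀ b ∈ X, H.Adj a b →
    ¬ ReflTransGen (fun x y => H.Adj x y ∧ x ∈ X ∧ y ∈ X ∧
      ¬ (a ∈ Cp F x y ∪ Cp F y x ∧ b ∈ Cp F x y ∪ Cp F y x)) a b

/-- The closure of a relation under the rules D1, D2, K1, K2, K3. -/
inductive Cl (H : SimpleGraph V) (X : Set V) (F0 : V → V → V → Prop) : V → V → V → Prop
  | base {u v w : V} (h : F0 u v w) : Cl H X F0 u v w
  | symm {u v w : V} (h : Cl H X F0 u v w) : Cl H X F0 v u w
  | d1 {u v w x : V} (h : Cl H X F0 u v w) (hx : x ∈ X) (h1 : ¬ H.Adj x w) (h2 : H.Adj x u)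
      (h3 : H.Adj x v) : Cl H X F0 u v x
  | d2 {u v w x : V} (h : Cl H X F0 u v w) (hx : x ∈ X) (h1 : ¬ H.Adj x u) (h2 : H.Adj x v)
      (h3 : H.Adj x w) : Cl H X F0 x v w
  | k1a {a b c d : V} (h : Cl H X F0 a b c) (h' : Cl H X F0 b c d) (h1 : H.Adj a d) :
      Cl H X F0 a b d
  | k1b {a b c d : V} (h : Cl H X F0 a b c) (h' : Cl H X F0 b c d) (h1 : H.Adj a d) :
      Cl H X F0 a c d
  | k2a {a b c d : V} (h : Cl H X F0 a b c) (h' : Cl H X F0 c d b) (h1 : H.Adj a d) :
      Cl H X F0 a b d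
  | k2b {a b c d : V} (h : Cl H X F0 a b c) (h' : Cl H X F0 c d b) (h1 : H.Adj a d) :
      Cl H X F0 c d a
  | k3 {a b c d : V} (h : Cl H X F0 b d a) (h' : Cl H X F0 c d a) (h1 : H.Adj b c) :
      Cl H X F0 b c a

/-- The facts which make the neighbourhoods of the outer vertices closed. -/
def F0nb (H : SimpleGraph V) (E X : Set V) (p q t : V) : Prop :=
  Tri H X p q t ∧ ∃ u ∈ E, u ∉ X ∧ H.Adj u p ∧ H.Adj u q ∧ ¬ H.Adj u t

/-- Add the facts `hk|w` for all unresolved triangles `h, k, w`. -/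
def addE (H : SimpleGraph V) (X : Set V) (F : V → V → V → Prop) (h k : V) (u v w : V) : Prop :=
  F u v w ∨ (Unres H X F h k w ∧ ((u = h ∧ v = k) ∨ (u = k ∧ v = h)))

/-- The closure after adding the facts at the edge `h k`. -/
def Commit (H : SimpleGraph V) (X : Set V) (F : V → V → V → Prop) (h k : V) :
    V → V → V → Prop :=
  Cl H X (addE H X F h k)

/-- Membership in the smallest module of `H[N(y) ∩ E]` that contains `u` and `w`. -/
inductive MdR (H : SimpleGraph V) (E : Set V) (y u w : V) : V → Prop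
  | left : MdR H E y u w u
  | right : MdR H E y u w w
  | split {a b x : V} (ha : MdR H E y u w a) (hb : MdR H E y u w b) (hx : x ∈ E)
      (hy : H.Adj y x) (h1 : H.Adj x a) (h2 : ¬ H.Adj x b) : MdR H E y u w x

/-- The smallest module of `H[N(y) ∩ E]` that contains `u` and `w`. -/
def Md (H : SimpleGraph V) (E : Set V) (y u w : V) : Set V := {x | MdR H E y u w x}

/-- The oracle: some component of the complement of `H[B]` is a good module in the table. -/
def Orc (H : SimpleGraph V) (E : Set V) (T : V → V → V → Prop) (y : V) (B : Set V) : Prop :=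
  ∃ u ∈ B, ∃ w ∈ B, ∃ w' ∈ B, T y w w' ∧ CoCp H B u = Md H E y w w'

/-- The edge `h k` may be committed. -/
def GE (H : SimpleGraph V) (E X : Set V) (T : V → V → V → Prop) (F : V → V → V → Prop)
    (h k : V) : Prop :=
  h ∈ X ∧ k ∈ X ∧ H.Adj h k ∧ (∃ v, Unres H X F h k v) ∧
    (∀ u v w, Commit H X F h k u v w → ¬ Commit H X F h k u w v) ∧
    ∀ y ∈ X, ∀ v ∈ X, H.Adj y v → Orc H E T y (Cp (Commit H X F h k) y v)

/-- The invariant of the algorithm. -/
structure Inv (H : SimpleGraph V) (E X : Set V) (F : V → V → V → Prop) : Prop where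
  pure : Pure H X F
  nb : ∀ p q t, F0nb H E X p q t → F p q t
  tree : ∃ t : DT V, t.supp = X ∧ Valid H E t ∧ ∀ u v w, F u v w → Sp t u v w

/-! ### Pieces -/

/-- The triangle `h, x, x'` is unresolved or `x x'|h`. -/
def Link (H : SimpleGraph V) (X : Set V) (F : V → V → V → Prop) (h x x' : V) : Prop :=
  Tri H X h x x' ∧ ¬ F h x x' ∧ ¬ F h x' x

/-- Elementary moves between ordered edges. -/
def Mv (H : SimpleGraph V) (X : Set V) (F : V → V → V → Prop) (e e' : V × V) : Prop :=
  (e'.1 = e.1 ∧ Link H X F e.1 e.2 e'.2) ∨ (e'.1 = e.2 ∧ e'.2 = e.1)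

/-- The piece of an ordered edge. -/
def Pc (H : SimpleGraph V) (X : Set V) (F : V → V → V → Prop) (e : V × V) : Set (V × V) :=
  {e' | ReflTransGen (Mv H X F) e e'}

/-- The cluster of `x` at `h`. -/
def Uc (H : SimpleGraph V) (X : Set V) (F : V → V → V → Prop) (h x : V) : Set V :=
  {x' | ReflTransGen (Link H X F h) x x'}

/-- The vertices of a set of ordered edges. -/
def Vx (P : Set (V × V)) : Set V := {b | ∃ z, (b, z) ∈ P}

/-- A solution of the piece `P`: a relation `Γ` on the triples with all edges in `P` which satisfies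
the rules, is invariant under replacing a vertex by another one of its class, and whose sides
have property `Zp`. -/
structure PSol (H : SimpleGraph V) (X : Set V) (F : V → V → V → Prop) (P : Set (V × V))
    (Γ : V → V → V → Prop) : Prop where
  symm : ∀ u v w, Γ u v w → Γ v u w
  cons : ∀ u v w, (u, v) ∈ P → (u, w) ∈ P → (v, w) ∈ P → Γ u v w → ¬ Γ u w v
  full : ∀ u v w, (u, v) ∈ P → (u, w) ∈ P → (v, w) ∈ P → Γ u v w ∨ Γ u w v ∨ Γ v w u
  d1 : ∀ u v w x, (u, v) ∈ P → (u, w) ∈ P → (v, w) ∈ P → (x, u) ∈ P → (x, v) ∈ P →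
    ¬ H.Adj x w → Γ u v w → Γ u v x
  d2 : ∀ u v w x, (u, v) ∈ P → (u, w) ∈ P → (v, w) ∈ P → (x, v) ∈ P → (x, w) ∈ P →
    ¬ H.Adj x u → Γ u v w → Γ x v w
  k : ∀ a b c d, (a, b) ∈ P → (a, c) ∈ P → (b, c) ∈ P → (a, d) ∈ P → (b, d) ∈ P →
    (c, d) ∈ P → Γ a b c → Γ a b d ∨ (Γ a d c ∧ Γ b d c)
  inv : ∀ a b c d, (a, b) ∈ P → (a, c) ∈ P → (b, c) ∈ P → F a d b → F a d c →
    (Γ a b c ↔ Γ d b c) ∧ (Γ b c a ↔ Γ b c d)
  zp : ∀ x h, (x, h) ∈ P → Zp H {u | ReflTransGen (fun u w => F u w x ∨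
    ((u, w) ∈ P ∧ (x, u) ∈ P ∧ (x, w) ∈ P ∧ Γ u w x)) h u}

/-- The structure of a piece without cone vertices: for every vertex `h` of the piece, `A h` is its
class and `W h` is a set containing `A h` such that the edges that leave `W h` are exactly the
edges between `A h` and the `P`-neighbours of `h`. -/
structure NCd (H : SimpleGraph V) (X : Set V) (F : V → V → V → Prop) (P : Set (V × V))
    (A W : V → Set V) : Prop where
  ne : P.Nonempty
  sy : ∀ a b, (a, b) ∈ P → (b, a) ∈ P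
  ad : ∀ a b, (a, b) ∈ P → H.Adj a b ∧ a ∈ X ∧ b ∈ X
  self : ∀ h ∈ Vx P, h ∈ A h
  sub : ∀ h ∈ Vx P, A h ⊆ W h ∧ W h ⊆ X
  inter : ∀ h ∈ Vx P, Vx P ∩ W h = A h
  edge : ∀ h ∈ Vx P, ∀ p ∈ W h, ∀ q ∈ X, q ∉ W h → (H.Adj p q ↔ p ∈ A h ∧ (h, q) ∈ P)
  cls : ∀ h ∈ Vx P, ∀ h' ∈ A h, A h' = A h
  pcl : ∀ h ∈ Vx P, ∀ h' ∈ A h, ∀ q, (h, q) ∈ P → (h', q) ∈ P
  cp : ∀ h x, (h, x) ∈ P → A h = Cp F x h

end Pool.Agent.H8.CR
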