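import Pool.Agent.H87.HC.Algo
import Pool.Agent.H8.CR.Defs

/-!
# The algorithm on lists

Vertices are natural numbers below `n`, the graph is given by the list `E` of its edges
(`H87.HC.adj E a b`), vertex sets `X`, `B` are lists, relations on triangles `L` and the table `T` are
lists of triples.
-/

namespace Pool.Agent.H8.CR

open H87.HC Pool.Agent.PPS

/-- The graph on `ℕ` with edge list `E`. -/
def HN (E : List (ℕ × ℕ)) : SimpleGraph ℕ where
  Adj a b := adj E a b = true
  symm := ⟨fun a b h => by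
    simp only [adj, Bool.and_eq_true, Bool.or_eq_true, Bool.not_eq_true', decide_eq_false_iff_not,
      decide_eq_true_eq] at h ⊢
    exact ⟨fun h' => h.1 h'.symm, h.2.symm⟩⟩
  loopless := ⟨fun a h => by simp [adj] at h⟩

/-- The vertex set of a list. -/
def LS {α : Type*} (X : List α) : Set α := {x | x ∈ X}

/-- The relation of a list of triples. -/
def RL (L : List (ℕ × ℕ × ℕ)) (u v w : ℕ) : Prop := (u, v, w) ∈ L

/-- All triples of numbers below `n`. -/
def trs (n : ℕ) : List (ℕ × ℕ × ℕ) :=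
  (List.range n).flatMap (fun a => (List.range n).flatMap (fun b =>
    (List.range n).map (fun c => (a, b, c))))

/-- All pairs of numbers below `n`. -/
def prs (n : ℕ) : List (ℕ × ℕ) :=
  (List.range n).flatMap (fun a => (List.range n).map (fun b => (a, b)))

/-- One round of saturation inside `D` with the rule `p`. -/
def satStep {α : Type} [DecidableEq α] (D : List α) (p : List α → α → Bool) (L : List α) :
    List α :=
  D.filter (fun a => decide (a ∈ L) || p L a)

/-- Saturation inside `D` with the rule `p`. -/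
def sat {α : Type} [DecidableEq α] (D : List α) (p : List α → α → Bool) : List α :=
  (satStep D p)^[D.length] []

/-- `u, v, w` is a triangle in `X`. -/
def triB (E : List (ℕ × ℕ)) (X : List ℕ) (u v w : ℕ) : Bool :=
  decide (u ∈ X) && decide (v ∈ X) && decide (w ∈ X) && adj E u v && adj E u w && adj E v w

/-- The triple `(u, v, w)` follows from `L` by one rule. -/
def ruleB (n : ℕ) (E : List (ℕ × ℕ)) (X : List ℕ) (L : List (ℕ × ℕ × ℕ)) (t : ℕ × ℕ × ℕ) :
    Bool :=
  decide ((t.2.1, t.1, t.2.2) ∈ L) || (List.range n).any (fun x =>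
    (decide ((t.1, t.2.1, x) ∈ L) && decide (t.2.2 ∈ X) && !adj E t.2.2 x && adj E t.2.2 t.1 &&
      adj E t.2.2 t.2.1) ||
    (decide ((x, t.2.1, t.2.2) ∈ L) && decide (t.1 ∈ X) && !adj E t.1 x && adj E t.1 t.2.1 &&
      adj E t.1 t.2.2) ||
    (decide ((t.1, t.2.1, x) ∈ L) && decide ((t.2.1, x, t.2.2) ∈ L) && adj E t.1 t.2.2) ||
    (decide ((t.1, x, t.2.1) ∈ L) && decide ((x, t.2.1, t.2.2) ∈ L) && adj E t.1 t.2.2) ||
    (decide ((t.1, t.2.1, x) ∈ L) && decide ((x, t.2.2, t.2.1) ∈ L) && adj E t.1 t.2.2) ||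
    (decide ((t.2.2, x, t.1) ∈ L) && decide ((t.1, t.2.1, x) ∈ L) && adj E t.2.2 t.2.1) ||
    (decide ((t.1, x, t.2.2) ∈ L) && decide ((t.2.1, x, t.2.2) ∈ L) && adj E t.1 t.2.1))

/-- The closure of the list `B` of triples. -/
def clos (n : ℕ) (E : List (ℕ × ℕ)) (X : List ℕ) (B : List (ℕ × ℕ × ℕ)) : List (ℕ × ℕ × ℕ) :=
  sat (trs n) (fun L t => decide (t ∈ B) || ruleB n E X L t)

/-- The facts which make the neighbourhoods of the outer vertices closed. -/
def nb0 (n : ℕ) (E : List (ℕ × ℕ)) (X : List ℕ) : List (ℕ × ℕ × ℕ) :=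
  (trs n).filter (fun t => triB E X t.1 t.2.1 t.2.2 && (List.range n).any (fun u =>
    !decide (u ∈ X) && adj E u t.1 && adj E u t.2.1 && !adj E u t.2.2))

/-- Consistency. -/
def consL (L : List (ℕ × ℕ × ℕ)) : Bool := L.all (fun t => !decide ((t.1, t.2.2, t.2.1) ∈ L))

/-- The triangle `u, v, w` is unresolved. -/
def unrB (E : List (ℕ × ℕ)) (X : List ℕ) (L : List (ℕ × ℕ × ℕ)) (u v w : ℕ) : Bool :=
  triB E X u v w && !decide ((u, v, w) ∈ L) && !decide ((u, w, v) ∈ L) && !decide ((v, w, u) ∈ L)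

/-- Commit the edge `h k`. -/
def comL (n : ℕ) (E : List (ℕ × ℕ)) (X : List ℕ) (L : List (ℕ × ℕ × ℕ)) (h k : ℕ) :
    List (ℕ × ℕ × ℕ) :=
  clos n E X (L ++ (trs n).filter (fun t => unrB E X L h k t.2.2 &&
    ((decide (t.1 = h) && decide (t.2.1 = k)) || (decide (t.1 = k) && decide (t.2.1 = h)))))

/-- The component of `v` at `y`. -/
def cpL (n : ℕ) (L : List (ℕ × ℕ × ℕ)) (y v : ℕ) : List ℕ :=
  sat (List.range n) (fun M u => decide (u = v) || M.any (fun a => decide ((a, u, y) ∈ L)))

/-- The component of `u` in the complement of the graph on `B`. -/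
def cocpL (n : ℕ) (E : List (ℕ × ℕ)) (B : List ℕ) (u : ℕ) : List ℕ :=
  sat (List.range n) (fun M x => decide (x = u) ||
    (decide (x ∈ B) && M.any (fun a => decide (a ∈ B) && !adj E a x)))

/-- The smallest module of the link of `y` that contains `u` and `w`. -/
def mdL (n : ℕ) (E : List (ℕ × ℕ)) (y u w : ℕ) : List ℕ :=
  sat (List.range n) (fun M x => decide (x = u) || decide (x = w) ||
    (adj E y x && M.any (fun a => adj E x a) && M.any (fun b => !adj E x b)))

/-- The oracle. -/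
def orcL (n : ℕ) (E : List (ℕ × ℕ)) (T : List (ℕ × ℕ × ℕ)) (y : ℕ) (B : List ℕ) : Bool :=
  B.any (fun u => B.any (fun w => B.any (fun w' => decide ((y, w, w') ∈ T) &&
    decide (cocpL n E B u = mdL n E y w w'))))

/-- The edge `e` may be committed. -/
def geB (n : ℕ) (E : List (ℕ × ℕ)) (X : List ℕ) (T L : List (ℕ × ℕ × ℕ)) (e : ℕ × ℕ) : Bool :=
  decide (e.1 ∈ X) && decide (e.2 ∈ X) && adj E e.1 e.2 &&
    (List.range n).any (fun v => unrB E X L e.1 e.2 v) && consL (comL n E X L e.1 e.2) &&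
    X.all (fun y => X.all (fun v => !adj E y v ||
      orcL n E T y (cpL n (comL n E X L e.1 e.2) y v)))

/-- One step. -/
def stepL (n : ℕ) (E : List (ℕ × ℕ)) (X : List ℕ) (T L : List (ℕ × ℕ × ℕ)) :
    List (ℕ × ℕ × ℕ) :=
  if decide ((prs n).filter (geB n E X T L) = []) then L
  else comL n E X L (((prs n).filter (geB n E X T L)).headD (0, 0)).1
    (((prs n).filter (geB n E X T L)).headD (0, 0)).2

/-- All steps. -/
def runL (n : ℕ) (E : List (ℕ × ℕ)) (X : List ℕ) (T : List (ℕ × ℕ × ℕ)) : List (ℕ × ℕ × ℕ) :=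
  (stepL n E X T)^[(trs n).length + 1] (clos n E X (nb0 n E X))

/-- The vertices reachable from `a` inside `X`. -/
def rchL (n : ℕ) (E : List (ℕ × ℕ)) (X : List ℕ) (a : ℕ) : List ℕ :=
  sat (List.range n) (fun M x => decide (x = a) ||
    (decide (x ∈ X) && M.any (fun z => decide (z ∈ X) && adj E z x)))

/-- The set `X` is connected. -/
def connL (n : ℕ) (E : List (ℕ × ℕ)) (X : List ℕ) : Bool :=
  X.all (fun a => X.all (fun b => decide (b ∈ rchL n E X a)))

/-- All triangles are resolved. -/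
def fullL (n : ℕ) (E : List (ℕ × ℕ)) (X : List ℕ) (L : List (ℕ × ℕ × ℕ)) : Bool :=
  (trs n).all (fun t => !triB E X t.1 t.2.1 t.2.2 || decide (t ∈ L) ||
    decide ((t.1, t.2.2, t.2.1) ∈ L) || decide ((t.2.1, t.2.2, t.1) ∈ L))

/-- The vertex `a` belongs to the class of the edge `x y`. -/
def inV (n : ℕ) (L : List (ℕ × ℕ × ℕ)) (x y a : ℕ) : Bool :=
  decide (a ∈ cpL n L x y) || decide (a ∈ cpL n L y x)

/-- The vertices reachable from `a` by the relation of criterion `(*)` for `a b`. -/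
def srchL (n : ℕ) (E : List (ℕ × ℕ)) (X : List ℕ) (L : List (ℕ × ℕ × ℕ)) (a b : ℕ) : List ℕ :=
  sat (List.range n) (fun M x => decide (x = a) ||
    (decide (x ∈ X) && M.any (fun z => decide (z ∈ X) && adj E z x &&
      !(inV n L z x a && inV n L z x b))))

/-- Criterion `(*)`. -/
def starL (n : ℕ) (E : List (ℕ × ℕ)) (X : List ℕ) (L : List (ℕ × ℕ × ℕ)) : Bool :=
  X.all (fun a => X.all (fun b => !adj E a b || !decide (b ∈ srchL n E X L a b)))

/-- The final test. -/
def accL (n : ℕ) (E : List (ℕ × ℕ)) (X : List ℕ) (L : List (ℕ × ℕ × ℕ)) : Bool :=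
  !decide (X = []) && connL n E X &&
    (List.range n).all (fun u => decide (u ∈ X) || connL n E (X.filter (fun x => adj E u x))) &&
    consL L && fullL n E X L && starL n E X L

/-- The greedy algorithm for the vertex set `X` with the table `T`. -/
def greedyL (n : ℕ) (E : List (ℕ × ℕ)) (X : List ℕ) (T : List (ℕ × ℕ × ℕ)) : Bool :=
  accL n E X (runL n E X T)

/-- One round of the computation of the table. -/
def tabStep (n : ℕ) (E : List (ℕ × ℕ)) (T : List (ℕ × ℕ × ℕ)) : List (ℕ × ℕ × ℕ) :=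
  (trs n).filter (fun t => adj E t.1 t.2.1 && adj E t.1 t.2.2 &&
    greedyL n E (mdL n E t.1 t.2.1 t.2.2) T)

/-- The table. -/
def tabL (n : ℕ) (E : List (ℕ × ℕ)) : List (ℕ × ℕ × ℕ) := (tabStep n E)^[n + 1] []

/-- The algorithm. -/
def algoL (n : ℕ) (E : List (ℕ × ℕ)) : Bool :=
  !decide (n = 0) &&
    (List.range n).all (fun v => greedyL n E (rchL n E (List.range n) v) (tabL n E))

/-- The decision procedure for words. -/
def decW (w : List Bool) : Bool :=
  decide (w = encB (lead w) (edgesOf (lead w) w)) && algoL (lead w) (edgesOf (lead w) w)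

end Pool.Agent.H8.CR
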