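import Pool.Agent.H8.CR.Comp3

/-!
# Edges with the largest class

`F` pure on the finite set `X`. For an edge `x y` of `X` let `V_xy = Cp F x y ∪ Cp F y x` (it contains
`x` and `y`: `y ∈ Cp F x y`, `x ∈ Cp F y x`). An edge `a b` is *maximal* if `V_ab` has the largest
number of elements (`MaxE`).

* `exists_max`: exists if `X` contains an edge (finite set of pairs).
* `max_no_super`: if `a b` is maximal and `x y` is an edge in `X`, then not both `a, b ∈ Cp F x y`.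
  Otherwise `Cp F x y` is closed (`Cp_closed`), so `Cp F a b, Cp F b a ⊆ Cp F x y` (`closed_Cp`),
  hence `V_ab ⊆ Cp F x y ⊊ V_xy` since `x ∈ Cp F y x`, `x ∉ Cp F x y` (elements of `Cp F x y` are
  adjacent to `x`, `Cp_sub`); strictly more elements (finite), contradiction.
* `third`: `F` full, `a b` maximal, `x ∈ Cp F b a`, `y ∈ Cp F a b`, `z ∈ X` adjacent to `x` and `y`.
  Then `z ∈ Cp F b a` or `z ∈ Cp F a b`. By `Cp_biclique` `x ~ y`, `Cp F y x = Cp F b a`,
  `Cp F x y = Cp F a b`. If `F x z y` then `z ∈ Cp F y x`. If `F y z x` then `z ∈ Cp F x y`. Otherwise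
  `F x y z`, so `y ∈ Cp F z x`; this set is closed and contains `x, y`, so it contains
  `Cp F x y ∋ b` and `Cp F y x ∋ a`; contradiction to `max_no_super` for the edge `z x`.
* `class_of_mem`: `a b` maximal, `x y` an edge of `X` with `a, b ∈ V_xy`. Then
  `x ∈ Cp F b a ∧ y ∈ Cp F a b` or `x ∈ Cp F a b ∧ y ∈ Cp F b a`. By `max_no_super` `a, b` are not
  both in `Cp F x y` and not both in `Cp F y x`. If `a ∈ Cp F y x`, `b ∈ Cp F x y`: by `Cp_biclique`
  (with `u = x`, `v = y`) `Cp F b a = Cp F y x ∋ x` and `Cp F a b = Cp F x y ∋ y`. Otherwise symmetric.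
-/

namespace Pool.Agent.H8.CR

open Relation

variable {V : Type*} {H : SimpleGraph V} {X : Set V} {F : V → V → V → Prop} {a b : V}

/-- The edge `a b` of `X` is maximal. -/
def MaxE (H : SimpleGraph V) (X : Set V) (F : V → V → V → Prop) (a b : V) : Prop :=
  a ∈ X ∧ b ∈ X ∧ H.Adj a b ∧ ∀ x ∈ X, ∀ y ∈ X, H.Adj x y →
    (Cp F x y ∪ Cp F y x).ncard ≤ (Cp F a b ∪ Cp F b a).ncard

theorem exists_max (hX : X.Finite) (F : V → V → V → Prop) (h : ∃ a ∈ X, ∃ b ∈ X, H.Adj a b) :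
    ∃ a b, MaxE H X F a b := by
  have hfin : {p : V × V | p.1 ∈ X ∧ p.2 ∈ X ∧ H.Adj p.1 p.2}.Finite := by
    refine (hX.prod hX).subset ?_
    rintro ⟨p, q⟩ ⟨h1, h2, -⟩
    exact ⟨h1, h2⟩
  have hne : {p : V × V | p.1 ∈ X ∧ p.2 ∈ X ∧ H.Adj p.1 p.2}.Nonempty := by
    obtain ⟨a, ha, b, hb, hab⟩ := h
    exact ⟨(a, b), ha, hb, hab⟩
  obtain ⟨⟨a, b⟩, ⟨ha, hb, hab⟩, hmax⟩ := Set.exists_max_image _
    (fun p : V × V => (Cp F p.1 p.2 ∪ Cp F p.2 p.1).ncard) hfin hne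
  exact ⟨a, b, ha, hb, hab, fun x hx y hy hxy => hmax (x, y) ⟨hx, hy, hxy⟩⟩

theorem max_no_super (hX : X.Finite) (hF : Pure H X F) (hm : MaxE H X F a b) {x y : V}
    (hx : x ∈ X) (hy : y ∈ X) (hxy : H.Adj x y) (ha : a ∈ Cp F x y) (hb : b ∈ Cp F x y) :
    False := by
  obtain ⟨-, -, hab, hmax⟩ := hm
  have hc := Cp_closed hF hx hy hxy
  have h1 : Cp F a b ⊆ Cp F x y := closed_Cp hF hc ha hb hab
  have h2 : Cp F b a ⊆ Cp F x y := closed_Cp hF hc hb ha hab.symm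
  have h3 : x ∉ Cp F x y := fun h => H.loopless.irrefl _ (Cp_sub hF hy hxy h).2
  have hsub : Cp F x y ∪ Cp F y x ⊆ X := by
    apply Set.union_subset
    · exact hc.1
    · exact (Cp_closed hF hy hx hxy.symm).1
  have hlt : (Cp F a b ∪ Cp F b a).ncard < (Cp F x y ∪ Cp F y x).ncard := by
    apply Set.ncard_lt_ncard _ (hX.subset hsub)
    refine ⟨(Set.union_subset h1 h2).trans Set.subset_union_left, fun h => ?_⟩
    exact h3 (Set.union_subset h1 h2 (h (Or.inr (Cp_self F y x))))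
  exact absurd (hmax x hx y hy hxy) (not_le.2 hlt)

theorem third (hX : X.Finite) (hF : Pure H X F) (hfull : Full H X F) (hm : MaxE H X F a b)
    {x y z : V} (hx : x ∈ Cp F b a) (hy : y ∈ Cp F a b) (hz : z ∈ X) (hzx : H.Adj z x)
    (hzy : H.Adj z y) : z ∈ Cp F b a ∨ z ∈ Cp F a b := by
  have haX := hm.1
  have hbX := hm.2.1
  have hab := hm.2.2.1
  obtain ⟨hxy, h1, h2⟩ := Cp_biclique hF haX hbX hab hx hy
  have hxX := (Cp_sub hF haX hab.symm hx).1
  have hyX := (Cp_sub hF hbX hab hy).1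
  rcases hfull x y z ⟨hxX, hyX, hz, hxy, hzx.symm, hzy.symm⟩ with h | h | h
  · exfalso
    have hc := Cp_closed hF hz hxX hzx
    have hxm : x ∈ Cp F z x := Cp_self F z x
    have hym : y ∈ Cp F z x := ReflTransGen.single h
    have h3 : Cp F x y ⊆ Cp F z x := closed_Cp hF hc hxm hym hxy
    have h4 : Cp F y x ⊆ Cp F z x := closed_Cp hF hc hym hxm hxy.symm
    refine max_no_super hX hF hm hz hxX hzx (h4 ?_) (h3 ?_)
    · rw [h1]
      exact Cp_self F b a
    · rw [h2]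
      exact Cp_self F a b
  · left
    rw [← h1]
    exact ReflTransGen.single h
  · right
    rw [← h2]
    exact ReflTransGen.single h

theorem class_of_mem (hX : X.Finite) (hF : Pure H X F) (hm : MaxE H X F a b) {x y : V}
    (hx : x ∈ X) (hy : y ∈ X) (hxy : H.Adj x y) (ha : a ∈ Cp F x y ∪ Cp F y x)
    (hb : b ∈ Cp F x y ∪ Cp F y x) :
    (x ∈ Cp F b a ∧ y ∈ Cp F a b) ∨ (x ∈ Cp F a b ∧ y ∈ Cp F b a) := by
  rcases ha with ha | ha <;> rcases hb with hb | hb
  · exact (max_no_super hX hF hm hx hy hxy ha hb).elim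
  · right
    obtain ⟨-, h1, h2⟩ := Cp_biclique hF hy hx hxy.symm ha hb
    rw [h1, h2]
    exact ⟨Cp_self F y x, Cp_self F x y⟩
  · left
    obtain ⟨-, h1, h2⟩ := Cp_biclique hF hx hy hxy ha hb
    rw [h1, h2]
    exact ⟨Cp_self F y x, Cp_self F x y⟩
  · exact (max_no_super hX hF hm hy hx hxy.symm ha hb).elim

end Pool.Agent.H8.CR
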