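import Pool.Agent.H8.CR.Crit2
import Pool.Agent.H8.CR.Crit3

/-!
# The cohomological criterion

* `zp_cut`: `Good0 H E X F`, `Zp H X`, `X` finite, `a b` maximal. Then there are `C1, C2` with
  `CutD H X F C1 C2 a b`. Let `A = Cp F b a`, `B = Cp F a b`, disjoint (all pairs are adjacent,
  `Cp_biclique`). Let `φ x y = 1` if `(x ∈ A ∧ y ∈ B) ∨ (x ∈ B ∧ y ∈ A)` and `0` otherwise (classical).
  It is symmetric. Zero sum on a triangle `x, y, z`: if no pair is an `A`-`B` pair the sum is zero.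
  Otherwise, by symmetry, `x ∈ A`, `y ∈ B`, and `third` gives `z ∈ A ∪ B`: if `z ∈ A`, the pairs
  `x y`, `z y` have value 1 and `x z` value 0; similarly `z ∈ B`. So `Zp` gives `f` with
  `φ x y = f x + f y` for edges in `X`. Put `C1 = {x ∈ X | f x = f a}`, `C2 = {x ∈ X | f x ≠ f a}`.
  `f b ≠ f a` as `φ a b = 1`. `A ⊆ C1`: `A ⊆ X` is connected and `f` is constant along its edges
  (`φ = 0` on edges inside `A`), `a ∈ A`. `B ⊆ C2`: `f` is constant on `B`, `= f b`. An edge `x y` with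
  `x ∈ C1`, `y ∈ C2` has `φ x y = 1`, so `x ∈ A, y ∈ B` or `x ∈ B, y ∈ A`; the second is impossible
  since `B ∩ C1 = ∅`.
* `zp_inherit`: `CutD`, `F` pure, `Zp H X`, `Zp H (Cp F b a)` ⇒ `Zp H C1`. Let `φ` be symmetric on the
  edges of `C1` with zero sum on triangles in `C1`. `Zp` for `A` gives `g` with `φ x y = g x + g y` for
  edges in `A`. Define `ψ x y` on `X`: `φ x y` if `x, y ∈ C1`; `g x` if `x ∈ A, y ∈ B`; `g y` if
  `x ∈ B, y ∈ A`; `0` otherwise. Zero sum on triangles in `X`: all in `C1`: clear; two in `C1`, one in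
  `C2`: `x, y ∈ A`, `z ∈ B`: `φ x y + g y + g x = 0`; one in `C1`, two in `C2`: `x ∈ A`, `y, z ∈ B`:
  `g x + 0 + g x = 0`; all in `C2`: `0`. So `ψ = f x + f y` on edges of `X`, restrict to `C1`.
* `crit`: use `master` with `Q X F := Zp H X ∧ ∀ y ∈ X, ∀ v ∈ X, H.Adj y v → Zp H (Cp F y v)`;
  `Cp (Rs F C1) y v = Cp F y v` by `Cp_restrict` (`C1` is closed, `CutD.closed`).
-/

namespace Pool.Agent.H8.CR

open Relation

variable {V : Type*} {H : SimpleGraph V} {E X : Set V} {F : V → V → V → Prop} {C1 C2 : Set V}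
  {a b : V}

private lemma z2_eq {u v : ZMod 2} (h : u + v = 0) : u = v := by
  revert u v
  decide

open Classical in
theorem zp_cut (hX : X.Finite) (hG : Good0 H E X F) (hZ : Zp H X) (hm : MaxE H X F a b) :
    ∃ C1 C2, CutD H X F C1 C2 a b := by
  obtain ⟨ha, hb, hab, hmax⟩ := id hm
  have hF := hG.pure
  have hAcl := Cp_closed hF hb ha hab.symm
  have hBcl := Cp_closed hF ha hb hab
  have hAc := Cp_conn hF b a
  have hBc := Cp_conn hF a b
  have haA := Cp_self F b a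
  have hbB := Cp_self F a b
  have hd : ∀ x, x ∈ Cp F b a → x ∉ Cp F a b := fun x h1 h2 =>
    H.irrefl (Cp_biclique hF ha hb hab h1 h2).1
  have hth : ∀ x y z, Tri H X x y z → x ∈ Cp F b a → y ∈ Cp F a b →
      z ∈ Cp F b a ∨ z ∈ Cp F a b := fun x y z h h1 h2 =>
    third hX hF hG.full hm h1 h2 h.2.2.1 h.2.2.2.2.1.symm h.2.2.2.2.2.symm
  generalize hAe : Cp F b a = A at *
  generalize hBe : Cp F a b = B at *
  have key : ∀ x y z, Tri H X x y z → (x ∈ A ∧ y ∈ B) ∨ (x ∈ B ∧ y ∈ A) →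
      (((y ∈ A ∧ z ∈ B) ∨ (y ∈ B ∧ z ∈ A)) ∧ ¬ ((x ∈ A ∧ z ∈ B) ∨ (x ∈ B ∧ z ∈ A))) ∨
      (¬ ((y ∈ A ∧ z ∈ B) ∨ (y ∈ B ∧ z ∈ A)) ∧ ((x ∈ A ∧ z ∈ B) ∨ (x ∈ B ∧ z ∈ A))) := by
    intro x y z h hxy
    obtain ⟨h1, h2, h3, h4, h5, h6⟩ := id h
    have dx := hd x
    have dy := hd y
    have dz := hd z
    rcases hxy with ⟨h7, h8⟩ | ⟨h7, h8⟩
    · rcases hth x y z h h7 h8 with h9 | h9
      · exact Or.inl ⟨Or.inr ⟨h8, h9⟩, by rintro (h | h); exacts [dz h9 h.2, dx h7 h.1]⟩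
      · exact Or.inr ⟨by rintro (h | h); exacts [dy h.1 h8, dz h.2 h9], Or.inl ⟨h7, h9⟩⟩
    · rcases hth y x z ⟨h2, h1, h3, h4.symm, h6, h5⟩ h8 h7 with h9 | h9
      · exact Or.inr ⟨by rintro (h | h); exacts [dz h9 h.2, dy h8 h.1], Or.inr ⟨h7, h9⟩⟩
      · exact Or.inl ⟨Or.inl ⟨h8, h9⟩, by rintro (h | h); exacts [dx h.1 h7, dz h.2 h9]⟩
  have psym : ∀ x y, ((x ∈ A ∧ y ∈ B) ∨ (x ∈ B ∧ y ∈ A)) → ((y ∈ A ∧ x ∈ B) ∨ (y ∈ B ∧ x ∈ A)) :=
    fun x y h => h.elim (fun h => Or.inr ⟨h.2, h.1⟩) (fun h => Or.inl ⟨h.2, h.1⟩)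
  obtain ⟨f, hf⟩ := hZ (fun x y => if (x ∈ A ∧ y ∈ B) ∨ (x ∈ B ∧ y ∈ A) then 1 else 0)
    (by
      intro x y
      have : ((x ∈ A ∧ y ∈ B) ∨ (x ∈ B ∧ y ∈ A)) ↔ ((y ∈ A ∧ x ∈ B) ∨ (y ∈ B ∧ x ∈ A)) :=
        ⟨psym x y, psym y x⟩
      simp only [this])
    (by
      intro x y z h
      obtain ⟨h1, h2, h3, h4, h5, h6⟩ := id h
      have e2 : (1 : ZMod 2) + 1 = 0 := by decide
      by_cases hxy : (x ∈ A ∧ y ∈ B) ∨ (x ∈ B ∧ y ∈ A)
      · rcases key x y z h hxy with ⟨k1, k2⟩ | ⟨k1, k2⟩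
        · simp only [if_pos hxy, if_pos k1, if_neg k2, add_zero, e2]
        · simp only [if_pos hxy, if_neg k1, if_pos k2, add_zero, e2]
      · by_cases hyz : (y ∈ A ∧ z ∈ B) ∨ (y ∈ B ∧ z ∈ A)
        · rcases key y z x ⟨h2, h3, h1, h6, h4.symm, h5.symm⟩ hyz with ⟨k1, k2⟩ | ⟨k1, k2⟩
          · have k3 := psym _ _ k1
            simp only [if_neg hxy, if_pos hyz, if_pos k3, zero_add, e2]
          · exact absurd (psym _ _ k2) hxy
        · by_cases hxz : (x ∈ A ∧ z ∈ B) ∨ (x ∈ B ∧ z ∈ A)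
          · rcases key x z y ⟨h1, h3, h2, h5, h4, h6.symm⟩ hxz with ⟨k1, k2⟩ | ⟨k1, k2⟩
            · exact absurd (psym _ _ k1) hyz
            · exact absurd k2 hxy
          · simp only [if_neg hxy, if_neg hyz, if_neg hxz, add_zero])
  have hf0 : ∀ x ∈ X, ∀ y ∈ X, H.Adj x y → ¬ ((x ∈ A ∧ y ∈ B) ∨ (x ∈ B ∧ y ∈ A)) →
      f x = f y := by
    intro x hx y hy hxy hn
    have := hf x hx y hy hxy
    simp only [if_neg hn] at this
    exact z2_eq this.symm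
  have hf1 : ∀ x ∈ X, ∀ y ∈ X, H.Adj x y → ((x ∈ A ∧ y ∈ B) ∨ (x ∈ B ∧ y ∈ A)) →
      f x ≠ f y := by
    intro x hx y hy hxy hn h
    have := hf x hx y hy hxy
    simp only [if_pos hn, h] at this
    revert this
    generalize f y = w
    revert w
    decide
  have hfA : ∀ x ∈ A, f x = f a := by
    intro x hx
    have h := hAc a haA x hx
    clear hx
    induction h with
    | refl => rfl
    | @tail u v _ h ih =>
      rw [← ih]
      refine (hf0 u (hAcl.1 h.2.1) v (hAcl.1 h.2.2) h.1 ?_).symm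
      rintro (h' | h')
      · exact hd v h.2.2 h'.2
      · exact hd u h.2.1 h'.1
  have hfB : ∀ x ∈ B, f x = f b := by
    intro x hx
    have h := hBc b hbB x hx
    clear hx
    induction h with
    | refl => rfl
    | @tail u v _ h ih =>
      rw [← ih]
      refine (hf0 u (hBcl.1 h.2.1) v (hBcl.1 h.2.2) h.1 ?_).symm
      rintro (h' | h')
      · exact hd u h'.1 h.2.1
      · exact hd v h'.2 h.2.2
  have hfab : f a ≠ f b := hf1 a ha b hb hab (Or.inl ⟨haA, hbB⟩)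
  refine ⟨{x | x ∈ X ∧ f x = f a}, {x | x ∈ X ∧ f x ≠ f a}, ?_, ?_, ⟨ha, rfl⟩,
    ⟨hb, hfab.symm⟩, hab, ?_, ?_, ?_⟩
  · ext x
    simp only [Set.mem_union, Set.mem_ofPred_eq]
    tauto
  · rw [Set.disjoint_left]
    rintro x ⟨_, h1⟩ ⟨_, h2⟩
    exact h2 h1
  · rw [hAe]
    exact fun x hx => ⟨hAcl.1 hx, hfA x hx⟩
  · rw [hBe]
    exact fun x hx => ⟨hBcl.1 hx, by rw [hfB x hx]; exact hfab.symm⟩
  · rintro x ⟨hx, hx1⟩ y ⟨hy, hy1⟩ hxy
    rw [hAe, hBe]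
    by_contra hn
    have h1 : ¬ ((x ∈ A ∧ y ∈ B) ∨ (x ∈ B ∧ y ∈ A)) := by
      rintro (h | h)
      · exact hn h
      · exact hfab (by rw [← hx1, hfB x h.1])
    exact hy1 (by rw [← hf0 x hx y hy hxy h1, hx1])

open Classical in
theorem zp_inherit (hF : Pure H X F) (h : CutD H X F C1 C2 a b) (hZ : Zp H X)
    (hA : Zp H (Cp F b a)) : Zp H C1 := by
  intro φ hs ht
  have _ := hF
  have hC1 : C1 ⊆ X := fun x hx => h.un ▸ Or.inl hx
  have hdj : ∀ {x}, x ∈ C1 → x ∈ C2 → False := fun h1 h2 => Set.disjoint_left.1 h.dj h1 h2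
  obtain ⟨g, hg⟩ := hA φ hs (fun x y z hxyz => ht x y z
    ⟨h.hA hxyz.1, h.hA hxyz.2.1, h.hA hxyz.2.2.1, hxyz.2.2.2⟩)
  let ψ : V → V → ZMod 2 := fun x y => if x ∈ C1 ∧ y ∈ C1 then φ x y else
    if x ∈ C1 ∧ y ∈ C2 then g x else if x ∈ C2 ∧ y ∈ C1 then g y else 0
  have v11 : ∀ {x y}, x ∈ C1 → y ∈ C1 → ψ x y = φ x y := fun hx hy => if_pos ⟨hx, hy⟩
  have v12 : ∀ {x y}, x ∈ C1 → y ∈ C2 → ψ x y = g x := by
    intro x y hx hy
    have : y ∉ C1 := fun h => hdj h hy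
    simp [ψ, hx, hy, this]
  have v21 : ∀ {x y}, x ∈ C2 → y ∈ C1 → ψ x y = g y := by
    intro x y hx hy
    have : x ∉ C1 := fun h => hdj h hx
    simp [ψ, hx, hy, this]
  have v22 : ∀ {x y}, x ∈ C2 → y ∈ C2 → ψ x y = 0 := by
    intro x y hx hy
    have h1 : x ∉ C1 := fun h => hdj h hx
    have h2 : y ∉ C1 := fun h => hdj h hy
    simp [ψ, h1, h2]
  have hc : ∀ {x y z}, x ∈ C1 → y ∈ C1 → z ∈ C2 → H.Adj x z → H.Adj y z → H.Adj x y →
      φ x y = g x + g y := fun hx hy hz hxz hyz hxy =>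
    hg _ (h.cr _ hx _ hz hxz).1 _ (h.cr _ hy _ hz hyz).1 hxy
  obtain ⟨f, hf⟩ := hZ ψ
    (by
      intro x y
      by_cases hx : x ∈ C1 <;> by_cases hx' : x ∈ C2 <;> by_cases hy : y ∈ C1 <;>
        by_cases hy' : y ∈ C2 <;>
        first
          | exact (hdj hx hx').elim
          | exact (hdj hy hy').elim
          | (simp [ψ, hx, hx', hy, hy']; try exact hs x y))
    (by
      rintro x y z ⟨hx, hy, hz, hxy, hxz, hyz⟩
      rw [← h.un] at hx hy hz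
      have e2 : ∀ w : ZMod 2, w + w = 0 := by decide
      rcases hx with hx | hx <;> rcases hy with hy | hy <;> rcases hz with hz | hz
      · rw [v11 hx hy, v11 hy hz, v11 hx hz]
        exact ht x y z ⟨hx, hy, hz, hxy, hxz, hyz⟩
      · rw [v11 hx hy, v12 hy hz, v12 hx hz, hc hx hy hz hxz hyz hxy]
        generalize g x = u
        generalize g y = v
        revert u v
        decide
      · rw [v12 hx hy, v21 hy hz, v11 hx hz, hc hx hz hy hxy hyz.symm hxz]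
        generalize g x = u
        generalize g z = v
        revert u v
        decide
      · rw [v12 hx hy, v22 hy hz, v12 hx hz, add_zero, e2]
      · rw [v21 hx hy, v11 hy hz, v21 hx hz, hc hy hz hx hxy.symm hxz.symm hyz]
        generalize g y = u
        generalize g z = v
        revert u v
        decide
      · rw [v21 hx hy, v12 hy hz, v22 hx hz, add_zero, e2]
      · rw [v22 hx hy, v21 hy hz, v21 hx hz, zero_add, e2]
      · rw [v22 hx hy, v22 hy hz, v22 hx hz, add_zero, add_zero])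
  refine ⟨f, fun x hx y hy hxy => ?_⟩
  rw [← v11 hx hy]
  exact hf x (hC1 hx) y (hC1 hy) hxy

theorem crit (hX : X.Finite) (hG : Good0 H E X F) (hZ : Zp H X)
    (hC : ∀ y ∈ X, ∀ v ∈ X, H.Adj y v → Zp H (Cp F y v)) :
    ∃ t : DT V, t.supp = X ∧ Valid H E t ∧ ∀ u v w, F u v w → Sp t u v w := by
  refine master H E (fun X F => Zp H X ∧ ∀ y ∈ X, ∀ v ∈ X, H.Adj y v → Zp H (Cp F y v)) ?_ X F
    hX hG ⟨hZ, hC⟩
  intro X F hX hG hQ hab
  obtain ⟨a, b, hm⟩ := exists_max hX F hab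
  obtain ⟨C1, C2, hc⟩ := zp_cut hX hG hQ.1 hm
  have hF := hG.pure
  have h1 := hc.closed hF
  have h2 := hc.symm.closed hF
  refine ⟨C1, C2, a, b, hc, ⟨zp_inherit hF hc hQ.1 (hQ.2 b hm.2.1 a hm.1 hm.2.2.1.symm), ?_⟩,
    zp_inherit hF hc.symm hQ.1 (hQ.2 a hm.1 b hm.2.1 hm.2.2.1), ?_⟩
  · intro y hy v hv hyv
    rw [Cp_restrict hF h1 hy hv hyv]
    exact hQ.2 y (h1.1 hy) v (h1.1 hv) hyv
  · intro y hy v hv hyv
    rw [Cp_restrict hF h2 hy hv hyv]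
    exact hQ.2 y (h2.1 hy) v (h2.1 hv) hyv

end Pool.Agent.H8.CR
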