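import Pool.Agent.H8.CR.Pc3

/-!
# The structure of a piece without cone vertices

Setting of `Pc3`, `P = Pc (h, x)`, `Zp H X`; note that `Pc e' = P` for every `e' ∈ P` (`Pc_eq`), so `nc_cut`
applies to every edge of `P`.

* `nc_inv`: let `W` be as in `nc_cut` for the edge `(h, x)`. Every `(p, q) ∈ P` satisfies
  (`p ∈ A ∧ q ∈ U`) or (`p ∈ U ∧ q ∈ A`) or (`p ∉ W ∧ q ∉ W`). Induction along the moves from
  `(h, x)`. Swap: clear. Let `Link p q q'`. If `p ∈ A`, `q ∈ U`: `q' ∈ Uc p q = U` (`AU_mem`). If `p ∈ U`,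
  `q ∈ A`, or `p, q ∉ W`: so `p ∉ W`; if `q' ∉ W` we are in the third case; if `q' ∈ W`, then `q' ~ p` is an
  edge between `W` and its complement, so `q' ∈ A`, `p ∈ U`.
* `nc_single`: `(h, x') ∈ P ⇒ x' ∈ Uc h x`: `h ∈ A ⊆ W`, `h ∉ U`, so only the first case is possible.
* `nc_data`: choose for every `b ∈ Vx P` some `z b` with `(b, z b) ∈ P` (`Classical.choice`), put
  `A b = Cp F (z b) b` and `W b` from `nc_cut` for the edge `(b, z b)` (for `b ∉ Vx P` arbitrary, say `∅`).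
  By `nc_single` for the edge `(b, z b)`: `Uc b (z b) = {q | (b, q) ∈ P}` (`uc_pc` for the converse).
  `cp`: `(b, y) ∈ P ⇒ y ∈ Uc b (z b) ⇒ Cp F y b = A b` by `uc_cp`.
  `edge`: from `nc_cut`. `inter`: `b' ∈ Vx P ∩ W b`, `(b', q) ∈ P`: `nc_inv` for the edge `(b, z b)` gives
  `b' ∈ A b` or (`b' ∈ U`, impossible since `b' ∈ W b`) or (`b' ∉ W b`, impossible). Conversely
  `A b ⊆ Vx P` by `AU_mem`. `cls`: `b' ∈ A b`: `(b', z b) ∈ P` by `AU_mem`, so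
  `A b' = Cp F (z b) b' = Cp F (z b) b = A b` by `cp` and `Cp_eq`. `pcl`: `b' ∈ A b`, `(b, q) ∈ P`: then
  `q ∈ Uc b (z b)`, `(b', q) ∈ P` by `AU_mem`.
  (`Pc H X F (b, z b) = P`.)
-/

namespace Pool.Agent.H8.CR

open Relation

variable {V : Type*} {H : SimpleGraph V} {X : Set V} {F : V → V → V → Prop} {h x : V}

theorem nc_inv (hF : Pure H X F) (hh : h ∈ X) (hx : x ∈ X) (hhx : H.Adj h x)
    {W : Set V} (hA : Cp F x h ⊆ W) (hU : ∀ q ∈ Uc H X F h x, q ∉ W)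
    (hW : ∀ p ∈ W, ∀ q ∈ X, q ∉ W → (H.Adj p q ↔ p ∈ Cp F x h ∧ q ∈ Uc H X F h x))
    {p q : V} (hpq : (p, q) ∈ Pc H X F (h, x)) :
    (p ∈ Cp F x h ∧ q ∈ Uc H X F h x) ∨ (p ∈ Uc H X F h x ∧ q ∈ Cp F x h) ∨
      (p ∉ W ∧ q ∉ W) := by
  have key : ∀ z, ReflTransGen (Mv H X F) (h, x) z →
      (z.1 ∈ Cp F x h ∧ z.2 ∈ Uc H X F h x) ∨ (z.1 ∈ Uc H X F h x ∧ z.2 ∈ Cp F x h) ∨
        (z.1 ∉ W ∧ z.2 ∉ W) := by
    intro z hz
    induction hz with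
    | refl => exact Or.inl ⟨Cp_self F x h, uc_self h x⟩
    | tail h1 h2 ih =>
      rename_i z z'
      rcases h2 with ⟨h3, h4⟩ | ⟨h3, h4⟩
      · have hout : z.1 ∉ W → (z'.1 ∈ Cp F x h ∧ z'.2 ∈ Uc H X F h x) ∨
            (z'.1 ∈ Uc H X F h x ∧ z'.2 ∈ Cp F x h) ∨ (z'.1 ∉ W ∧ z'.2 ∉ W) := by
          intro hzW
          by_cases hq : z'.2 ∈ W
          · have h5 := (hW z'.2 hq z.1 h4.1.1 hzW).1 h4.1.2.2.2.2.1.symm
            rw [h3]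
            exact Or.inr (Or.inl ⟨h5.2, h5.1⟩)
          · rw [h3]
            exact Or.inr (Or.inr ⟨hzW, hq⟩)
        rcases ih with ⟨h5, h6⟩ | ⟨h5, h6⟩ | ⟨h5, h6⟩
        · left
          rw [h3]
          refine ⟨h5, ?_⟩
          rw [← (AU_mem hF hh hx hhx h5 h6).2.2.2]
          exact ReflTransGen.single h4
        · exact hout (hU _ h5)
        · exact hout h5
      · rw [h3, h4]
        rcases ih with ⟨h5, h6⟩ | ⟨h5, h6⟩ | ⟨h5, h6⟩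
        · exact Or.inr (Or.inl ⟨h6, h5⟩)
        · exact Or.inl ⟨h6, h5⟩
        · exact Or.inr (Or.inr ⟨h6, h5⟩)
  exact key (p, q) hpq

theorem nc_single (hF : Pure H X F) (hh : h ∈ X) (hx : x ∈ X) (hhx : H.Adj h x)
    (hnc : ∀ r z, (r, z) ∈ Pc H X F (h, x) → ∀ y, ¬ F r z y) (hZ : Zp H X) {x' : V}
    (hx' : (h, x') ∈ Pc H X F (h, x)) : x' ∈ Uc H X F h x := by
  obtain ⟨W, hA, -, hU, hW⟩ := nc_cut hF hh hx hhx hnc hZ
  have hhW : h ∈ W := hA (Cp_self F x h)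
  rcases nc_inv hF hh hx hhx hA hU hW hx' with h1 | h1 | h1
  · exact h1.2
  · exact absurd hhW (hU _ h1.1)
  · exact absurd hhW h1.1

theorem nc_data (hF : Pure H X F) (hh : h ∈ X) (hx : x ∈ X) (hhx : H.Adj h x)
    (hnc : ∀ r z, (r, z) ∈ Pc H X F (h, x) → ∀ y, ¬ F r z y) (hZ : Zp H X) :
    ∃ A W : V → Set V, NCd H X F (Pc H X F (h, x)) A W := by
  classical
  set P := Pc H X F (h, x) with hP
  have hz : ∀ b, ∃ z, b ∈ Vx P → (b, z) ∈ P := by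
    intro b
    by_cases hb : b ∈ Vx P
    · obtain ⟨z, hz⟩ := hb
      exact ⟨z, fun _ => hz⟩
    · exact ⟨b, fun h' => absurd h' hb⟩
  choose z hz using hz
  have hE : ∀ b ∈ Vx P, b ∈ X ∧ z b ∈ X ∧ H.Adj b (z b) := fun b hb =>
    Pc_edge hh hx hhx (hz b hb)
  have hPc : ∀ b ∈ Vx P, Pc H X F (b, z b) = P := fun b hb => Pc_eq (hz b hb)
  have hnc' : ∀ b ∈ Vx P, ∀ r w, (r, w) ∈ Pc H X F (b, z b) → ∀ y, ¬ F r w y := by
    intro b hb r w hrw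
    rw [hPc b hb] at hrw
    exact hnc r w hrw
  have hcut : ∀ b, ∃ W : Set V, b ∈ Vx P → (Cp F (z b) b ⊆ W ∧ W ⊆ X ∧
      (∀ q ∈ Uc H X F b (z b), q ∉ W) ∧
      ∀ p ∈ W, ∀ q ∈ X, q ∉ W → (H.Adj p q ↔ p ∈ Cp F (z b) b ∧ q ∈ Uc H X F b (z b))) := by
    intro b
    by_cases hb : b ∈ Vx P
    · obtain ⟨h1, h2, h3⟩ := hE b hb
      obtain ⟨W, hW⟩ := nc_cut hF h1 h2 h3 (hnc' b hb) hZ
      exact ⟨W, fun _ => hW⟩
    · exact ⟨∅, fun h' => absurd h' hb⟩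
  choose W hW using hcut
  have hUc : ∀ b ∈ Vx P, ∀ q, (b, q) ∈ P → q ∈ Uc H X F b (z b) := by
    intro b hb q hq
    obtain ⟨h1, h2, h3⟩ := hE b hb
    refine nc_single hF h1 h2 h3 (hnc' b hb) hZ ?_
    rw [hPc b hb]
    exact hq
  have hUc' : ∀ b ∈ Vx P, ∀ q, q ∈ Uc H X F b (z b) → (b, q) ∈ P := fun b hb q hq =>
    uc_pc (hz b hb) hq
  have hAU : ∀ b ∈ Vx P, ∀ b' ∈ Cp F (z b) b, ∀ q ∈ Uc H X F b (z b), (b', q) ∈ P := by
    intro b hb b' hb' q hq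
    obtain ⟨h1, h2, h3⟩ := hE b hb
    have h4 := (AU_mem hF h1 h2 h3 hb' hq).2.1
    rw [hPc b hb] at h4
    exact h4
  have hcp : ∀ b y, (b, y) ∈ P → Cp F (z b) b = Cp F y b := fun b y hby =>
    (uc_cp hF (hUc b ⟨y, hby⟩ y hby)).symm
  refine ⟨fun b => Cp F (z b) b, W, ?_⟩
  refine
    { ne := ⟨(h, x), Pc_self _⟩
      sy := fun a b hab => Pc_swap hab
      ad := ?_
      self := fun b _ => Cp_self F (z b) b
      sub := fun b hb => ⟨(hW b hb).1, (hW b hb).2.1⟩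
      inter := ?_
      edge := ?_
      cls := ?_
      pcl := fun b hb b' hb' q hq => hAU b hb b' hb' q (hUc b hb q hq)
      cp := hcp }
  · intro a b hab
    obtain ⟨h1, h2, h3⟩ := Pc_edge hh hx hhx hab
    exact ⟨h3, h1, h2⟩
  · intro b hb
    obtain ⟨h1, h2, h3⟩ := hE b hb
    obtain ⟨w1, w2, w3, w4⟩ := hW b hb
    ext b'
    constructor
    · rintro ⟨⟨q, hq⟩, hb'⟩
      have hq' : (b', q) ∈ Pc H X F (b, z b) := by
        rw [hPc b hb]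
        exact hq
      rcases nc_inv hF h1 h2 h3 w1 w3 w4 hq' with h4 | h4 | h4
      · exact h4.1
      · exact absurd hb' (w3 _ h4.1)
      · exact absurd hb' h4.1
    · intro hb'
      exact ⟨⟨z b, hAU b hb b' hb' (z b) (uc_self b (z b))⟩, w1 hb'⟩
  · intro b hb p hp q hq hqW
    rw [(hW b hb).2.2.2 p hp q hq hqW]
    exact and_congr_right fun _ => ⟨hUc' b hb q, hUc b hb q⟩
  · intro b hb b' hb'
    have h4 : (b', z b) ∈ P := hAU b hb b' hb' (z b) (uc_self b (z b))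
    have h5 := hcp b' (z b) h4
    exact h5.trans (Cp_eq hF hb')

end Pool.Agent.H8.CR
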