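import Pool.Agent.H8.CR.Sol1
import Pool.Agent.H8.CR.Pc4

/-!
# Every piece has a solution

`X` finite, `Dec H X X`, `F` pure on `X`, all components `Cp F y v` satisfy `Dec H (Cp F y v) (Cp F y v)`
(so `Zp` by `Zp_of_dec`). Claim: for every edge `(h, x)` of `X` the piece `Pc H X F (h, x)` has a
solution. Strong induction on `X.ncard`.

* Case 1: no edge of the piece has a cone vertex. `nc_data`, `exists_rep`, `blowup_dec` (gives the tree
  `t` with support `R`, valid with ambient `R`), `psol_nc`.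
* Case 2: there are `(r, z) ∈ Pc (h, x)` and `y` with `F r z y`. Let `Y = Cp F y r`. By `pc_cone` every
  `(a, b)` in the piece satisfies `F a b y`; so `a` and `b` are in the same component at `y`, consecutive
  edges of the piece share a vertex, hence all vertices of the piece are in `Y`. `Y ⊆ X`, `y ∉ Y`, so
  `Y.ncard < X.ncard`; `Dec H Y Y` by hypothesis; `F' = Rs F Y` is pure on `Y`; `Y` is closed
  (`Cp_closed`), so `Cp F' a b = Cp F a b` for edges in `Y` (`Cp_restrict`). By induction the piece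
  `Pc H Y F' (h, x)` has a solution `Γ`. It equals `Pc H X F (h, x)` (`piece_eq`): for vertices in `Y`,
  `Link H X F a b c ↔ Link H Y F' a b c`, and all moves of `Pc H X F (h, x)` stay in `Y`. `PSol` for
  `X, F`: all fields but `inv` and `zp` are literally the same (they do not mention `X`, `F`).
  `inv`: `F a d b` with `a, b ∈ Y`: then `d ∈ Y` (`d ∈ Cp F b a ⊆ Y`, `closed_Cp`), so `F' a d b`.
  `zp`: the relation with `F` and the one with `F'` have the same reachable set from `h' ∈ Y`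
  when `x' ∈ Y`: `F u w x'` with `u, x' ∈ Y` implies `w ∈ Cp F x' u ⊆ Y`.
-/

namespace Pool.Agent.H8.CR

open Relation

variable {V : Type*} {H : SimpleGraph V} {X : Set V} {F : V → V → V → Prop}

theorem piece_eq (hF : Pure H X F) {h x y : V} (hh : h ∈ X) (hx : x ∈ X) (hhx : H.Adj h x)
    (hy : y ∈ X) {r z : V} (hr : (r, z) ∈ Pc H X F (h, x)) (hc : F r z y) :
    (∀ e ∈ Pc H X F (h, x), e.1 ∈ Cp F y r ∧ e.2 ∈ Cp F y r) ∧
      Pc H (Cp F y r) (Rs F (Cp F y r)) (h, x) = Pc H X F (h, x) := by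
  have hPr : Pc H X F (r, z) = Pc H X F (h, x) := Pc_eq hr
  obtain ⟨hrX, hzX, -, hrz, hry, hzy⟩ := hF.tri _ _ _ hc
  have hYX : Cp F y r ⊆ X := fun u hu => (Cp_sub hF hrX hry.symm hu).1
  have key : ∀ e, ReflTransGen (Mv H X F) (r, z) e → e.1 ∈ Cp F y r ∧ e.2 ∈ Cp F y r := by
    intro e he
    induction he with
    | refl => exact ⟨Cp_self _ _ _, ReflTransGen.single hc⟩
    | @tail e e' he hstep ih =>
      have he' : e' ∈ Pc H X F (r, z) := ReflTransGen.tail he hstep
      rcases hstep with ⟨h1, h2⟩ | ⟨h1, h2⟩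
      · have h3 : F e'.1 e'.2 y :=
          pc_cone hF (e := (r, z)) (Pc_self _) hc (a := e'.1) (b := e'.2) he'
        have h4 : e'.1 ∈ Cp F y r := by rw [h1]; exact ih.1
        exact ⟨h4, ReflTransGen.tail h4 h3⟩
      · rw [h1, h2]
        exact ⟨ih.2, ih.1⟩
  have key' : ∀ e ∈ Pc H X F (h, x), e.1 ∈ Cp F y r ∧ e.2 ∈ Cp F y r := by
    intro e he
    rw [← hPr] at he
    exact key e he
  refine ⟨key', Set.Subset.antisymm ?_ ?_⟩
  · intro e he
    have he' : ReflTransGen (Mv H (Cp F y r) (Rs F (Cp F y r))) (h, x) e := he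
    refine ReflTransGen.mono ?_ _ _ he'
    intro a b hab
    rcases hab with ⟨h1, h2⟩ | h1
    · obtain ⟨⟨t1, t2, t3, t4⟩, n1, n2⟩ := h2
      refine Or.inl ⟨h1, ⟨hYX t1, hYX t2, hYX t3, t4⟩, ?_, ?_⟩
      · exact fun h3 => n1 ⟨h3, t1, t2, t3⟩
      · exact fun h3 => n2 ⟨h3, t1, t3, t2⟩
    · exact Or.inr h1
  · intro e he
    have he' : ReflTransGen (Mv H X F) (h, x) e := he
    show ReflTransGen (Mv H (Cp F y r) (Rs F (Cp F y r))) (h, x) e
    clear he
    induction he' with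
    | refl => exact ReflTransGen.refl
    | @tail e e' he hstep ih =>
      refine ReflTransGen.tail ih ?_
      have hm := key' e he
      have hm' := key' e' (ReflTransGen.tail he hstep)
      rcases hstep with ⟨h1, h2⟩ | h1
      · obtain ⟨⟨t1, t2, t3, t4⟩, n1, n2⟩ := h2
        exact Or.inl ⟨h1, ⟨hm.1, hm.2, hm'.2, t4⟩, fun h3 => n1 h3.1, fun h3 => n2 h3.1⟩
      · exact Or.inr h1

theorem psol_lift (hF : Pure H X F) {Y : Set V} (hY : Closed H X F Y) {P : Set (V × V)}
    (hP : ∀ e ∈ P, e.1 ∈ Y ∧ e.2 ∈ Y) (hPe : ∀ e ∈ P, H.Adj e.1 e.2)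
    (hPs : ∀ a b, (a, b) ∈ P → (b, a) ∈ P) {Γ : V → V → V → Prop}
    (h : PSol H Y (Rs F Y) P Γ) : PSol H X F P Γ := by
  refine ⟨h.symm, h.cons, h.full, h.d1, h.d2, h.k, ?_, ?_⟩
  · intro a b c d hab hac hbc h1 h2
    have ha := (hP _ hab).1
    have hb := (hP _ hab).2
    have hc := (hP _ hac).2
    have hd : d ∈ Y := closed_Cp hF hY hb ha (hPe _ (hPs _ _ hab)) (ReflTransGen.single h1)
    exact h.inv a b c d hab hac hbc ⟨h1, ha, hd, hb⟩ ⟨h2, ha, hd, hc⟩
  · intro x a hxa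
    have hx := (hP _ hxa).1
    have ha := (hP _ hxa).2
    have heq : {u | ReflTransGen (fun u w => F u w x ∨
        ((u, w) ∈ P ∧ (x, u) ∈ P ∧ (x, w) ∈ P ∧ Γ u w x)) a u} =
        {u | ReflTransGen (fun u w => Rs F Y u w x ∨
        ((u, w) ∈ P ∧ (x, u) ∈ P ∧ (x, w) ∈ P ∧ Γ u w x)) a u} := by
      refine Set.Subset.antisymm ?_ ?_
      · intro u hu
        have hu' : ReflTransGen (fun u w => F u w x ∨
          ((u, w) ∈ P ∧ (x, u) ∈ P ∧ (x, w) ∈ P ∧ Γ u w x)) a u := hu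
        have : u ∈ Y ∧ ReflTransGen (fun u w => Rs F Y u w x ∨
          ((u, w) ∈ P ∧ (x, u) ∈ P ∧ (x, w) ∈ P ∧ Γ u w x)) a u := by
          clear hu
          induction hu' with
          | refl => exact ⟨ha, ReflTransGen.refl⟩
          | @tail u w hu hstep ih =>
            obtain ⟨huY, ih⟩ := ih
            rcases hstep with h1 | h1
            · have hux : H.Adj x u := (hF.tri _ _ _ h1).2.2.2.2.1.symm
              have hwY : w ∈ Y := closed_Cp hF hY hx huY hux (ReflTransGen.single h1)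
              exact ⟨hwY, ReflTransGen.tail ih (Or.inl ⟨h1, huY, hwY, hx⟩)⟩
            · exact ⟨(hP _ h1.1).2, ReflTransGen.tail ih (Or.inr h1)⟩
        exact this.2
      · intro u hu
        have hu' : ReflTransGen (fun u w => Rs F Y u w x ∨
          ((u, w) ∈ P ∧ (x, u) ∈ P ∧ (x, w) ∈ P ∧ Γ u w x)) a u := hu
        refine ReflTransGen.mono ?_ _ _ hu'
        intro p q hpq
        rcases hpq with h1 | h1
        · exact Or.inl h1.1
        · exact Or.inr h1
    rw [heq]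
    exact h.zp x a hxa

theorem piece_sol (hX : X.Finite) (hD : Dec H X X) (hF : Pure H X F)
    (hc : ∀ y ∈ X, ∀ v ∈ X, H.Adj y v → Dec H (Cp F y v) (Cp F y v)) {h x : V} (hh : h ∈ X)
    (hx : x ∈ X) (hhx : H.Adj h x) : ∃ Γ, PSol H X F (Pc H X F (h, x)) Γ := by
  obtain ⟨n, hn⟩ : ∃ n, X.ncard = n := ⟨_, rfl⟩
  induction n using Nat.strong_induction_on generalizing X F h x with
  | _ n ih =>
    by_cases hnc : ∀ r z, (r, z) ∈ Pc H X F (h, x) → ∀ y, ¬ F r z y
    · have hZ : Zp H X := Zp_of_dec hD subset_rfl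
      obtain ⟨A, W, hN⟩ := nc_data hF hh hx hhx hnc hZ
      obtain ⟨ρ, hρ⟩ := exists_rep hN
      obtain ⟨t, hs, ht⟩ := blowup_dec hX hN hρ hD
      exact ⟨_, psol_nc hF (fun y hy v hv hyv => Zp_of_dec (hc y hy v hv hyv) subset_rfl)
        hN hρ hs ht⟩
    · push Not at hnc
      obtain ⟨r, z, hr, y, hy⟩ := hnc
      obtain ⟨hrX, hzX, hyX, hrz, hry, hzy⟩ := hF.tri _ _ _ hy
      obtain ⟨h1, h2⟩ := piece_eq hF hh hx hhx hyX hr hy
      have hYX : Cp F y r ⊆ X := fun u hu => (Cp_sub hF hrX hry.symm hu).1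
      have hyY : y ∉ Cp F y r := fun h => H.loopless.irrefl _ (Cp_sub hF hrX hry.symm h).2
      have hcl : Closed H X F (Cp F y r) := Cp_closed hF hyX hrX hry.symm
      have hlt : (Cp F y r).ncard < n := by
        rw [← hn]
        refine Set.ncard_lt_ncard ⟨hYX, fun h => hyY (h hyX)⟩ hX
      have hhY := (h1 (h, x) (Pc_self _)).1
      have hxY := (h1 (h, x) (Pc_self _)).2
      obtain ⟨Γ, hΓ⟩ := ih _ hlt (X := Cp F y r) (F := Rs F (Cp F y r)) (hX.subset hYX)
        (hc y hyX r hrX hry.symm) (hF.restrict hYX)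
        (fun y' hy' v hv hyv => by
          rw [Cp_restrict hF hcl hy' hv hyv]
          exact hc y' (hYX hy') v (hYX hv) hyv) hhY hxY hhx rfl
      rw [h2] at hΓ
      refine ⟨Γ, psol_lift hF hcl h1 ?_ ?_ hΓ⟩
      · intro e he
        exact (Pc_edge hh hx hhx (a := e.1) (b := e.2) he).2.2
      · intro a b hab
        exact Pc_swap hab

end Pool.Agent.H8.CR
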