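import Pool.Agent.H8.CR.Glue1
import Pool.Agent.H8.CR.Sol2
import Pool.Agent.H8.CR.Crit4

/-!
# The extension theorem

* `glue_zp`: for an edge `x h` of `X`, with `P = Pc (x, h)`, `Γ = G P`:
  `Cp (alp ..) x h = {u | RTG (fun u w => F u w x ∨ ((u,w) ∈ P ∧ (x,u) ∈ P ∧ (x,w) ∈ P ∧ Γ u w x)) h u}`.
  Along both chains `(x, u) ∈ P` holds (start `u = h`; `F u w x` gives `(x, w) ∈ P` by `Pc_fact` and
  `Pc_eq`). If `(x, u) ∈ P` and `alp u w x`: either `F u w x`, or `(u, w, x)` is unresolved and then all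
  its edges are in `P` (`Pc_unres`, `Pc_swap`), `Pc (u, w) = P`. Conversely if the three edges are in `P`
  then `(u, w, x)` is unresolved by `pc_unres`. So `Zp` follows from `PSol.zp`.
* `ext`: choose `G` by choice from `piece_sol` (for a set `P` which is the piece of some edge of `X` take a
  solution). `alp` is pure (`glue_pure`), full (`glue_full`), `Zp H X` by `Zp_of_dec`, `Zp` of its
  components by `glue_zp`; `Conn H X` by `supp_conn`, `X` nonempty (`dec_nonempty`). So `Good0 H X X alp` (the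
  condition on outer vertices is vacuous) and `crit` gives the tree; `F u v w → alp u v w → Sp t u v w`.
-/

namespace Pool.Agent.H8.CR

open Relation

variable {V : Type*} {H : SimpleGraph V} {X : Set V} {F : V → V → V → Prop}
  {G : Set (V × V) → V → V → V → Prop}

theorem glue_zp (hF : Pure H X F) (hG : ∀ h ∈ X, ∀ x ∈ X, H.Adj h x →
    PSol H X F (Pc H X F (h, x)) (G (Pc H X F (h, x)))) {x h : V} (hx : x ∈ X) (hh : h ∈ X)
    (hxh : H.Adj x h) : Zp H (Cp (alp H X F G) x h) := by
  have hz := (hG x hx h hh hxh).zp x h (Pc_self _)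
  have key : Cp (alp H X F G) x h = {u | ReflTransGen (fun u w => F u w x ∨
      ((u, w) ∈ Pc H X F (x, h) ∧ (x, u) ∈ Pc H X F (x, h) ∧ (x, w) ∈ Pc H X F (x, h) ∧
        G (Pc H X F (x, h)) u w x)) h u} := by
    apply Set.Subset.antisymm
    · intro u hu
      have hu' : ReflTransGen (fun a b => alp H X F G a b x) h u := hu
      have hinv : (x, u) ∈ Pc H X F (x, h) ∧ ReflTransGen (fun u w => F u w x ∨
          ((u, w) ∈ Pc H X F (x, h) ∧ (x, u) ∈ Pc H X F (x, h) ∧ (x, w) ∈ Pc H X F (x, h) ∧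
            G (Pc H X F (x, h)) u w x)) h u := by
        clear hu
        induction hu' with
        | refl => exact ⟨Pc_self _, ReflTransGen.refl⟩
        | tail _ hstep ih =>
          rename_i a b _
          rcases hstep with hstep | ⟨hun, hg⟩
          · refine ⟨?_, ih.2.tail (Or.inl hstep)⟩
            have h1 := Pc_fact hF hstep
            rw [Pc_eq ih.1] at h1
            exact h1
          · have h1 := (Pc_unres hF hun).1
            have h2 := (Pc_unres hF hun).2
            have h3 : Pc H X F (a, b) = Pc H X F (x, h) := by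
              rw [← Pc_eq h1, Pc_eq (Pc_swap ih.1)]
            have h4 : (x, b) ∈ Pc H X F (x, h) := by
              rw [h3] at h2
              exact Pc_swap h2
            have h5 : (a, b) ∈ Pc H X F (x, h) := by
              rw [← h3]
              exact Pc_self _
            rw [h3] at hg
            exact ⟨h4, ih.2.tail (Or.inr ⟨h5, ih.1, h4, hg⟩)⟩
      exact hinv.2
    · intro u hu
      have hu' : ReflTransGen (fun u w => F u w x ∨
          ((u, w) ∈ Pc H X F (x, h) ∧ (x, u) ∈ Pc H X F (x, h) ∧ (x, w) ∈ Pc H X F (x, h) ∧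
            G (Pc H X F (x, h)) u w x)) h u := hu
      refine ReflTransGen.mono ?_ _ _ hu'
      intro a b hab
      rcases hab with hab | ⟨h1, h2, h3, h4⟩
      · exact Or.inl hab
      · right
        obtain ⟨ha, hb, hab'⟩ := Pc_edge hx hh hxh h1
        obtain ⟨_, _, hxa⟩ := Pc_edge hx hh hxh h2
        obtain ⟨_, _, hxb⟩ := Pc_edge hx hh hxh h3
        refine ⟨pc_unres hF ⟨ha, hb, hx, hab', hxa.symm, hxb.symm⟩ h1 (Pc_swap h2)
          (Pc_swap h3), ?_⟩
        rw [Pc_eq h1]
        exact h4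
  rw [key]
  exact hz

/-- **Extension theorem.** -/
theorem ext (hX : X.Finite) (hD : Dec H X X) (hF : Pure H X F)
    (hc : ∀ y ∈ X, ∀ v ∈ X, H.Adj y v → Dec H (Cp F y v) (Cp F y v)) :
    ∃ t : DT V, t.supp = X ∧ Valid H X t ∧ ∀ u v w, F u v w → Sp t u v w := by
  classical
  have hchoice : ∀ P : Set (V × V), ∃ Γ : V → V → V → Prop, ∀ h ∈ X, ∀ x ∈ X, H.Adj h x →
      Pc H X F (h, x) = P → PSol H X F P Γ := by
    intro P
    by_cases hP : ∃ h ∈ X, ∃ x ∈ X, H.Adj h x ∧ Pc H X F (h, x) = P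
    · obtain ⟨h, hh, x, hx, hhx, rfl⟩ := hP
      obtain ⟨Γ, hΓ⟩ := piece_sol hX hD hF hc hh hx hhx
      exact ⟨Γ, fun _ _ _ _ _ _ => hΓ⟩
    · exact ⟨fun _ _ _ => False, fun h hh x hx hhx he => (hP ⟨h, hh, x, hx, hhx, he⟩).elim⟩
  choose G hG using hchoice
  have hG' : ∀ h ∈ X, ∀ x ∈ X, H.Adj h x →
      PSol H X F (Pc H X F (h, x)) (G (Pc H X F (h, x))) :=
    fun h hh x hx hhx => hG _ h hh x hx hhx rfl
  have hp := glue_pure hF hG'
  have hf := glue_full hF hG'
  have hZ : Zp H X := Zp_of_dec hD le_rfl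
  obtain ⟨t0, ht0, hv0⟩ := hD
  have hconn : Conn H X := by
    have h1 := supp_conn hv0 (le_of_eq ht0)
    rw [ht0] at h1
    exact h1
  have hne : X.Nonempty := by
    rw [← ht0]
    exact supp_nonempty t0
  have hgood : Good0 H X X (alp H X F G) :=
    ⟨hp, hf, hconn, hne, fun u hu hu' => (hu' hu).elim⟩
  obtain ⟨t, ht, hv, hs⟩ := crit hX hgood hZ
    (fun y hy v hv hyv => glue_zp hF hG' hy hv hyv)
  exact ⟨t, ht, hv, fun u v w h => hs u v w (Or.inl h)⟩

end Pool.Agent.H8.CR
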