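import Pool.Agent.H8.CR.Tree3

/-!
# Restriction of a tree to a compatible set

* `TC_restrict`: `t` valid, `S` compatible, `S ∩ supp t ≠ ∅`. There is a valid tree `t'` (same ambient
  set `E ⊇ supp t`) with support `S ∩ supp t` and `Sp t u v w → Sp t' u v w` for `u, v, w ∈ S`.
  Induction. Leaf: the leaf. Node `l r`: if `S` misses `r`: use the tree `l'` for `l` (for `u, v, w ∈ S`:
  all are in `l`, and `Sp t u v w` implies `Sp l u v w` by disjointness). Same if `S` misses `l`.
  Otherwise take `node l' r'`. Cross edges between `S ∩ l` and `S ∩ r`: all cross edges of `l, r`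
  have both ends in `S`; so `Cut` holds. Ambient condition for `u ∈ E`, `u ∉ S ∩ l`, `u ∉ S ∩ r`: if
  `u ∉ l` and `u ∉ r`: `NC H l r N(u)` implies `NC H (S ∩ l) (S ∩ r) N(u)`. If `u ∈ l` (so `u ∉ S`):
  `u` has no neighbour in `r` (such an edge would be a cross edge with end `u ∈ S`), so the second
  alternative of `NC` holds; same for `u ∈ r`.
* `dec_of_closed`: a nonempty connected closed set of a valid tree is decomposable with the same
  ambient set.
* `nb_conn`: if `Y` is a nonempty connected closed set of `supp t` and `x ∈ E \ Y`, then `N(x) ∩ Y` is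
  connected: restrict `t` to `Y` and use `TC_nb` and `TC_conn`.
-/

namespace Pool.Agent.H8.CR

variable {V : Type*} {H : SimpleGraph V} {E : Set V}

theorem TC_restrict {t : DT V} (ht : Valid H E t) (hE : t.supp ⊆ E) {S : Set V} (hS : TC H S t)
    (hne : (S ∩ t.supp).Nonempty) : ∃ t' : DT V, t'.supp = S ∩ t.supp ∧ Valid H E t' ∧
      ∀ u v w, u ∈ S → v ∈ S → w ∈ S → Sp t u v w → Sp t' u v w := by
  induction t with
  | leaf v =>
    refine ⟨.leaf v, ?_, trivial, ?_⟩
    · obtain ⟨x, hxS, hx⟩ := hne
      have hxv : x = v := hx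
      subst hxv
      ext y
      constructor
      · intro hy
        have : y = x := hy
        subst this
        exact ⟨hxS, rfl⟩
      · intro hy
        exact hy.2
    · intro u v w _ _ _ h
      exact h
  | node l r ihl ihr =>
    obtain ⟨hcut, hamb, hvl, hvr⟩ := ht
    obtain ⟨hnc, hTl, hTr⟩ := hS
    have hEl : l.supp ⊆ E := fun x hx => hE (Or.inl hx)
    have hEr : r.supp ⊆ E := fun x hx => hE (Or.inr hx)
    by_cases hl : (S ∩ l.supp).Nonempty
    · by_cases hr : (S ∩ r.supp).Nonempty
      · obtain ⟨l', hl's, hl'v, hl'p⟩ := ihl hvl hEl hTl hl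
        obtain ⟨r', hr's, hr'v, hr'p⟩ := ihr hvr hEr hTr hr
        have h3 : ∀ a ∈ l.supp, ∀ b ∈ r.supp, H.Adj a b → a ∈ S ∧ b ∈ S := by
          rcases hnc with h | h | h
          · obtain ⟨x, hxS, hx⟩ := hl
            exact absurd hxS (h x hx)
          · obtain ⟨x, hxS, hx⟩ := hr
            exact absurd hxS (h x hx)
          · exact h
        refine ⟨.node l' r', ?_, ⟨?_, ?_, hl'v, hr'v⟩, ?_⟩
        · show l'.supp ∪ r'.supp = S ∩ (l.supp ∪ r.supp)
          rw [hl's, hr's, Set.inter_union_distrib_left]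
        · rw [hl's, hr's]
          refine ⟨?_, ?_, ?_⟩
          · exact hcut.1.mono Set.inter_subset_right Set.inter_subset_right
          · obtain ⟨a, ha, b, hb, hab⟩ := hcut.2.1
            have := h3 a ha b hb hab
            exact ⟨a, ⟨this.1, ha⟩, b, ⟨this.2, hb⟩, hab⟩
          · intro a ha b hb a' ha' b' hb' h1 h2
            exact hcut.2.2 a ha.2 b hb.2 a' ha'.2 b' hb'.2 h1 h2
        · intro u hu hul hur
          rw [hl's] at hul ⊢
          rw [hr's] at hur ⊢
          by_cases h1 : u ∈ l.supp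
          · have huS : u ∉ S := fun h => hul ⟨h, h1⟩
            refine Or.inr (Or.inl ?_)
            intro b hb hub
            exact huS (h3 u h1 b hb.2 hub).1
          · by_cases h2 : u ∈ r.supp
            · have huS : u ∉ S := fun h => hur ⟨h, h2⟩
              refine Or.inl ?_
              intro a ha hua
              exact huS (h3 a ha.2 u h2 (SimpleGraph.Adj.symm hua)).2
            · rcases hamb u hu h1 h2 with h | h | h
              · exact Or.inl (fun a ha => h a ha.2)
              · exact Or.inr (Or.inl (fun b hb => h b hb.2))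
              · exact Or.inr (Or.inr (fun a ha b hb hab => h a ha.2 b hb.2 hab))
        · intro u v w hu hv hw h
          rcases h with ⟨h1, h2, h3⟩ | ⟨h1, h2, h3⟩ | h | h
          · refine Or.inl ?_
            rw [hl's, hr's]
            exact ⟨⟨hu, h1⟩, ⟨hv, h2⟩, ⟨hw, h3⟩⟩
          · refine Or.inr (Or.inl ?_)
            rw [hl's, hr's]
            exact ⟨⟨hu, h1⟩, ⟨hv, h2⟩, ⟨hw, h3⟩⟩
          · exact Or.inr (Or.inr (Or.inl (hl'p u v w hu hv hw h)))
          · exact Or.inr (Or.inr (Or.inr (hr'p u v w hu hv hw h)))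
      · obtain ⟨l', hl's, hl'v, hl'p⟩ := ihl hvl hEl hTl hl
        have hr0 : ∀ x ∈ S, x ∉ r.supp := fun x hx hxr => hr ⟨x, hx, hxr⟩
        refine ⟨l', ?_, hl'v, ?_⟩
        · rw [hl's]
          ext x
          constructor
          · intro hx
            exact ⟨hx.1, Or.inl hx.2⟩
          · intro hx
            rcases hx.2 with h | h
            · exact ⟨hx.1, h⟩
            · exact absurd h (hr0 x hx.1)
        · intro u v w hu hv hw h
          rcases h with ⟨h1, h2, h3⟩ | ⟨h1, h2, h3⟩ | h | h
          · exact absurd h3 (hr0 w hw)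
          · exact absurd h1 (hr0 u hu)
          · exact hl'p u v w hu hv hw h
          · exact absurd (Sp_mem h).1 (hr0 u hu)
    · have hl0 : ∀ x ∈ S, x ∉ l.supp := fun x hx hxl => hl ⟨x, hx, hxl⟩
      have hr : (S ∩ r.supp).Nonempty := by
        obtain ⟨x, hxS, hx⟩ := hne
        rcases hx with h | h
        · exact absurd h (hl0 x hxS)
        · exact ⟨x, hxS, h⟩
      obtain ⟨r', hr's, hr'v, hr'p⟩ := ihr hvr hEr hTr hr
      refine ⟨r', ?_, hr'v, ?_⟩
      · rw [hr's]
        ext x
        constructor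
        · intro hx
          exact ⟨hx.1, Or.inr hx.2⟩
        · intro hx
          rcases hx.2 with h | h
          · exact absurd h (hl0 x hx.1)
          · exact ⟨hx.1, h⟩
      · intro u v w hu hv hw h
        rcases h with ⟨h1, h2, h3⟩ | ⟨h1, h2, h3⟩ | h | h
        · exact absurd h1 (hl0 u hu)
        · exact absurd h3 (hl0 w hw)
        · exact absurd (Sp_mem h).1 (hl0 u hu)
        · exact hr'p u v w hu hv hw h

theorem closed_restrict_tree {t : DT V} (ht : Valid H E t) (hE : t.supp ⊆ E) {S : Set V}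
    (hne : S.Nonempty) (hc : Conn H S) (hcl : Closed H t.supp (al H t) S) :
    ∃ t' : DT V, t'.supp = S ∧ Valid H E t' ∧
      ∀ u v w, u ∈ S → v ∈ S → w ∈ S → Sp t u v w → Sp t' u v w := by
  have hTC := TC_of_closed ht hE hcl.1 hc hcl
  have hSt : S ∩ t.supp = S := Set.inter_eq_left.mpr hcl.1
  obtain ⟨t', h1, h2, h3⟩ := TC_restrict ht hE hTC (by rw [hSt]; exact hne)
  exact ⟨t', by rw [h1, hSt], h2, h3⟩

theorem dec_of_closed {t : DT V} (ht : Valid H E t) (hE : t.supp ⊆ E) {S : Set V}
    (hne : S.Nonempty) (hc : Conn H S) (hcl : Closed H t.supp (al H t) S) : Dec H E S := by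
  obtain ⟨t', h1, h2, _⟩ := closed_restrict_tree ht hE hne hc hcl
  exact ⟨t', h1, h2⟩

theorem nb_conn {t : DT V} (ht : Valid H E t) (hE : t.supp ⊆ E) {Y : Set V}
    (hne : Y.Nonempty) (hc : Conn H Y) (hcl : Closed H t.supp (al H t) Y) {x : V} (hx : x ∈ E)
    (hxY : x ∉ Y) : Conn H (H.neighborSet x ∩ Y) := by
  obtain ⟨t', h1, h2, _⟩ := closed_restrict_tree ht hE hne hc hcl
  have h3 : TC H (H.neighborSet x) t' := TC_nb h2 hx (by rw [h1]; exact hxY)
  have h4 : t'.supp ⊆ E := by
    rw [h1]
    exact hcl.1.trans hE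
  have h5 := TC_conn h2 h4 h3
  rw [h1] at h5
  exact h5

end Pool.Agent.H8.CR
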