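import Pool.Agent.H8.CR.Series
import Pool.Agent.H8.CR.Tree4

/-!
# Modules of links

`Md H E y u w` is the smallest module of `H[N(y) ∩ E]` that contains `u` and `w`.

* `Md_min`: if `Z` contains `u, w` and is a module of `H[N(y) ∩ E]` (for `x ∈ E \ Z` adjacent to `y` and
  `p, q ∈ Z`: `x ~ p → x ~ q`) then `Md H E y u w ⊆ Z` (induction on `MdR`).
* `Md_mod`: `Md H E y u w` is such a module (rule `split`).
* `Md_sub`: `Md H E y u w ⊆ N(y) ∩ E` if `u, w ∈ N(y) ∩ E`.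
* `module_gen`: `Z ⊆ N(y) ∩ E` finite, nonempty, a module of `H[N(y) ∩ E]`, connected and
  co-connected. Then `Md H E y w w' = Z` for some `w, w' ∈ Z`.
  If `Z = {z}`: `w = w' = z`: every element of `MdR` is `z` (`split` with `a = b = z` is
  contradictory), or use `Md_min`. Otherwise suppose that `Md w w' ≠ Z` for all `w, w' ∈ Z`. All these sets are
  modules contained in `Z` (`Md_min`). Call `M ⊊ Z` nonempty with the module property good; choose a
  good `M` with the maximal number of elements (exists: `{z}` is `Md z z`, or directly). Choose `w ∈ M`,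
  `w' ∈ Z \ M`, `M' = Md w w'`, a good set. `M ∪ M'` has the module property, because `w ∈ M ∩ M'`
  (`x ∉ M ∪ M'`, `x ~ p`, `p ∈ M`: then `x ~ w`, so `x` is adjacent to all of `M` and `M'`). By maximality
  `M ∪ M' = Z`. `M ⊄ M'` (otherwise `M' = Z`). For `x ∈ M \ M'` (as `x ∉ M'`, `x ∈ N(y) ∩ E`):
  `x` is adjacent to all or to none of `M'`; `w'` (not in `M`) is adjacent to all or none of `M`. If some
  `x0 ∈ M \ M'` is adjacent to `w'`: then `w'` is adjacent to all of `M`, so all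
  `x ∈ M \ M'` are adjacent to `w' ∈ M'`, hence to all of `M'`: `M \ M'` is complete to
  `M' = Z \ (M \ M')`, contradiction to `CoConn H Z`. Otherwise no `x ∈ M \ M'` is adjacent to `w'`, so
  to no element of `M'`: contradiction to `Conn H Z`.
* `nbc_mod`: let `F` be pure on `X ⊆ E` and contain `F0nb H E X`; `y, v ∈ X` adjacent. Then
  `B = Cp F y v` is a module of `H[N(y) ∩ E]`: for `x ∈ X` this is `Cp_mod`. For `x ∈ E \ X`, `x ~ y`,
  `x ~ p`, `x ≁ q`, `p, q ∈ B`: along the chain of steps `F a b y` from `p` to `q` there is a step with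
  `x ~ a`, `x ≁ b`. Then `F0nb H E X y a b` (witness `x`), so `F y a b`, which contradicts `F a b y`.
* `cocp_mod`: the co-components `CoCp H B u` of a module `B` are modules too.
-/

namespace Pool.Agent.H8.CR

open Relation

variable {V : Type*} {H : SimpleGraph V} {E X : Set V} {F : V → V → V → Prop}

/-- `Z` has the module property in `H[N(y) ∩ E]`. -/
def IsMod (H : SimpleGraph V) (E : Set V) (y : V) (Z : Set V) : Prop :=
  ∀ x ∈ E, H.Adj y x → x ∉ Z → ∀ p ∈ Z, ∀ q ∈ Z, H.Adj x p → H.Adj x q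

theorem Md_min {y u w : V} {Z : Set V} (hu : u ∈ Z) (hw : w ∈ Z) (hZ : IsMod H E y Z) :
    Md H E y u w ⊆ Z := by
  intro x hx
  induction hx with
  | left => exact hu
  | right => exact hw
  | split ha hb hx hy h1 h2 iha ihb =>
    by_contra hxZ
    exact h2 (hZ _ hx hy hxZ _ iha _ ihb h1)

theorem Md_mod (y u w : V) : IsMod H E y (Md H E y u w) := by
  intro x hxE hyx hxn p hp q hq hxp
  by_contra hxq
  exact hxn (MdR.split hp hq hxE hyx hxp hxq)

theorem Md_sub {y u w : V} (hu : u ∈ E) (hw : w ∈ E) (hyu : H.Adj y u) (hyw : H.Adj y w) {x : V}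
    (hx : x ∈ Md H E y u w) : x ∈ E ∧ H.Adj y x := by
  induction hx with
  | left => exact ⟨hu, hyu⟩
  | right => exact ⟨hw, hyw⟩
  | split ha hb hx hy h1 h2 iha ihb => exact ⟨hx, hy⟩

theorem module_gen {y : V} {Z : Set V} (hf : Z.Finite) (hne : Z.Nonempty) (hZE : Z ⊆ E)
    (hyZ : ∀ z ∈ Z, H.Adj y z) (hZ : IsMod H E y Z) (hc : Conn H Z) (hco : CoConn H Z) :
    ∃ w ∈ Z, ∃ w' ∈ Z, Md H E y w w' = Z := by
  by_contra hno
  have hno' : ∀ w ∈ Z, ∀ w' ∈ Z, Md H E y w w' ≠ Z :=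
    fun w hw w' hw' h => hno ⟨w, hw, w', hw', h⟩
  obtain ⟨z0, hz0⟩ := hne
  have hfin : {M : Set V | M ⊆ Z ∧ M ≠ Z ∧ M.Nonempty ∧ IsMod H E y M}.Finite :=
    hf.finite_subsets.subset (fun M hM => hM.1)
  have hnon : {M : Set V | M ⊆ Z ∧ M ≠ Z ∧ M.Nonempty ∧ IsMod H E y M}.Nonempty :=
    ⟨Md H E y z0 z0, Md_min hz0 hz0 hZ, hno' z0 hz0 z0 hz0, ⟨z0, MdR.left⟩, Md_mod y z0 z0⟩
  obtain ⟨M, ⟨hMZ, hMne, ⟨w, hwM⟩, hMm⟩, hmax⟩ :=
    Set.exists_max_image _ (fun M : Set V => M.ncard) hfin hnon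
  obtain ⟨w', hw'Z, hw'M⟩ : ∃ w' ∈ Z, w' ∉ M := by
    by_contra hcon
    apply hMne
    apply Set.Subset.antisymm hMZ
    intro z hz
    by_contra hzM
    exact hcon ⟨z, hz, hzM⟩
  have hwZ := hMZ hwM
  obtain ⟨N, hNZ, hNne, hNm, hwN, hw'N⟩ : ∃ N : Set V, N ⊆ Z ∧ N ≠ Z ∧ IsMod H E y N ∧
      w ∈ N ∧ w' ∈ N := ⟨Md H E y w w', Md_min hwZ hw'Z hZ, hno' w hwZ w' hw'Z, Md_mod y w w',
        MdR.left, MdR.right⟩
  -- the union is the whole set
  have hun : M ∪ N = Z := by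
    by_contra hne2
    have hgood : M ∪ N ∈ {M : Set V | M ⊆ Z ∧ M ≠ Z ∧ M.Nonempty ∧ IsMod H E y M} := by
      refine ⟨Set.union_subset hMZ hNZ, hne2, ⟨w, Or.inl hwM⟩, ?_⟩
      intro x hxE hyx hxn p hp q hq hxp
      have hxM : x ∉ M := fun h => hxn (Or.inl h)
      have hxN : x ∉ N := fun h => hxn (Or.inr h)
      have hxw : H.Adj x w := by
        rcases hp with hp | hp
        · exact hMm x hxE hyx hxM p hp w hwM hxp
        · exact hNm x hxE hyx hxN p hp w hwN hxp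
      rcases hq with hq | hq
      · exact hMm x hxE hyx hxM w hwM q hq hxw
      · exact hNm x hxE hyx hxN w hwN q hq hxw
    have h1 := hmax _ hgood
    have h2 : M.ncard < (M ∪ N).ncard := by
      apply Set.ncard_lt_ncard _ (hf.subset (Set.union_subset hMZ hNZ))
      refine ⟨Set.subset_union_left, fun h => hw'M (h (Or.inr hw'N))⟩

    omega
  obtain ⟨x0, hx0M, hx0N⟩ : ∃ x0 ∈ M, x0 ∉ N := by
    by_contra hcon
    apply hNne
    apply Set.Subset.antisymm hNZ
    intro z hz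
    rw [← hun] at hz
    rcases hz with hz | hz
    · by_contra hzN
      exact hcon ⟨z, hz, hzN⟩
    · exact hz
  by_cases hcase : ∃ x ∈ M, x ∉ N ∧ H.Adj x w'
  · obtain ⟨x1, hx1M, hx1N, hx1⟩ := hcase
    have hall : ∀ x ∈ M, x ∉ N → ∀ q ∈ N, H.Adj x q := by
      intro x hxM hxN q hq
      have h1 : H.Adj w' x :=
        hMm w' (hZE hw'Z) (hyZ w' hw'Z) hw'M x1 hx1M x hxM hx1.symm
      exact hNm x (hZE (hMZ hxM)) (hyZ x (hMZ hxM)) hxN w' hw'N q hq h1.symm
    have hinv : ∀ z, ReflTransGen (fun x y => x ∈ Z ∧ y ∈ Z ∧ ¬ H.Adj x y) x0 z →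
        z ∈ M ∧ z ∉ N := by
      intro z hz
      induction hz with
      | refl => exact ⟨hx0M, hx0N⟩
      | @tail b c _ hstep ih =>
        obtain ⟨_, hbZ, hnadj⟩ := hstep
        rw [← hun] at hbZ
        by_cases hbN : c ∈ N
        · exact (hnadj (hall _ ih.1 ih.2 _ hbN)).elim
        · exact ⟨hbZ.resolve_right hbN, hbN⟩
    exact (hinv w' (hco x0 (hMZ hx0M) w' hw'Z)).2 hw'N
  · have hall : ∀ x ∈ M, x ∉ N → ∀ q ∈ N, ¬ H.Adj x q := by
      intro x hxM hxN q hq hadj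
      exact hcase ⟨x, hxM, hxN,
        hNm x (hZE (hMZ hxM)) (hyZ x (hMZ hxM)) hxN q hq w' hw'N hadj⟩
    have hinv : ∀ z, ReflTransGen (fun x y => H.Adj x y ∧ x ∈ Z ∧ y ∈ Z) x0 z →
        z ∈ M ∧ z ∉ N := by
      intro z hz
      induction hz with
      | refl => exact ⟨hx0M, hx0N⟩
      | @tail b c _ hstep ih =>
        obtain ⟨hadj, _, hbZ⟩ := hstep
        rw [← hun] at hbZ
        by_cases hbN : c ∈ N
        · exact (hall _ ih.1 ih.2 _ hbN hadj).elim
        · exact ⟨hbZ.resolve_right hbN, hbN⟩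
    exact (hinv w' (hc x0 (hMZ hx0M) w' hw'Z)).2 hw'N

theorem nbc_mod (hXE : X ⊆ E) (hF : Pure H X F) (hn : ∀ p q t, F0nb H E X p q t → F p q t)
    {y v : V} (hy : y ∈ X) (hv : v ∈ X) (hyv : H.Adj y v) : IsMod H E y (Cp F y v) := by
  intro x hxE hyx hxn p hp q hq hxp
  by_cases hxX : x ∈ X
  · exact Cp_mod hF hy hv hyv hxX hyx hxn hp hq hxp
  · have hq' : q ∈ Cp F y p := by rw [Cp_eq hF hp]; exact hq
    have hch : ReflTransGen (fun a b => F a b y) p q := hq'
    clear hq hq'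
    induction hch with
    | refl => exact hxp
    | tail _ hstep ih =>
      rename_i a b _
      by_contra hxb
      obtain ⟨haX, hbX, hyX, hab, hay, hby⟩ := hF.tri _ _ _ hstep
      have h1 : F y a b :=
        hn y a b ⟨⟨hyX, haX, hbX, hay.symm, hby.symm, hab⟩, x, hxE, hxX, hyx.symm, ih, hxb⟩
      exact hF.cons _ _ _ (hF.symm _ _ _ h1) hstep

theorem cocp_mod {y : V} {B : Set V} (hB : IsMod H E y B) {u : V} (hu : u ∈ B) :
    IsMod H E y (CoCp H B u) := by
  intro x hxE hyx hxn p hp q hq hxp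
  by_cases hxB : x ∈ B
  · exact (CoCp_adj hu hq hxB hxn).symm
  · exact hB x hxE hyx hxB p (CoCp_sub hu hp) q (CoCp_sub hu hq) hxp

end Pool.Agent.H8.CR
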