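import Pool.Agent.H8.CR.Defs

/-!
# Purity of the closure

Let `F0` be a set of facts on triangles inside `X`, let `G = Cl H X F0` and assume that `G` is
consistent and that every fact of `F0` satisfies

  `P(ab|c)`: for every `d ∈ X` adjacent to `a, b, c`: `ab|d ∈ G`, or (`ad|c ∈ G` and `bd|c ∈ G`).

Then `G` is pure. Proof. `tri`: induction (every rule produces a triangle inside `X`: in the K rules
the missing adjacency is the hypothesis `h1`). It remains to prove `P` for all facts of `G`, by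
induction on `Cl`. In the following `e ∈ X` is adjacent to the three vertices of the new fact,
contradictions come from consistency (together with symmetry).

* `symm`: clear.
* `d1`: from `uv|w` derive `uv|x`, `x ≁ w`, `x ~ u, v`. Let `e ~ u, v, x`. If `e ≁ w`: `d1` applied to
  `uv|w` and `e` gives `uv|e`. If `e ~ w`: `P(uv|w)` gives `uv|e` or (`ue|w` and `ve|w`); in the second
  case `d1` (with `x ≁ w`, `x ~ u, e`) gives `ue|x` and similarly `ve|x`. (`e = w` is excluded as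
  `e ~ x`, `x ≁ w`.)
* `d2`: from `uv|w` derive `xv|w`, `x ≁ u`, `x ~ v, w`. Let `e ~ x, v, w`. If `e ≁ u` (this includes
  `e = u`? no: `u ≁ x` but `e ~ x`, so `e ≠ u`): `d2` applied to `uv|w` and `e` gives `ev|w`, so `ve|w`;
  `k3` from `xv|w`, `ev|w`, `x ~ e` gives `xe|w`. So the second alternative `xe|w`, `ve|w` holds.
  If `e ~ u`: `P(uv|w)`: `uv|e` or (`ue|w` and `ve|w`). First case: `d2` applied to `uv|e` and `x`
  (`x ≁ u`, `x ~ v, e`) gives `xv|e`. Second case: `ve|w`, and `k3` from `xv|w`, `ev|w` gives `xe|w`.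
* `k1a`: from `ab|c`, `bc|d`, `a ~ d` derive `ab|d`. Let `e ~ a, b, d`; want `ab|e` or (`ae|d` and
  `be|d`). `e = c`: `ab|c`. `e ≁ c`: `d1` on `ab|c` gives `ab|e`. `e ~ c`: `P(ab|c)`: `ab|e` or (`ae|c` and
  `be|c`); `P(bc|d)`: `bc|e` or (`be|d` and `ce|d`). If `ae|c, be|c`: `bc|e` contradicts `be|c`, so
  `be|d, ce|d`; `k1a` from `ae|c`, `ec|d`, `a ~ d` gives `ae|d`.
* `k1b`: from `ab|c`, `bc|d`, `a ~ d` derive `ac|d`. Let `e ~ a, c, d`; want `ac|e` or (`ae|d` and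
  `ce|d`). We know `ab|d` (rule `k1a`). `e = b`: `ab|d` and `cb|d`. `e ≁ b`: `d2` on `bc|d` with `e`
  gives `ec|d`, `d2` on `ba|d` with `e` gives `ea|d`. `e ~ b`: `P(bc|d)`: `bc|e` or (`be|d` and
  `ce|d`). If `bc|e`: `k1b` from `ab|c`, `bc|e`, `a ~ e` gives `ac|e`. Otherwise `k3` from `ab|d`,
  `eb|d`, `a ~ e` gives `ae|d`.
* `k2a`: from `ab|c`, `cd|b`, `a ~ d` derive `ab|d`. Let `e ~ a, b, d`; want `ab|e` or (`ae|d` and
  `be|d`). `e = c`: `ab|c`. `e ≁ c`: `d1`: `ab|e`. `e ~ c`: `P(ab|c)`: `ab|e` or (`ae|c` and `be|c`).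
  `P(cd|b)`: `cd|e` or (`ce|b` and `de|b`). In the case `ae|c, be|c`: `ce|b` contradicts `be|c`, so
  `cd|e`. Then `k2a` from `be|c`, `cd|e`, `b ~ d` gives `be|d`, and `k2a` from `ae|c`, `cd|e`, `a ~ d`
  gives `ae|d`.
* `k2b`: from `ab|c`, `cd|b`, `a ~ d` derive `cd|a`: this is `k2a` for `dc|b`, `ba|c` up to symmetry
  (exchange `a ↔ d`, `b ↔ c`).
* `k3`: from `bd|a`, `cd|a`, `b ~ c` derive `bc|a`. Let `e ~ a, b, c`; want `bc|e` or (`be|a` and
  `ce|a`). `e = d`: second alternative. `e ≁ d`: `d2` on `db|a` with `e`: `eb|a`, and on `dc|a`: `ec|a`.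
  `e ~ d`: `P(bd|a)`: `bd|e` or (`be|a` and `de|a`); `P(cd|a)`: `cd|e` or (`ce|a` and `de|a`).
  If `bd|e` and `cd|e`: `k3` gives `bc|e`. If `be|a, de|a` and `ce|a, de|a`: done. If `be|a, de|a` and
  `cd|e`: `k3` from `cd|a`, `ed|a`, `c ~ e` gives `ce|a`. If `bd|e` and `ce|a, de|a`: `k3` from `bd|a`,
  `ed|a`, `b ~ e` gives `be|a`.

It may be convenient to prove each case as a separate lemma about an arbitrary relation `G`
closed under the rules. Work with a strengthened induction hypothesis (fact and `P`) or prove `P`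
by induction on the derivation `Cl`, the derivations of the premises being available.
-/

namespace Pool.Agent.H8.CR

variable {V : Type*} {H : SimpleGraph V} {X : Set V} {F0 : V → V → V → Prop}

theorem PLem2_tri (htri : ∀ u v w, F0 u v w → Tri H X u v w) {u v w : V}
    (h : Cl H X F0 u v w) : Tri H X u v w := by
  induction h with
  | base h => exact htri _ _ _ h
  | symm _ ih => exact ⟨ih.2.1, ih.1, ih.2.2.1, ih.2.2.2.1.symm, ih.2.2.2.2.2, ih.2.2.2.2.1⟩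
  | d1 _ hx _ h2 h3 ih => exact ⟨ih.1, ih.2.1, hx, ih.2.2.2.1, h2.symm, h3.symm⟩
  | d2 _ hx _ h2 h3 ih => exact ⟨hx, ih.2.1, ih.2.2.1, h2, h3, ih.2.2.2.2.2⟩
  | k1a _ _ h1 ih ih' => exact ⟨ih.1, ih.2.1, ih'.2.2.1, ih.2.2.2.1, h1, ih'.2.2.2.2.1⟩
  | k1b _ _ h1 ih ih' => exact ⟨ih.1, ih.2.2.1, ih'.2.2.1, ih.2.2.2.2.1, h1, ih'.2.2.2.2.2⟩
  | k2a _ _ h1 ih ih' => exact ⟨ih.1, ih.2.1, ih'.2.1, ih.2.2.2.1, h1, ih'.2.2.2.2.2.symm⟩
  | k2b _ _ h1 ih ih' => exact ⟨ih'.1, ih'.2.1, ih.1, ih'.2.2.2.1, ih.2.2.2.2.1.symm, h1.symm⟩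
  | k3 _ _ h1 ih ih' => exact ⟨ih.1, ih'.1, ih.2.2.1, h1, ih.2.2.2.2.1, ih'.2.2.2.2.1⟩

/-- the property `P` of a fact -/
def PLem2P (H : SimpleGraph V) (X : Set V) (F0 : V → V → V → Prop) (a b c : V) : Prop :=
  ∀ d ∈ X, H.Adj d a → H.Adj d b → H.Adj d c →
    Cl H X F0 a b d ∨ (Cl H X F0 a d c ∧ Cl H X F0 b d c)

theorem PLem2P_symm {a b c : V} (h : PLem2P H X F0 a b c) : PLem2P H X F0 b a c := by
  intro e he h1 h2 h3
  rcases h e he h2 h1 h3 with h | ⟨h, h'⟩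
  · exact Or.inl h.symm
  · exact Or.inr ⟨h', h⟩

theorem PLem2_k2a (hcons : ∀ u v w, Cl H X F0 u v w → ¬ Cl H X F0 u w v) {a b c d : V}
    (h : Cl H X F0 a b c) (h1 : H.Adj a d) (h2 : H.Adj b d)
    (ih : PLem2P H X F0 a b c) (ih' : PLem2P H X F0 c d b) : PLem2P H X F0 a b d := by
  intro e he ea eb ed
  by_cases hec : H.Adj e c
  · rcases ih e he ea eb hec with h3 | ⟨h3, h4⟩
    · exact Or.inl h3
    · rcases ih' e he hec ed eb with h5 | ⟨h5, -⟩
      · exact Or.inr ⟨Cl.k2a h3 h5 h1, Cl.k2a h4 h5 h2⟩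
      · exact absurd h5.symm (hcons _ _ _ h4.symm)
  · exact Or.inl (Cl.d1 h he hec ea eb)

theorem PLem2_P (htri : ∀ u v w, F0 u v w → Tri H X u v w)
    (hP : ∀ a b c, F0 a b c → ∀ d ∈ X, H.Adj d a → H.Adj d b → H.Adj d c →
      Cl H X F0 a b d ∨ (Cl H X F0 a d c ∧ Cl H X F0 b d c))
    (hcons : ∀ u v w, Cl H X F0 u v w → ¬ Cl H X F0 u w v) {u v w : V}
    (h : Cl H X F0 u v w) : PLem2P H X F0 u v w := by
  induction h with
  | base h => exact hP _ _ _ h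
  | symm _ ih => exact PLem2P_symm ih
  | d1 h hx h1 h2 h3 ih =>
    rename_i u v w x
    intro e he eu ev ex
    by_cases hew : H.Adj e w
    · rcases ih e he eu ev hew with h4 | ⟨h4, h5⟩
      · exact Or.inl h4
      · exact Or.inr ⟨Cl.d1 h4 hx h1 h2 ex.symm, Cl.d1 h5 hx h1 h3 ex.symm⟩
    · exact Or.inl (Cl.d1 h he hew eu ev)
  | d2 h hx h1 h2 h3 ih =>
    rename_i u v w x
    intro e he ex ev ew
    have hxv : Cl H X F0 x v w := Cl.d2 h hx h1 h2 h3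
    by_cases heu : H.Adj e u
    · rcases ih e he heu ev ew with h4 | ⟨h4, h5⟩
      · exact Or.inl (Cl.d2 h4 hx h1 h2 ex.symm)
      · exact Or.inr ⟨Cl.k3 hxv h5.symm ex.symm, h5⟩
    · have h6 : Cl H X F0 e v w := Cl.d2 h he heu ev ew
      exact Or.inr ⟨Cl.k3 hxv h6 ex.symm, h6.symm⟩
  | k1a h h' h1 ih ih' =>
    rename_i a b c d
    intro e he ea eb ed
    by_cases hec : H.Adj e c
    · rcases ih e he ea eb hec with h3 | ⟨h3, h4⟩
      · exact Or.inl h3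
      · rcases ih' e he eb hec ed with h5 | ⟨h5, h6⟩
        · exact absurd h5 (hcons _ _ _ h4)
        · exact Or.inr ⟨Cl.k1a h3 h6.symm h1, h5⟩
    · exact Or.inl (Cl.d1 h he hec ea eb)
  | k1b h h' h1 ih ih' =>
    rename_i a b c d
    intro e he ea ec ed
    have habd : Cl H X F0 a b d := Cl.k1a h h' h1
    by_cases heb : H.Adj e b
    · rcases ih' e he heb ec ed with h5 | ⟨h5, h6⟩
      · exact Or.inl (Cl.k1b h h5 ea.symm)
      · exact Or.inr ⟨Cl.k3 habd h5.symm ea.symm, h6⟩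
    · exact Or.inr ⟨(Cl.d2 habd.symm he heb ea ed).symm, (Cl.d2 h' he heb ec ed).symm⟩
  | k2a h h' h1 ih ih' =>
    exact PLem2_k2a hcons h h1 (PLem2_tri htri h').2.2.2.2.2.symm ih ih'
  | k2b h h' h1 ih ih' =>
    refine PLem2P_symm (PLem2_k2a hcons h'.symm h1.symm ?_ (PLem2P_symm ih') (PLem2P_symm ih))
    exact (PLem2_tri htri h).2.2.2.2.1.symm
  | k3 h h' h1 ih ih' =>
    rename_i a b c d
    intro e he eb ec ea
    by_cases hed : H.Adj e d
    · rcases ih e he eb hed ea with h5 | ⟨h5, h6⟩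
      · rcases ih' e he ec hed ea with h7 | ⟨h7, h8⟩
        · exact Or.inl (Cl.k3 h5 h7 h1)
        · exact Or.inr ⟨Cl.k3 h h8.symm eb.symm, h7⟩
      · rcases ih' e he ec hed ea with h7 | ⟨h7, h8⟩
        · exact Or.inr ⟨h5, Cl.k3 h' h6.symm ec.symm⟩
        · exact Or.inr ⟨h5, h7⟩
    · exact Or.inr ⟨(Cl.d2 h.symm he hed eb ea).symm, (Cl.d2 h'.symm he hed ec ea).symm⟩

theorem Cl.pure (htri : ∀ u v w, F0 u v w → Tri H X u v w)
    (hP : ∀ a b c, F0 a b c → ∀ d ∈ X, H.Adj d a → H.Adj d b → H.Adj d c →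
      Cl H X F0 a b d ∨ (Cl H X F0 a d c ∧ Cl H X F0 b d c))
    (hcons : ∀ u v w, Cl H X F0 u v w → ¬ Cl H X F0 u w v) : Pure H X (Cl H X F0) where
  tri := fun _ _ _ h => PLem2_tri htri h
  symm := fun _ _ _ h => h.symm
  cons := hcons
  d1 := fun _ _ _ _ h hx h1 h2 h3 => Cl.d1 h hx h1 h2 h3
  d2 := fun _ _ _ _ h hx h1 h2 h3 => Cl.d2 h hx h1 h2 h3
  k := fun _ _ _ d h hd h1 h2 h3 => PLem2_P htri hP hcons h d hd h1 h2 h3

end Pool.Agent.H8.CR
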