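import Pool.Agent.H8.CR.PLem1
import Pool.Agent.H8.CR.PLem2

/-!
# The two closures used by the algorithm are pure

* `nb_pure`: apply `Cl.pure`. Let `F0nb p q t`, witness `u` (`u ∉ X`, `u ~ p, q`, `u ≁ t`), and let
  `d ∈ X` be adjacent to `p, q, t`. If `u ~ d`: `F0nb p d t` and `F0nb q d t` hold with the same
  witness. If `u ≁ d`: `F0nb p q d`.
* `commit_pure`: `F` pure, `G = Cl (addE ..)`. Facts of `F`: `P` holds by `Pure.k` (and `base`).
  New fact `hk|v` (or `kh|v`), `(h, k, v)` unresolved; `d ∈ X` adjacent to `h, k, v`. If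
  `(h, k, d)` is unresolved, `hk|d` is a new fact. Otherwise `F h k d` (fine), or `F h d k`, or
  `F k d h`. Suppose `F h d k`: `Pure.k` for it and the vertex `v`: `F h d v` or (`F h v k` and ..); the
  second contradicts that `(h, k, v)` is unresolved. So `hd|v`; and from `hk|v`, `hd|v` the rule
  `Cl.k3` (`b = k`, `d = h`, `c = d`, `k ~ d`) gives `kd|v`. So the second alternative `hd|v, kd|v`
  holds. `F k d h` is symmetric.
* `le_commit`: `F ≤ Commit`.
* `commit_new`: an unresolved triangle `(h, k, v)` becomes a fact.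
-/

namespace Pool.Agent.H8.CR

variable {V : Type*} {H : SimpleGraph V} {E X : Set V} {F : V → V → V → Prop}

theorem nb_pure (hcons : ∀ u v w, Cl H X (F0nb H E X) u v w → ¬ Cl H X (F0nb H E X) u w v) :
    Pure H X (Cl H X (F0nb H E X)) := by
  refine Cl.pure (fun u v w h => h.1) ?_ hcons
  rintro a b c ⟨⟨ha, hb, hc, hab, hac, hbc⟩, u, hu, huX, hua, hub, huc⟩ d hd hda hdb hdc
  by_cases hud : H.Adj u d
  · exact Or.inr ⟨.base ⟨⟨ha, hd, hc, hda.symm, hac, hdc⟩, u, hu, huX, hua, hud, huc⟩,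
      .base ⟨⟨hb, hd, hc, hdb.symm, hbc, hdc⟩, u, hu, huX, hub, hud, huc⟩⟩
  · exact Or.inl (.base ⟨⟨ha, hb, hd, hab, hda.symm, hdb.symm⟩, u, hu, huX, hua, hub, hud⟩)

theorem PLem3_aux (hF : Pure H X F) {h k c d : V} (hU : Unres H X F h k c) (hd : d ∈ X)
    (hdh : H.Adj d h) (hdk : H.Adj d k) (hdc : H.Adj d c) :
    Commit H X F h k h k d ∨ (Commit H X F h k h d c ∧ Commit H X F h k k d c) := by
  obtain ⟨⟨hh, hk, hc, hhk, hhc, hkc⟩, n1, n2, n3⟩ := hU
  have hnew : Commit H X F h k h k c := .base (.inr ⟨⟨⟨hh, hk, hc, hhk, hhc, hkc⟩, n1, n2, n3⟩,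
    .inl ⟨rfl, rfl⟩⟩)
  by_cases hUd : Unres H X F h k d
  · exact Or.inl (.base (.inr ⟨hUd, .inl ⟨rfl, rfl⟩⟩))
  · by_cases h1 : F h k d
    · exact Or.inl (.base (.inl h1))
    · by_cases h2 : F h d k
      · rcases hF.k h d k c h2 hc hhc.symm hdc.symm hkc.symm with h3 | h3
        · have h4 : Commit H X F h k h d c := .base (.inl h3)
          exact Or.inr ⟨h4, Cl.k3 hnew.symm h4.symm hdk.symm⟩
        · exact absurd h3.1 n2
      · by_cases h3 : F k d h
        · rcases hF.k k d h c h3 hc hkc.symm hdc.symm hhc.symm with h4 | h4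
          · have h5 : Commit H X F h k k d c := .base (.inl h4)
            exact Or.inr ⟨Cl.k3 hnew h5.symm hdh.symm, h5⟩
          · exact absurd h4.1 n3
        · exact absurd ⟨⟨hh, hk, hd, hhk, hdh.symm, hdk.symm⟩, h1, h2, h3⟩ hUd

theorem commit_pure (hF : Pure H X F) {h k : V}
    (hcons : ∀ u v w, Commit H X F h k u v w → ¬ Commit H X F h k u w v) :
    Pure H X (Commit H X F h k) := by
  refine Cl.pure ?_ ?_ hcons
  · rintro u v w (h1 | ⟨h1, ⟨rfl, rfl⟩ | ⟨rfl, rfl⟩⟩)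
    · exact hF.tri _ _ _ h1
    · exact h1.1
    · obtain ⟨hh, hk, hc, hhk, hhc, hkc⟩ := h1.1
      exact ⟨hk, hh, hc, hhk.symm, hkc, hhc⟩
  · rintro a b c (h1 | ⟨h1, ⟨rfl, rfl⟩ | ⟨rfl, rfl⟩⟩) d hd hda hdb hdc
    · rcases hF.k a b c d h1 hd hda hdb hdc with h2 | h2
      · exact Or.inl (.base (.inl h2))
      · exact Or.inr ⟨.base (.inl h2.1), .base (.inl h2.2)⟩
    · exact PLem3_aux hF h1 hd hda hdb hdc
    · rcases PLem3_aux hF h1 hd hdb hda hdc with h2 | h2
      · exact Or.inl h2.symm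
      · exact Or.inr ⟨h2.2, h2.1⟩

theorem le_commit {h k u v w : V} (hF : F u v w) : Commit H X F h k u v w := .base (.inl hF)

theorem commit_new {h k v : V} (hv : Unres H X F h k v) : Commit H X F h k h k v :=
  .base (.inr ⟨hv, .inl ⟨rfl, rfl⟩⟩)

end Pool.Agent.H8.CR
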