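import Pool.Agent.H8.CR.Comp1

/-!
# Components of pure relations: modules, closed sets, classes of edges

Let `F` be pure on `X`, `y, v ∈ X` adjacent, `B = Cp F y v`.

* `Cp_mod`: let `t ∈ X` be adjacent to `y`, `t ∉ B`, `p, q ∈ B`, `t ~ p`. Then `t ~ q`.
  By connectivity of `B` (chain of steps `F a b y`) it suffices to treat one step `F p q y`.
  If `t ≁ q`: apply `d2` to `F q p y` (`u = q`, `v = p`, `w = y`, `x = t`): `F t p y`, hence `t ∈ B`,
  contradiction.
* `Cp_closed`: let `p, q ∈ B` be adjacent, `t ∈ X`, `t ∉ B`, `t ~ p`, `t ~ q`. Then `F p q t`.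
  We have `F p q y` by `Cp_adj`. If `t = y`: this is the claim. If `t ≁ y`: `d1`. If `t ~ y`,
  apply `k` to `F p q y` and `d = t`: `F p q t` or `F p t y ∧ F q t y`; the second gives `t ∈ B`.
  (`B ⊆ X` is `Cp_sub`.)
* `Cp_class`: let `F v w u`. Claim `Cp F v u = Cp F w u` (components at `v` and at `w` that contain
  `u`). It suffices to prove: if `F u1 u2 v` and `F v w u1` then `F u1 u2 w` and `F v w u2`
  (then follow the chain; the other inclusion is symmetric since `F w v u`).
  Proof: `u2 ~ w`: otherwise apply `d2` to `F w v u1` (`u := w`, `v := v`, `w := u1`, `x := u2`,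
  which is not adjacent to `w` but adjacent to `v` and `u1`): `F u2 v u1`; with `F u1 u2 v` this
  contradicts consistency. Now `u1, u2, v, w` are pairwise adjacent. `k` for `F v w u1` and `u2`:
  `F v w u2` or (`F v u2 u1` and ..); the second contradicts `F u1 u2 v`. `k` for `F u1 u2 v`
  and `w`: `F u1 u2 w` or (`F u1 w v` and ..); the second contradicts `F v w u1`.
* `Cp_biclique`: let `u, v ∈ X` be adjacent, `a ∈ Cp F v u` (the component at `v` of `u`),
  `b ∈ Cp F u v`. Then `a ~ b`, `Cp F b a = Cp F v u`, `Cp F a b = Cp F u v`.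
  First `Cp F b u = Cp F v u`: follow the chain `v = b0, b1, ..., b` with `F b_i b_{i+1} u`, using
  `Cp_class`. So `a ∈ Cp F b u`, hence `a ~ b` (`Cp_sub`, `b ∈ X` by `Cp_sub`), and
  `Cp F b a = Cp F b u = Cp F v u` by `Cp_eq`. Symmetrically (roles of `u`, `v` exchanged)
  `Cp F a v = Cp F u v` and so `Cp F a b = Cp F a v = Cp F u v`.
* `closed_Cp`: `S` closed, `p, q ∈ S` adjacent. Then `Cp F p q ⊆ S`: follow the chain: if `a ∈ S`
  and `F a b p` and `b ∉ S` then closedness (`p, a ∈ S`, `b ∉ S`, all adjacent) gives `F p a b`,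
  contradicting `F a b p` (consistency and symmetry).
-/

namespace Pool.Agent.H8.CR

open Relation

variable {V : Type*} {H : SimpleGraph V} {X : Set V} {F : V → V → V → Prop}

theorem Cp_mod (hF : Pure H X F) {y v t p q : V} (hy : y ∈ X) (hv : v ∈ X) (hyv : H.Adj y v)
    (ht : t ∈ X) (hyt : H.Adj y t) (htn : t ∉ Cp F y v) (hp : p ∈ Cp F y v)
    (hq : q ∈ Cp F y v) (htp : H.Adj t p) : H.Adj t q := by
  have hpq : q ∈ Cp F y p := by rw [Cp_eq hF hp]; exact hq
  have key : ∀ z, ReflTransGen (fun a b => F a b y) p z → H.Adj t z := by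
    intro z hz
    induction hz with
    | refl => exact htp
    | tail h1 h2 ih =>
      rename_i z z'
      by_contra hn
      have h3 : F t z y := hF.d2 z' z y t (hF.symm _ _ _ h2) ht hn ih hyt.symm
      apply htn
      rw [← Cp_eq hF hp]
      exact ReflTransGen.tail h1 (hF.symm _ _ _ h3)
  exact key q hpq

theorem Cp_closed (hF : Pure H X F) {y v : V} (hy : y ∈ X) (hv : v ∈ X) (hyv : H.Adj y v) :
    Closed H X F (Cp F y v) := by
  refine ⟨fun z hz => (Cp_sub hF hv hyv hz).1, ?_⟩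
  intro p q t hp hq hpq ht htn htp htq
  have h1 : F p q y := Cp_adj hF hy hv hyv hp hq hpq
  by_cases hty : t = y
  · rw [hty]; exact h1
  · by_cases ha : H.Adj t y
    · rcases hF.k p q y t h1 ht htp htq ha with h2 | ⟨h2, -⟩
      · exact h2
      · exact absurd (ReflTransGen.tail hp h2) htn
    · exact hF.d1 p q y t h1 ht ha htp htq

theorem Comp2_step (hF : Pure H X F) {u1 u2 v w : V} (h1 : F u1 u2 v) (h2 : F v w u1) :
    F u1 u2 w ∧ F v w u2 := by
  obtain ⟨x1, x2, x3, a12, a1v, a2v⟩ := hF.tri _ _ _ h1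
  obtain ⟨-, x4, -, avw, -, aw1⟩ := hF.tri _ _ _ h2
  have hno : ¬ F u2 v u1 := hF.cons _ _ _ (hF.symm _ _ _ h1)
  have a2w : H.Adj u2 w := by
    by_contra hn
    exact hno (hF.d2 w v u1 u2 (hF.symm _ _ _ h2) x2 hn a2v a12.symm)
  constructor
  · rcases hF.k u1 u2 v w h1 x4 aw1 a2w.symm avw.symm with h3 | ⟨h3, -⟩
    · exact h3
    · exact absurd (hF.symm _ _ _ h3) (hF.cons _ _ _ (hF.symm _ _ _ h2))
  · rcases hF.k v w u1 u2 h2 x2 a2v a2w a12.symm with h3 | ⟨h3, -⟩
    · exact h3
    · exact absurd (hF.symm _ _ _ h3) hno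

theorem Comp2_class_sub (hF : Pure H X F) {u v w : V} (h : F v w u) : Cp F v u ⊆ Cp F w u := by
  have key : ∀ z, ReflTransGen (fun a b => F a b v) u z →
      ReflTransGen (fun a b => F a b w) u z ∧ F v w z := by
    intro z hz
    induction hz with
    | refl => exact ⟨ReflTransGen.refl, h⟩
    | tail h1 h2 ih =>
      obtain ⟨h3, h4⟩ := Comp2_step hF h2 ih.2
      exact ⟨ReflTransGen.tail ih.1 h3, h4⟩
  intro z hz
  exact (key z hz).1

theorem Cp_class (hF : Pure H X F) {u v w : V} (h : F v w u) : Cp F v u = Cp F w u :=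
  Set.Subset.antisymm (Comp2_class_sub hF h) (Comp2_class_sub hF (hF.symm _ _ _ h))

theorem Comp2_chain (hF : Pure H X F) {u v b : V} (hb : b ∈ Cp F u v) :
    Cp F b u = Cp F v u := by
  have key : ∀ z, ReflTransGen (fun a b => F a b u) v z → Cp F z u = Cp F v u := by
    intro z hz
    induction hz with
    | refl => rfl
    | tail h1 h2 ih => rw [← ih, Cp_class hF h2]
  exact key b hb

theorem Cp_biclique (hF : Pure H X F) {u v a b : V} (hu : u ∈ X) (hv : v ∈ X)
    (huv : H.Adj u v) (ha : a ∈ Cp F v u) (hb : b ∈ Cp F u v) :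
    H.Adj a b ∧ Cp F b a = Cp F v u ∧ Cp F a b = Cp F u v := by
  have h1 : Cp F b u = Cp F v u := Comp2_chain hF hb
  have h2 : Cp F a v = Cp F u v := Comp2_chain hF ha
  have hb' := Cp_sub hF hv huv hb
  have ha1 : a ∈ Cp F b u := by rw [h1]; exact ha
  have hb1 : b ∈ Cp F a v := by rw [h2]; exact hb
  have h3 := Cp_sub hF hu hb'.2.symm ha1
  exact ⟨h3.2.symm, (Cp_eq hF ha1).trans h1, (Cp_eq hF hb1).trans h2⟩

theorem closed_Cp (hF : Pure H X F) {S : Set V} (hS : Closed H X F S) {p q : V} (hp : p ∈ S)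
    (hq : q ∈ S) (hpq : H.Adj p q) : Cp F p q ⊆ S := by
  have key : ∀ z, ReflTransGen (fun a b => F a b p) q z → z ∈ S := by
    intro z hz
    induction hz with
    | refl => exact hq
    | tail h1 h2 ih =>
      rename_i z z'
      by_contra hn
      obtain ⟨x1, x2, x3, a1, a2, a3⟩ := hF.tri _ _ _ h2
      have h3 : F p z z' := hS.2 p z z' hp ih a2.symm x2 hn a3 a1.symm
      exact hF.cons _ _ _ h2 (hF.symm _ _ _ h3)
  intro z hz
  exact key z hz

end Pool.Agent.H8.CR
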