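import Pool.Agent.H8.CR.Tree2
import Pool.Agent.H8.CR.Comp2

/-!
# Compatible sets are exactly the closed connected sets

Let `t` be valid, `supp t ⊆ E`.

* `TC_conn`: a compatible set `S` induces a connected graph on `S ∩ supp t`. Induction: node `l r`.
  If `S` misses one side, use the other side. Otherwise `S` contains the ends of all cross edges;
  `S ∩ l` and `S ∩ r` are connected by induction and there is a cross edge. (Monotonicity of `Rch`
  in the vertex set.)
* `att_sub` : helper. For a node the set `M = {a ∈ l | a has a neighbour in r}` equals `N(b) ∩ l` for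
  every `b ∈ r` which has a neighbour in `l`; so it is compatible with `l` (`TC_nb`, `b ∈ E`, `b ∉ l`)
  and connected.
* `TC_closed`: if `S` is compatible then `S ∩ supp t` is closed for `al H t`: by `sepS`.
* `TC_of_closed`: let `S ⊆ supp t` be connected and closed for `al H t`. Then `S` is compatible.
  Induction on the tree; node `l r`, write `F = al H t`. If `S` misses one side, say `S ⊆ l`: the node
  condition holds, `S` is closed for `al H l` (for triangles inside `l`, `Sp t ↔ Sp l`, since the other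
  alternatives of `Sp` need a vertex in `r`, by disjointness), so the induction hypothesis applies;
  `TC_disj` for `r`. If `S` meets both sides, connectivity gives a cross edge `a b` in `S`, `a ∈ l`,
  `b ∈ r`. Let `M = {x ∈ l | x has a neighbour in r}`, it is connected and `a ∈ M`. If
  `a' ∈ M` is adjacent to `a'' ∈ M ∩ S` and `a' ∉ S`: `b` is adjacent to both (completeness), so
  closedness (`a'', b ∈ S`, `a' ∉ S`) gives `Sp t a'' b a'`, impossible as `a'', a' ∈ l`, `b ∈ r`
  (`Sp_cons`: we also have `Sp t a'' a' b`). So `M ⊆ S` by connectivity, likewise on the right side: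
  the node condition holds. Moreover `S ∩ l` is connected: a path in `S` between two points of
  `S ∩ l` that leaves `l` does so through `M` and comes back through `M`, and `M ⊆ S` is connected
  (invariant along the path from `x`: the current vertex `z` is in `l` and reachable from `x` in
  `S ∩ l`, or `z ∈ r` and some `m ∈ M` is reachable from `x` in `S ∩ l`). `S ∩ l` is closed for
  `al H l`. Induction hypothesis for `S ∩ l` and `S ∩ r`, and `TC_congr`.
-/

namespace Pool.Agent.H8.CR

open Relation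

variable {V : Type*} {H : SimpleGraph V} {E : Set V}

theorem Rch_mono {S S' : Set V} (h : S ⊆ S') {a b : V} (hab : Rch H S a b) : Rch H S' a b := by
  unfold Rch at *
  induction hab with
  | refl => exact ReflTransGen.refl
  | tail _ hst ih => exact ReflTransGen.tail ih ⟨hst.1, h hst.2.1, h hst.2.2⟩

theorem Rch_symm {S : Set V} {a b : V} (hab : Rch H S a b) : Rch H S b a := by
  unfold Rch at *
  induction hab with
  | refl => exact ReflTransGen.refl
  | tail _ hst ih => exact ReflTransGen.head ⟨hst.1.symm, hst.2.2, hst.2.1⟩ ih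

theorem Conn_union {A B : Set V} (hA : Conn H A) (hB : Conn H B) {a b : V} (ha : a ∈ A) (hb : b ∈ B)
    (hab : H.Adj a b) : Conn H (A ∪ B) := by
  have h1 : ∀ x ∈ A, ∀ y ∈ B, Rch H (A ∪ B) x y := by
    intro x hx y hy
    have e1 : Rch H (A ∪ B) x a := Rch_mono Set.subset_union_left (hA x hx a ha)
    have e2 : Rch H (A ∪ B) b y := Rch_mono Set.subset_union_right (hB b hb y hy)
    have e3 : Rch H (A ∪ B) a b := ReflTransGen.single ⟨hab, Or.inl ha, Or.inr hb⟩
    exact ReflTransGen.trans (ReflTransGen.trans e1 e3) e2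
  intro x hx y hy
  rcases hx with hx | hx
  · rcases hy with hy | hy
    · exact Rch_mono Set.subset_union_left (hA x hx y hy)
    · exact h1 x hx y hy
  · rcases hy with hy | hy
    · exact Rch_symm (h1 y hy x hx)
    · exact Rch_mono Set.subset_union_right (hB x hx y hy)

theorem TC_conn {t : DT V} (ht : Valid H E t) (hE : t.supp ⊆ E) {S : Set V} (hS : TC H S t) :
    Conn H (S ∩ t.supp) := by
  induction t with
  | leaf v =>
    intro a ha b hb
    have h1 : a = v := ha.2
    have h2 : b = v := hb.2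
    rw [h1, h2]
    exact ReflTransGen.refl
  | node l r ihl ihr =>
    obtain ⟨hcut, _, hl, hr⟩ := ht
    obtain ⟨hnc, hSl, hSr⟩ := hS
    have hlE : l.supp ⊆ E := fun x hx => hE (Or.inl hx)
    have hrE : r.supp ⊆ E := fun x hx => hE (Or.inr hx)
    have cl := ihl hl hlE hSl
    have cr := ihr hr hrE hSr
    have hsup : (DT.node l r).supp = l.supp ∪ r.supp := rfl
    rw [hsup, Set.inter_union_distrib_left]
    rcases hnc with h | h | h
    · have he : S ∩ l.supp = ∅ := by
        ext x
        constructor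
        · rintro ⟨hx1, hx2⟩
          exact absurd hx1 (h x hx2)
        · intro hx; exact hx.elim
      rw [he, Set.empty_union]
      exact cr
    · have he : S ∩ r.supp = ∅ := by
        ext x
        constructor
        · rintro ⟨hx1, hx2⟩
          exact absurd hx1 (h x hx2)
        · intro hx; exact hx.elim
      rw [he, Set.union_empty]
      exact cl
    · obtain ⟨a, ha, b, hb, hab⟩ := hcut.2.1
      obtain ⟨h1, h2⟩ := h a ha b hb hab
      exact Conn_union cl cr ⟨h1, ha⟩ ⟨h2, hb⟩ hab

theorem supp_conn {t : DT V} (ht : Valid H E t) (hE : t.supp ⊆ E) : Conn H t.supp := by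
  have := TC_conn ht hE (TC_univ (S := t.supp) (H := H) le_rfl)
  simpa using this

theorem TC_closed {t : DT V} {S : Set V} (hS : TC H S t) :
    Closed H t.supp (al H t) (S ∩ t.supp) := by
  refine ⟨Set.inter_subset_right, ?_⟩
  intro p q x hp hq hpq hx hxS hxp hxq
  have hxS' : x ∉ S := fun h => hxS ⟨h, hx⟩
  exact ⟨⟨hp.2, hq.2, hx, hpq, hxp.symm, hxq.symm⟩,
    sepS hS hp.2 hq.2 hx hp.1 hq.1 hxS' hxp hxq⟩

/-- the vertices of `A` with a neighbour in `B` -/
def Mb (H : SimpleGraph V) (A B : Set V) : Set V := {x | x ∈ A ∧ ∃ y ∈ B, H.Adj x y}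

theorem Mb_conn {l : DT V} {B : Set V} (hl : Valid H E l) (hE : l.supp ⊆ E) (hB : B ⊆ E)
    (hc : Cut H l.supp B) : Conn H (Mb H l.supp B) := by
  obtain ⟨hd, ⟨a, ha, b, hb, hab⟩, hcomp⟩ := hc
  have hbl : b ∉ l.supp := fun h => Set.disjoint_left.1 hd h hb
  have h1 := TC_conn hl hE (TC_nb hl (hB hb) hbl)
  have h2 : Mb H l.supp B = H.neighborSet b ∩ l.supp := by
    ext x
    constructor
    · rintro ⟨hx, y, hy, hxy⟩
      exact ⟨(hcomp x hx y hy a ha b hb hxy hab).symm, hx⟩
    · rintro ⟨hx, hxl⟩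
      exact ⟨hxl, b, hb, (show H.Adj b x from hx).symm⟩
  rw [h2]
  exact h1

theorem closed_left {l r : DT V} {S : Set V} (hd : Disjoint l.supp r.supp)
    (hcl : Closed H (DT.node l r).supp (al H (DT.node l r)) S) :
    Closed H l.supp (al H l) (S ∩ l.supp) := by
  refine ⟨Set.inter_subset_right, ?_⟩
  intro p q x hp hq hpq hx hxS hxp hxq
  have hxS' : x ∉ S := fun h => hxS ⟨h, hx⟩
  have hs := (hcl.2 p q x hp.1 hq.1 hpq (Or.inl hx) hxS' hxp hxq).2
  refine ⟨⟨hp.2, hq.2, hx, hpq, hxp.symm, hxq.symm⟩, ?_⟩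
  rcases hs with h | h | h | h
  · exact absurd h.2.2 (Set.disjoint_left.1 hd hx)
  · exact absurd h.1 (Set.disjoint_left.1 hd hp.2)
  · exact h
  · exact absurd (Sp_mem h).1 (Set.disjoint_left.1 hd hp.2)

theorem closed_swap {l r : DT V} {S : Set V}
    (hcl : Closed H (DT.node l r).supp (al H (DT.node l r)) S) :
    Closed H (DT.node r l).supp (al H (DT.node r l)) S := by
  have hsup : (DT.node r l).supp = (DT.node l r).supp := Set.union_comm _ _
  rw [hsup]
  refine ⟨hcl.1, ?_⟩
  intro p q x hp hq hpq hx hxS hxp hxq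
  obtain ⟨h1, h2⟩ := hcl.2 p q x hp hq hpq hx hxS hxp hxq
  refine ⟨?_, ?_⟩
  · rw [hsup]; exact h1
  · rcases h2 with h | h | h | h
    · exact Or.inr (Or.inl h)
    · exact Or.inl h
    · exact Or.inr (Or.inr (Or.inr h))
    · exact Or.inr (Or.inr (Or.inl h))

theorem Mb_sub {l r : DT V} {S : Set V} (hc : Cut H l.supp r.supp)
    (hM : Conn H (Mb H l.supp r.supp))
    (hcl : Closed H (DT.node l r).supp (al H (DT.node l r)) S) {a b : V} (ha : a ∈ S)
    (hal : a ∈ l.supp) (hb : b ∈ S) (hbr : b ∈ r.supp) (hab : H.Adj a b) :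
    Mb H l.supp r.supp ⊆ S := by
  intro x hx
  have hd := hc.1
  have haM : a ∈ Mb H l.supp r.supp := ⟨hal, b, hbr, hab⟩
  have hnb : ∀ z ∈ Mb H l.supp r.supp, H.Adj z b := by
    rintro z ⟨hz, y, hy, hzy⟩
    exact hc.2.2 z hz y hy a hal b hbr hzy hab
  have key : ∀ z, Rch H (Mb H l.supp r.supp) a z → z ∈ S := by
    intro z hz
    unfold Rch at hz
    induction hz with
    | refl => exact ha
    | @tail z z' _ hst ih =>
      obtain ⟨hzz, hzM, hzM'⟩ := hst
      by_contra hns
      have hs := (hcl.2 z b z' ih hb (hnb z hzM) (Or.inl hzM'.1) hns hzz.symm (hnb z' hzM')).2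
      rcases hs with h | h | h | h
      · exact Set.disjoint_left.1 hd h.2.1 hbr
      · exact Set.disjoint_left.1 hd hzM.1 h.1
      · exact Set.disjoint_left.1 hd (Sp_mem h).2.1 hbr
      · exact Set.disjoint_left.1 hd hzM.1 (Sp_mem h).1
  exact key x (hM a haM x hx)

theorem cross_of_rch {A B S : Set V} (hd : Disjoint A B) (hS : S ⊆ A ∪ B) {x y : V} (hx : x ∈ A)
    (hy : y ∈ B) (h : Rch H S x y) : ∃ a ∈ S, ∃ b ∈ S, a ∈ A ∧ b ∈ B ∧ H.Adj a b := by
  have key : ∀ z, Rch H S x z → z ∈ A ∨ ∃ a ∈ S, ∃ b ∈ S, a ∈ A ∧ b ∈ B ∧ H.Adj a b := by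
    intro z hz
    unfold Rch at hz
    induction hz with
    | refl => exact Or.inl hx
    | @tail z z' _ hst ih =>
      obtain ⟨hzz, hz1, hz2⟩ := hst
      rcases ih with ih | ih
      · rcases hS hz2 with h2 | h2
        · exact Or.inl h2
        · exact Or.inr ⟨z, hz1, z', hz2, ih, h2, hzz⟩
      · exact Or.inr ih
  rcases key y h with h1 | h1
  · exact absurd hy (Set.disjoint_left.1 hd h1)
  · exact h1

theorem conn_left {A B S : Set V} (hd : Disjoint A B) (hS : S ⊆ A ∪ B) (hc : Conn H S)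
    (hM : Conn H (Mb H A B)) (hMS : Mb H A B ⊆ S) : Conn H (S ∩ A) := by
  intro x hx y hy
  have hMS' : Mb H A B ⊆ S ∩ A := fun m hm => ⟨hMS hm, hm.1⟩
  have key : ∀ z, Rch H S x z → (z ∈ A ∧ Rch H (S ∩ A) x z) ∨
      (z ∈ B ∧ ∃ m ∈ Mb H A B, Rch H (S ∩ A) x m) := by
    intro z hz
    unfold Rch at hz
    induction hz with
    | refl => exact Or.inl ⟨hx.2, ReflTransGen.refl⟩
    | @tail z z' _ hst ih =>
      obtain ⟨hzz, hz1, hz2⟩ := hst
      rcases ih with ⟨hzA, hr⟩ | ⟨hzB, m, hm, hr⟩
      · rcases hS hz2 with h2 | h2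
        · exact Or.inl ⟨h2, ReflTransGen.tail hr ⟨hzz, ⟨hz1, hzA⟩, ⟨hz2, h2⟩⟩⟩
        · exact Or.inr ⟨h2, z, ⟨hzA, z', h2, hzz⟩, hr⟩
      · rcases hS hz2 with h2 | h2
        · exact Or.inl ⟨h2, ReflTransGen.trans hr
            (Rch_mono hMS' (hM m hm z' ⟨h2, z, hzB, hzz.symm⟩))⟩
        · exact Or.inr ⟨h2, m, hm, hr⟩
  rcases key y (hc x hx.1 y hy.1) with h1 | h1
  · exact h1.2
  · exact absurd h1.1 (Set.disjoint_left.1 hd hy.2)

theorem TC_of_closed {t : DT V} (ht : Valid H E t) (hE : t.supp ⊆ E) {S : Set V}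
    (hSt : S ⊆ t.supp) (hc : Conn H S) (hcl : Closed H t.supp (al H t) S) : TC H S t := by
  induction t generalizing S with
  | leaf v => exact trivial
  | node l r ihl ihr =>
    have ht0 := ht
    obtain ⟨hcut, _, hl, hr⟩ := ht
    have hd := hcut.1
    have hlE : l.supp ⊆ E := fun x hx => hE (Or.inl hx)
    have hrE : r.supp ⊆ E := fun x hx => hE (Or.inr hx)
    have hcl' := closed_swap hcl
    have cll := closed_left hd hcl
    have clr := closed_left hd.symm hcl'
    have hS1 : S ⊆ l.supp ∪ r.supp := hSt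
    have hS2 : S ⊆ r.supp ∪ l.supp := fun x hx => (hSt hx).symm
    by_cases h1 : ∀ a ∈ l.supp, a ∉ S
    · have hSr : S ∩ r.supp = S := by
        ext x
        constructor
        · exact fun hx => hx.1
        · intro hx
          rcases hS1 hx with h | h
          · exact absurd hx (h1 x h)
          · exact ⟨hx, h⟩
      rw [hSr] at clr
      exact ⟨Or.inl h1, TC_disj h1, ihr hr hrE (Set.inter_eq_left.1 hSr) hc clr⟩
    by_cases h2 : ∀ b ∈ r.supp, b ∉ S
    · have hSl : S ∩ l.supp = S := by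
        ext x
        constructor
        · exact fun hx => hx.1
        · intro hx
          rcases hS1 hx with h | h
          · exact ⟨hx, h⟩
          · exact absurd hx (h2 x h)
      rw [hSl] at cll
      exact ⟨Or.inr (Or.inl h2), ihl hl hlE (Set.inter_eq_left.1 hSl) hc cll,
        TC_disj h2⟩
    push Not at h1 h2
    obtain ⟨x, hxl, hxS⟩ := h1
    obtain ⟨y, hyr, hyS⟩ := h2
    obtain ⟨a, haS, b, hbS, hal, hbr, hab⟩ := cross_of_rch hd hS1 hxl hyr (hc x hxS y hyS)
    have Ml := Mb_conn hl hlE hrE hcut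
    have Mr := Mb_conn hr hrE hlE hcut.symm
    have Sl := Mb_sub hcut Ml hcl haS hal hbS hbr hab
    have Sr := Mb_sub hcut.symm Mr hcl' hbS hbr haS hal hab.symm
    have cl := conn_left hd hS1 hc Ml Sl
    have cr := conn_left hd.symm hS2 hc Mr Sr
    refine ⟨Or.inr (Or.inr ?_), ?_, ?_⟩
    · intro u hu v hv huv
      exact ⟨Sl ⟨hu, v, hv, huv⟩, Sr ⟨hv, u, hu, huv.symm⟩⟩
    · refine (TC_congr (S := S ∩ l.supp) ?_).1 (ihl hl hlE Set.inter_subset_right cl cll)
      intro u hu
      exact ⟨fun h => h.1, fun h => ⟨h, hu⟩⟩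
    · refine (TC_congr (S := S ∩ r.supp) ?_).1 (ihr hr hrE Set.inter_subset_right cr clr)
      intro u hu
      exact ⟨fun h => h.1, fun h => ⟨h, hu⟩⟩

end Pool.Agent.H8.CR
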