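import Pool.Agent.H8.CR.Comp3
import Pool.Agent.H8.CR.Tree3

/-!
# Criterion `(*)` is necessary

* `al_node_closed`: `t = node l r` valid, `supp t ⊆ E`: `l.supp` is closed for `al H t` in `supp t`
  (`p, q ∈ l`, `x ∈ r`: `Sp t p q x`), and `Rs (al H t) l.supp = al H l` (disjointness).
* `star_complete`: `t` valid, `supp t ⊆ E` ⇒ `Star H t.supp (al H t)`. Induction on `t`. A leaf has no
  edges. Node `l r`, `F = al H t`, `M = {x ∈ l | x has a neighbour in r}`,
  `M' = {y ∈ r | y has a neighbour in l}`. For a cross edge `x y` (`x ∈ M`, `y ∈ M'`):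
  `M ⊆ Cp F y x` and `M' ⊆ Cp F x y`: `M = N(y) ∩ l` is connected (`TC_nb`, `TC_conn`) and for
  adjacent `m, m' ∈ M` the triangle `m, m', y` gives `F m m' y`. So `V_xy ⊇ M ∪ M'`.
  Let `a b` be an edge.
  (i) `a ∈ l`, `b ∈ r` (or conversely): no cross edge satisfies the relation `R` of `Star`, since
  `a ∈ M`, `b ∈ M'` lie in `V_xy`. So everything reachable from `a` lies in `l`, and `b` is not.
  (ii) `a, b ∈ l` (same for `r`). Suppose `b` is reachable from `a` by `R` in `supp t`. Claim: `b` is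
  reachable from `a` by the relation `R_l` of `Star H l.supp (al H l)`; contradiction to the induction
  hypothesis. For edges `x y` in `l`, `Cp F x y = Cp (al H l) x y` (`Cp_restrict` and
  `al_node_closed`), so `R` and `R_l` agree. Invariant along the path: the current vertex `z` is in `l` and
  reachable from `a` by `R_l`, or `z ∈ r` and some `m ∈ M` is reachable from `a` by `R_l`. If the path
  uses a cross edge `x y`, then `a, b` are not both in `V_xy`, so not both in `M`. In this case all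
  edges inside `M` satisfy `R_l`: `M` is closed for `al H l` (`TC_closed`), so `V ⊆ M`
  for such an edge (`closed_Cp`); and `M` is connected; so all elements of `M` are reachable from
  each other by `R_l`. When the path returns to `l` it does so at an element of `M`.
-/

namespace Pool.Agent.H8.CR

open Relation

variable {V : Type*} {H : SimpleGraph V} {E : Set V}

/-- The step relation of `Star`. -/
def SR (H : SimpleGraph V) (X : Set V) (F : V → V → V → Prop) (a b x y : V) : Prop :=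
  H.Adj x y ∧ x ∈ X ∧ y ∈ X ∧ ¬ (a ∈ Cp F x y ∪ Cp F y x ∧ b ∈ Cp F x y ∪ Cp F y x)

theorem star_iff {X : Set V} {F : V → V → V → Prop} : Star H X F ↔ ∀ a ∈ X, ∀ b ∈ X, H.Adj a b →
    ¬ ReflTransGen (SR H X F a b) a b := Iff.rfl

theorem SR_symm {X : Set V} {F : V → V → V → Prop} {a b x y : V} (h : SR H X F a b x y) :
    SR H X F a b y x := by
  obtain ⟨h1, h2, h3, h4⟩ := h
  refine ⟨h1.symm, h3, h2, ?_⟩
  rwa [Set.union_comm (Cp F y x)]

theorem SR_rch {X : Set V} {F : V → V → V → Prop} (hF : Pure H X F) {A : Set V}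
    (hA : Closed H X F A) (hc : Conn H A) {a b : V} (hn : ¬ (a ∈ A ∧ b ∈ A)) {x y : V}
    (hx : x ∈ A) (hy : y ∈ A) : ReflTransGen (SR H X F a b) x y := by
  refine ReflTransGen.mono ?_ _ _ (hc x hx y hy)
  rintro u v ⟨h1, h2, h3⟩
  refine ⟨h1, hA.1 h2, hA.1 h3, fun h4 => hn ?_⟩
  have h5 := closed_Cp hF hA h2 h3 h1
  have h6 := closed_Cp hF hA h3 h2 h1.symm
  exact ⟨h4.1.elim (fun h => h5 h) (fun h => h6 h), h4.2.elim (fun h => h5 h) (fun h => h6 h)⟩

theorem al_node_closed {l r : DT V} (ht : Valid H E (.node l r)) :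
    Closed H (DT.node l r).supp (al H (.node l r)) l.supp ∧
      Rs (al H (.node l r)) l.supp = al H l := by
  have hd : ∀ {x}, x ∈ l.supp → x ∈ r.supp → False :=
    fun h1 h2 => Set.disjoint_left.1 ht.1.1 h1 h2
  refine ⟨⟨fun x hx => Or.inl hx, fun p q t hp hq hpq ht' htn htp htq => ?_⟩, ?_⟩
  · have htr : t ∈ r.supp := ht'.resolve_left htn
    exact ⟨⟨Or.inl hp, Or.inl hq, ht', hpq, htp.symm, htq.symm⟩, Or.inl ⟨hp, hq, htr⟩⟩
  · funext u v w
    apply propext
    constructor
    · rintro ⟨⟨h1, h2⟩, hu, hv, hw⟩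
      refine ⟨⟨hu, hv, hw, h1.2.2.2⟩, ?_⟩
      rcases h2 with h | h | h | h
      · exact (hd hw h.2.2).elim
      · exact (hd hu h.1).elim
      · exact h
      · exact (hd hu (Sp_mem h).1).elim
    · rintro ⟨h1, h2⟩
      exact ⟨⟨⟨Or.inl h1.1, Or.inl h1.2.1, Or.inl h1.2.2.1, h1.2.2.2⟩,
        Or.inr (Or.inr (Or.inl h2))⟩, h1.1, h1.2.1, h1.2.2.1⟩

theorem supp_swap (l r : DT V) : (DT.node l r).supp = (DT.node r l).supp := Set.union_comm _ _

theorem Sp_swap {l r : DT V} {u v w : V} (h : Sp (.node l r) u v w) : Sp (.node r l) u v w := by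
  rcases h with h | h | h | h
  · exact Or.inr (Or.inl h)
  · exact Or.inl h
  · exact Or.inr (Or.inr (Or.inr h))
  · exact Or.inr (Or.inr (Or.inl h))

theorem al_swap (H : SimpleGraph V) (l r : DT V) : al H (.node l r) = al H (.node r l) := by
  funext u v w
  apply propext
  constructor
  · rintro ⟨h1, h2⟩
    refine ⟨?_, Sp_swap h2⟩
    rwa [supp_swap r l]
  · rintro ⟨h1, h2⟩
    refine ⟨?_, Sp_swap h2⟩
    rwa [supp_swap l r]

/-- For a cross edge `x y` all vertices on the side of `x` with a neighbour on the other side lie in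
the component of `x` at `y`. -/
theorem cross_sub {l r : DT V} (ht : Valid H E (.node l r)) (hE : (DT.node l r).supp ⊆ E)
    {x y m y' : V} (hx : x ∈ l.supp) (hy : y ∈ r.supp) (hxy : H.Adj x y) (hm : m ∈ l.supp)
    (hy' : y' ∈ r.supp) (hmy : H.Adj m y') : m ∈ Cp (al H (.node l r)) y x := by
  have hd : ∀ {x}, x ∈ l.supp → x ∈ r.supp → False :=
    fun h1 h2 => Set.disjoint_left.1 ht.1.1 h1 h2
  have hmy2 : H.Adj m y := ht.1.2.2 m hm y' hy' x hx y hy hmy hxy
  have hlE : l.supp ⊆ E := fun z hz => hE (Or.inl hz)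
  have hcon := TC_conn ht.2.2.1 hlE (TC_nb ht.2.2.1 (hE (Or.inr hy)) (fun h => hd h hy))
  have h := hcon x ⟨hxy.symm, hx⟩ m ⟨hmy2.symm, hm⟩
  refine ReflTransGen.mono ?_ _ _ h
  rintro u v ⟨h1, h2, h3⟩
  exact ⟨⟨Or.inl h2.2, Or.inl h3.2, Or.inr hy, h1, h2.1.symm, h3.1.symm⟩, Or.inl ⟨h2.2, h3.2, hy⟩⟩

theorem star_lr {l r : DT V} (ht : Valid H E (.node l r)) (hE : (DT.node l r).supp ⊆ E)
    {a b : V} (ha : a ∈ l.supp) (hb : b ∈ r.supp) (hab : H.Adj a b) :
    ¬ ReflTransGen (SR H (DT.node l r).supp (al H (.node l r)) a b) a b := by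
  have hd : ∀ {x}, x ∈ l.supp → x ∈ r.supp → False :=
    fun h1 h2 => Set.disjoint_left.1 ht.1.1 h1 h2
  intro h
  have key : ∀ z, ReflTransGen (SR H (DT.node l r).supp (al H (.node l r)) a b) a z →
      z ∈ l.supp := by
    intro z hz
    induction hz with
    | refl => exact ha
    | @tail x y _ hxy ih =>
      rcases hxy.2.2.1 with hy | hy
      · exact hy
      · exfalso
        apply hxy.2.2.2
        refine ⟨Or.inr (cross_sub ht hE ih hy hxy.1 ha hb hab), Or.inl ?_⟩
        have := cross_sub (valid_swap ht) (by rwa [supp_swap r l]) hy ih hxy.1.symm hb ha hab.symm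
        rwa [al_swap H r l] at this
  exact hd (key b h) hb

theorem star_ll {l r : DT V} (ht : Valid H E (.node l r)) (hE : (DT.node l r).supp ⊆ E)
    (ih : Star H l.supp (al H l)) {a b : V} (ha : a ∈ l.supp) (hb : b ∈ l.supp)
    (hab : H.Adj a b) :
    ¬ ReflTransGen (SR H (DT.node l r).supp (al H (.node l r)) a b) a b := by
  have hd : ∀ {x}, x ∈ l.supp → x ∈ r.supp → False :=
    fun h1 h2 => Set.disjoint_left.1 ht.1.1 h1 h2
  have hlE : l.supp ⊆ E := fun z hz => hE (Or.inl hz)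
  have hF := al_pure ht hE
  have hFl := al_pure ht.2.2.1 hlE
  obtain ⟨hcl, hrs⟩ := al_node_closed ht
  intro h
  have key : ∀ z, ReflTransGen (SR H (DT.node l r).supp (al H (.node l r)) a b) a z →
      (z ∈ l.supp ∧ ReflTransGen (SR H l.supp (al H l) a b) a z) ∨
      (z ∈ r.supp ∧ ¬ ((∃ y ∈ r.supp, H.Adj a y) ∧ (∃ y ∈ r.supp, H.Adj b y)) ∧
        ∃ m ∈ l.supp, (∃ y ∈ r.supp, H.Adj m y) ∧
          ReflTransGen (SR H l.supp (al H l) a b) a m) := by
    intro z hz
    induction hz with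
    | refl => exact Or.inl ⟨ha, ReflTransGen.refl⟩
    | @tail x y _ hxy ih2 =>
      rcases ih2 with ⟨hx, hax⟩ | ⟨hx, hnot, m, hm, ⟨y', hy', hmy'⟩, ham⟩
      · rcases hxy.2.2.1 with hy | hy
        · refine Or.inl ⟨hy, hax.tail ⟨hxy.1, hx, hy, ?_⟩⟩
          have e1 := Cp_restrict hF hcl hx hy hxy.1
          have e2 := Cp_restrict hF hcl hy hx hxy.1.symm
          rw [hrs] at e1 e2
          rw [e1, e2]
          exact hxy.2.2.2
        · refine Or.inr ⟨hy, ?_, x, hx, ⟨y, hy, hxy.1⟩, hax⟩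
          rintro ⟨⟨ya, hya, haya⟩, yb, hyb, hbyb⟩
          exact hxy.2.2.2 ⟨Or.inr (cross_sub ht hE hx hy hxy.1 ha hya haya),
            Or.inr (cross_sub ht hE hx hy hxy.1 hb hyb hbyb)⟩
      · rcases hxy.2.2.1 with hy | hy
        · refine Or.inl ⟨hy, ham.trans ?_⟩
          have hxE : x ∈ E := hE (Or.inr hx)
          have hxl : x ∉ l.supp := fun h => hd h hx
          have htc := TC_nb ht.2.2.1 hxE hxl
          have hmx : H.Adj m x := ht.1.2.2 m hm y' hy' y hy x hx hmy' hxy.1.symm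
          refine SR_rch hFl (TC_closed htc) (TC_conn ht.2.2.1 hlE htc) ?_ ⟨hmx.symm, hm⟩
            ⟨hxy.1, hy⟩
          rintro ⟨h1, h2⟩
          exact hnot ⟨⟨x, hx, h1.1.symm⟩, x, hx, h2.1.symm⟩
        · exact Or.inr ⟨hy, hnot, m, hm, ⟨y', hy', hmy'⟩, ham⟩
  rcases key b h with h1 | h1
  · exact star_iff.1 ih a ha b hb hab h1.2
  · exact hd hb h1.1

theorem star_complete {t : DT V} (ht : Valid H E t) (hE : t.supp ⊆ E) :
    Star H t.supp (al H t) := by
  induction t with
  | leaf v =>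
    intro a ha b hb hab
    have h1 : a = v := ha
    have h2 : b = v := hb
    subst h1 h2
    exact (H.irrefl hab).elim
  | node l r ihl ihr =>
    have hlE : l.supp ⊆ E := fun z hz => hE (Or.inl hz)
    have hrE : r.supp ⊆ E := fun z hz => hE (Or.inr hz)
    have hE' : (DT.node r l).supp ⊆ E := by rwa [supp_swap r l]
    refine star_iff.2 fun a ha b hb hab => ?_
    rcases ha with ha | ha <;> rcases hb with hb | hb
    · exact star_ll ht hE (ihl ht.2.2.1 hlE) ha hb hab
    · exact star_lr ht hE ha hb hab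
    · have := star_lr (valid_swap ht) hE' ha hb hab
      rwa [al_swap H r l, supp_swap r l] at this
    · have := star_ll (valid_swap ht) hE' (ihr ht.2.2.2 hrE) ha hb hab
      rwa [al_swap H r l, supp_swap r l] at this

end Pool.Agent.H8.CR
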