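import Pool.Agent.H8.CR.Crit2
import Pool.Agent.H8.CR.Crit3
import Pool.Agent.H8.CR.Star2

/-!
# Criterion `(*)` is sufficient

* `star_cut`: `Good0 H E X F`, `Star H X F`, `X` finite, `a b` maximal ⇒ `∃ C1 C2, CutD ..`.
  Let `R x y` be the relation of `Star` for `a b`: an edge `x y` of `X` with not (`a, b ∈ V_xy`),
  `V_xy = Cp F x y ∪ Cp F y x`. `C1 = {x ∈ X | RTG R a x}`, `C2 = X \ C1`; `b ∈ C2` by `Star`.
  Edges `x y` inside `A = Cp F b a` satisfy `R`: `A` is closed so `V_xy ⊆ A` (`closed_Cp`) and `b ∉ A`.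
  Hence `A ⊆ C1` (`A` is connected, `a ∈ A`). Likewise edges inside `B` satisfy `R` (`a ∉ B`), so
  `B ∩ C1 = ∅`: otherwise `b ∈ C1`. (`R` is symmetric.) Cross edge `x ∈ C1`, `y ∈ C2`: not `R x y`, so
  `a, b ∈ V_xy`; by `class_of_mem` `x ∈ A ∧ y ∈ B` (fine) or `x ∈ B ∧ y ∈ A`, impossible.
* `star_inherit`: `CutD`, `F` pure, `Star H X F ⇒ Star H C1 (Rs F C1)`: for `a', b' ∈ C1` the relation for
  `C1` is contained in the one for `X`, as `Cp (Rs F C1) x y = Cp F x y` for edges in `C1`.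
* `star_sound`: `master` with `Q := fun X F => Star H X F`.
-/

namespace Pool.Agent.H8.CR

open Relation

variable {V : Type*} {H : SimpleGraph V} {E X : Set V} {F : V → V → V → Prop} {C1 C2 : Set V}
  {a b : V}

theorem star_cut (hX : X.Finite) (hG : Good0 H E X F) (hS : Star H X F) (hm : MaxE H X F a b) :
    ∃ C1 C2, CutD H X F C1 C2 a b := by
  obtain ⟨ha, hb, hab, hmax⟩ := id hm
  have hF := hG.pure
  have hAcl := Cp_closed hF hb ha hab.symm
  have hBcl := Cp_closed hF ha hb hab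
  have hbA : b ∉ Cp F b a := fun h => H.irrefl (Cp_sub hF ha hab.symm h).2
  have haB : a ∉ Cp F a b := fun h => H.irrefl (Cp_sub hF hb hab h).2
  have hRA : ∀ x ∈ Cp F b a, ReflTransGen (SR H X F a b) a x := fun x hx =>
    SR_rch hF hAcl (Cp_conn hF b a) (fun h => hbA h.2) (Cp_self F b a) hx
  have hRB : ∀ x ∈ Cp F a b, ReflTransGen (SR H X F a b) x b := fun x hx =>
    SR_rch hF hBcl (Cp_conn hF a b) (fun h => haB h.1) hx (Cp_self F a b)
  have hnot := star_iff.1 hS a ha b hb hab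
  refine ⟨{x | x ∈ X ∧ ReflTransGen (SR H X F a b) a x},
    {x | x ∈ X ∧ ¬ ReflTransGen (SR H X F a b) a x}, ?_, ?_, ⟨ha, ReflTransGen.refl⟩,
    ⟨hb, hnot⟩, hab, fun x hx => ⟨hAcl.1 hx, hRA x hx⟩, fun x hx => ⟨hBcl.1 hx, fun h => ?_⟩, ?_⟩
  · ext x
    simp only [Set.mem_union, Set.mem_ofPred_eq]
    tauto
  · rw [Set.disjoint_left]
    rintro x ⟨_, h1⟩ ⟨_, h2⟩
    exact h2 h1
  · exact hnot (h.trans (hRB x hx))
  · rintro x ⟨hx, hax⟩ y ⟨hy, hay⟩ hxy
    have h1 : a ∈ Cp F x y ∪ Cp F y x ∧ b ∈ Cp F x y ∪ Cp F y x := by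
      by_contra h1
      exact hay (hax.tail ⟨hxy, hx, hy, h1⟩)
    rcases class_of_mem hX hF hm hx hy hxy h1.1 h1.2 with h | h
    · exact h
    · exact (hay (hRA y h.2)).elim

theorem star_inherit (hF : Pure H X F) (h : CutD H X F C1 C2 a b) (hS : Star H X F) :
    Star H C1 (Rs F C1) := by
  have hcl := h.closed hF
  refine star_iff.2 fun a' ha' b' hb' hab' hr => ?_
  refine star_iff.1 hS a' (hcl.1 ha') b' (hcl.1 hb') hab' (ReflTransGen.mono ?_ _ _ hr)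
  rintro x y ⟨h1, h2, h3, h4⟩
  refine ⟨h1, hcl.1 h2, hcl.1 h3, ?_⟩
  rwa [Cp_restrict hF hcl h2 h3 h1, Cp_restrict hF hcl h3 h2 h1.symm] at h4

theorem star_sound (hX : X.Finite) (hG : Good0 H E X F) (hS : Star H X F) :
    ∃ t : DT V, t.supp = X ∧ Valid H E t ∧ ∀ u v w, F u v w → Sp t u v w := by
  refine master H E (fun X F => Star H X F) ?_ X F hX hG hS
  intro X F hX hG hS hab
  obtain ⟨a, b, hm⟩ := exists_max hX F hab
  obtain ⟨C1, C2, hc⟩ := star_cut hX hG hS hm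
  exact ⟨C1, C2, a, b, hc, star_inherit hG.pure hc hS, star_inherit hG.pure hc.symm hS⟩

end Pool.Agent.H8.CR
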