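import Pool.Agent.H8.CR.Anc2
import Pool.Agent.H8.CR.Mod
import Pool.Agent.H8.CR.Glue2
import Pool.Agent.H8.CR.PLem3
import Pool.Agent.H8.CR.Star1
import Pool.Agent.H8.CR.Star2

/-!
# One step of the algorithm

`E` finite, `X ⊆ E`.

* `nb_closed_of_fact`: if `F` contains `F0nb H E X` then `N(u) ∩ X` is closed in `X` for `F`, for all
  `u ∈ E \ X` (by definition of `F0nb`).
* `tree_nb`: `t` valid with ambient `E`, `supp t = X ⊆ E`, `u ∈ E \ X`: `N(u) ∩ X` is connected
  (`TC_nb`, `TC_conn`), closed for `al H t` (`TC_closed`); so `F0nb H E X p q s → al H t p q s`.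
* `inv_init`: `Dec H E X` ⇒ `Inv H E X (Cl H X (F0nb H E X))`. With `t` from `Dec`: `F0nb ≤ al H t`, so
  `Cl .. ≤ al H t` by `Cl.le` and `al_pure`; so it is consistent, and pure by `nb_pure`.
* `inv_step`: `Inv H E X F`, `GE H E X T F h k`, and `T y w w' → Dec H E (Md H E y w w')`. Then
  `Inv H E X (Commit H X F h k)`. `pure`: `commit_pure`. `nb`: `le_commit`. `tree`: let `G = Commit ..`.
  For an edge `y v` of `X` let `B = Cp G y v` (`B ⊆ X`, `B ⊆ N(y)`, finite). By `GE` there are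
  `u, w, w' ∈ B` with `T y w w'` and `CoCp H B u = Md H E y w w'`; so `Dec H E (CoCp H B u)`, hence
  `Dec H (CoCp H B u) (CoCp H B u)` (`dec_mono`). For `v' ∈ B`, `D = CoCp H B v'` is co-connected
  (`CoCp_coConn`), a module of `H[N(y) ∩ X]` (`nbc_mod` and `cocp_mod`, restricted to `x ∈ X`), and
  `Dec H X X` (`Inv.tree`, `dec_mono`), so `cone` gives `Dec H (insert y D) (insert y D)`; `series` gives
  `Dec H B B`. By `ext` there is `t'` with support `X`, valid with ambient `X`, `G ≤ Sp t'`. It is valid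
  with ambient `E` by `valid_upgrade`: for `u ∈ E \ X` the set `N(u) ∩ X` is connected (`tree_nb` for the
  old tree), closed for `al H t'` (`F0nb ≤ G ≤ Sp t'`), so compatible (`TC_of_closed`, `TC_congr`).
* `exists_GE`: `Inv H E X F`, `F` not full, and the table is complete for sets smaller than `X`:
  `hT2`. Then there is an edge with `GE`. Let `t` be the tree of `Inv`, `α = al H t`; `F ≤ α`. Among all
  edges `h k` of `X` for which there is `v` with `Unres H X F h k v` (there is one as `F` is not full)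
  choose one with `(Cp α h k ∪ Cp α k h).ncard` minimal. Claim: `Unres H X F h k v → α h k v`. The triangle
  is resolved by `α`. If `α h v k`: `h v` is also an edge with an unresolved triangle
  (`Unres H X F h v k`), `B = Cp α k h` is closed and contains `h, v`, so `Cp α h v ∪ Cp α v h ⊆ B`
  (`closed_Cp`), which is a proper subset of `Cp α h k ∪ Cp α k h ∋ k` (`k ∉ B`): contradiction. If
  `α k v h`: symmetric. So `addE .. ≤ α` and `G := Commit H X F h k ≤ α` (`Cl.le`): consistent, pure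
  (`commit_pure`). Let `y v` be an edge of `X`, `B = Cp G y v`. It is closed for `G`, so closed for `α`,
  connected; `Dec H E B` (`dec_of_closed`). `anchor_dec`: `u ∈ B` with `Dec H E (CoCp H B u)`. Let
  `Z = CoCp H B u`: `nbc_mod` (for `G`), `cocp_mod`: `IsMod H E y Z`; `CoCp_coConn`; connected by
  `supp_conn`; `module_gen` gives `w, w' ∈ Z` with `Md H E y w w' = Z`; `Z.ncard < X.ncard`
  (`Z ⊆ B ⊆ X`, `y ∈ X \ B`); `hT2` gives `T y w w'`.
* `accept_sound`: `Good0 H E X F`, `Star H X F` ⇒ `Dec H E X` (`star_sound`).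
* `accept_complete`: `Inv H E X F`, `F` full ⇒ `Star H X F`, and `Good0 H E X F`. With the tree `t`:
  `F = al H t` (`F ≤ al H t`, both full and consistent), `star_complete`. `Good0`: `tree_nb`, `supp_conn`.
-/

namespace Pool.Agent.H8.CR

variable {V : Type*} {H : SimpleGraph V} {E X : Set V} {F : V → V → V → Prop}
  {T : V → V → V → Prop}

theorem nb_closed_of_fact (hn : ∀ p q t, F0nb H E X p q t → F p q t) {u : V} (hu : u ∈ E)
    (huX : u ∉ X) : Closed H X F (H.neighborSet u ∩ X) := by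
  refine ⟨Set.inter_subset_right, ?_⟩
  intro p q s hp hq hpq hs hsn hsp hsq
  exact hn p q s ⟨⟨hp.2, hq.2, hs, hpq, hsp.symm, hsq.symm⟩, u, hu, huX, hp.1, hq.1,
    fun h => hsn ⟨h, hs⟩⟩

theorem tree_nb {t : DT V} (ht : Valid H E t) (hE : t.supp ⊆ E) :
    (∀ u ∈ E, u ∉ t.supp → Conn H (H.neighborSet u ∩ t.supp)) ∧
      ∀ p q s, F0nb H E t.supp p q s → al H t p q s := by
  refine ⟨fun u hu hu' => TC_conn ht hE (TC_nb ht hu hu'), ?_⟩
  rintro p q s ⟨⟨hp, hq, hs, hpq, hps, hqs⟩, u, hu, hu', hup, huq, hus⟩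
  exact (TC_closed (TC_nb ht hu hu')).2 p q s ⟨hup, hp⟩ ⟨huq, hq⟩ hpq hs (fun h => hus h.1)
    hps.symm hqs.symm

theorem inv_init (hXE : X ⊆ E) (hD : Dec H E X) : Inv H E X (Cl H X (F0nb H E X)) := by
  obtain ⟨t, ht, hv⟩ := hD
  subst ht
  have hp := al_pure hv hXE
  have hle : ∀ u v w, Cl H t.supp (F0nb H E t.supp) u v w → al H t u v w :=
    fun u v w h => Cl.le hp (tree_nb hv hXE).2 h
  exact ⟨nb_pure (fun u v w h h' => hp.cons _ _ _ (hle _ _ _ h) (hle _ _ _ h')),
    fun p q s h => Cl.base h, t, rfl, hv, fun u v w h => (hle u v w h).2⟩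

theorem inv_step (hE : E.Finite) (hXE : X ⊆ E) (hI : Inv H E X F)
    (hT : ∀ y w w', T y w w' → Dec H E (Md H E y w w')) {h k : V}
    (hg : GE H E X T F h k) : Inv H E X (Commit H X F h k) := by
  obtain ⟨hh, hk, hhk, hex, hcons, horc⟩ := hg
  have hG : Pure H X (Commit H X F h k) := commit_pure hI.pure hcons
  have hn : ∀ p q s, F0nb H E X p q s → Commit H X F h k p q s :=
    fun p q s hpqs => le_commit (hI.nb p q s hpqs)
  obtain ⟨t, ht, hv, hs⟩ := hI.tree
  have hXf : X.Finite := hE.subset hXE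
  have hDX : Dec H X X := ⟨t, ht, hv.mono hXE⟩
  have hc : ∀ y ∈ X, ∀ v ∈ X, H.Adj y v →
      Dec H (Cp (Commit H X F h k) y v) (Cp (Commit H X F h k) y v) := by
    intro y hy v hvX hyv
    have hBX : Cp (Commit H X F h k) y v ⊆ X := fun z hz => (Cp_sub hG hvX hyv hz).1
    have hBy : ∀ b ∈ Cp (Commit H X F h k) y v, H.Adj y b :=
      fun z hz => (Cp_sub hG hvX hyv hz).2
    obtain ⟨u, hu, w, hw, w', hw', hTw, hco⟩ := horc y hy v hvX hyv
    have hZ : Dec H (CoCp H (Cp (Commit H X F h k) y v) u)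
        (CoCp H (Cp (Commit H X F h k) y v) u) := by
      have h1 := hT y w w' hTw
      rw [← hco] at h1
      exact dec_mono h1 (((CoCp_sub hu).trans hBX).trans hXE)
    refine series (hXf.subset hBX) (y := y) (u := u) (fun hyB => H.irrefl (hBy y hyB)) hBy hu
      hZ ?_
    intro v' hv'
    have hsub : CoCp H (Cp (Commit H X F h k) y v) v' ⊆ Cp (Commit H X F h k) y v :=
      CoCp_sub hv'
    have hmod : IsMod H E y (CoCp H (Cp (Commit H X F h k) y v) v') :=
      cocp_mod (nbc_mod hXE hG hn hy hvX hyv) hv'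
    refine cone hXf hDX hy (hsub.trans hBX) ⟨v', CoCp_self _ _ _⟩
      (fun d hd => hBy d (hsub hd)) ?_ (CoCp_coConn v')
    intro s hs hys hsD p hp q hq hsp
    exact hmod s (hXE hs) hys hsD p hp q hq hsp
  obtain ⟨t', ht', hv', hs'⟩ := ext hXf hDX hG hc
  refine ⟨hG, hn, t', ht', ?_, hs'⟩
  subst ht
  refine valid_upgrade hv' ?_
  intro u hu huX
  have hconn := (tree_nb hv hXE).1 u hu huX
  have hcl := nb_closed_of_fact hn hu huX
  have hcl' : Closed H t'.supp (al H t') (H.neighborSet u ∩ t.supp) := by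
    rw [ht']
    refine ⟨hcl.1, ?_⟩
    intro p q s hp hq hpq hss hsn hsp hsq
    have h1 := hcl.2 p q s hp hq hpq hss hsn hsp hsq
    refine ⟨?_, hs' _ _ _ h1⟩
    rw [ht']
    exact hG.tri _ _ _ h1
  have hTC : TC H (H.neighborSet u ∩ t.supp) t' := by
    refine TC_of_closed hv' (le_of_eq ht') ?_ hconn hcl'
    rw [ht']
    exact Set.inter_subset_right
  refine (TC_congr ?_).1 hTC
  intro a ha
  rw [ht'] at ha
  exact ⟨fun h => h.1, fun h => ⟨h, ha⟩⟩

theorem exists_GE (hE : E.Finite) (hXE : X ⊆ E) (hI : Inv H E X F) (hf : ¬ Full H X F)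
    (hT2 : ∀ y ∈ E, ∀ w ∈ E, ∀ w' ∈ E, H.Adj y w → H.Adj y w' → Dec H E (Md H E y w w') →
      (Md H E y w w').ncard < X.ncard → T y w w') : ∃ h k, GE H E X T F h k := by
  obtain ⟨t, ht, hv, hs⟩ := hI.tree
  subst ht
  have hα := al_pure hv hXE
  have hFα : ∀ u v w, F u v w → al H t u v w :=
    fun u v w h => ⟨hI.pure.tri _ _ _ h, hs _ _ _ h⟩
  have hfin : {e : V × V | ∃ v, Unres H t.supp F e.1 e.2 v}.Finite := by
    refine ((supp_finite t).prod (supp_finite t)).subset ?_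
    rintro ⟨a, b⟩ ⟨v, hv⟩
    exact ⟨hv.1.1, hv.1.2.1⟩
  have hne : {e : V × V | ∃ v, Unres H t.supp F e.1 e.2 v}.Nonempty := by
    by_contra hcon
    apply hf
    intro u v w huvw
    by_contra hno
    have h1 : ¬ F u v w := fun h => hno (Or.inl h)
    have h2 : ¬ F u w v := fun h => hno (Or.inr (Or.inl h))
    have h3 : ¬ F v w u := fun h => hno (Or.inr (Or.inr h))
    exact hcon ⟨(u, v), w, huvw, h1, h2, h3⟩
  obtain ⟨⟨h, k⟩, ⟨v0, hv0⟩, hmin⟩ := Set.exists_min_image _
    (fun e : V × V => (Cp (al H t) e.1 e.2 ∪ Cp (al H t) e.2 e.1).ncard) hfin hne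
  have hv0' : Unres H t.supp F h k v0 := hv0
  obtain ⟨hhX, hkX, _, hhk, _, _⟩ := hv0'.1
  have hfinU : (Cp (al H t) h k ∪ Cp (al H t) k h).Finite := by
    refine (supp_finite t).subset (Set.union_subset ?_ ?_)
    · exact fun z hz => (Cp_sub hα hkX hhk hz).1
    · exact fun z hz => (Cp_sub hα hhX hhk.symm hz).1
  have hclaim : ∀ v, Unres H t.supp F h k v → al H t h k v := by
    intro v hvU
    obtain ⟨⟨_, _, hvX, _, hhv, hkv⟩, hn1, hn2, hn3⟩ := hvU
    rcases al_full t H h k v ⟨hhX, hkX, hvX, hhk, hhv, hkv⟩ with h1 | h1 | h1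
    · exact h1
    · exfalso
      have hU : Unres H t.supp F h v k :=
        ⟨⟨hhX, hvX, hkX, hhv, hhk, hkv.symm⟩, hn2, hn1, fun h => hn3 (hI.pure.symm _ _ _ h)⟩
      have hm := hmin (h, v) ⟨k, hU⟩
      have hB := Cp_closed hα hkX hhX hhk.symm
      have hvB : v ∈ Cp (al H t) k h := Relation.ReflTransGen.single h1
      have hhB : h ∈ Cp (al H t) k h := Cp_self _ _ _
      have hsub : Cp (al H t) h v ∪ Cp (al H t) v h ⊆ Cp (al H t) k h :=
        Set.union_subset (closed_Cp hα hB hhB hvB hhv) (closed_Cp hα hB hvB hhB hhv.symm)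
      have hlt : (Cp (al H t) h v ∪ Cp (al H t) v h).ncard <
          (Cp (al H t) h k ∪ Cp (al H t) k h).ncard := by
        apply Set.ncard_lt_ncard _ hfinU
        refine ⟨hsub.trans Set.subset_union_right, fun hcon => ?_⟩
        have hkB : k ∈ Cp (al H t) k h := hsub (hcon (Or.inl (Cp_self _ _ _)))
        exact H.irrefl (Cp_sub hα hhX hhk.symm hkB).2
      exact absurd hm (not_le.2 hlt)
    · exfalso
      have hU : Unres H t.supp F k v h :=
        ⟨⟨hkX, hvX, hhX, hkv, hhk.symm, hhv.symm⟩, hn3, fun h => hn1 (hI.pure.symm _ _ _ h),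
          fun h => hn2 (hI.pure.symm _ _ _ h)⟩
      have hm := hmin (k, v) ⟨h, hU⟩
      have hB := Cp_closed hα hhX hkX hhk
      have hvB : v ∈ Cp (al H t) h k := Relation.ReflTransGen.single h1
      have hkB : k ∈ Cp (al H t) h k := Cp_self _ _ _
      have hsub : Cp (al H t) k v ∪ Cp (al H t) v k ⊆ Cp (al H t) h k :=
        Set.union_subset (closed_Cp hα hB hkB hvB hkv) (closed_Cp hα hB hvB hkB hkv.symm)
      have hlt : (Cp (al H t) k v ∪ Cp (al H t) v k).ncard <
          (Cp (al H t) h k ∪ Cp (al H t) k h).ncard := by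
        apply Set.ncard_lt_ncard _ hfinU
        refine ⟨hsub.trans Set.subset_union_left, fun hcon => ?_⟩
        have hhB : h ∈ Cp (al H t) h k := hsub (hcon (Or.inr (Cp_self _ _ _)))
        exact H.irrefl (Cp_sub hα hkX hhk hhB).2
      exact absurd hm (not_le.2 hlt)
  have hle : ∀ u v w, Commit H t.supp F h k u v w → al H t u v w := by
    intro u v w huvw
    refine Cl.le hα ?_ huvw
    rintro a b c (hab | ⟨hU, ⟨rfl, rfl⟩ | ⟨rfl, rfl⟩⟩)
    · exact hFα _ _ _ hab
    · exact hclaim _ hU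
    · exact hα.symm _ _ _ (hclaim _ hU)
  have hcons : ∀ u v w, Commit H t.supp F h k u v w → ¬ Commit H t.supp F h k u w v :=
    fun u v w h1 h2 => hα.cons _ _ _ (hle _ _ _ h1) (hle _ _ _ h2)
  have hG : Pure H t.supp (Commit H t.supp F h k) := commit_pure hI.pure hcons
  have hn : ∀ p q s, F0nb H E t.supp p q s → Commit H t.supp F h k p q s :=
    fun p q s hpqs => le_commit (hI.nb p q s hpqs)
  refine ⟨h, k, hhX, hkX, hhk, ⟨v0, hv0'⟩, hcons, ?_⟩
  intro y hy v hvX hyv
  have hBX : Cp (Commit H t.supp F h k) y v ⊆ t.supp := fun z hz => (Cp_sub hG hvX hyv hz).1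
  have hBy : ∀ b ∈ Cp (Commit H t.supp F h k) y v, H.Adj y b :=
    fun z hz => (Cp_sub hG hvX hyv hz).2
  have hclG := Cp_closed hG hy hvX hyv
  have hclα : Closed H t.supp (al H t) (Cp (Commit H t.supp F h k) y v) :=
    ⟨hclG.1, fun p q s hp hq hpq hss hsn hsp hsq =>
      hle _ _ _ (hclG.2 p q s hp hq hpq hss hsn hsp hsq)⟩
  have hDB : Dec H E (Cp (Commit H t.supp F h k) y v) :=
    dec_of_closed hv hXE ⟨v, Cp_self _ _ _⟩ (Cp_conn hG y v) hclα
  obtain ⟨u, hu, hDu⟩ := anchor_dec hDB (hBX.trans hXE)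
  have hZB : CoCp H (Cp (Commit H t.supp F h k) y v) u ⊆ Cp (Commit H t.supp F h k) y v :=
    CoCp_sub hu
  have hZE := (hZB.trans hBX).trans hXE
  have hmod : IsMod H E y (CoCp H (Cp (Commit H t.supp F h k) y v) u) :=
    cocp_mod (nbc_mod hXE hG hn hy hvX hyv) hu
  have hconn : Conn H (CoCp H (Cp (Commit H t.supp F h k) y v) u) := by
    obtain ⟨t2, ht2, hv2⟩ := hDu
    have h1 := supp_conn hv2 (by rw [ht2]; exact hZE)
    rw [ht2] at h1
    exact h1
  obtain ⟨w, hw, w', hw', hww⟩ := module_gen (hE.subset hZE) ⟨u, CoCp_self _ _ _⟩ hZE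
    (fun z hz => hBy z (hZB hz)) hmod hconn (CoCp_coConn u)
  refine ⟨u, hu, w, hZB hw, w', hZB hw', ?_, hww.symm⟩
  refine hT2 y (hXE hy) w (hZE hw) w' (hZE hw') (hBy w (hZB hw)) (hBy w' (hZB hw')) ?_ ?_
  · rw [hww]
    exact hDu
  · rw [hww]
    apply Set.ncard_lt_ncard _ (supp_finite t)
    exact ⟨hZB.trans hBX, fun hcon => H.irrefl (hBy y (hZB (hcon hy)))⟩

theorem accept_sound (hE : E.Finite) (hXE : X ⊆ E) (hG : Good0 H E X F) (hS : Star H X F) :
    Dec H E X := by
  obtain ⟨t, ht, hv, _⟩ := star_sound (hE.subset hXE) hG hS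
  exact ⟨t, ht, hv⟩

theorem accept_complete (hXE : X ⊆ E) (hI : Inv H E X F) (hf : Full H X F) :
    Good0 H E X F ∧ Star H X F := by
  obtain ⟨t, ht, hv, hs⟩ := hI.tree
  subst ht
  have heq : F = al H t := by
    funext u v w
    apply propext
    constructor
    · intro h
      exact ⟨hI.pure.tri _ _ _ h, hs _ _ _ h⟩
    · intro h
      rcases hf u v w h.1 with h1 | h1 | h1
      · exact h1
      · exact (Sp_cons hv h.2 (hs _ _ _ h1)).elim
      · exact (Sp_cons hv (Sp_symm h.2) (hs _ _ _ h1)).elim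
  refine ⟨⟨hI.pure, hf, supp_conn hv hXE, supp_nonempty t, fun u hu huX =>
    ⟨(tree_nb hv hXE).1 u hu huX, nb_closed_of_fact hI.nb hu huX⟩⟩, ?_⟩
  rw [heq]
  exact star_complete hv hXE

end Pool.Agent.H8.CR
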