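import Pool.Agent.H8.CR.AlgS3
import Pool.Agent.H8.CR.Step

/-!
# Correctness of the greedy algorithm

Let `L_k = (stepL n E X T)^[k] (clos n E X (nb0 n E X))`.

* `run_inv`: for all `k`: entries `< n`; `RL L_k` contains `F0nb (HN E) (Iio n) (LS X)`; if `RL L_k` is
  consistent then it is pure on `LS X`. Induction: `k = 0`: `clos_iff`, `nb0_iff`, `nb_pure` (rewrite
  `RL (nb0 ..)` as `F0nb ..` by `funext`/`propext`). Step: if the list of admissible edges is empty
  `L_{k+1} = L_k`. Otherwise `L_{k+1} = comL n E X L_k h k'` for an edge with `geB` (the head of a filter);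
  it contains `L_k`; `GE` says that it is consistent; then `L_k` is consistent too, so pure, and
  `commit_pure` applies.
* `greedy_sound`: `greedyL n E X T = true`, `X ⊆ range n` ⇒ `Dec (HN E) (Iio n) (LS X)`: `accept_sound`
  with `F = RL (runL ..)`; `Good0`: `pure` by consistency and `run_inv`, `full` by `fullL_iff`, `conn` by
  `connL_iff`, `nb`: `connL_iff` for the filtered list (`LS (X.filter ..) = N(u) ∩ LS X`), and
  `nb_closed_of_fact`.
-/

namespace Pool.Agent.H8.CR

open H87.HC

variable {n : ℕ} {E : List (ℕ × ℕ)} {X : List ℕ} {T : List (ℕ × ℕ × ℕ)}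

private theorem nb0_lt : ∀ t ∈ nb0 n E X, t.1 < n ∧ t.2.1 < n ∧ t.2.2 < n := by
  intro t ht
  unfold nb0 at ht
  exact mem_trs.1 (List.mem_filter.1 ht).1

private theorem RL_clos0 (hX : ∀ x ∈ X, x < n) :
    RL (clos n E X (nb0 n E X)) = Cl (HN E) (LS X) (F0nb (HN E) (Set.Iio n) (LS X)) := by
  have h0 : RL (nb0 n E X) = F0nb (HN E) (Set.Iio n) (LS X) := by
    funext u v w
    exact propext (nb0_iff hX u v w)
  rw [← h0]
  funext u v w
  exact propext (clos_iff hX nb0_lt u v w)

private theorem RL_comL (hX : ∀ x ∈ X, x < n) {L : List (ℕ × ℕ × ℕ)}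
    (hL : ∀ t ∈ L, t.1 < n ∧ t.2.1 < n ∧ t.2.2 < n) (h k : ℕ) :
    RL (comL n E X L h k) = Commit (HN E) (LS X) (RL L) h k := by
  funext u v w
  exact propext (comL_iff hX hL h k u v w)

/-- one step either does nothing or commits an admissible edge -/
private theorem stepL_cases (L : List (ℕ × ℕ × ℕ)) :
    stepL n E X T L = L ∨
      ∃ h k, geB n E X T L (h, k) = true ∧ stepL n E X T L = comL n E X L h k := by
  by_cases hf : (prs n).filter (geB n E X T L) = []
  · left
    unfold stepL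
    rw [if_pos (decide_eq_true hf)]
  · right
    obtain ⟨e, l, hel⟩ := List.exists_cons_of_ne_nil hf
    have he : e ∈ (prs n).filter (geB n E X T L) := by
      rw [hel]
      exact List.mem_cons_self
    refine ⟨e.1, e.2, (List.mem_filter.1 he).2, ?_⟩
    unfold stepL
    rw [if_neg (by simpa using hf), hel]
    rfl

theorem run_inv (hX : ∀ x ∈ X, x < n) (k : ℕ) :
    (∀ t ∈ (stepL n E X T)^[k] (clos n E X (nb0 n E X)), t.1 < n ∧ t.2.1 < n ∧ t.2.2 < n) ∧
    (∀ p q t, F0nb (HN E) (Set.Iio n) (LS X) p q t →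
      RL ((stepL n E X T)^[k] (clos n E X (nb0 n E X))) p q t) ∧
    ((∀ u v w, RL ((stepL n E X T)^[k] (clos n E X (nb0 n E X))) u v w →
      ¬ RL ((stepL n E X T)^[k] (clos n E X (nb0 n E X))) u w v) →
      Pure (HN E) (LS X) (RL ((stepL n E X T)^[k] (clos n E X (nb0 n E X))))) := by
  induction k with
  | zero =>
    simp only [Function.iterate_zero, id]
    refine ⟨fun t ht => clos_lt ht, ?_, ?_⟩
    · intro p q t h
      rw [RL_clos0 hX]
      exact Cl.base h
    · intro hc
      rw [RL_clos0 hX] at hc ⊢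
      exact nb_pure hc
  | succ k ih =>
    rw [Function.iterate_succ_apply']
    set L := (stepL n E X T)^[k] (clos n E X (nb0 n E X)) with hLdef
    obtain ⟨ih1, ih2, ih3⟩ := ih
    rcases stepL_cases (n := n) (E := E) (X := X) (T := T) L with hs | ⟨h, k', hg, hs⟩
    · rw [hs]
      exact ⟨ih1, ih2, ih3⟩
    · rw [hs]
      have hG := (geB_iff hX ih1).1 hg
      obtain ⟨-, -, -, -, hcons, -⟩ := hG
      rw [RL_comL hX ih1]
      refine ⟨fun t ht => clos_lt ht, fun p q t hpq => le_commit (ih2 p q t hpq), fun _ => ?_⟩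
      exact commit_pure (ih3 fun u v w h1 h2 => hcons u v w (le_commit h1) (le_commit h2)) hcons

theorem greedy_sound (hX : ∀ x ∈ X, x < n) (h : greedyL n E X T = true) :
    Dec (HN E) (Set.Iio n) (LS X) := by
  unfold greedyL accL at h
  simp only [Bool.and_eq_true, Bool.not_eq_true', decide_eq_false_iff_not, List.all_eq_true,
    List.mem_range, Bool.or_eq_true, decide_eq_true_eq] at h
  obtain ⟨⟨⟨⟨⟨h1, h2⟩, h3⟩, h4⟩, h5⟩, h6⟩ := h
  obtain ⟨r1, r2, r3⟩ := run_inv (E := E) (T := T) hX ((trs n).length + 1)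
  change ∀ t ∈ runL n E X T, _ at r1
  change ∀ p q t, _ → RL (runL n E X T) p q t at r2
  change (∀ u v w, RL (runL n E X T) u v w → ¬ RL (runL n E X T) u w v) →
    Pure (HN E) (LS X) (RL (runL n E X T)) at r3
  have hXE : LS X ⊆ Set.Iio n := fun x hx => hX x hx
  have hne : (LS X).Nonempty := by
    obtain ⟨x, l, hxl⟩ := List.exists_cons_of_ne_nil h1
    refine ⟨x, ?_⟩
    change x ∈ X
    rw [hxl]
    exact List.mem_cons_self
  refine accept_sound (Set.finite_Iio n) hXE (F := RL (runL n E X T)) ?_ ((starL_iff hX r1).1 h6)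
  refine ⟨r3 (consL_iff.1 h4), (fullL_iff hX).1 h5, (connL_iff hX).1 h2, hne, ?_⟩
  intro u hu huX
  refine ⟨?_, nb_closed_of_fact r2 hu huX⟩
  have hc := (h3 u hu).resolve_left huX
  have hX' : ∀ x ∈ X.filter (fun x => adj E u x), x < n := fun x hx =>
    hX x (List.mem_filter.1 hx).1
  have hc' := (connL_iff hX').1 hc
  have heq : LS (X.filter (fun x => adj E u x)) = (HN E).neighborSet u ∩ LS X := by
    ext x
    constructor
    · intro hx
      have hx' := List.mem_filter.1 hx
      exact ⟨hx'.2, hx'.1⟩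
    · rintro ⟨hx1, hx2⟩
      exact List.mem_filter.2 ⟨hx2, hx1⟩
  rw [heq] at hc'
  exact hc'

end Pool.Agent.H8.CR
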