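import Pool.Agent.H8.CR.AlgG1

/-!
# Completeness of the greedy algorithm

Let `L_k = (stepL n E X T)^[k] (clos n E X (nb0 n E X))`.

* `run_complete`: assume `Dec (HN E) (Iio n) (LS X)`, `X ⊆ range n`, `hT` (soundness of the table), `hT2`
  (completeness of the table below `(LS X).ncard`). Then `Inv (HN E) (Iio n) (LS X) (RL L_k)` for all `k`
  (`inv_init`, `inv_step`), and as long as `RL L_k` is not full `(L_k).length`, more precisely the number of
  members `((trs n).filter (· ∈ L_k)).length`, strictly increases (`exists_GE`, so the filtered list is not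
  empty; `commit_new`: the committed list contains `(h, k', v)` for an unresolved triangle, which is not
  in `L_k`). It is at most `(trs n).length`; so `RL (runL ..)` is full.
* `greedy_complete`: then `greedyL n E X T = true` by `accept_complete` (all parts of `accL`;
  `X ≠ []` by `dec_nonempty`).
-/

namespace Pool.Agent.H8.CR

open H87.HC

variable {n : ℕ} {E : List (ℕ × ℕ)} {X : List ℕ} {T : List (ℕ × ℕ × ℕ)}

/-- the list after `k` steps -/
def AlgG2_L (n : ℕ) (E : List (ℕ × ℕ)) (X : List ℕ) (T : List (ℕ × ℕ × ℕ)) (k : ℕ) :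
    List (ℕ × ℕ × ℕ) := (stepL n E X T)^[k] (clos n E X (nb0 n E X))

theorem AlgG2_succ (k : ℕ) : AlgG2_L n E X T (k + 1) = stepL n E X T (AlgG2_L n E X T k) :=
  Function.iterate_succ_apply' _ _ _

theorem AlgG2_lt (hX : ∀ x ∈ X, x < n) (k : ℕ) :
    ∀ t ∈ AlgG2_L n E X T k, t.1 < n ∧ t.2.1 < n ∧ t.2.2 < n := (run_inv hX k).1

theorem AlgG2_com (hX : ∀ x ∈ X, x < n) {L : List (ℕ × ℕ × ℕ)}
    (hL : ∀ t ∈ L, t.1 < n ∧ t.2.1 < n ∧ t.2.2 < n) (h k : ℕ) :
    RL (comL n E X L h k) = Commit (HN E) (LS X) (RL L) h k := by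
  funext u v w
  exact propext (comL_iff hX hL h k u v w)

/-- what one step does -/
theorem AlgG2_step (hX : ∀ x ∈ X, x < n) (k : ℕ) :
    (AlgG2_L n E X T (k + 1) = AlgG2_L n E X T k ∧
      ∀ h k', ¬ GE (HN E) (Set.Iio n) (LS X) (RL T) (RL (AlgG2_L n E X T k)) h k') ∨
    ∃ h k', GE (HN E) (Set.Iio n) (LS X) (RL T) (RL (AlgG2_L n E X T k)) h k' ∧
      RL (AlgG2_L n E X T (k + 1)) =
        Commit (HN E) (LS X) (RL (AlgG2_L n E X T k)) h k' := by
  have hL := AlgG2_lt (n := n) (E := E) (X := X) (T := T) hX k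
  rw [AlgG2_succ]
  unfold stepL
  by_cases he : (prs n).filter (geB n E X T (AlgG2_L n E X T k)) = []
  · left
    rw [if_pos (by simpa using he)]
    refine ⟨rfl, ?_⟩
    intro h k' hg
    have h1 : (h, k') ∈ (prs n).filter (geB n E X T (AlgG2_L n E X T k)) := by
      rw [List.mem_filter]
      exact ⟨mem_prs.2 ⟨hX h hg.1, hX k' hg.2.1⟩, (geB_iff hX hL).2 hg⟩
    rw [he] at h1
    exact List.not_mem_nil h1
  · right
    rw [if_neg (by simpa using he)]
    have h1 : ((prs n).filter (geB n E X T (AlgG2_L n E X T k))).headD (0, 0) ∈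
        (prs n).filter (geB n E X T (AlgG2_L n E X T k)) := by
      cases hf : (prs n).filter (geB n E X T (AlgG2_L n E X T k)) with
      | nil => exact absurd hf he
      | cons a l => simp
    rw [List.mem_filter] at h1
    obtain ⟨-, h2⟩ := h1
    generalize ((prs n).filter (geB n E X T (AlgG2_L n E X T k))).headD (0, 0) = e at h2 ⊢
    obtain ⟨h, k'⟩ := e
    exact ⟨h, k', (geB_iff hX hL).1 h2, AlgG2_com hX hL h k'⟩

theorem AlgG2_inv (hX : ∀ x ∈ X, x < n) (hD : Dec (HN E) (Set.Iio n) (LS X))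
    (hT : ∀ y w w', RL T y w w' → Dec (HN E) (Set.Iio n) (Md (HN E) (Set.Iio n) y w w'))
    (k : ℕ) : Inv (HN E) (Set.Iio n) (LS X) (RL (AlgG2_L n E X T k)) := by
  have hXE : LS X ⊆ Set.Iio n := fun x hx => hX x hx
  induction k with
  | zero =>
    have h0 : RL (AlgG2_L n E X T 0) = Cl (HN E) (LS X) (F0nb (HN E) (Set.Iio n) (LS X)) := by
      have h1 : RL (nb0 n E X) = F0nb (HN E) (Set.Iio n) (LS X) := by
        funext u v w
        exact propext (nb0_iff hX u v w)
      rw [← h1]
      funext u v w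
      refine propext (clos_iff hX ?_ u v w)
      rintro ⟨a, b, c⟩ ht
      have h2 : F0nb (HN E) (Set.Iio n) (LS X) a b c := (nb0_iff hX a b c).1 ht
      exact ⟨hX a h2.1.1, hX b h2.1.2.1, hX c h2.1.2.2.1⟩
    rw [h0]
    exact inv_init hXE hD
  | succ k ih =>
    rcases AlgG2_step (T := T) (E := E) hX k with ⟨h1, -⟩ | ⟨h, k', hg, h1⟩
    · rw [h1]
      exact ih
    · rw [h1]
      exact inv_step (Set.finite_Iio n) hXE ih hT hg

theorem AlgG2_mono (hX : ∀ x ∈ X, x < n) (k : ℕ) {u v w : ℕ}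
    (h : RL (AlgG2_L n E X T k) u v w) : RL (AlgG2_L n E X T (k + 1)) u v w := by
  rcases AlgG2_step (T := T) (E := E) hX k with ⟨h1, -⟩ | ⟨h', k', hg, h1⟩
  · rw [h1]
    exact h
  · rw [h1]
    exact le_commit h

theorem AlgG2_full_mono (hX : ∀ x ∈ X, x < n) (k : ℕ)
    (h : Full (HN E) (LS X) (RL (AlgG2_L n E X T k))) :
    Full (HN E) (LS X) (RL (AlgG2_L n E X T (k + 1))) := by
  intro u v w ht
  rcases h u v w ht with h | h | h
  · exact Or.inl (AlgG2_mono hX k h)
  · exact Or.inr (Or.inl (AlgG2_mono hX k h))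
  · exact Or.inr (Or.inr (AlgG2_mono hX k h))

theorem run_complete (hX : ∀ x ∈ X, x < n) (hD : Dec (HN E) (Set.Iio n) (LS X))
    (hT : ∀ y w w', RL T y w w' → Dec (HN E) (Set.Iio n) (Md (HN E) (Set.Iio n) y w w'))
    (hT2 : ∀ y < n, ∀ w < n, ∀ w' < n, (HN E).Adj y w → (HN E).Adj y w' →
      Dec (HN E) (Set.Iio n) (Md (HN E) (Set.Iio n) y w w') →
      (Md (HN E) (Set.Iio n) y w w').ncard < (LS X).ncard → RL T y w w') :
    Inv (HN E) (Set.Iio n) (LS X) (RL (runL n E X T)) ∧
      Full (HN E) (LS X) (RL (runL n E X T)) := by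
  have hXE : LS X ⊆ Set.Iio n := fun x hx => hX x hx
  refine ⟨AlgG2_inv hX hD hT _, ?_⟩
  by_contra hnf
  have hnf' : ¬ Full (HN E) (LS X) (RL (AlgG2_L n E X T ((trs n).length + 1))) := hnf
  -- never full
  have hall : ∀ j ≤ (trs n).length + 1, ¬ Full (HN E) (LS X) (RL (AlgG2_L n E X T j)) := by
    intro j hj hf
    apply hnf'
    have : ∀ i, Full (HN E) (LS X) (RL (AlgG2_L n E X T (j + i))) := by
      intro i
      induction i with
      | zero => exact hf
      | succ i ih => exact AlgG2_full_mono hX (j + i) ih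
    have h1 := this ((trs n).length + 1 - j)
    rwa [Nat.add_sub_cancel' hj] at h1
  -- the number of members increases
  have hcard : ∀ j ≤ (trs n).length + 1, j ≤ (AlgG2_L n E X T j).toFinset.card := by
    intro j
    induction j with
    | zero => intro _; exact Nat.zero_le _
    | succ j ih =>
      intro hj
      have h1 := ih (by omega)
      have hI := AlgG2_inv (T := T) (E := E) hX hD hT j
      obtain ⟨h0, k0, hg0⟩ := exists_GE (T := RL T) (Set.finite_Iio n) hXE hI
        (hall j (by omega)) (fun y hy w hw w' hw' => hT2 y hy w hw w' hw')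
      rcases AlgG2_step (T := T) (E := E) hX j with ⟨-, h2⟩ | ⟨h, k', hg, h2⟩
      · exact absurd hg0 (h2 h0 k0)
      · obtain ⟨v, hv⟩ := hg.2.2.2.1
        have h3 : RL (AlgG2_L n E X T (j + 1)) h k' v := by
          rw [h2]
          exact commit_new hv
        have h4 : ¬ RL (AlgG2_L n E X T j) h k' v := hv.2.1
        have h5 : (AlgG2_L n E X T j).toFinset ⊂ (AlgG2_L n E X T (j + 1)).toFinset := by
          rw [Finset.ssubset_iff_of_subset]
          · exact ⟨(h, k', v), List.mem_toFinset.2 h3, fun h6 => h4 (List.mem_toFinset.1 h6)⟩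
          · rintro ⟨a, b, c⟩ h6
            rw [List.mem_toFinset] at h6 ⊢
            exact AlgG2_mono hX j h6
        have h6 := Finset.card_lt_card h5
        omega
  have h1 := hcard _ le_rfl
  have h2 : (AlgG2_L n E X T ((trs n).length + 1)).toFinset ⊆ (trs n).toFinset := by
    intro t ht
    rw [List.mem_toFinset] at ht ⊢
    exact mem_trs.2 (AlgG2_lt hX _ t ht)
  have h3 := Finset.card_le_card h2
  have h4 := (trs n).toFinset_card_le
  omega

theorem greedy_complete (hX : ∀ x ∈ X, x < n) (hD : Dec (HN E) (Set.Iio n) (LS X))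
    (hT : ∀ y w w', RL T y w w' → Dec (HN E) (Set.Iio n) (Md (HN E) (Set.Iio n) y w w'))
    (hT2 : ∀ y < n, ∀ w < n, ∀ w' < n, (HN E).Adj y w → (HN E).Adj y w' →
      Dec (HN E) (Set.Iio n) (Md (HN E) (Set.Iio n) y w w') →
      (Md (HN E) (Set.Iio n) y w w').ncard < (LS X).ncard → RL T y w w') :
    greedyL n E X T = true := by
  have hXE : LS X ⊆ Set.Iio n := fun x hx => hX x hx
  obtain ⟨hI, hf⟩ := run_complete hX hD hT hT2
  obtain ⟨hG, hS⟩ := accept_complete hXE hI hf
  have hL : ∀ t ∈ runL n E X T, t.1 < n ∧ t.2.1 < n ∧ t.2.2 < n := AlgG2_lt hX _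
  unfold greedyL accL
  simp only [Bool.and_eq_true]
  refine ⟨⟨⟨⟨⟨?_, ?_⟩, ?_⟩, ?_⟩, ?_⟩, ?_⟩
  · obtain ⟨x, hx⟩ := dec_nonempty hD
    have hx' : x ∈ X := hx
    simp only [Bool.not_eq_true', decide_eq_false_iff_not]
    exact List.ne_nil_of_mem hx'
  · exact (connL_iff hX).2 hG.conn
  · rw [List.all_eq_true]
    intro u hu
    rw [List.mem_range] at hu
    by_cases huX : u ∈ X
    · simp [huX]
    · rw [Bool.or_eq_true]
      right
      refine (connL_iff ?_).2 ?_
      · intro x hx
        exact hX x (List.mem_filter.1 hx).1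
      · have h1 : LS (X.filter (fun x => adj E u x)) = (HN E).neighborSet u ∩ LS X := by
          ext x
          show x ∈ X.filter (fun x => adj E u x) ↔ (HN E).Adj u x ∧ x ∈ X
          rw [List.mem_filter]
          exact and_comm
        rw [h1]
        exact (hG.nb u hu huX).1
  · exact consL_iff.2 hG.pure.cons
  · exact (fullL_iff hX).2 hG.full
  · exact (starL_iff hX hL).2 hS

end Pool.Agent.H8.CR
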