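import Pool.Agent.H8.CR.Alg
import Pool.Agent.H87.HC.AlgoPT

/-!
# The algorithm runs in polynomial time, part 1

Use the toolkit `Pool/Agent/PPS` (predicate `PT m f`), `Pool/Agent/H87/PMCSP/Kit.lean`,
`Pool/Agent/H87/HC/Kit.lean` (`PT.any2`, `PT.all2`, `PT.map2`, `PT.flatMap2`, `PT.filter2`, `PT.mem2`, `PT.adj'`) and
look at `Pool/Agent/H87/HC/AlgoPT.lean` for the style: one lemma, tagged `fun_prop`, for every function.

* `PT.sat`: `PT.iterate`; the size of every intermediate list is at most `size (D x) + size []`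
  (`H87.HC.size_filter_le`).
-/

namespace Pool.Agent.H8.CR

open H87.HC Pool.Agent.PPS Pool.Agent.H87.PMCSP

variable {m : Bool} {α β γ : Type} [Rep α] [Rep β] [Rep γ]

theorem PT.sat [DecidableEq β] {D : α → List β} {p : α → List β → β → Bool} (hD : PT m D)
    (hp : PT m (fun z : α × List β × β => p z.1 z.2.1 z.2.2)) :
    PT m (fun x => sat (D x) (p x)) := by
  obtain ⟨q, hq⟩ := hD.exists_size_le
  unfold Pool.Agent.H8.CR.sat
  have hs : PT m (fun z : α × List β => satStep (D z.1) (p z.1) z.2) := by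
    unfold satStep
    have hD1 : PT m (fun z : α × List β => D z.1) := hD.comp (by fun_prop)
    refine PT.filter2 (f := fun (z : α × List β) a => decide (a ∈ z.2) || p z.1 z.2 a) hD1 ?_
    refine PT.or' ?_ ?_
    · exact PT.mem2 (x := fun w : (α × List β) × β => w.2)
        (l := fun w : (α × List β) × β => w.1.2) (by fun_prop) (by fun_prop)
    · exact hp.comp (f := fun w : (α × List β) × β => (w.1.1, w.1.2, w.2)) (by fun_prop)
  refine PT.iterate (s := fun z : α × List β => satStep (D z.1) (p z.1) z.2)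
    (ini := fun _ => []) (by fun_prop) (by fun_prop) hs
    (q + Polynomial.C (size ([] : List β))) ?_
  intro x k _
  simp only [Polynomial.eval_add, Polynomial.eval_C]
  cases k with
  | zero =>
    simp only [Function.iterate_zero, id]
    omega
  | succ k =>
    rw [Function.iterate_succ_apply']
    refine (size_filter_le _ _).trans ?_
    have := hq x
    omega

section

variable {n h k u v w y a b : α → ℕ} {E : α → List (ℕ × ℕ)} {X B : α → List ℕ}
  {L T : α → List (ℕ × ℕ × ℕ)} {t : α → ℕ × ℕ × ℕ} {e : α → ℕ × ℕ}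

@[fun_prop]
theorem PT.trs' (hn : PT m n) :
    PT m (fun x => trs (n x)) := by
  unfold trs
  refine PT.flatMap2 (by fun_prop) ?_
  refine PT.flatMap2 (f := fun (z : α × ℕ) b => (List.range (n z.1)).map
    (fun c => (z.2, b, c))) (by fun_prop) ?_
  exact PT.map2 (f := fun (z : (α × ℕ) × ℕ) c => (z.1.2, z.2, c)) (by fun_prop) (by fun_prop)

@[fun_prop]
theorem PT.prs' (hn : PT m n) :
    PT m (fun x => prs (n x)) := by
  unfold prs
  refine PT.flatMap2 (by fun_prop) ?_
  exact PT.map2 (f := fun (z : α × ℕ) b => (z.2, b)) (by fun_prop) (by fun_prop)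

@[fun_prop]
theorem PT.triB' (hE : PT m E) (hX : PT m X) (hu : PT m u) (hv : PT m v) (hw : PT m w) :
    PT m (fun x => triB (E x) (X x) (u x) (v x) (w x)) := by
  unfold triB
  refine PT.and' (PT.and' (PT.and' (PT.and' (PT.and' ?_ ?_) ?_) ?_) ?_) ?_
  · exact PT.mem2 hu hX
  · exact PT.mem2 hv hX
  · exact PT.mem2 hw hX
  · fun_prop
  · fun_prop
  · fun_prop

@[fun_prop]
theorem AlgPT_memL {x : α → ℕ × ℕ × ℕ} {inst : ∀ a, Decidable (x a ∈ L a)} (hx : PT m x)
    (hL : PT m L) : PT m (fun a => @decide (x a ∈ L a) (inst a)) := PT.mem2 hx hL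

@[fun_prop]
theorem AlgPT_memX {inst : ∀ a, Decidable (u a ∈ X a)} (hu : PT m u)
    (hX : PT m X) : PT m (fun a => @decide (u a ∈ X a) (inst a)) := PT.mem2 hu hX

@[fun_prop]
theorem PT.ruleB' (hn : PT m n) (hE : PT m E) (hX : PT m X) (hL : PT m L) (ht : PT m t) :
    PT m (fun x => ruleB (n x) (E x) (X x) (L x) (t x)) := by
  unfold ruleB
  refine PT.or' (by fun_prop) ?_
  exact PT.any2 (by fun_prop) (by fun_prop)

@[fun_prop]
theorem PT.clos' (hn : PT m n) (hE : PT m E) (hX : PT m X) (hL : PT m L) :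
    PT m (fun x => clos (n x) (E x) (X x) (L x)) := by
  unfold clos
  refine PT.sat (D := fun x => trs (n x))
    (p := fun x M t => decide (t ∈ L x) || ruleB (n x) (E x) (X x) M t) (by fun_prop) ?_
  fun_prop

@[fun_prop]
theorem PT.nb0' (hn : PT m n) (hE : PT m E) (hX : PT m X) :
    PT m (fun x => nb0 (n x) (E x) (X x)) := by
  unfold nb0
  refine PT.filter2 (by fun_prop) ?_
  refine PT.and' (by fun_prop) ?_
  exact PT.any2 (f := fun (z : α × ℕ × ℕ × ℕ) u => !decide (u ∈ X z.1) && adj (E z.1) u z.2.1 &&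
    adj (E z.1) u z.2.2.1 && !adj (E z.1) u z.2.2.2) (by fun_prop) (by fun_prop)

@[fun_prop]
theorem PT.consL' (hL : PT m L) :
    PT m (fun x => consL (L x)) := by
  unfold consL
  exact PT.all2 (by fun_prop) (by fun_prop)

@[fun_prop]
theorem PT.unrB' (hE : PT m E) (hX : PT m X) (hL : PT m L) (hu : PT m u) (hv : PT m v) (hw : PT m w) :
    PT m (fun x => unrB (E x) (X x) (L x) (u x) (v x) (w x)) := by
  unfold unrB
  fun_prop

@[fun_prop]
theorem PT.comL' (hn : PT m n) (hE : PT m E) (hX : PT m X) (hL : PT m L) (hh : PT m h) (hk : PT m k) :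
    PT m (fun x => comL (n x) (E x) (X x) (L x) (h x) (k x)) := by
  unfold comL
  refine PT.clos' hn hE hX (PT.append' hL ?_)
  refine PT.filter2 (by fun_prop) ?_
  fun_prop

end

end Pool.Agent.H8.CR
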