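import Pool.Agent.H8.CR.AlgPT

/-!
# The algorithm runs in polynomial time, part 2

Use the toolkit `Pool/Agent/PPS` (predicate `PT m f`), `Pool/Agent/H87/PMCSP/Kit.lean`,
`Pool/Agent/H87/HC/Kit.lean` (`PT.any2`, `PT.all2`, `PT.map2`, `PT.flatMap2`, `PT.filter2`, `PT.mem2`, `PT.adj'`) and
look at `Pool/Agent/H87/HC/AlgoPT.lean` for the style: one lemma, tagged `fun_prop`, for every function.
-/

namespace Pool.Agent.H8.CR

open H87.HC Pool.Agent.PPS Pool.Agent.H87.PMCSP

variable {m : Bool} {α β γ : Type} [Rep α] [Rep β] [Rep γ]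

section

variable {n h k u v w y a b : α → ℕ} {E : α → List (ℕ × ℕ)} {X B : α → List ℕ}
  {L T : α → List (ℕ × ℕ × ℕ)} {t : α → ℕ × ℕ × ℕ} {e : α → ℕ × ℕ}

@[fun_prop]
theorem PT.cpL' (hn : PT m n) (hL : PT m L) (hy : PT m y) (hv : PT m v) :
    PT m (fun x => cpL (n x) (L x) (y x) (v x)) := by
  unfold cpL
  refine PT.sat (D := fun x => List.range (n x)) (p := fun x M u => decide (u = v x) ||
    M.any (fun a => decide ((a, u, y x) ∈ L x))) (by fun_prop) ?_
  refine PT.or' (by fun_prop) ?_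
  refine PT.any2 (f := fun (z : α × List ℕ × ℕ) a => decide ((a, z.2.2, y z.1) ∈ L z.1))
    (by fun_prop) ?_
  exact PT.mem2 (by fun_prop) (by fun_prop)

@[fun_prop]
theorem PT.cocpL' (hn : PT m n) (hE : PT m E) (hB : PT m B) (hu : PT m u) :
    PT m (fun x => cocpL (n x) (E x) (B x) (u x)) := by
  unfold cocpL
  refine PT.sat (D := fun x => List.range (n x)) (p := fun x M y => decide (y = u x) ||
    (decide (y ∈ B x) && M.any (fun a => decide (a ∈ B x) && !adj (E x) a y))) (by fun_prop) ?_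
  refine PT.or' (by fun_prop) (PT.and' (PT.mem2 (by fun_prop) (by fun_prop)) ?_)
  refine PT.any2 (f := fun (z : α × List ℕ × ℕ) a => decide (a ∈ B z.1) &&
    !adj (E z.1) a z.2.2) (by fun_prop) ?_
  exact PT.and' (PT.mem2 (by fun_prop) (by fun_prop)) (by fun_prop)

@[fun_prop]
theorem PT.mdL' (hn : PT m n) (hE : PT m E) (hy : PT m y) (hu : PT m u) (hw : PT m w) :
    PT m (fun x => mdL (n x) (E x) (y x) (u x) (w x)) := by
  unfold mdL
  refine PT.sat (D := fun x => List.range (n x)) (p := fun x M z => decide (z = u x) ||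
    decide (z = w x) || (adj (E x) (y x) z && M.any (fun a => adj (E x) z a) &&
      M.any (fun b => !adj (E x) z b))) (by fun_prop) ?_
  refine PT.or' (by fun_prop) (PT.and' (PT.and' (by fun_prop) ?_) ?_)
  · exact PT.any2 (f := fun (z : α × List ℕ × ℕ) a => adj (E z.1) z.2.2 a) (by fun_prop)
      (by fun_prop)
  · exact PT.any2 (f := fun (z : α × List ℕ × ℕ) a => !adj (E z.1) z.2.2 a) (by fun_prop)
      (by fun_prop)

@[fun_prop]
theorem PT.orcL' (hn : PT m n) (hE : PT m E) (hT : PT m T) (hy : PT m y) (hB : PT m B) :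
    PT m (fun x => orcL (n x) (E x) (T x) (y x) (B x)) := by
  unfold orcL
  refine PT.any2 (by fun_prop) ?_
  refine PT.any2 (f := fun (z : α × ℕ) w => (B z.1).any (fun w' =>
    decide ((y z.1, w, w') ∈ T z.1) && decide (cocpL (n z.1) (E z.1) (B z.1) z.2 =
      mdL (n z.1) (E z.1) (y z.1) w w'))) (by fun_prop) ?_
  refine PT.any2 (f := fun (z : (α × ℕ) × ℕ) w' =>
    decide ((y z.1.1, z.2, w') ∈ T z.1.1) && decide (cocpL (n z.1.1) (E z.1.1) (B z.1.1) z.1.2 =
      mdL (n z.1.1) (E z.1.1) (y z.1.1) z.2 w')) (by fun_prop) ?_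
  exact PT.and' (PT.mem2 (by fun_prop) (by fun_prop)) (by fun_prop)

@[fun_prop]
theorem PT.rchL' (hn : PT m n) (hE : PT m E) (hX : PT m X) (ha : PT m a) :
    PT m (fun x => rchL (n x) (E x) (X x) (a x)) := by
  unfold rchL
  refine PT.sat (D := fun x => List.range (n x)) (p := fun x M y => decide (y = a x) ||
    (decide (y ∈ X x) && M.any (fun z => decide (z ∈ X x) && adj (E x) z y))) (by fun_prop) ?_
  refine PT.or' (by fun_prop) (PT.and' (PT.mem2 (by fun_prop) (by fun_prop)) ?_)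
  refine PT.any2 (f := fun (z : α × List ℕ × ℕ) a => decide (a ∈ X z.1) &&
    adj (E z.1) a z.2.2) (by fun_prop) ?_
  exact PT.and' (PT.mem2 (by fun_prop) (by fun_prop)) (by fun_prop)

@[fun_prop]
theorem PT.connL' (hn : PT m n) (hE : PT m E) (hX : PT m X) :
    PT m (fun x => connL (n x) (E x) (X x)) := by
  unfold connL
  refine PT.all2 (by fun_prop) ?_
  refine PT.all2 (f := fun (z : α × ℕ) b => decide (b ∈ rchL (n z.1) (E z.1) (X z.1) z.2))
    (by fun_prop) ?_
  exact PT.mem2 (by fun_prop) (by fun_prop)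

@[fun_prop]
theorem PT.fullL' (hn : PT m n) (hE : PT m E) (hX : PT m X) (hL : PT m L) :
    PT m (fun x => fullL (n x) (E x) (X x) (L x)) := by
  unfold fullL
  refine PT.all2 (by fun_prop) ?_
  exact PT.or' (PT.or' (PT.or' (by fun_prop) (PT.mem2 (by fun_prop) (by fun_prop)))
    (PT.mem2 (by fun_prop) (by fun_prop))) (PT.mem2 (by fun_prop) (by fun_prop))

@[fun_prop]
theorem PT.inV' (hn : PT m n) (hL : PT m L) (hu : PT m u) (hv : PT m v) (ha : PT m a) :
    PT m (fun x => inV (n x) (L x) (u x) (v x) (a x)) := by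
  unfold inV
  exact PT.or' (PT.mem2 (by fun_prop) (by fun_prop)) (PT.mem2 (by fun_prop) (by fun_prop))

@[fun_prop]
theorem PT.srchL' (hn : PT m n) (hE : PT m E) (hX : PT m X) (hL : PT m L) (ha : PT m a) (hb : PT m b) :
    PT m (fun x => srchL (n x) (E x) (X x) (L x) (a x) (b x)) := by
  unfold srchL
  refine PT.sat (D := fun x => List.range (n x)) (p := fun x M y => decide (y = a x) ||
    (decide (y ∈ X x) && M.any (fun z => decide (z ∈ X x) && adj (E x) z y &&
      !(inV (n x) (L x) z y (a x) && inV (n x) (L x) z y (b x))))) (by fun_prop) ?_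
  refine PT.or' (by fun_prop) (PT.and' (PT.mem2 (by fun_prop) (by fun_prop)) ?_)
  refine PT.any2 (f := fun (z : α × List ℕ × ℕ) c => decide (c ∈ X z.1) &&
    adj (E z.1) c z.2.2 && !(inV (n z.1) (L z.1) c z.2.2 (a z.1) &&
      inV (n z.1) (L z.1) c z.2.2 (b z.1))) (by fun_prop) ?_
  exact PT.and' (PT.and' (PT.mem2 (by fun_prop) (by fun_prop)) (by fun_prop)) (by fun_prop)

@[fun_prop]
theorem PT.starL' (hn : PT m n) (hE : PT m E) (hX : PT m X) (hL : PT m L) :
    PT m (fun x => starL (n x) (E x) (X x) (L x)) := by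
  unfold starL
  refine PT.all2 (by fun_prop) ?_
  refine PT.all2 (f := fun (z : α × ℕ) b => !adj (E z.1) z.2 b ||
    !decide (b ∈ srchL (n z.1) (E z.1) (X z.1) (L z.1) z.2 b)) (by fun_prop) ?_
  exact PT.or' (by fun_prop) (PT.not' (PT.mem2 (by fun_prop) (by fun_prop)))

@[fun_prop]
theorem PT.accL' (hn : PT m n) (hE : PT m E) (hX : PT m X) (hL : PT m L) :
    PT m (fun x => accL (n x) (E x) (X x) (L x)) := by
  unfold accL
  refine PT.and' (PT.and' (PT.and' (PT.and' (by fun_prop) ?_) (by fun_prop)) (by fun_prop))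
    (by fun_prop)
  refine PT.all2 (by fun_prop) ?_
  refine PT.or' (PT.mem2 (by fun_prop) (by fun_prop)) ?_
  refine PT.connL' (by fun_prop) (by fun_prop) ?_
  exact PT.filter2 (f := fun (z : α × ℕ) x => adj (E z.1) z.2 x) (by fun_prop) (by fun_prop)

end

end Pool.Agent.H8.CR
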