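import Pool.Agent.H8.CR.AlgPT2

/-!
# The algorithm runs in polynomial time, part 3

Use the toolkit `Pool/Agent/PPS` (predicate `PT m f`), `Pool/Agent/H87/PMCSP/Kit.lean`,
`Pool/Agent/H87/HC/Kit.lean` (`PT.any2`, `PT.all2`, `PT.map2`, `PT.flatMap2`, `PT.filter2`, `PT.mem2`, `PT.adj'`) and
look at `Pool/Agent/H87/HC/AlgoPT.lean` for the style: one lemma, tagged `fun_prop`, for every function.

* `PT.stepL'`: rewrite the `if` as `PT.ite` on a Boolean condition.
* `PT.runL'`: `PT.iterate`; all intermediate lists are saturations inside `trs n`, i.e. results of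
  `clos`, so their size is at most `size (trs n) + size []`.
* `PT.tabL'`: `PT.iterate`; intermediate lists are filters of `trs n` or `[]`.
-/

namespace Pool.Agent.H8.CR

open H87.HC Pool.Agent.PPS Pool.Agent.H87.PMCSP

variable {m : Bool} {α β γ : Type} [Rep α] [Rep β] [Rep γ]

theorem AlgPT3_size_sat_le {δ : Type} [Rep δ] [DecidableEq δ] (D : List δ)
    (p : List δ → δ → Bool) : size (sat D p) ≤ size D + 1 := by
  unfold sat
  cases D.length with
  | zero =>
    simp only [Function.iterate_zero, id, size_nil]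
    omega
  | succ k =>
    rw [Function.iterate_succ_apply']
    exact (size_filter_le _ _).trans (Nat.le_succ _)

theorem AlgPT3_size_clos_le (n : ℕ) (E : List (ℕ × ℕ)) (X : List ℕ) (B : List (ℕ × ℕ × ℕ)) :
    size (clos n E X B) ≤ size (trs n) + 1 := AlgPT3_size_sat_le _ _

theorem AlgPT3_size_stepL_le (n : ℕ) (E : List (ℕ × ℕ)) (X : List ℕ) (T L : List (ℕ × ℕ × ℕ))
    (h : size L ≤ size (trs n) + 1) : size (stepL n E X T L) ≤ size (trs n) + 1 := by
  unfold stepL
  split
  · exact h
  · exact AlgPT3_size_clos_le _ _ _ _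

section

variable {n h k u v w y a b : α → ℕ} {E : α → List (ℕ × ℕ)} {X B : α → List ℕ}
  {L T : α → List (ℕ × ℕ × ℕ)} {t : α → ℕ × ℕ × ℕ} {e : α → ℕ × ℕ}

@[fun_prop]
theorem PT.geB' (hn : PT m n) (hE : PT m E) (hX : PT m X) (hT : PT m T) (hL : PT m L) (he : PT m e) :
    PT m (fun x => geB (n x) (E x) (X x) (T x) (L x) (e x)) := by
  unfold geB
  refine PT.and' (PT.and' (PT.and' (PT.and' (PT.and' ?_ ?_) ?_) ?_) ?_) ?_
  · exact PT.mem2 (by fun_prop) hX
  · exact PT.mem2 (by fun_prop) hX
  · fun_prop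
  · exact PT.any2 (by fun_prop) (by fun_prop)
  · fun_prop
  · refine PT.all2 hX ?_
    exact PT.all2 (f := fun (z : α × ℕ) v => !adj (E z.1) z.2 v ||
      orcL (n z.1) (E z.1) (T z.1) z.2 (cpL (n z.1)
        (comL (n z.1) (E z.1) (X z.1) (L z.1) (e z.1).1 (e z.1).2) z.2 v)) (by fun_prop)
      (by fun_prop)

@[fun_prop]
theorem PT.stepL' (hn : PT m n) (hE : PT m E) (hX : PT m X) (hT : PT m T) (hL : PT m L) :
    PT m (fun x => stepL (n x) (E x) (X x) (T x) (L x)) := by
  have hF : PT m (fun x => (prs (n x)).filter (geB (n x) (E x) (X x) (T x) (L x))) :=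
    PT.filter2 (f := fun x e => geB (n x) (E x) (X x) (T x) (L x) e) (by fun_prop) (by fun_prop)
  unfold stepL
  refine PT.ite (PT.decideEq hF (by fun_prop)) hL ?_
  have h1 := PT.headD' (d := fun _ : α => ((0, 0) : ℕ × ℕ)) hF (by fun_prop)
  exact PT.comL' hn hE hX hL (PT.fst' h1) (PT.snd' h1)

@[fun_prop]
theorem PT.runL' (hn : PT m n) (hE : PT m E) (hX : PT m X) (hT : PT m T) :
    PT m (fun x => runL (n x) (E x) (X x) (T x)) := by
  obtain ⟨p, hp⟩ := (PT.trs' hn).exists_size_le
  unfold runL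
  refine PT.iterate (s := fun z : α × List (ℕ × ℕ × ℕ) =>
    stepL (n z.1) (E z.1) (X z.1) (T z.1) z.2)
    (ini := fun x => clos (n x) (E x) (X x) (nb0 (n x) (E x) (X x))) (by fun_prop)
    (by fun_prop) (by fun_prop) (p + 1) ?_
  intro x k _
  rw [Polynomial.eval_add, Polynomial.eval_one]
  refine le_trans ?_ (Nat.add_le_add_right (hp x) 1)
  show size ((stepL (n x) (E x) (X x) (T x))^[k] (clos (n x) (E x) (X x) _)) ≤ _
  clear hp
  induction k with
  | zero => exact AlgPT3_size_clos_le _ _ _ _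
  | succ k ih =>
    rw [Function.iterate_succ_apply']
    exact AlgPT3_size_stepL_le _ _ _ _ _ (ih (by omega))

@[fun_prop]
theorem PT.greedyL' (hn : PT m n) (hE : PT m E) (hX : PT m X) (hT : PT m T) :
    PT m (fun x => greedyL (n x) (E x) (X x) (T x)) := by
  unfold greedyL
  fun_prop

@[fun_prop]
theorem PT.tabStep' (hn : PT m n) (hE : PT m E) (hT : PT m T) :
    PT m (fun x => tabStep (n x) (E x) (T x)) := by
  unfold tabStep
  exact PT.filter2 (by fun_prop) (by fun_prop)

@[fun_prop]
theorem PT.tabL' (hn : PT m n) (hE : PT m E) :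
    PT m (fun x => tabL (n x) (E x)) := by
  obtain ⟨p, hp⟩ := (PT.trs' hn).exists_size_le
  unfold tabL
  refine PT.iterate (s := fun z : α × List (ℕ × ℕ × ℕ) => tabStep (n z.1) (E z.1) z.2)
    (ini := fun _ => []) (by fun_prop) (by fun_prop) (by fun_prop) (p + 1) ?_
  intro x k _
  rw [Polynomial.eval_add, Polynomial.eval_one]
  refine le_trans ?_ (Nat.add_le_add_right (hp x) 1)
  show size ((tabStep (n x) (E x))^[k] []) ≤ _
  cases k with
  | zero =>
    simp only [Function.iterate_zero, id, size_nil]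
    omega
  | succ k =>
    rw [Function.iterate_succ_apply']
    exact (size_filter_le _ _).trans (Nat.le_succ _)

@[fun_prop]
theorem PT.algoL' (hn : PT m n) (hE : PT m E) :
    PT m (fun x => algoL (n x) (E x)) := by
  unfold algoL
  refine PT.and' (by fun_prop) ?_
  exact PT.all2 (by fun_prop) (by fun_prop)

end

theorem PT.decW' : PT m (fun w : List Bool => decW w) := by
  unfold decW
  refine PT.and' (PT.decideEq (by fun_prop) (by fun_prop)) (by fun_prop)

end Pool.Agent.H8.CR
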