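import Pool.Agent.H8.CR.AlgSat

/-!
# Specification of the closures on lists

`LS X = {x | x ∈ X}`, `RL L u v w ↔ (u, v, w) ∈ L`, `HN E` the graph. `X` consists of numbers `< n`.

* `triB_iff`: unfold. `consL_iff`: unfold. `unrB_iff`, `fullL_iff` (for `X ⊆ range n`: a triangle in `X`
  has its vertices below `n`, `mem_trs`).
* `clos_iff`: if all triples of `B` have entries `< n` then `RL (clos n E X B)` is
  `Cl (HN E) (LS X) (RL B)`. `⇒`: `sat_ind` with `Q t := Cl .. t.1 t.2.1 t.2.2`: each of the eight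
  disjuncts of `ruleB` is one constructor (`symm`, `d1`, `d2`, `k1a`, `k1b`, `k2a`, `k2b`, `k3`; use
  `SimpleGraph.Adj.symm` where the order differs). `⇐`: induction on `Cl` with the additional claim that
  the entries are `< n` (base: hypothesis; `d1`, `d2`: `x ∈ X`), and `sat_fix` (the rule is monotone in
  `L`: `decide (· ∈ L)` occurs only positively).
* `nb0_iff`: `RL (nb0 n E X) = F0nb (HN E) (Set.Iio n) (LS X)`.
* `comL_iff`: `RL (comL n E X L h k) = Commit (HN E) (LS X) (RL L) h k` if the entries of `L` are `< n`: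
  `RL (L ++ ..) = addE ..` (for unresolved `(h, k, w)` all entries are in `X`, so `< n`).
* `clos_lt`: entries of `clos n E X B` are `< n` (`sat_sub`, `mem_trs`).
-/

namespace Pool.Agent.H8.CR

open H87.HC

variable {n : ℕ} {E : List (ℕ × ℕ)} {X : List ℕ} {B L : List (ℕ × ℕ × ℕ)}

theorem triB_iff {u v w : ℕ} : triB E X u v w = true ↔ Tri (HN E) (LS X) u v w := by
  simp only [triB, Tri, LS, Set.mem_ofPred_eq, hn_adj, Bool.and_eq_true, decide_eq_true_eq,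
    and_assoc]

theorem consL_iff : consL L = true ↔ ∀ u v w, RL L u v w → ¬ RL L u w v := by
  simp only [consL, List.all_eq_true, Bool.not_eq_true', decide_eq_false_iff_not, RL, Prod.forall]

theorem unrB_iff {u v w : ℕ} : unrB E X L u v w = true ↔ Unres (HN E) (LS X) (RL L) u v w := by
  simp only [unrB, Unres, Bool.and_eq_true, triB_iff, Bool.not_eq_true', decide_eq_false_iff_not,
    RL, and_assoc]

theorem fullL_iff (hX : ∀ x ∈ X, x < n) : fullL n E X L = true ↔ Full (HN E) (LS X) (RL L) := by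
  unfold fullL Full
  rw [List.all_eq_true]
  constructor
  · intro h u v w ht
    have hm : ((u, v, w) : ℕ × ℕ × ℕ) ∈ trs n :=
      mem_trs.2 ⟨hX _ ht.1, hX _ ht.2.1, hX _ ht.2.2.1⟩
    have h1 := h _ hm
    simp only [Bool.or_eq_true, Bool.not_eq_true', decide_eq_true_eq] at h1
    rcases h1 with ((h1 | h1) | h1) | h1
    · have := triB_iff.2 ht
      rw [h1] at this
      exact absurd this (by simp)
    · exact Or.inl h1
    · exact Or.inr (Or.inl h1)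
    · exact Or.inr (Or.inr h1)
  · rintro h ⟨u, v, w⟩ -
    simp only [Bool.or_eq_true, Bool.not_eq_true', decide_eq_true_eq]
    by_cases ht : Tri (HN E) (LS X) u v w
    · rcases h u v w ht with h1 | h1 | h1
      · exact Or.inl (Or.inl (Or.inr h1))
      · exact Or.inl (Or.inr h1)
      · exact Or.inr h1
    · refine Or.inl (Or.inl (Or.inl ?_))
      rw [← Bool.not_eq_true, triB_iff]
      exact ht

theorem clos_lt {t : ℕ × ℕ × ℕ} (h : t ∈ clos n E X B) : t.1 < n ∧ t.2.1 < n ∧ t.2.2 < n :=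
  mem_trs.1 (sat_sub h)

private theorem ruleB_iff {t : ℕ × ℕ × ℕ} : ruleB n E X L t = true ↔
    (t.2.1, t.1, t.2.2) ∈ L ∨ ∃ x, x < n ∧ (
      ((t.1, t.2.1, x) ∈ L ∧ t.2.2 ∈ X ∧ ¬ (HN E).Adj t.2.2 x ∧ (HN E).Adj t.2.2 t.1 ∧
        (HN E).Adj t.2.2 t.2.1) ∨
      ((x, t.2.1, t.2.2) ∈ L ∧ t.1 ∈ X ∧ ¬ (HN E).Adj t.1 x ∧ (HN E).Adj t.1 t.2.1 ∧
        (HN E).Adj t.1 t.2.2) ∨
      ((t.1, t.2.1, x) ∈ L ∧ (t.2.1, x, t.2.2) ∈ L ∧ (HN E).Adj t.1 t.2.2) ∨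
      ((t.1, x, t.2.1) ∈ L ∧ (x, t.2.1, t.2.2) ∈ L ∧ (HN E).Adj t.1 t.2.2) ∨
      ((t.1, t.2.1, x) ∈ L ∧ (x, t.2.2, t.2.1) ∈ L ∧ (HN E).Adj t.1 t.2.2) ∨
      ((t.2.2, x, t.1) ∈ L ∧ (t.1, t.2.1, x) ∈ L ∧ (HN E).Adj t.2.2 t.2.1) ∨
      ((t.1, x, t.2.2) ∈ L ∧ (t.2.1, x, t.2.2) ∈ L ∧ (HN E).Adj t.1 t.2.1)) := by
  simp only [ruleB, Bool.or_eq_true, decide_eq_true_eq, List.any_eq_true, List.mem_range,
    Bool.and_eq_true, Bool.not_eq_true', hn_adj, Bool.not_eq_true, or_assoc, and_assoc]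

private theorem ruleB_mono {L' : List (ℕ × ℕ × ℕ)} {t : ℕ × ℕ × ℕ} (hL : ∀ x ∈ L, x ∈ L')
    (h : ruleB n E X L t = true) : ruleB n E X L' t = true := by
  rw [ruleB_iff] at h ⊢
  rcases h with h | ⟨x, hx, h⟩
  · exact Or.inl (hL _ h)
  · refine Or.inr ⟨x, hx, ?_⟩
    rcases h with h | h | h | h | h | h | h
    · exact Or.inl ⟨hL _ h.1, h.2⟩
    · exact Or.inr (Or.inl ⟨hL _ h.1, h.2⟩)
    · exact Or.inr (Or.inr (Or.inl ⟨hL _ h.1, hL _ h.2.1, h.2.2⟩))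
    · exact Or.inr (Or.inr (Or.inr (Or.inl ⟨hL _ h.1, hL _ h.2.1, h.2.2⟩)))
    · exact Or.inr (Or.inr (Or.inr (Or.inr (Or.inl ⟨hL _ h.1, hL _ h.2.1, h.2.2⟩))))
    · exact Or.inr (Or.inr (Or.inr (Or.inr (Or.inr (Or.inl ⟨hL _ h.1, hL _ h.2.1, h.2.2⟩)))))
    · exact Or.inr (Or.inr (Or.inr (Or.inr (Or.inr (Or.inr ⟨hL _ h.1, hL _ h.2.1, h.2.2⟩)))))

private theorem clos_fix {t : ℕ × ℕ × ℕ} (h1 : t.1 < n) (h2 : t.2.1 < n) (h3 : t.2.2 < n)
    (h : t ∈ B ∨ ruleB n E X (clos n E X B) t = true) : t ∈ clos n E X B := by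
  unfold clos
  apply sat_fix
  · intro L L' a hL ha
    simp only [Bool.or_eq_true, decide_eq_true_eq] at ha ⊢
    exact ha.imp id (ruleB_mono hL)
  · exact mem_trs.2 ⟨h1, h2, h3⟩
  · simp only [Bool.or_eq_true, decide_eq_true_eq]
    exact h

theorem clos_iff (hX : ∀ x ∈ X, x < n) (hB : ∀ t ∈ B, t.1 < n ∧ t.2.1 < n ∧ t.2.2 < n)
    (u v w : ℕ) : RL (clos n E X B) u v w ↔ Cl (HN E) (LS X) (RL B) u v w := by
  constructor
  · intro h
    have key : (fun t : ℕ × ℕ × ℕ => Cl (HN E) (LS X) (RL B) t.1 t.2.1 t.2.2) (u, v, w) := by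
      refine sat_ind (D := trs n) (p := fun L t => decide (t ∈ B) || ruleB n E X L t)
        (Q := fun t : ℕ × ℕ × ℕ => Cl (HN E) (LS X) (RL B) t.1 t.2.1 t.2.2) ?_ h
      intro L a hL _ _ ha
      have hL : ∀ p q r : ℕ, (p, q, r) ∈ L → Cl (HN E) (LS X) (RL B) p q r :=
        fun p q r hh => hL (p, q, r) hh
      simp only [Bool.or_eq_true, decide_eq_true_eq] at ha
      rcases ha with ha | ha
      · exact Cl.base ha
      · rw [ruleB_iff] at ha
        rcases ha with ha | ⟨x, _, ha⟩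
        · exact Cl.symm (hL _ _ _ ha)
        · rcases ha with ha | ha | ha | ha | ha | ha | ha
          · exact Cl.d1 (hL _ _ _ ha.1) ha.2.1 ha.2.2.1 ha.2.2.2.1 ha.2.2.2.2
          · exact Cl.d2 (hL _ _ _ ha.1) ha.2.1 ha.2.2.1 ha.2.2.2.1 ha.2.2.2.2
          · exact Cl.k1a (hL _ _ _ ha.1) (hL _ _ _ ha.2.1) ha.2.2
          · exact Cl.k1b (hL _ _ _ ha.1) (hL _ _ _ ha.2.1) ha.2.2
          · exact Cl.k2a (hL _ _ _ ha.1) (hL _ _ _ ha.2.1) ha.2.2
          · exact Cl.k2b (hL _ _ _ ha.1) (hL _ _ _ ha.2.1) ha.2.2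
          · exact Cl.k3 (hL _ _ _ ha.1) (hL _ _ _ ha.2.1) ha.2.2
    exact key
  · intro h
    induction h with
    | base h =>
      have := hB _ h
      exact clos_fix this.1 this.2.1 this.2.2 (Or.inl h)
    | symm h ih =>
      have := clos_lt ih
      exact clos_fix this.2.1 this.1 this.2.2 (Or.inr (ruleB_iff.2 (Or.inl ih)))
    | d1 h hx h1 h2 h3 ih =>
      have := clos_lt ih
      exact clos_fix this.1 this.2.1 (hX _ hx) (Or.inr (ruleB_iff.2 (Or.inr ⟨_, this.2.2,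
        Or.inl ⟨ih, hx, h1, h2, h3⟩⟩)))
    | d2 h hx h1 h2 h3 ih =>
      have := clos_lt ih
      exact clos_fix (hX _ hx) this.2.1 this.2.2 (Or.inr (ruleB_iff.2 (Or.inr ⟨_, this.1,
        Or.inr (Or.inl ⟨ih, hx, h1, h2, h3⟩)⟩)))
    | k1a h h' h1 ih ih' =>
      have t1 := clos_lt ih
      have t2 := clos_lt ih'
      exact clos_fix t1.1 t1.2.1 t2.2.2 (Or.inr (ruleB_iff.2 (Or.inr ⟨_, t1.2.2,
        Or.inr (Or.inr (Or.inl ⟨ih, ih', h1⟩))⟩)))
    | k1b h h' h1 ih ih' =>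
      have t1 := clos_lt ih
      have t2 := clos_lt ih'
      exact clos_fix t1.1 t1.2.2 t2.2.2 (Or.inr (ruleB_iff.2 (Or.inr ⟨_, t1.2.1,
        Or.inr (Or.inr (Or.inr (Or.inl ⟨ih, ih', h1⟩)))⟩)))
    | k2a h h' h1 ih ih' =>
      have t1 := clos_lt ih
      have t2 := clos_lt ih'
      exact clos_fix t1.1 t1.2.1 t2.2.1 (Or.inr (ruleB_iff.2 (Or.inr ⟨_, t1.2.2,
        Or.inr (Or.inr (Or.inr (Or.inr (Or.inl ⟨ih, ih', h1⟩))))⟩)))
    | k2b h h' h1 ih ih' =>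
      have t1 := clos_lt ih
      have t2 := clos_lt ih'
      exact clos_fix t2.1 t2.2.1 t1.1 (Or.inr (ruleB_iff.2 (Or.inr ⟨_, t1.2.1,
        Or.inr (Or.inr (Or.inr (Or.inr (Or.inr (Or.inl ⟨ih, ih', h1⟩)))))⟩)))
    | k3 h h' h1 ih ih' =>
      have t1 := clos_lt ih
      have t2 := clos_lt ih'
      exact clos_fix t1.1 t2.1 t1.2.2 (Or.inr (ruleB_iff.2 (Or.inr ⟨_, t1.2.1,
        Or.inr (Or.inr (Or.inr (Or.inr (Or.inr (Or.inr ⟨ih, ih', h1⟩)))))⟩)))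

theorem nb0_iff (hX : ∀ x ∈ X, x < n) (u v w : ℕ) :
    RL (nb0 n E X) u v w ↔ F0nb (HN E) (Set.Iio n) (LS X) u v w := by
  simp only [RL, nb0, List.mem_filter, mem_trs, Bool.and_eq_true, triB_iff, List.any_eq_true,
    List.mem_range, Bool.not_eq_true', decide_eq_false_iff_not, F0nb, Set.mem_Iio, hn_adj,
    Bool.not_eq_true, and_assoc]
  constructor
  · rintro ⟨_, _, _, ht, x, hx, h1, h2, h3, h4⟩
    exact ⟨ht, x, hx, h1, h2, h3, h4⟩
  · rintro ⟨ht, x, hx, h1, h2, h3, h4⟩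
    exact ⟨hX _ ht.1, hX _ ht.2.1, hX _ ht.2.2.1, ht, x, hx, h1, h2, h3, h4⟩

theorem comL_iff (hX : ∀ x ∈ X, x < n) (hL : ∀ t ∈ L, t.1 < n ∧ t.2.1 < n ∧ t.2.2 < n)
    (h k u v w : ℕ) :
    RL (comL n E X L h k) u v w ↔ Commit (HN E) (LS X) (RL L) h k u v w := by
  have hB : RL (L ++ (trs n).filter (fun t => unrB E X L h k t.2.2 &&
      ((decide (t.1 = h) && decide (t.2.1 = k)) || (decide (t.1 = k) && decide (t.2.1 = h)))))
      = addE (HN E) (LS X) (RL L) h k := by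
    funext a b c
    simp only [RL, addE, List.mem_append, List.mem_filter, mem_trs, Bool.and_eq_true,
      Bool.or_eq_true, decide_eq_true_eq, eq_iff_iff]
    constructor
    · rintro (h1 | ⟨_, h1, h2⟩)
      · exact Or.inl h1
      · exact Or.inr ⟨unrB_iff.1 h1, h2⟩
    · rintro (h1 | ⟨h1, h2⟩)
      · exact Or.inl h1
      · have ht := h1.1
        have hh : h < n := hX _ ht.1
        have hk : k < n := hX _ ht.2.1
        have hc : c < n := hX _ ht.2.2.1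
        refine Or.inr ⟨?_, unrB_iff.2 h1, h2⟩
        rcases h2 with ⟨rfl, rfl⟩ | ⟨rfl, rfl⟩
        · exact ⟨hh, hk, hc⟩
        · exact ⟨hk, hh, hc⟩
  unfold comL Commit
  rw [clos_iff hX, hB]
  intro t ht
  rw [List.mem_append] at ht
  rcases ht with ht | ht
  · exact hL t ht
  · exact mem_trs.1 (List.mem_filter.1 ht).1

end Pool.Agent.H8.CR
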