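import Pool.Agent.H8.CR.AlgS1

/-!
# Specification of the reachability computations on lists

All are saturations inside `List.range n` (`sat_ind` for one direction, `sat_fix` and induction on
`ReflTransGen` resp. `MdR` for the other one; the rules are monotone in `M`).

* `cpL_iff`: entries of `L` `< n`, `v < n`: `LS (cpL n L y v) = Cp (RL L) y v`.
* `cocpL_iff`: `u ∈ B`, `B ⊆ range n`: `LS (cocpL n E B u) = CoCp (HN E) (LS B) u`.
* `mdL_iff`: `u, w < n`: `LS (mdL n E y u w) = Md (HN E) (Set.Iio n) y u w`.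
* `rchL_iff`: `a < n`, `X ⊆ range n`: `x ∈ rchL n E X a ↔ Rch (HN E) (LS X) a x`.
* `connL_iff`.

Status: complete (helper26).
-/

namespace Pool.Agent.H8.CR

open H87.HC Relation

variable {n : ℕ} {E : List (ℕ × ℕ)} {X : List ℕ} {T L : List (ℕ × ℕ × ℕ)}

theorem cpL_iff (hL : ∀ t ∈ L, t.1 < n ∧ t.2.1 < n ∧ t.2.2 < n) {y v : ℕ} (hv : v < n) :
    LS (cpL n L y v) = Cp (RL L) y v := by
  have hmono : ∀ (M M' : List ℕ) (a : ℕ), (∀ x ∈ M, x ∈ M') →
      (decide (a = v) || M.any (fun b => decide ((b, a, y) ∈ L))) = true →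
      (decide (a = v) || M'.any (fun b => decide ((b, a, y) ∈ L))) = true := by
    intro M M' a hM h
    simp only [Bool.or_eq_true, decide_eq_true_eq, List.any_eq_true] at h ⊢
    rcases h with h | ⟨b, hb, h⟩
    · exact Or.inl h
    · exact Or.inr ⟨b, hM b hb, h⟩
  ext u
  constructor
  · intro hu
    have hu' : u ∈ cpL n L y v := hu
    refine sat_ind (Q := fun u => u ∈ Cp (RL L) y v) ?_ hu'
    intro M a hM _ _ h
    simp only [Bool.or_eq_true, decide_eq_true_eq, List.any_eq_true] at h
    rcases h with h | ⟨b, hb, h⟩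
    · rw [h]
      exact ReflTransGen.refl
    · exact ReflTransGen.tail (hM b hb) h
  · intro hu
    have hu' : ReflTransGen (fun a b => RL L a b y) v u := hu
    show u ∈ cpL n L y v
    induction hu' with
    | refl =>
      refine sat_fix hmono (List.mem_range.2 hv) ?_
      simp
    | tail h1 h2 ih =>
      rename_i b c
      have hb : b ∈ cpL n L y v := ih h1
      have hc : c < n := (hL _ h2).2.1
      refine sat_fix hmono (List.mem_range.2 hc) ?_
      simp only [Bool.or_eq_true, decide_eq_true_eq, List.any_eq_true]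
      exact Or.inr ⟨b, hb, h2⟩

theorem cocpL_iff {B : List ℕ} (hB : ∀ x ∈ B, x < n) {u : ℕ} (hu : u ∈ B) :
    LS (cocpL n E B u) = CoCp (HN E) (LS B) u := by
  have hmono : ∀ (M M' : List ℕ) (x : ℕ), (∀ x ∈ M, x ∈ M') →
      (decide (x = u) || (decide (x ∈ B) && M.any (fun a => decide (a ∈ B) && !adj E a x))) =
        true →
      (decide (x = u) || (decide (x ∈ B) && M'.any (fun a => decide (a ∈ B) && !adj E a x))) =
        true := by
    intro M M' x hM h
    simp only [Bool.or_eq_true, Bool.and_eq_true, decide_eq_true_eq, List.any_eq_true] at h ⊢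
    rcases h with h | ⟨h1, b, hb, h⟩
    · exact Or.inl h
    · exact Or.inr ⟨h1, b, hM b hb, h⟩
  ext x
  constructor
  · intro hx
    have hx' : x ∈ cocpL n E B u := hx
    refine sat_ind (Q := fun x => x ∈ CoCp (HN E) (LS B) u) ?_ hx'
    intro M a hM _ _ h
    simp only [Bool.or_eq_true, Bool.and_eq_true, decide_eq_true_eq, List.any_eq_true,
      Bool.not_eq_true'] at h
    rcases h with h | ⟨h1, b, hb, h2, h3⟩
    · rw [h]
      exact ReflTransGen.refl
    · refine ReflTransGen.tail (hM b hb) ⟨h2, h1, ?_⟩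
      rw [hn_adj, h3]
      exact Bool.false_ne_true
  · intro hx
    have hx' : ReflTransGen (fun a b => a ∈ LS B ∧ b ∈ LS B ∧ ¬ (HN E).Adj a b) u x := hx
    show x ∈ cocpL n E B u
    induction hx' with
    | refl =>
      refine sat_fix hmono (List.mem_range.2 (hB u hu)) ?_
      simp
    | tail h1 h2 ih =>
      rename_i b c
      have hb : b ∈ cocpL n E B u := ih h1
      obtain ⟨h3, h4, h5⟩ := h2
      refine sat_fix hmono (List.mem_range.2 (hB c h4)) ?_
      simp only [Bool.or_eq_true, Bool.and_eq_true, decide_eq_true_eq, List.any_eq_true,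
        Bool.not_eq_true']
      rw [hn_adj, Bool.not_eq_true] at h5
      exact Or.inr ⟨h4, b, hb, h3, h5⟩

theorem mdL_iff {y u w : ℕ} (hu : u < n) (hw : w < n) :
    LS (mdL n E y u w) = Md (HN E) (Set.Iio n) y u w := by
  have hmono : ∀ (M M' : List ℕ) (x : ℕ), (∀ x ∈ M, x ∈ M') →
      (decide (x = u) || decide (x = w) ||
        (adj E y x && M.any (fun a => adj E x a) && M.any (fun b => !adj E x b))) = true →
      (decide (x = u) || decide (x = w) ||
        (adj E y x && M'.any (fun a => adj E x a) && M'.any (fun b => !adj E x b))) = true := by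
    intro M M' x hM h
    simp only [Bool.or_eq_true, Bool.and_eq_true, decide_eq_true_eq, List.any_eq_true] at h ⊢
    rcases h with h | ⟨⟨h1, a, ha, h2⟩, b, hb, h3⟩
    · exact Or.inl h
    · exact Or.inr ⟨⟨h1, a, hM a ha, h2⟩, b, hM b hb, h3⟩
  ext x
  constructor
  · intro hx
    have hx' : x ∈ mdL n E y u w := hx
    refine sat_ind (Q := fun x => x ∈ Md (HN E) (Set.Iio n) y u w) ?_ hx'
    intro M z hM _ hz h
    simp only [Bool.or_eq_true, Bool.and_eq_true, decide_eq_true_eq, List.any_eq_true,
      Bool.not_eq_true'] at h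
    rcases h with (h | h) | ⟨⟨h1, a, ha, h2⟩, b, hb, h3⟩
    · rw [h]
      exact MdR.left
    · rw [h]
      exact MdR.right
    · refine MdR.split (hM a ha) (hM b hb) (List.mem_range.1 hz) h1 h2 ?_
      rw [hn_adj, h3]
      exact Bool.false_ne_true
  · intro hx
    have hx' : MdR (HN E) (Set.Iio n) y u w x := hx
    show x ∈ mdL n E y u w
    induction hx' with
    | left =>
      refine sat_fix hmono (List.mem_range.2 hu) ?_
      simp
    | right =>
      refine sat_fix hmono (List.mem_range.2 hw) ?_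
      simp
    | split ha hb hz hy h1 h2 iha ihb =>
      rename_i a b z
      refine sat_fix hmono (List.mem_range.2 hz) ?_
      simp only [Bool.or_eq_true, Bool.and_eq_true, decide_eq_true_eq, List.any_eq_true,
        Bool.not_eq_true']
      rw [hn_adj, Bool.not_eq_true] at h2
      exact Or.inr ⟨⟨hy, a, iha ha, h1⟩, b, ihb hb, h2⟩

theorem rchL_iff (hX : ∀ x ∈ X, x < n) {a x : ℕ} (ha : a < n) :
    x ∈ rchL n E X a ↔ Rch (HN E) (LS X) a x := by
  have hmono : ∀ (M M' : List ℕ) (x : ℕ), (∀ x ∈ M, x ∈ M') →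
      (decide (x = a) || (decide (x ∈ X) && M.any (fun z => decide (z ∈ X) && adj E z x))) =
        true →
      (decide (x = a) || (decide (x ∈ X) && M'.any (fun z => decide (z ∈ X) && adj E z x))) =
        true := by
    intro M M' x hM h
    simp only [Bool.or_eq_true, Bool.and_eq_true, decide_eq_true_eq, List.any_eq_true] at h ⊢
    rcases h with h | ⟨h1, b, hb, h⟩
    · exact Or.inl h
    · exact Or.inr ⟨h1, b, hM b hb, h⟩
  constructor
  · intro hx
    refine sat_ind (Q := fun x => Rch (HN E) (LS X) a x) ?_ hx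
    intro M z hM _ _ h
    simp only [Bool.or_eq_true, Bool.and_eq_true, decide_eq_true_eq, List.any_eq_true] at h
    rcases h with h | ⟨h1, b, hb, h2, h3⟩
    · rw [h]
      exact ReflTransGen.refl
    · exact ReflTransGen.tail (hM b hb) ⟨h3, h2, h1⟩
  · intro hx
    have hx' : ReflTransGen (fun x y => (HN E).Adj x y ∧ x ∈ LS X ∧ y ∈ LS X) a x := hx
    clear hx
    induction hx' with
    | refl =>
      refine sat_fix hmono (List.mem_range.2 ha) ?_
      simp
    | tail h1 h2 ih =>
      rename_i b c
      obtain ⟨h3, h4, h5⟩ := h2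
      refine sat_fix hmono (List.mem_range.2 (hX c h5)) ?_
      simp only [Bool.or_eq_true, Bool.and_eq_true, decide_eq_true_eq, List.any_eq_true]
      exact Or.inr ⟨h5, b, ih, h4, h3⟩

theorem connL_iff (hX : ∀ x ∈ X, x < n) : connL n E X = true ↔ Conn (HN E) (LS X) := by
  unfold connL Conn
  simp only [List.all_eq_true, decide_eq_true_eq]
  constructor
  · intro h a ha b hb
    exact (rchL_iff hX (hX a ha)).1 (h a ha b hb)
  · intro h a ha b hb
    exact (rchL_iff hX (hX a ha)).2 (h a ha b hb)

end Pool.Agent.H8.CR
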