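import Pool.Agent.H8.CR.AlgS2

/-!
# Specification of the oracle, of the admissible edges and of criterion `(*)` on lists

* `orcL_iff`: `B ⊆ range n`. `cocpL n E B u = mdL n E y w w'` iff the sets are equal (`sat_eq_iff`).
* `geB_iff`.
* `srchL`, `starL_iff`: `inV n L z x a ↔ a ∈ Cp (RL L) z x ∪ Cp (RL L) x z`.
  The set `LS (srchL n E X L a b)` is the set reachable from `a` by the relation in `Star`
  (with steps `z → x`); a further saturation inside `List.range n`, as in `AlgS2`.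
  For `geB_iff` use `comL_iff`, `clos_lt`, `cpL_iff` (rewrite `RL (comL ..)` as `Commit ..` by
  `funext`/`propext`), members of `cpL` are `< n`.
-/

namespace Pool.Agent.H8.CR

open H87.HC Relation

variable {n : ℕ} {E : List (ℕ × ℕ)} {X : List ℕ} {T L : List (ℕ × ℕ × ℕ)}

theorem AlgS3_LS_eq {D : List ℕ} {p q : List ℕ → ℕ → Bool} {A B : Set ℕ}
    (hA : LS (sat D p) = A) (hB : LS (sat D q) = B) : sat D p = sat D q ↔ A = B := by
  rw [sat_eq_iff, ← hA, ← hB, Set.ext_iff]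
  exact Iff.rfl

theorem orcL_iff {B : List ℕ} (hB : ∀ x ∈ B, x < n) {y : ℕ} :
    orcL n E T y B = true ↔ Orc (HN E) (Set.Iio n) (RL T) y (LS B) := by
  unfold orcL Orc
  simp only [List.any_eq_true, Bool.and_eq_true, decide_eq_true_eq]
  constructor
  · rintro ⟨u, hu, w, hw, w', hw', h1, h2⟩
    refine ⟨u, hu, w, hw, w', hw', h1, ?_⟩
    exact (AlgS3_LS_eq (cocpL_iff hB hu) (mdL_iff (hB w hw) (hB w' hw'))).1 h2
  · rintro ⟨u, hu, w, hw, w', hw', h1, h2⟩
    refine ⟨u, hu, w, hw, w', hw', h1, ?_⟩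
    exact (AlgS3_LS_eq (cocpL_iff hB hu) (mdL_iff (hB w hw) (hB w' hw'))).2 h2

theorem AlgS3_cpL_lt {y v x : ℕ} (h : x ∈ cpL n L y v) : x < n :=
  List.mem_range.1 (sat_sub h)

theorem geB_iff (hX : ∀ x ∈ X, x < n) (hL : ∀ t ∈ L, t.1 < n ∧ t.2.1 < n ∧ t.2.2 < n)
    {h k : ℕ} : geB n E X T L (h, k) = true ↔
      GE (HN E) (Set.Iio n) (LS X) (RL T) (RL L) h k := by
  have hC : RL (comL n E X L h k) = Commit (HN E) (LS X) (RL L) h k := by
    funext u v w
    exact propext (comL_iff hX hL h k u v w)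
  have hCl : ∀ t ∈ comL n E X L h k, t.1 < n ∧ t.2.1 < n ∧ t.2.2 < n := fun t ht => clos_lt ht
  have horc : ∀ y v, v ∈ X → (orcL n E T y (cpL n (comL n E X L h k) y v) = true ↔
      Orc (HN E) (Set.Iio n) (RL T) y (Cp (Commit (HN E) (LS X) (RL L) h k) y v)) := by
    intro y v hv
    rw [orcL_iff (fun x hx => AlgS3_cpL_lt hx), cpL_iff hCl (hX v hv), hC]
  unfold geB GE
  simp only [Bool.and_eq_true, decide_eq_true_eq, List.any_eq_true, List.all_eq_true,
    Bool.or_eq_true, Bool.not_eq_true', List.mem_range]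
  rw [consL_iff, hC]
  constructor
  · rintro ⟨⟨⟨⟨⟨h1, h2⟩, h3⟩, ⟨v, -, h4⟩⟩, h5⟩, h6⟩
    refine ⟨h1, h2, h3, ⟨v, unrB_iff.1 h4⟩, h5, ?_⟩
    intro y hy v hv hyv
    have hyv' : adj E y v = true := hyv
    rcases h6 y hy v hv with h7 | h7
    · rw [hyv'] at h7
      exact absurd h7 (by decide)
    · exact (horc y v hv).1 h7
  · rintro ⟨h1, h2, h3, ⟨v, h4⟩, h5, h6⟩
    refine ⟨⟨⟨⟨⟨h1, h2⟩, h3⟩, ⟨v, hX v h4.1.2.2.1, unrB_iff.2 h4⟩⟩, h5⟩, ?_⟩
    intro y hy v hv
    by_cases hyv : adj E y v = true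
    · right
      exact (horc y v hv).2 (h6 y hy v hv hyv)
    · left
      exact Bool.eq_false_iff.2 hyv

/-- the relation of criterion `(*)` -/
def AlgS3_R (H : SimpleGraph ℕ) (X : Set ℕ) (F : ℕ → ℕ → ℕ → Prop) (a b x y : ℕ) : Prop :=
  H.Adj x y ∧ x ∈ X ∧ y ∈ X ∧
    ¬ (a ∈ Cp F x y ∪ Cp F y x ∧ b ∈ Cp F x y ∪ Cp F y x)

theorem AlgS3_inV (hL : ∀ t ∈ L, t.1 < n ∧ t.2.1 < n ∧ t.2.2 < n) {x y a : ℕ} (hx : x < n)
    (hy : y < n) : inV n L x y a = true ↔ a ∈ Cp (RL L) x y ∪ Cp (RL L) y x := by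
  unfold inV
  rw [← cpL_iff hL (y := x) hy, ← cpL_iff hL (y := y) hx]
  simp only [Bool.or_eq_true, decide_eq_true_eq]
  exact Iff.rfl

theorem AlgS3_srch (hX : ∀ x ∈ X, x < n) (hL : ∀ t ∈ L, t.1 < n ∧ t.2.1 < n ∧ t.2.2 < n)
    {a b x : ℕ} (ha : a ∈ X) : x ∈ srchL n E X L a b ↔
      ReflTransGen (AlgS3_R (HN E) (LS X) (RL L) a b) a x := by
  constructor
  · intro h
    unfold srchL at h
    refine sat_ind (Q := fun x => ReflTransGen (AlgS3_R (HN E) (LS X) (RL L) a b) a x) ?_ h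
    intro M x hM _ _ hp
    simp only [Bool.or_eq_true, decide_eq_true_eq, Bool.and_eq_true, List.any_eq_true,
      Bool.not_eq_true'] at hp
    rcases hp with hp | ⟨hx, z, hz, ⟨hzX, hzx⟩, hn⟩
    · rw [hp]
    · refine ReflTransGen.tail (hM z hz) ⟨hzx, hzX, hx, ?_⟩
      rintro ⟨h1, h2⟩
      have h3 := (AlgS3_inV hL (hX z hzX) (hX x hx)).2 h1
      have h4 := (AlgS3_inV hL (hX z hzX) (hX x hx)).2 h2
      rw [h3, h4] at hn
      exact absurd hn (by decide)
  · intro h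
    have hmono : ∀ M M' : List ℕ, ∀ x, (∀ z ∈ M, z ∈ M') →
        (decide (x = a) || (decide (x ∈ X) && M.any (fun z => decide (z ∈ X) && adj E z x &&
          !(inV n L z x a && inV n L z x b)))) = true →
        (decide (x = a) || (decide (x ∈ X) && M'.any (fun z => decide (z ∈ X) && adj E z x &&
          !(inV n L z x a && inV n L z x b)))) = true := by
      intro M M' x hMM hp
      simp only [Bool.or_eq_true, decide_eq_true_eq, Bool.and_eq_true, List.any_eq_true] at hp ⊢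
      rcases hp with hp | ⟨hx, z, hz, hp⟩
      · exact Or.inl hp
      · exact Or.inr ⟨hx, z, hMM z hz, hp⟩
    induction h with
    | refl =>
      refine sat_fix hmono (List.mem_range.2 (hX a ha)) ?_
      simp
    | @tail c d _ h2 ih =>
      obtain ⟨hcd, hc, hd, hn⟩ := h2
      refine sat_fix hmono (List.mem_range.2 (hX d hd)) ?_
      simp only [Bool.or_eq_true, decide_eq_true_eq, Bool.and_eq_true, List.any_eq_true,
        Bool.not_eq_true']
      refine Or.inr ⟨hd, c, ih, ⟨hc, hcd⟩, ?_⟩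
      rw [Bool.eq_false_iff]
      intro h5
      rw [Bool.and_eq_true] at h5
      exact hn ⟨(AlgS3_inV hL (hX c hc) (hX d hd)).1 h5.1,
        (AlgS3_inV hL (hX c hc) (hX d hd)).1 h5.2⟩

theorem starL_iff (hX : ∀ x ∈ X, x < n) (hL : ∀ t ∈ L, t.1 < n ∧ t.2.1 < n ∧ t.2.2 < n) :
    starL n E X L = true ↔ Star (HN E) (LS X) (RL L) := by
  unfold starL Star
  simp only [List.all_eq_true, Bool.or_eq_true, Bool.not_eq_true', decide_eq_false_iff_not]
  constructor
  · intro h a ha b hb hab hr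
    have hab' : adj E a b = true := hab
    rcases h a ha b hb with h1 | h1
    · rw [hab'] at h1
      exact absurd h1 (by decide)
    · exact h1 ((AlgS3_srch hX hL ha).2 hr)
  · intro h a ha b hb
    by_cases hab : adj E a b = true
    · right
      intro h1
      exact h a ha b hb hab ((AlgS3_srch hX hL ha).1 h1)
    · left
      exact Bool.eq_false_iff.2 hab

end Pool.Agent.H8.CR
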