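import Pool.Agent.H8.CR.Alg

/-!
# Saturation

`sat D p` is obtained from `[]` by `D.length` rounds `L ↦ D.filter (a ∈ L ∨ p L a)`.

* `sat_sub`: members of `sat D p` are members of `D`.
* `sat_ind`: induction principle: if `Q` is closed under the rule then all members satisfy `Q`
  (all lists `(satStep D p)^[k] []` satisfy it).
* `sat_fix`: if `p` is monotone in `L` then `sat D p` is closed under the rule: the lists
  `L_k = (satStep D p)^[k] []` are increasing (as sets); `satStep D p L ⊇ L` for `L ⊆ D`. If
  `satStep D p L_k` has the same members as `L_k` for some `k ≤ D.length` then it stays so for all later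
  `k` (`satStep` only depends on the set of the members, by monotonicity in both directions). Otherwise
  the number of elements of `D` (positions; `(D.filter (· ∈ L_k)).length`, note `L_{k} = D.filter (· ∈ L_k)` for
  `k ≥ 1`) strictly increases for `k = 0, ..., D.length`, impossible since it is at most `D.length`.
* `sat_filter`: `sat D p = D.filter (· ∈ sat D p)`, so two saturations inside the same `D` are equal iff
  they have the same members (`sat_eq_iff`). (For `D = []` both are `[]`; otherwise the last round is a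
  filter of `D`.)
* `mem_trs`, `mem_prs`.
-/

namespace Pool.Agent.H8.CR

variable {α : Type} [DecidableEq α]

theorem algSat_mem {D : List α} {p : List α → α → Bool} {L : List α} {a : α} :
    a ∈ satStep D p L ↔ a ∈ D ∧ (a ∈ L ∨ p L a = true) := by
  simp only [satStep, List.mem_filter, Bool.or_eq_true, decide_eq_true_eq]

theorem algSat_succ (D : List α) (p : List α → α → Bool) (k : ℕ) :
    (satStep D p)^[k + 1] [] = satStep D p ((satStep D p)^[k] []) :=
  Function.iterate_succ_apply' _ _ _

theorem algSat_sub {D : List α} {p : List α → α → Bool} (k : ℕ) {a : α}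
    (h : a ∈ (satStep D p)^[k] []) : a ∈ D := by
  cases k with
  | zero => simp at h
  | succ k =>
    rw [algSat_succ, algSat_mem] at h
    exact h.1

theorem algSat_mono {D : List α} {p : List α → α → Bool} (k : ℕ) {a : α}
    (h : a ∈ (satStep D p)^[k] []) : a ∈ (satStep D p)^[k + 1] [] := by
  rw [algSat_succ, algSat_mem]
  exact ⟨algSat_sub k h, Or.inl h⟩

theorem algSat_stab {D : List α} {p : List α → α → Bool}
    (hp : ∀ L L' a, (∀ x ∈ L, x ∈ L') → p L a = true → p L' a = true) {k : ℕ}
    (hk : ∀ a ∈ (satStep D p)^[k + 1] [], a ∈ (satStep D p)^[k] []) (j : ℕ) :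
    ∀ a ∈ (satStep D p)^[k + j + 1] [], a ∈ (satStep D p)^[k + j] [] := by
  induction j with
  | zero => exact hk
  | succ j ih =>
    intro a ha
    rw [algSat_succ, algSat_mem] at ha
    obtain ⟨h1, h2 | h2⟩ := ha
    · exact h2
    · have h3 : p ((satStep D p)^[k + j] []) a = true := hp _ _ a ih h2
      show a ∈ (satStep D p)^[(k + j) + 1] []
      rw [algSat_succ, algSat_mem]
      exact ⟨h1, Or.inr h3⟩

theorem algSat_last {D : List α} {p : List α → α → Bool}
    (hp : ∀ L L' a, (∀ x ∈ L, x ∈ L') → p L a = true → p L' a = true) :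
    ∀ a ∈ (satStep D p)^[D.length + 1] [], a ∈ (satStep D p)^[D.length] [] := by
  by_contra hcon
  have h1 : ∀ k ≤ D.length, ∃ a ∈ (satStep D p)^[k + 1] [], a ∉ (satStep D p)^[k] [] := by
    intro k hk
    by_contra h2
    push Not at h2
    have h3 := algSat_stab hp h2 (D.length - k)
    have h4 : k + (D.length - k) = D.length := by omega
    rw [h4] at h3
    exact hcon h3
  have h2 : ∀ k ≤ D.length + 1, k ≤ ((satStep D p)^[k] []).toFinset.card := by
    intro k
    induction k with
    | zero => exact fun _ => Nat.zero_le _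
    | succ k ih =>
      intro hk
      have h3 := ih (by omega)
      obtain ⟨a, ha, ha'⟩ := h1 k (by omega)
      have h4 : ((satStep D p)^[k] []).toFinset ⊂ ((satStep D p)^[k + 1] []).toFinset := by
        rw [Finset.ssubset_iff_of_subset]
        · exact ⟨a, List.mem_toFinset.2 ha, fun h => ha' (List.mem_toFinset.1 h)⟩
        · intro x hx
          exact List.mem_toFinset.2 (algSat_mono k (List.mem_toFinset.1 hx))
      have h5 := Finset.card_lt_card h4
      omega
  have h3 := h2 (D.length + 1) le_rfl
  have h4 : ((satStep D p)^[D.length + 1] []).toFinset ⊆ D.toFinset := by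
    intro x hx
    exact List.mem_toFinset.2 (algSat_sub _ (List.mem_toFinset.1 hx))
  have h5 := Finset.card_le_card h4
  have h6 := List.toFinset_card_le D
  omega

theorem algSat_filter (D : List α) (p : List α → α → Bool) :
    sat D p = D.filter (fun a => decide (a ∈ sat D p)) := by
  have key : ∀ (f : α → Bool), D.filter f = D.filter (fun a => decide (a ∈ D.filter f)) := by
    intro f
    apply List.filter_congr
    intro a ha
    simp [ha]
  have h : ∃ f : α → Bool, sat D p = D.filter f := by
    cases D with
    | nil => exact ⟨fun _ => true, rfl⟩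
    | cons d D =>
      exact ⟨fun a => decide (a ∈ (satStep (d :: D) p)^[D.length] []) ||
        p ((satStep (d :: D) p)^[D.length] []) a, algSat_succ (d :: D) p D.length⟩
  obtain ⟨f, hf⟩ := h
  rw [hf]
  exact key f

theorem sat_sub {D : List α} {p : List α → α → Bool} {a : α} (h : a ∈ sat D p) : a ∈ D := by
  exact algSat_sub D.length h

theorem sat_ind {D : List α} {p : List α → α → Bool} {Q : α → Prop}
    (hQ : ∀ L a, (∀ x ∈ L, Q x) → (∀ x ∈ L, x ∈ D) → a ∈ D → p L a = true → Q a) {a : α}
    (h : a ∈ sat D p) : Q a := by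
  have key : ∀ k : ℕ, ∀ a ∈ (satStep D p)^[k] [], Q a := by
    intro k
    induction k with
    | zero =>
      intro a ha
      simp at ha
    | succ k ih =>
      intro a ha
      rw [algSat_succ, algSat_mem] at ha
      obtain ⟨h1, h2 | h2⟩ := ha
      · exact ih a h2
      · exact hQ _ a ih (fun x hx => algSat_sub k hx) h1 h2
  exact key D.length a h

theorem sat_fix {D : List α} {p : List α → α → Bool}
    (hp : ∀ L L' a, (∀ x ∈ L, x ∈ L') → p L a = true → p L' a = true) {a : α} (ha : a ∈ D)
    (h : p (sat D p) a = true) : a ∈ sat D p := by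
  apply algSat_last hp
  rw [algSat_succ, algSat_mem]
  exact ⟨ha, Or.inr h⟩

theorem sat_eq_iff {D : List α} {p q : List α → α → Bool} :
    sat D p = sat D q ↔ ∀ a, a ∈ sat D p ↔ a ∈ sat D q := by
  constructor
  · intro h a
    rw [h]
  · intro h
    rw [algSat_filter D p, algSat_filter D q]
    apply List.filter_congr
    intro a _
    simp only [h a]

theorem mem_trs {n : ℕ} {t : ℕ × ℕ × ℕ} : t ∈ trs n ↔ t.1 < n ∧ t.2.1 < n ∧ t.2.2 < n := by
  obtain ⟨a, b, c⟩ := t
  simp only [trs, List.mem_flatMap, List.mem_map, List.mem_range, Prod.mk.injEq]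
  constructor
  · rintro ⟨a', ha, b', hb, c', hc, rfl, rfl, rfl⟩
    exact ⟨ha, hb, hc⟩
  · rintro ⟨ha, hb, hc⟩
    exact ⟨a, ha, b, hb, c, hc, rfl, rfl, rfl⟩

theorem mem_prs {n : ℕ} {t : ℕ × ℕ} : t ∈ prs n ↔ t.1 < n ∧ t.2 < n := by
  obtain ⟨a, b⟩ := t
  simp only [prs, List.mem_flatMap, List.mem_map, List.mem_range, Prod.mk.injEq]
  constructor
  · rintro ⟨a', ha, b', hb, rfl, rfl⟩
    exact ⟨ha, hb⟩
  · rintro ⟨ha, hb⟩
    exact ⟨a, ha, b, hb, rfl, rfl⟩

theorem hn_adj {E : List (ℕ × ℕ)} {a b : ℕ} : (HN E).Adj a b ↔ H87.HC.adj E a b = true := Iff.rfl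

end Pool.Agent.H8.CR
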