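import Pool.Agent.H8.CR.AlgG2

/-!
# Correctness of the algorithm

* `tab_sound`: for all `k`, `(y, w, w') ∈ (tabStep n E)^[k] []` implies `y, w, w' < n`, adjacencies, and
  `Dec (HN E) (Iio n) (Md (HN E) (Iio n) y w w')` (`greedy_sound`, `mdL_iff`, `mem_trs`).
* `tab_complete`: if `(Md ..).ncard ≤ k` then the triple is in `(tabStep n E)^[k + 1] []`. Induction on `k`
  (strong enough: `T_k` is complete for sets with at most `k - 1`.. elements), `greedy_complete` with
  `X = mdL n E y w w'`. Formally: claim for `T_k`: `Dec .. (Md ..)` and `(Md ..).ncard < k` (with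
  `y, w, w' < n`, adjacent) imply membership in `T_k`; `k = 0` trivial; step: `hT2` for sets with
  `ncard < (LS X).ncard ≤ k`, that is `< k`.
* `algoL_iff`: `algoL n E = true ↔ 0 < n ∧ ∀ v < n, Dec (HN E) (Iio n) {x | Rch (HN E) (Iio n) v x}`.
  The set is `LS (rchL n E (List.range n) v)` (`rchL_iff`, `LS (List.range n) = Iio n`); `⊆ Iio n`, so all
  `ncard`s are at most `n < n + 1`.
-/

namespace Pool.Agent.H8.CR

open H87.HC

variable {n : ℕ} {E : List (ℕ × ℕ)}

theorem AlgT1_mdL_lt {y w w' x : ℕ} (h : x ∈ mdL n E y w w') : x < n :=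
  List.mem_range.1 (sat_sub h)

theorem AlgT1_mem {T : List (ℕ × ℕ × ℕ)} {y w w' : ℕ} : RL (tabStep n E T) y w w' ↔
    (y < n ∧ w < n ∧ w' < n) ∧ (HN E).Adj y w ∧ (HN E).Adj y w' ∧
      greedyL n E (mdL n E y w w') T = true := by
  unfold RL tabStep
  rw [List.mem_filter, mem_trs, Bool.and_eq_true, Bool.and_eq_true, hn_adj, hn_adj]
  tauto

theorem tab_sound (k : ℕ) {y w w' : ℕ} (h : RL ((tabStep n E)^[k] []) y w w') :
    (y < n ∧ w < n ∧ w' < n) ∧ Dec (HN E) (Set.Iio n) (Md (HN E) (Set.Iio n) y w w') := by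
  cases k with
  | zero => exact absurd h List.not_mem_nil
  | succ k =>
    rw [Function.iterate_succ_apply', AlgT1_mem] at h
    obtain ⟨h1, -, -, h2⟩ := h
    refine ⟨h1, ?_⟩
    rw [← mdL_iff h1.2.1 h1.2.2]
    exact greedy_sound (fun x hx => AlgT1_mdL_lt hx) h2

theorem tab_complete (k : ℕ) {y w w' : ℕ} (hy : y < n) (hw : w < n) (hw' : w' < n)
    (h1 : (HN E).Adj y w) (h2 : (HN E).Adj y w')
    (hD : Dec (HN E) (Set.Iio n) (Md (HN E) (Set.Iio n) y w w'))
    (hk : (Md (HN E) (Set.Iio n) y w w').ncard < k) : RL ((tabStep n E)^[k] []) y w w' := by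
  induction k generalizing y w w' with
  | zero => exact absurd hk (Nat.not_lt_zero _)
  | succ k ih =>
    rw [Function.iterate_succ_apply', AlgT1_mem]
    have h3 : LS (mdL n E y w w') = Md (HN E) (Set.Iio n) y w w' := mdL_iff hw hw'
    refine ⟨⟨hy, hw, hw'⟩, h1, h2, greedy_complete (fun x hx => AlgT1_mdL_lt hx) ?_
      (fun z v v' hz => (tab_sound k hz).2) ?_⟩
    · rw [h3]
      exact hD
    · intro z hz v hv v' hv' ha hb hD' hc
      refine ih hz hv hv' ha hb hD' ?_
      rw [h3] at hc
      omega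

theorem algoL_iff : algoL n E = true ↔ 0 < n ∧ ∀ v < n,
    Dec (HN E) (Set.Iio n) {x | Rch (HN E) (Set.Iio n) v x} := by
  have h0 : LS (List.range n) = Set.Iio n := by
    ext x
    exact List.mem_range
  have h1 : ∀ v < n, LS (rchL n E (List.range n) v) = {x | Rch (HN E) (Set.Iio n) v x} := by
    intro v hv
    ext x
    have := rchL_iff (n := n) (E := E) (X := List.range n) (fun x hx => List.mem_range.1 hx)
      (x := x) hv
    rw [h0] at this
    exact this
  have h2 : ∀ v < n, (greedyL n E (rchL n E (List.range n) v) (tabL n E) = true ↔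
      Dec (HN E) (Set.Iio n) {x | Rch (HN E) (Set.Iio n) v x}) := by
    intro v hv
    have hX : ∀ x ∈ rchL n E (List.range n) v, x < n := fun x hx =>
      List.mem_range.1 (sat_sub hx)
    constructor
    · intro h
      rw [← h1 v hv]
      exact greedy_sound hX h
    · intro h
      rw [← h1 v hv] at h
      refine greedy_complete hX h (fun z w w' hz => (tab_sound (n + 1) hz).2) ?_
      intro z hz w hw w' hw' ha hb hD' hc
      refine tab_complete (n + 1) hz hw hw' ha hb hD' ?_
      have h3 : (LS (rchL n E (List.range n) v)).ncard ≤ (Set.Iio n).ncard :=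
        Set.ncard_le_ncard (fun x hx => hX x hx) (Set.finite_Iio n)
      have h4 : (Set.Iio n).ncard = n := by
        rw [← Finset.coe_range, Set.ncard_coe_finset, Finset.card_range]
      omega
  unfold algoL
  rw [Bool.and_eq_true, List.all_eq_true]
  refine and_congr ?_ ?_
  · rw [Bool.not_eq_true', decide_eq_false_iff_not]
    omega
  · refine forall_congr' fun v => ?_
    rw [List.mem_range]
    exact forall_congr' fun hv => h2 v hv

end Pool.Agent.H8.CR
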