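import Pool.Agent.H8.CR.ChD

/-!
# Reduced clique graphs of chordal graphs are decomposable

* `st_dec`: `G` chordal, `U` finite, `StW G W` ⇒ `Dec (CRG G) Set.univ {K | K.1 ⊆ W}`. Strong induction on
  `W.ncard`. If `W` is a clique: by `ext` there is a maximal clique `K` with `W ⊆ K ⊆ W`; every maximal
  clique `L ⊆ W` equals `W` (`L ⊆ K`, maximality); so the set is `{K}`: `dec_singleton`. Otherwise
  `exists_sepD`; `W1`, `W2` are smaller than `W` (`d2`, `d1` are missing); `st_side` for both sides
  (`SepD.symm`). Trees `t1`, `t2` for the two sides. `node t1 t2`: the support is right by `st_cases`.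
  `Cut`: disjoint by `st_cases`; an edge: by `ext` for `W1` applied to `S` (clique) there is a maximal
  clique `K1 ⊆ W1` containing `S`, similarly `K2`; `st_adj`. Completeness: `st_adj`. Ambient condition:
  `K0 ⊄ W1`, `K0 ⊄ W2`, so `K0 ⊄ W` (`st_cases`); `nb`: first alternative: `N(K0)` misses both sides.
  Second: `R`: if `N(K0)` meets both sides, `R ⊆ K1 ∩ K2 ⊆ W1 ∩ W2 = S`, so all `K` with
  `S ⊆ K` are in `N(K0)`: third alternative of `NC` by `st_adj`.
* `st_comp`: for `v : U` the component `W = {u | G.Reachable v u}` satisfies `StW`. `ext`: a nonempty clique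
  `Q ⊆ W` is contained in a maximal clique (`exists_maxcl`), all of whose vertices are equal or adjacent to an
  element of `Q`, so it lies in `W`; for `Q = ∅` use `{v}`. `cvx`: a path that starts in `W` stays in `W`.
  `nb`: `K0 ⊄ W`; then `K0 ∩ W = ∅` (a clique meeting `W` is contained in `W`; `K0` nonempty is not
  needed), so `K0 ∩ K = ∅` for `K ⊆ W`, and `K0` is not adjacent to `K`.
* `cr_dec`: for a maximal clique `K` of a finite chordal graph:
  `Dec (CRG G) univ {L | (CRG G).Reachable K L}`. If `K = ∅`: the graph has no vertices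
  (a vertex `v` gives the larger clique `{v}`), all cliques are empty, the set is `{K}`. Otherwise let
  `v ∈ K`, `W = {u | G.Reachable v u}`; `st_dec` and `{L | L.1 ⊆ W} = {L | Reachable K L}`: `⊆`: the
  decomposable set is connected (`supp_conn`, ambient `univ`), contains `K`. `⊇`: adjacent cliques
  intersect, so if one is contained in `W` the other one is.
-/

namespace Pool.Agent.H8.CR

open Relation

variable {U : Type*} {G : SimpleGraph U} {W : Set U}

theorem chE_mem_comp {v : U} {K : Set U} (hK : G.IsClique K) {x : U} (hx : x ∈ K)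
    (hxv : G.Reachable v x) : K ⊆ {u | G.Reachable v u} := by
  intro y hy
  by_cases h : x = y
  · subst h
    exact hxv
  · exact hxv.trans (hK hx hy h).reachable

theorem st_dec [Finite U] (hG : Chordal G) (hs : StW G W) :
    Dec (CRG G) Set.univ {K : MC G | K.1 ⊆ W} := by
  classical
  obtain ⟨n, hn⟩ : ∃ n, W.ncard = n := ⟨_, rfl⟩
  induction n using Nat.strong_induction_on generalizing W with
  | _ n ih =>
  by_cases hcl : G.IsClique W
  · obtain ⟨K, hWK, hKW⟩ := hs.ext W le_rfl hcl
    have hKe : K.1 = W := hKW.antisymm hWK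
    have heq : {L : MC G | L.1 ⊆ W} = {K} := by
      ext L
      constructor
      · intro hL
        have hL' : L.1 ⊆ K.1 := by
          rw [hKe]
          exact hL
        exact Subtype.ext (L.2.eq_of_le K.2.prop hL')
      · intro hL
        have : L = K := hL
        subst this
        exact hKW
    rw [heq]
    exact dec_singleton _ _ _
  · have hne : ∃ x ∈ W, ∃ y ∈ W, x ≠ y ∧ ¬ G.Adj x y := by
      by_contra hcon
      push Not at hcon
      exact hcl (fun x hx y hy hxy => hcon x hx y hy hxy)
    obtain ⟨S, W1, W2, h⟩ := exists_sepD hG (Set.toFinite W) hs.conn hne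
    have hW1 : W1 ⊆ W := h.un ▸ Set.subset_union_left
    have hW2 : W2 ⊆ W := h.un ▸ Set.subset_union_right
    have hS1 : S ⊆ W1 := h.int ▸ Set.inter_subset_left
    have hS2 : S ⊆ W2 := h.int ▸ Set.inter_subset_right
    have hlt1 : W1.ncard < n := by
      rw [← hn]
      refine Set.ncard_lt_ncard ((Set.ssubset_iff_of_subset hW1).2 ?_) (Set.toFinite _)
      obtain ⟨d, hd, hdS, -⟩ := h.d2
      exact ⟨d, hW2 hd, fun hd1 => hdS (h.int ▸ ⟨hd1, hd⟩)⟩
    have hlt2 : W2.ncard < n := by
      rw [← hn]
      refine Set.ncard_lt_ncard ((Set.ssubset_iff_of_subset hW2).2 ?_) (Set.toFinite _)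
      obtain ⟨d, hd, hdS, -⟩ := h.d1
      exact ⟨d, hW1 hd, fun hd2 => hdS (h.int ▸ ⟨hd, hd2⟩)⟩
    have hs1 := st_side h hs
    have hs2 := st_side h.symm hs
    obtain ⟨t1, ht1, hv1⟩ := ih _ hlt1 hs1 rfl
    obtain ⟨t2, ht2, hv2⟩ := ih _ hlt2 hs2 rfl
    refine ⟨.node t1 t2, ?_, ⟨⟨?_, ?_, ?_⟩, ?_, hv1, hv2⟩⟩
    · ext K
      simp only [DT.supp, ht1, ht2, Set.mem_union, Set.mem_ofPred_eq]
      constructor
      · rintro (hK | hK)
        · exact hK.trans hW1
        · exact hK.trans hW2
      · intro hK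
        exact (st_cases h K hK).1
    · rw [ht1, ht2, Set.disjoint_left]
      intro K hK1 hK2
      exact (st_cases h K (Set.Subset.trans hK1 hW1)).2 ⟨hK1, hK2⟩
    · obtain ⟨K1, hSK1, hK1⟩ := hs1.ext S hS1 h.cl
      obtain ⟨K2, hSK2, hK2⟩ := hs2.ext S hS2 h.cl
      exact ⟨K1, ht1 ▸ hK1, K2, ht2 ▸ hK2, (st_adj h hs K1 K2 hK1 hK2).2 ⟨hSK1, hSK2⟩⟩
    · rw [ht1, ht2]
      intro a ha b hb a' ha' b' hb' hab hab'
      have h1 := (st_adj h hs a b ha hb).1 hab
      have h2 := (st_adj h hs a' b' ha' hb').1 hab'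
      exact (st_adj h hs a b' ha hb').2 ⟨h1.1, h2.2⟩
    · intro K0 _ hK1 hK2
      rw [ht1] at hK1 ⊢
      rw [ht2] at hK2 ⊢
      have hK0 : ¬ K0.1 ⊆ W := by
        intro hK
        rcases (st_cases h K0 hK).1 with h' | h'
        · exact hK1 h'
        · exact hK2 h'
      rcases hs.nb K0 hK0 with hnb | ⟨R, hR⟩
      · exact Or.inl fun K hK hadj => hnb K (Set.Subset.trans hK hW1) hadj
      · by_cases hm1 : ∃ K1 : MC G, K1.1 ⊆ W1 ∧ (CRG G).Adj K0 K1
        · by_cases hm2 : ∃ K2 : MC G, K2.1 ⊆ W2 ∧ (CRG G).Adj K0 K2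
          · obtain ⟨K1, hK1', hadj1⟩ := hm1
            obtain ⟨K2, hK2', hadj2⟩ := hm2
            have hR1 := (hR K1 (hK1'.trans hW1)).1 hadj1
            have hR2 := (hR K2 (hK2'.trans hW2)).1 hadj2
            have hRS : R ⊆ S := by
              rw [← h.int]
              exact fun x hx => ⟨hK1' (hR1 hx), hK2' (hR2 hx)⟩
            refine Or.inr (Or.inr fun a ha b hb hab => ?_)
            have h1 := (st_adj h hs a b ha hb).1 hab
            exact ⟨(hR a (Set.Subset.trans ha hW1)).2 (hRS.trans h1.1),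
              (hR b (Set.Subset.trans hb hW2)).2 (hRS.trans h1.2)⟩
          · exact Or.inr (Or.inl fun K hK hadj => hm2 ⟨K, hK, hadj⟩)
        · exact Or.inl fun K hK hadj => hm1 ⟨K, hK, hadj⟩

theorem st_comp [Finite U] (G : SimpleGraph U) (v : U) : StW G {u | G.Reachable v u} := by
  classical
  have hsupp : ∀ a b : U, G.Reachable v a → ∀ p : G.Walk a b, ∀ x ∈ p.support,
      x ∈ {u | G.Reachable v u} := by
    intro a b ha p x hx
    exact ha.trans (p.takeUntil x hx).reachable
  refine ⟨?_, ⟨v, SimpleGraph.Reachable.refl v⟩, ?_, ?_, ?_⟩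
  · intro a ha b hb
    obtain ⟨p⟩ := (SimpleGraph.Reachable.symm ha).trans hb
    exact walk_rch p (hsupp a b ha p)
  · intro Q hQ hcl
    by_cases hne : Q.Nonempty
    · obtain ⟨K, hK, hQK⟩ := exists_maxcl G hcl
      obtain ⟨q, hq⟩ := hne
      exact ⟨⟨K, hK⟩, hQK, chE_mem_comp hK.prop (hQK hq) (hQ hq)⟩
    · rw [Set.not_nonempty_iff_eq_empty] at hne
      subst hne
      obtain ⟨K, hK, hQK⟩ := exists_maxcl G (Q := {v}) (SimpleGraph.isClique_singleton v)
      exact ⟨⟨K, hK⟩, Set.empty_subset _, chE_mem_comp hK.prop (hQK rfl)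
        (SimpleGraph.Reachable.refl v)⟩
  · intro Z a ha b hb hab
    obtain ⟨p, hp⟩ := rch_walk ha.1 hab
    exact walk_rch p fun x hx => ⟨hp x hx, hsupp a b ha.2 p x hx⟩
  · intro K0 hK0
    refine Or.inl fun K hK hadj => hK0 ?_
    obtain ⟨x, hx0, hxK⟩ := hadj.2.1
    exact chE_mem_comp K0.2.prop hx0 (hK hxK)

theorem cr_dec [Finite U] (hG : Chordal G) (K : MC G) :
    Dec (CRG G) Set.univ {L : MC G | (CRG G).Reachable K L} := by
  classical
  by_cases hne : K.1.Nonempty
  · obtain ⟨v, hv⟩ := hne
    have hKW : K.1 ⊆ {u | G.Reachable v u} :=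
      chE_mem_comp K.2.prop hv (SimpleGraph.Reachable.refl v)
    have hdec := st_dec hG (st_comp G v)
    have heq : {L : MC G | L.1 ⊆ {u | G.Reachable v u}} =
        {L : MC G | (CRG G).Reachable K L} := by
      apply Set.Subset.antisymm
      · intro L hL
        obtain ⟨t, ht, hval⟩ := hdec
        have hconn := supp_conn hval (Set.subset_univ _)
        rw [ht] at hconn
        have h1 := hconn K hKW L hL
        obtain ⟨p, -⟩ := rch_walk (G := CRG G) (Z := {L : MC G | L.1 ⊆ {u | G.Reachable v u}})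
          hKW h1
        exact ⟨p⟩
      · rintro L ⟨p⟩
        have key : ∀ (A B : MC G) (p : (CRG G).Walk A B), A.1 ⊆ {u | G.Reachable v u} →
            B.1 ⊆ {u | G.Reachable v u} := by
          intro A B p
          induction p with
          | nil => exact id
          | @cons A C B hadj _ ih =>
            intro hA
            obtain ⟨x, hx0, hxK⟩ := hadj.2.1
            exact ih (chE_mem_comp C.2.prop hxK (hA hx0))
        exact key K L p hKW
    rw [← heq]
    exact hdec
  · rw [Set.not_nonempty_iff_eq_empty] at hne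
    have hemp : IsEmpty U := by
      refine ⟨fun v => ?_⟩
      have h1 := K.2.eq_of_le (y := {v}) (SimpleGraph.isClique_singleton v)
        (by rw [hne]; exact Set.empty_subset _)
      rw [hne] at h1
      exact Set.singleton_ne_empty v h1.symm
    have heq : {L : MC G | (CRG G).Reachable K L} = {K} := by
      ext L
      constructor
      · intro _
        exact Subtype.ext (Set.ext fun x => hemp.elim x)
      · intro hL
        have : L = K := hL
        subst this
        exact SimpleGraph.Reachable.refl _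
    rw [heq]
    exact dec_singleton _ _ _

end Pool.Agent.H8.CR
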