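import Pool.Agent.H8.CR.Tree1

/-!
# Transport of trees along maps

* `dec_map`: `f : V → W` injective on `E`, preserving and reflecting adjacency on `E`, `C ⊆ E`. Then
  `Dec H E C → Dec H' (f '' E) (f '' C)`: the tree `t.map f`. Induction on `t` (with `supp t ⊆ E`):
  `(t.map f).supp = f '' t.supp`; disjointness of images by injectivity on `E`; the other conditions are
  translated elementwise.
* `dec_swap`: `s, y ∉ D`, both adjacent to all of `D`: `Dec H (insert s D) (insert s D)` implies
  `Dec H (insert y D) (insert y D)`. Apply `dec_map` with `H' = H`, `E = insert s D` and the map which is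
  the identity except that `s ↦ y` (`Function.update id s y`).
-/

namespace Pool.Agent.H8.CR

variable {V W : Type*} {H : SimpleGraph V} {H' : SimpleGraph W} {E : Set V}

theorem supp_map (t : DT V) (f : V → W) : (t.map f).supp = f '' t.supp := by
  induction t with
  | leaf v => simp [DT.map, DT.supp]
  | node l r ihl ihr =>
    simp only [DT.map, DT.supp]
    rw [ihl, ihr, Set.image_union]

theorem tree6_valid (f : V → W) (hf : Set.InjOn f E)
    (ha : ∀ a ∈ E, ∀ b ∈ E, (H.Adj a b ↔ H'.Adj (f a) (f b))) (t : DT V) (ht : t.supp ⊆ E)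
    (h : Valid H E t) : Valid H' (f '' E) (t.map f) := by
  induction t with
  | leaf v => trivial
  | node l r ihl ihr =>
    have hl : l.supp ⊆ E := fun x hx => ht (Or.inl hx)
    have hr : r.supp ⊆ E := fun x hx => ht (Or.inr hx)
    obtain ⟨⟨h1, h2, h3⟩, h4, h5, h6⟩ := h
    refine ⟨⟨?_, ?_, ?_⟩, ?_, ihl hl h5, ihr hr h6⟩
    · rw [supp_map, supp_map, Set.disjoint_left]
      rintro x ⟨a, haL, rfl⟩ ⟨b, hbR, hab⟩
      have hab' : b = a := hf (hr hbR) (hl haL) hab
      subst hab'
      exact Set.disjoint_left.1 h1 haL hbR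
    · obtain ⟨a, haL, b, hbR, hab⟩ := h2
      rw [supp_map, supp_map]
      exact ⟨f a, ⟨a, haL, rfl⟩, f b, ⟨b, hbR, rfl⟩, (ha a (hl haL) b (hr hbR)).1 hab⟩
    · rw [supp_map, supp_map]
      rintro _ ⟨a, haL, rfl⟩ _ ⟨b, hbR, rfl⟩ _ ⟨a', haL', rfl⟩ _ ⟨b', hbR', rfl⟩ e1 e2
      exact (ha a (hl haL) b' (hr hbR')).1 (h3 a haL b hbR a' haL' b' hbR'
        ((ha a (hl haL) b (hr hbR)).2 e1) ((ha a' (hl haL') b' (hr hbR')).2 e2))
    · rw [supp_map, supp_map]
      rintro _ ⟨u, hu, rfl⟩ huL huR
      have hN : ∀ a ∈ E, (f a ∈ H'.neighborSet (f u) ↔ a ∈ H.neighborSet u) := by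
        intro a haE
        rw [SimpleGraph.mem_neighborSet, SimpleGraph.mem_neighborSet]
        exact (ha u hu a haE).symm
      rcases h4 u hu (fun hc => huL ⟨u, hc, rfl⟩) (fun hc => huR ⟨u, hc, rfl⟩) with h7 | h7 | h7
      · left
        rintro _ ⟨a, haL, rfl⟩
        rw [hN a (hl haL)]
        exact h7 a haL
      · right
        left
        rintro _ ⟨b, hbR, rfl⟩
        rw [hN b (hr hbR)]
        exact h7 b hbR
      · right
        right
        rintro _ ⟨a, haL, rfl⟩ _ ⟨b, hbR, rfl⟩ hab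
        rw [hN a (hl haL), hN b (hr hbR)]
        exact h7 a haL b hbR ((ha a (hl haL) b (hr hbR)).2 hab)

theorem dec_map {C : Set V} (f : V → W) (hf : Set.InjOn f E)
    (ha : ∀ a ∈ E, ∀ b ∈ E, (H.Adj a b ↔ H'.Adj (f a) (f b))) (hC : C ⊆ E) (h : Dec H E C) :
    Dec H' (f '' E) (f '' C) := by
  obtain ⟨t, rfl, ht⟩ := h
  exact ⟨t.map f, supp_map t f, tree6_valid f hf ha t hC ht⟩

theorem dec_swap {D : Set V} {s y : V} (hs : s ∉ D) (hy : y ∉ D) (hsD : ∀ d ∈ D, H.Adj s d)
    (hyD : ∀ d ∈ D, H.Adj y d) (h : Dec H (insert s D) (insert s D)) :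
    Dec H (insert y D) (insert y D) := by
  classical
  have hfs : Function.update id s y s = y := Function.update_self _ _ _
  have hfd : ∀ d ∈ D, Function.update id s y d = d := by
    intro d hd
    have hne : d ≠ s := by
      rintro rfl
      exact hs hd
    rw [Function.update_of_ne hne]
    rfl
  have himg : Function.update id s y '' (insert s D) = insert y D := by
    rw [Set.image_insert_eq, hfs]
    congr 1
    ext x
    constructor
    · rintro ⟨d, hd, rfl⟩
      rw [hfd d hd]
      exact hd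
    · intro hx
      exact ⟨x, hx, hfd x hx⟩
  have h1 := dec_map (H' := H) (Function.update id s y) (E := insert s D) (C := insert s D)
    ?_ ?_ (Set.Subset.refl _) h
  · rwa [himg] at h1
  · rintro a (rfl | ha) b (rfl | hb) hab
    · rfl
    · rw [hfs, hfd b hb] at hab
      exact absurd (hab ▸ hb) hy
    · rw [hfs, hfd a ha] at hab
      exact absurd (hab ▸ ha) hy
    · rw [hfd a ha, hfd b hb] at hab
      exact hab
  · rintro a (rfl | ha) b (rfl | hb)
    · rw [hfs]
      exact ⟨fun h => absurd rfl h.ne, fun h => absurd rfl h.ne⟩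
    · rw [hfs, hfd b hb]
      exact ⟨fun _ => hyD b hb, fun _ => hsD b hb⟩
    · rw [hfs, hfd a ha]
      exact ⟨fun _ => (hyD a ha).symm, fun _ => (hsD a ha).symm⟩
    · rw [hfd a ha, hfd b hb]

end Pool.Agent.H8.CR
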