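import Pool.Agent.H8.CR.FamB
import Pool.Agent.H8.CR.ChE
import Pool.Agent.H8.CR.Tree6

/-!
# Decomposable graphs are reduced clique graphs of chordal graphs

`H` a graph on a finite nonempty type `V`, for every connected component `c` of `H` a tree `t c`, valid with
ambient set `univ`, with support the component. `U := {S : Set V // ∃ c, S ∈ Fam H (t c)}`,
`G : SimpleGraph U` with `S ~ S'` iff `S ≠ S'` and `(S ∩ S').Nonempty`.

* Members of `Fam (t c)`, `Fam (t c')` with `c ≠ c'` are disjoint.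
* `G` is chordal: an embedding of `cycleGraph n`, `n ≥ 4`, gives a sequence `f` (use `Fin n`, `cyc_adj`) as in
  `fam_cycle`; all `f i` belong to the same component since consecutive ones intersect.
  (`f i ∩ f j` nonempty iff adjacent, for `i ≠ j`, as the `f i` are different.)
* For `v : V` let `K v = {S ∈ U | v ∈ S}`. It is a maximal clique: a clique; if a clique `K ⊇ K v` contains
  `S`, then `S = {v}` or `S` meets `{v}` (`{v} ∈ K v`, `fam_singleton`), so `v ∈ S`. `K v ≠ K w` for
  `v ≠ w` (`{v}`). Every maximal clique `K` is some `K v`: `K` is nonempty (`U` is nonempty), its members are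
  pairwise intersecting, belong to one component, `fam_helly` gives a common element `v`, so `K ⊆ K v`, and
  `K = K v` by maximality. So `v ↦ K v` is a bijection `V ≃ MC G`.
* `v ~ w` iff `K v ~ K w` in `CRG G`, for `v ≠ w`.
  `⇒`: `v, w` in the same component `c`; `fam_adj`: `K v ∩ K w ≠ ∅`. Let `S ∈ K v \ K w`,
  `S' ∈ K w \ K v` and a walk in `G` from `S` to `S'` which avoids `K v ∩ K w`: all its sets are in
  `Fam (t c)`, do not contain both `v` and `w`, and consecutive ones intersect; so `w` is reachable from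
  `v` by `Lk H (t c) v w`: contradiction to `fam_noreach`.
  `⇐`: `K v ∩ K w ≠ ∅` implies that `v, w` are in the same component `c`. If `v ≁ w` then `fam_reach` gives a
  chain `v = x0, x1, ..., w` with sets `S_i ∋ x_i, x_{i+1}`, `S_i ∈ Fam (t c)` not containing both `v, w`.
  Then `{v}, S_0, S_1, ..., {w}` gives a walk in `G` (consecutive sets are equal or adjacent) from
  `{v} ∈ K v \ K w` to `{w} ∈ K w \ K v` that avoids `K v ∩ K w`: contradiction to the separation property.
* `isCR_of_dec`: conclusion. The component of `v` is `{u | H.Reachable v u}`.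
* `isCR_iff`: combine with `cr_dec`; `IsCR` gives an isomorphism `H ≃g CRG G`; transport `Dec` along it by
  `dec_map` (`E = univ`); `V` is nonempty since `CRG G` has a vertex (`exists_maxcl` for `∅`).
-/

namespace Pool.Agent.H8.CR

open Relation

section

variable {V : Type} {H : SimpleGraph V}

/-- Trees for the components. -/
structure Tc (H : SimpleGraph V) (t : H.ConnectedComponent → DT V) : Prop where
  supp : ∀ c, (t c).supp = {u | H.connectedComponentMk u = c}
  valid : ∀ c, Valid H Set.univ (t c)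

/-- The intersection graph of the families. -/
def IG (H : SimpleGraph V) (t : H.ConnectedComponent → DT V) :
    SimpleGraph {S : Set V // ∃ c, S ∈ Fam H (t c)} where
  Adj S S' := S ≠ S' ∧ (S.1 ∩ S'.1).Nonempty
  symm := ⟨by
    rintro S S' ⟨h1, h2⟩
    exact ⟨h1.symm, by rwa [Set.inter_comm]⟩⟩
  loopless := ⟨fun S h => h.1 rfl⟩

variable {t : H.ConnectedComponent → DT V}

theorem famc_comp (ht : Tc H t) {c : H.ConnectedComponent} {S : Set V} (hS : S ∈ Fam H (t c))
    {v : V} (hv : v ∈ S) : H.connectedComponentMk v = c := by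
  have h := hS.2.1 hv
  rw [ht.supp] at h
  exact h

theorem famc_mem (ht : Tc H t) (S : {S : Set V // ∃ c, S ∈ Fam H (t c)}) {v : V} (hv : v ∈ S.1)
    {c : H.ConnectedComponent} (hc : H.connectedComponentMk v = c) : S.1 ∈ Fam H (t c) := by
  obtain ⟨c', hc'⟩ := S.2
  rw [← hc, famc_comp ht hc' hv]
  exact hc'

theorem famc_supp (ht : Tc H t) (v : V) : v ∈ (t (H.connectedComponentMk v)).supp := by
  rw [ht.supp]
  exact rfl

/-- singletons -/
def sg (ht : Tc H t) (v : V) : {S : Set V // ∃ c, S ∈ Fam H (t c)} :=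
  ⟨{v}, H.connectedComponentMk v, fam_singleton (ht.valid _) (famc_supp ht v)⟩

theorem famc_chordal (ht : Tc H t) : Chordal (IG H t) := by
  intro n hn
  refine ⟨fun e => ?_⟩
  have h0 : 0 < n := by omega
  obtain ⟨c, hc⟩ := (e ⟨0, h0⟩).2
  let f : ℕ → Set V := fun i => if h : i < n then (e ⟨i, h⟩).1 else ∅
  have hfi : ∀ i (h : i < n), f i = (e ⟨i, h⟩).1 := fun i h => dif_pos h
  have hi : ∀ i j, i < j → j < n → ((f i ∩ f j).Nonempty ↔ j = i + 1 ∨ (i = 0 ∧ j + 1 = n)) := by
    intro i j hij hj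
    have hi' : i < n := hij.trans hj
    rw [hfi i hi', hfi j hj]
    have h1 := cyc_adj (n := n) (by omega) ⟨i, hi'⟩ ⟨j, hj⟩ (Fin.mk_lt_mk.2 hij)
    have h2 : (IG H t).Adj (e ⟨i, hi'⟩) (e ⟨j, hj⟩) ↔
        (SimpleGraph.cycleGraph n).Adj ⟨i, hi'⟩ ⟨j, hj⟩ := e.map_rel_iff
    have h3 : e ⟨i, hi'⟩ ≠ e ⟨j, hj⟩ := by
      intro h
      have h4 := e.injective h
      have h5 : i = j := congrArg Fin.val h4
      omega
    constructor
    · intro h
      exact h1.1 (h2.1 ⟨h3, h⟩)
    · intro h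
      exact (h2.2 (h1.2 h)).2
  have hf : ∀ i < n, f i ∈ Fam H (t c) := by
    intro i
    induction i with
    | zero =>
      intro h
      rw [hfi 0 h]
      exact hc
    | succ i ih =>
      intro h
      have h1 := ih (by omega)
      obtain ⟨x, hx1, hx2⟩ := (hi i (i + 1) (by omega) h).2 (Or.inl rfl)
      rw [hfi (i + 1) h] at hx2 ⊢
      exact famc_mem ht _ hx2 (famc_comp ht h1 hx1)
  exact fam_cycle (ht.valid c) hn hf hi

/-- the maximal clique of a vertex -/
def Kc (t : H.ConnectedComponent → DT V) (v : V) : Set {S : Set V // ∃ c, S ∈ Fam H (t c)} :=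
  {S | v ∈ S.1}

theorem famc_sg_mem (ht : Tc H t) (v : V) : sg ht v ∈ Kc t v := Set.mem_singleton v

theorem famc_max (ht : Tc H t) (v : V) :
    Maximal (fun s : Set {S : Set V // ∃ c, S ∈ Fam H (t c)} => (IG H t).IsClique s) (Kc t v) := by
  constructor
  · intro S hS S' hS' hne
    exact ⟨hne, v, hS, hS'⟩
  · intro K hK hle S hS
    have h1 : sg ht v ∈ K := hle (famc_sg_mem ht v)
    by_cases h : S = sg ht v
    · rw [h]
      exact famc_sg_mem ht v
    · obtain ⟨-, x, hx, hx'⟩ := hK hS h1 h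
      have h2 : x = v := hx'
      rw [h2] at hx
      exact hx

theorem famc_surj (ht : Tc H t) [Nonempty V]
    (K : Set {S : Set V // ∃ c, S ∈ Fam H (t c)})
    (hK : Maximal (fun s : Set {S : Set V // ∃ c, S ∈ Fam H (t c)} => (IG H t).IsClique s) K) :
    ∃ v, Kc t v = K := by
  have hne : K.Nonempty := by
    obtain ⟨v0⟩ := ‹Nonempty V›
    by_contra h
    rw [Set.not_nonempty_iff_eq_empty] at h
    have h1 : Kc t v0 ⊆ K := hK.2 (famc_max ht v0).1 (by rw [h]; exact Set.empty_subset _)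
    rw [h] at h1
    exact h1 (famc_sg_mem ht v0)
  obtain ⟨S0, hS0⟩ := hne
  obtain ⟨c, hc⟩ := S0.2
  have hfam : ∀ S ∈ K, S.1 ∈ Fam H (t c) := by
    intro S hS
    by_cases h : S = S0
    · rw [h]
      exact hc
    · obtain ⟨-, x, hx, hx'⟩ := hK.1 hS hS0 h
      exact famc_mem ht S hx (famc_comp ht hc hx')
  obtain ⟨v, -, hv⟩ := fam_helly (ht.valid c) (Q := Subtype.val '' K)
    (by rintro _ ⟨S, hS, rfl⟩; exact hfam S hS) ⟨_, S0, hS0, rfl⟩
    (by
      rintro _ ⟨S, hS, rfl⟩ _ ⟨S', hS', rfl⟩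
      by_cases h : S = S'
      · rw [h, Set.inter_self]
        exact (hfam S' hS').1
      · exact (hK.1 hS hS' h).2)
  have hle : K ⊆ Kc t v := fun S hS => hv S.1 ⟨S, hS, rfl⟩
  exact ⟨v, le_antisymm (hK.2 (famc_max ht v).1 hle) hle⟩

theorem famc_inj (ht : Tc H t) {v w : V} (h : Kc t v = Kc t w) : v = w := by
  have h1 : sg ht v ∈ Kc t w := by
    rw [← h]
    exact famc_sg_mem ht v
  have h2 : w = v := h1
  exact h2.symm

theorem famc_rch {c : H.ConnectedComponent} (ht : Tc H t) {v w : V}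
    {a b : {S : Set V // ∃ c, S ∈ Fam H (t c)}}
    (h : Rch (IG H t) (Kc t v ∩ Kc t w)ᶜ a b) (ha : a ∈ (Kc t v ∩ Kc t w)ᶜ)
    (x y : V) (hx : x ∈ a.1) (hy : y ∈ b.1) (hc : H.connectedComponentMk x = c) :
    ReflTransGen (Lk H (t c) v w) x y := by
  induction h using ReflTransGen.head_induction_on generalizing x with
  | refl =>
    exact ReflTransGen.single ⟨b.1, famc_mem ht b hx hc, hx, hy, ha⟩
  | head h1 h2 ih =>
    obtain ⟨⟨-, z, hz, hz'⟩, h3, h4⟩ := h1
    have hz2 := famc_comp ht (famc_mem ht _ hx hc) hz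
    exact (ReflTransGen.single ⟨_, famc_mem ht _ hx hc, hx, hz, ha⟩).trans (ih h4 z hz' hz2)

theorem famc_rch' {c : H.ConnectedComponent} (ht : Tc H t) {v w : V} (hvw : v ≠ w) {x : V}
    (h : ReflTransGen (Lk H (t c) v w) v x) :
    Rch (IG H t) (Kc t v ∩ Kc t w)ᶜ (sg ht v) (sg ht x) := by
  have hsg : ∀ y, sg ht y ∈ (Kc t v ∩ Kc t w)ᶜ := by
    rintro y ⟨h1, h2⟩
    have h1' : v = y := h1
    have h2' : w = y := h2
    exact hvw (h1'.trans h2'.symm)
  have hstep : ∀ S S' : {S : Set V // ∃ c, S ∈ Fam H (t c)}, (S.1 ∩ S'.1).Nonempty →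
      S ∈ (Kc t v ∩ Kc t w)ᶜ → S' ∈ (Kc t v ∩ Kc t w)ᶜ →
      Rch (IG H t) (Kc t v ∩ Kc t w)ᶜ S S' := by
    intro S S' h1 h2 h3
    by_cases h4 : S = S'
    · rw [h4]
      exact ReflTransGen.refl
    · exact ReflTransGen.single ⟨⟨h4, h1⟩, h2, h3⟩
  induction h with
  | refl => exact ReflTransGen.refl
  | tail h1 h2 ih =>
    rename_i y z
    obtain ⟨S, hS, hy, hz, hn⟩ := h2
    let S' : {S : Set V // ∃ c, S ∈ Fam H (t c)} := ⟨S, c, hS⟩
    have hS' : S' ∈ (Kc t v ∩ Kc t w)ᶜ := hn
    refine ih.trans ((hstep (sg ht y) S' ⟨y, rfl, hy⟩ (hsg y) hS').trans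
      (hstep S' (sg ht z) ⟨z, hz, rfl⟩ hS' (hsg z)))

theorem famc_adj (ht : Tc H t) (v w : V) :
    (CRG (IG H t)).Adj ⟨Kc t v, famc_max ht v⟩ ⟨Kc t w, famc_max ht w⟩ ↔ H.Adj v w := by
  constructor
  · rintro ⟨hne, ⟨S, hS1, hS2⟩, hsep⟩
    have hvw : v ≠ w := by
      rintro rfl
      exact hne rfl
    by_contra hadj
    obtain ⟨c, hc⟩ := S.2
    have hv : v ∈ (t c).supp := hc.2.1 hS1
    have hw : w ∈ (t c).supp := hc.2.1 hS2
    have h1 := famc_rch' ht hvw (fam_reach (ht.valid c) (Set.subset_univ _) hv hw hvw hadj)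
    have hmem : sg ht v ∈ (Kc t v ∩ Kc t w)ᶜ := by
      rintro ⟨h1, h2⟩
      have h2' : w = v := h2
      exact hvw h2'.symm
    obtain ⟨p, hp⟩ := rch_walk hmem h1
    obtain ⟨x, hx, hx'⟩ := hsep (sg ht v)
      ⟨famc_sg_mem ht v, fun h => hvw (by have h2 : w = v := h; exact h2.symm)⟩ (sg ht w)
      ⟨famc_sg_mem ht w, fun h => hvw (by have h2 : v = w := h; exact h2)⟩ p
    exact hp x hx hx'
  · intro hadj
    have hcomp : H.connectedComponentMk w = H.connectedComponentMk v :=
      SimpleGraph.ConnectedComponent.sound hadj.symm.reachable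
    have hv := famc_supp ht v
    have hw : w ∈ (t (H.connectedComponentMk v)).supp := by
      rw [← hcomp]
      exact famc_supp ht w
    refine ⟨fun h => hadj.ne (famc_inj ht (congrArg Subtype.val h)), ?_, ?_⟩
    · obtain ⟨S, hS, h1, h2⟩ := fam_adj (ht.valid _) (Set.subset_univ _) hv hw hadj
      exact ⟨⟨S, _, hS⟩, h1, h2⟩
    · rintro a ⟨ha1, ha2⟩ b ⟨hb1, hb2⟩ p
      by_contra hcon
      push Not at hcon
      have h1 := walk_rch (Z := (Kc t v ∩ Kc t w)ᶜ) p hcon
      have h2 := famc_rch ht h1 (hcon a p.start_mem_support) v w ha1 hb1 rfl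
      exact fam_noreach (ht.valid _) (Set.subset_univ _) hv hw hadj h2

end

theorem isCR_of_dec {V : Type} [Finite V] [Nonempty V] (H : SimpleGraph V)
    (h : ∀ v, Dec H Set.univ {u | H.Reachable v u}) : IsCR H := by
  have h1 : ∀ c : H.ConnectedComponent, ∃ t : DT V,
      t.supp = {u | H.connectedComponentMk u = c} ∧ Valid H Set.univ t := by
    intro c
    induction c using SimpleGraph.ConnectedComponent.ind with
    | h v =>
      obtain ⟨t, ht, ht'⟩ := h v
      refine ⟨t, ?_, ht'⟩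
      rw [ht]
      ext u
      simp only [Set.mem_ofPred_eq]
      rw [SimpleGraph.ConnectedComponent.eq]
      exact ⟨fun h => h.symm, fun h => h.symm⟩
  choose t ht using h1
  have hT : Tc H t := ⟨fun c => (ht c).1, fun c => (ht c).2⟩
  refine ⟨{S : Set V // ∃ c, S ∈ Fam H (t c)}, inferInstance, IG H t, famc_chordal hT, ⟨?_⟩⟩
  have hbij : Function.Bijective (fun v : V => (⟨Kc t v, famc_max hT v⟩ : MC (IG H t))) := by
    constructor
    · intro v w hvw
      exact famc_inj hT (congrArg Subtype.val hvw)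
    · rintro ⟨K, hK⟩
      obtain ⟨v, hv⟩ := famc_surj hT K hK
      exact ⟨v, Subtype.ext hv⟩
  exact ⟨Equiv.ofBijective _ hbij, fun {v w} => famc_adj hT v w⟩

theorem isCR_iff {V : Type} [Finite V] (H : SimpleGraph V) :
    IsCR H ↔ Nonempty V ∧ ∀ v, Dec H Set.univ {u | H.Reachable v u} := by
  constructor
  · rintro ⟨U, hU, G, hG, ⟨e⟩⟩
    refine ⟨?_, fun v => ?_⟩
    · obtain ⟨K, hK, -⟩ := exists_maxcl G (Q := ∅) (by simp)
      exact ⟨e.symm ⟨K, hK⟩⟩
    · have h1 := cr_dec hG (e v)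
      have h2 := dec_map (H' := H) e.symm e.symm.injective.injOn
        (fun a _ b _ => (e.symm.map_rel_iff (a := a) (b := b)).symm) (Set.subset_univ _) h1
      have h3 : (e.symm '' Set.univ : Set V) = Set.univ := by
        rw [Set.image_univ]
        exact e.symm.surjective.range_eq
      have h4 : (e.symm '' {L : MC G | (CRG G).Reachable (e v) L} : Set V) =
          {u | H.Reachable v u} := by
        ext u
        constructor
        · rintro ⟨L, hL, rfl⟩
          have h5 : (CRG G).Reachable (e v) (e (e.symm L)) := by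
            rw [e.apply_symm_apply]
            exact hL
          exact e.reachable_iff.1 h5
        · intro hu
          exact ⟨e u, e.reachable_iff.2 hu, e.symm_apply_apply u⟩
      rw [h3, h4] at h2
      exact h2
  · rintro ⟨hne, h⟩
    exact isCR_of_dec H h

end Pool.Agent.H8.CR
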