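import Pool.Agent.H8.CR.AlgT1
import Pool.Agent.H8.CR.FamC
import Pool.Agent.H87.HC.Enc

/-!
# Correctness of the decision procedure

* `isCR_gr`: for edge lists `E` and `H = gr n E : SimpleGraph (Fin n)` (adjacency `adj E a b`):
  `IsCR H ↔ algoL n E = true`. By `isCR_iff`, and `Dec H univ {u | H.Reachable v u} ↔
  Dec (HN E) (Iio n) {x | Rch (HN E) (Iio n) v x}` by `dec_map` for `Fin.val` in one direction and for an
  inverse map (`fun x => if h : x < n then ⟨x, h⟩ else v`) in the other one: `Fin.val '' univ = Iio n`,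
  and the images of the components correspond.
* `decW_iff`: `decW w = true ↔ ∃ n (H : SimpleGraph (Fin n)), w = encode H ∧ IsCR H`: as in
  `H87.HC.decB_iff`: `encode_gr`, `gr_edgesOf`, `lead_encode`.
-/

namespace Pool.Agent.H8.CR

open H87.HC Pool.Agent.PPS

variable {n : ℕ} {E : List (ℕ × ℕ)}

theorem algT2_rch (v : Fin n) (x : ℕ) :
    Rch (HN E) (Set.Iio n) v x ↔ ∃ u : Fin n, (u : ℕ) = x ∧ (gr n E).Reachable v u := by
  constructor
  · intro h
    unfold Rch at h
    induction h with
    | refl => exact ⟨v, rfl, SimpleGraph.Reachable.refl v⟩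
    | tail _ h2 ih =>
      obtain ⟨u, hu, hr⟩ := ih
      obtain ⟨h3, -, h5⟩ := h2
      subst hu
      refine ⟨⟨_, h5⟩, rfl, hr.trans ?_⟩
      exact SimpleGraph.Adj.reachable (gr_adj.2 h3)
  · rintro ⟨u, rfl, h⟩
    rw [SimpleGraph.reachable_iff_reflTransGen] at h
    unfold Rch
    induction h with
    | refl => exact Relation.ReflTransGen.refl
    | tail _ h2 ih => exact ih.tail ⟨gr_adj.1 h2, Fin.is_lt _, Fin.is_lt _⟩

theorem algT2_dec (v : Fin n) : Dec (gr n E) Set.univ {u | (gr n E).Reachable v u} ↔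
    Dec (HN E) (Set.Iio n) {x | Rch (HN E) (Set.Iio n) v x} := by
  have h1 : ((fun a : Fin n => (a : ℕ)) '' Set.univ : Set ℕ) = Set.Iio n := by
    ext x
    constructor
    · rintro ⟨a, -, rfl⟩
      exact a.2
    · intro hx
      exact ⟨⟨x, hx⟩, Set.mem_univ _, rfl⟩
  have h2 : ((fun a : Fin n => (a : ℕ)) '' {u | (gr n E).Reachable v u} : Set ℕ) =
      {x | Rch (HN E) (Set.Iio n) v x} := by
    ext x
    rw [Set.mem_ofPred_eq, algT2_rch]
    constructor
    · rintro ⟨u, hu, rfl⟩
      exact ⟨u, rfl, hu⟩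
    · rintro ⟨u, rfl, hu⟩
      exact ⟨u, hu, rfl⟩
  constructor
  · intro h
    have h3 := dec_map (H' := HN E) (fun a : Fin n => (a : ℕ)) (E := Set.univ)
      (fun a _ b _ hab => Fin.ext hab) (fun a _ b _ => Iff.rfl) (Set.subset_univ _) h
    rw [h1, h2] at h3
    exact h3
  · intro h
    obtain ⟨f, hf⟩ : ∃ f : ℕ → Fin n, ∀ a : Fin n, f a = a :=
      ⟨fun x => if hx : x < n then ⟨x, hx⟩ else v, fun a => dif_pos a.2⟩
    have h4 : (f '' (Set.Iio n) : Set (Fin n)) = Set.univ := by
      rw [← h1, Set.image_image]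
      ext a
      constructor
      · intro _
        exact Set.mem_univ _
      · intro _
        exact ⟨a, Set.mem_univ _, hf a⟩
    have h5 : (f '' {x | Rch (HN E) (Set.Iio n) v x} : Set (Fin n)) =
        {u | (gr n E).Reachable v u} := by
      rw [← h2, Set.image_image]
      ext a
      constructor
      · rintro ⟨b, hb, hba⟩
        rw [← hba]
        change (gr n E).Reachable v (f (b : ℕ))
        rw [hf b]
        exact hb
      · intro ha
        exact ⟨a, ha, hf a⟩
    have h3 := dec_map (H' := gr n E) f (E := Set.Iio n)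
      (by
        intro a ha b hb hab
        have e1 : f a = ⟨a, ha⟩ := hf ⟨a, ha⟩
        have e2 : f b = ⟨b, hb⟩ := hf ⟨b, hb⟩
        rw [e1, e2] at hab
        exact congrArg Fin.val hab)
      (by
        intro a ha b hb
        have e1 : f a = ⟨a, ha⟩ := hf ⟨a, ha⟩
        have e2 : f b = ⟨b, hb⟩ := hf ⟨b, hb⟩
        rw [e1, e2]
        exact Iff.rfl)
      (by
        rw [← h2, ← h1]
        exact Set.image_mono (Set.subset_univ _)) h
    rw [h4, h5] at h3
    exact h3

theorem isCR_gr : IsCR (gr n E) ↔ algoL n E = true := by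
  rw [isCR_iff, algoL_iff, Fin.pos_iff_nonempty]
  refine and_congr_right fun _ => ?_
  constructor
  · intro h v hv
    exact (algT2_dec ⟨v, hv⟩).1 (h ⟨v, hv⟩)
  · intro h v
    exact (algT2_dec v).2 (h v v.2)

theorem decW_iff {w : List Bool} :
    decW w = true ↔ ∃ (n : ℕ) (H : SimpleGraph (Fin n)), w = encode H ∧ IsCR H := by
  unfold decW
  rw [Bool.and_eq_true, decide_eq_true_iff]
  constructor
  · rintro ⟨h1, h2⟩
    exact ⟨lead w, gr (lead w) (edgesOf (lead w) w), by rw [encode_gr]; exact h1,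
      isCR_gr.2 h2⟩
  · rintro ⟨n, H, rfl, h⟩
    rw [lead_encode]
    refine ⟨by rw [← encode_gr, gr_edgesOf], isCR_gr.1 ?_⟩
    rw [gr_edgesOf]
    exact h

end Pool.Agent.H8.CR
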