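import Pool.Agent.H8.CR.Sub
import Pool.Agent.H8.CR.Tree6

/-!
# Joins

* `CoCp_*`: basic facts on components of the complement: `CoCp H B u ⊆ B` for `u ∈ B`; they are classes;
  `CoConn H (CoCp H B u)`; a vertex `x ∈ CoCp H B u` is adjacent to every `b ∈ B \ CoCp H B u`.
* `subst_join`: `y ∉ D` adjacent to all of `D`, `J` complete to `D`, `Dec H (insert y D) (insert y D)`,
  `Dec H J J`. Then `Dec H (J ∪ D) (J ∪ D)`. Pick `j0 ∈ J` (`dec_nonempty`); `j0 ∉ D` (else
  `j0 ~ j0`); `dec_swap` gives a tree `t1` for `insert j0 D`. Let `t2` be a tree for `J`. Use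
  `t1.sub j0 t2` and `sub_valid` with `a0 = j0`, `X2 = J`, `E1 = insert j0 D`, `E' = J ∪ D`:
  `Valid H (J ∪ D) t2` by `valid_upgrade` and `TC_univ` (`N(u) ⊇ J` for `u ∈ D`); `D ∩ J = ∅`;
  `hadj`: both sides are true; `hQ1`, `hQ2` are vacuous.
* `series`: choose `J ⊆ B` with `CoCp H B u ⊆ J`, `∀ j ∈ J, CoCp H B j ⊆ J`, `Dec H J J` and
  with the maximal number of elements. If `J ≠ B` take `b ∈ B \ J`, `D = CoCp H B b`; `J` is complete to `D`
  (different components of the complement) and `subst_join` gives a larger set `J ∪ D`.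
-/

namespace Pool.Agent.H8.CR

open Relation

variable {V : Type*} {H : SimpleGraph V} {B : Set V}

theorem CoCp_self (H : SimpleGraph V) (B : Set V) (u : V) : u ∈ CoCp H B u := ReflTransGen.refl

theorem CoCp_sub {u : V} (hu : u ∈ B) : CoCp H B u ⊆ B := by
  intro x hx
  have hx' : ReflTransGen (fun a b => a ∈ B ∧ b ∈ B ∧ ¬ H.Adj a b) u x := hx
  induction hx' with
  | refl => exact hu
  | tail _ hst _ => exact hst.2.1

theorem series_symm {a b : V} (h : b ∈ CoCp H B a) : a ∈ CoCp H B b := by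
  have h' : ReflTransGen (fun a b => a ∈ B ∧ b ∈ B ∧ ¬ H.Adj a b) a b := h
  show ReflTransGen (fun a b => a ∈ B ∧ b ∈ B ∧ ¬ H.Adj a b) b a
  induction h' with
  | refl => exact ReflTransGen.refl
  | tail _ hst ih =>
    exact ReflTransGen.head ⟨hst.2.1, hst.1, fun hh => hst.2.2 hh.symm⟩ (ih (by assumption))

theorem series_trans {a b c : V} (h : b ∈ CoCp H B a) (h' : c ∈ CoCp H B b) : c ∈ CoCp H B a :=
  ReflTransGen.trans (r := fun a b => a ∈ B ∧ b ∈ B ∧ ¬ H.Adj a b) h h'

theorem CoCp_eq {u v : V} (h : v ∈ CoCp H B u) : CoCp H B v = CoCp H B u := by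
  ext x
  exact ⟨fun hx => series_trans h hx, fun hx => series_trans (series_symm h) hx⟩

theorem CoCp_coConn (u : V) : CoConn H (CoCp H B u) := by
  intro a ha b hb
  have hab : b ∈ CoCp H B a := series_trans (series_symm ha) hb
  have hab' : ReflTransGen (fun a b => a ∈ B ∧ b ∈ B ∧ ¬ H.Adj a b) a b := hab
  clear hb hab
  induction hab' with
  | refl => exact ReflTransGen.refl
  | @tail z z' hz hst ih =>
    have h1 : z ∈ CoCp H B u := series_trans ha hz
    have h2 : z' ∈ CoCp H B u := series_trans h1 (ReflTransGen.single hst)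
    exact ReflTransGen.tail ih ⟨h1, h2, hst.2.2⟩

theorem CoCp_adj {u x b : V} (hu : u ∈ B) (hx : x ∈ CoCp H B u) (hb : b ∈ B)
    (hb' : b ∉ CoCp H B u) : H.Adj x b := by
  by_contra hn
  exact hb' (series_trans hx (ReflTransGen.single ⟨CoCp_sub hu hx, hb, hn⟩))

theorem subst_join {y : V} {D J : Set V} (hy : y ∉ D) (hyD : ∀ d ∈ D, H.Adj y d)
    (hJD : ∀ j ∈ J, ∀ d ∈ D, H.Adj j d) (h : Dec H (insert y D) (insert y D))
    (hJ : Dec H J J) : Dec H (J ∪ D) (J ∪ D) := by
  obtain ⟨j0, hj0⟩ := dec_nonempty hJ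
  have hdisj : ∀ j ∈ J, j ∉ D := fun j hj hd => H.loopless.irrefl j (hJD j hj j hd)
  obtain ⟨t1, ht1, hv1⟩ := dec_swap hy (hdisj j0 hj0) hyD (hJD j0 hj0) h
  obtain ⟨t2, ht2, hv2⟩ := hJ
  have hj1 : j0 ∈ t1.supp := by rw [ht1]; exact Or.inl rfl
  refine ⟨t1.sub j0 t2, ?_, ?_⟩
  · rw [supp_sub hj1, ht1, ht2]
    ext x
    constructor
    · rintro (⟨h1 | h1, h2⟩ | h1)
      · exact absurd h1 h2
      · exact Or.inr h1
      · exact Or.inl h1
    · rintro (h1 | h1)
      · exact Or.inr h1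
      · refine Or.inl ⟨Or.inr h1, ?_⟩
        intro h2
        have h3 : x = j0 := h2
        rw [h3] at h1
        exact hdisj j0 hj0 h1
  · refine sub_valid (X2 := J) (E1 := insert j0 D) hv1 ?_ hj1 hj0 (by rw [ht2]) ?_ (Or.inl rfl)
      ?_ ?_ ?_ ?_
    · refine valid_upgrade hv2 ?_
      intro u hu huJ
      refine TC_univ ?_
      rw [ht2]
      intro j hj
      rcases hu with hu | hu
      · exact absurd hu huJ
      · exact (hJD j hj u hu).symm
    · intro x hx1 hx2
      rw [ht1] at hx1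
      rw [ht2] at hx2
      rcases hx1 with h1 | h1
      · exact h1
      · exact absurd h1 (hdisj x hx2)
    · intro v hv hv'
      rw [ht2] at hv'
      rcases hv with hv | hv
      · exact absurd hv hv'
      · exact Or.inr hv
    · intro x hx hx' z hz
      rw [ht1] at hx
      rw [ht2] at hz
      rcases hx with hx | hx
      · exact absurd hx hx'
      · exact ⟨fun _ => ⟨(hJD j0 hj0 x hx).symm, hz⟩, fun _ => (hJD z hz x hx).symm⟩
    · intro v hv hv1' hv2'
      rw [ht1] at hv1'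
      rw [ht2] at hv2'
      rcases hv with hv | hv
      · exact absurd hv hv2'
      · exact absurd (Or.inr hv) hv1'
    · intro v hv hv1' hv2'
      rw [ht1] at hv1'
      rw [ht2] at hv2'
      rcases hv with hv | hv
      · exact absurd hv hv2'
      · exact absurd (Or.inr hv) hv1'

theorem series_aux (hB : B.Finite) {y : V} (hy : y ∉ B) (hyB : ∀ b ∈ B, H.Adj y b)
    (hc : ∀ v ∈ B, Dec H (insert y (CoCp H B v)) (insert y (CoCp H B v))) :
    ∀ n : ℕ, ∀ J : Set V, J ⊆ B → (∀ j ∈ J, CoCp H B j ⊆ J) → Dec H J J →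
      (B \ J).ncard = n → Dec H B B := by
  intro n
  induction n using Nat.strong_induction_on with
  | _ n ih =>
    intro J hJB hcl hJ hn
    by_cases hJe : B ⊆ J
    · have h1 : J = B := Set.Subset.antisymm hJB hJe
      rw [h1] at hJ
      exact hJ
    · obtain ⟨b, hb, hbJ⟩ := Set.not_subset.1 hJe
      have hDB : CoCp H B b ⊆ B := CoCp_sub hb
      have hnot : ∀ j ∈ J, j ∉ CoCp H B b := by
        intro j hj hjb
        have h1 : b ∈ CoCp H B j := series_symm hjb
        exact hbJ (hcl j hj h1)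
      have h2 : Dec H (J ∪ CoCp H B b) (J ∪ CoCp H B b) := by
        refine subst_join (y := y) (fun h => hy (hDB h)) (fun d hd => hyB d (hDB hd)) ?_
          (hc b hb) hJ
        intro j hj d hd
        exact (CoCp_adj hb hd (hJB hj) (hnot j hj)).symm
      refine ih ((B \ (J ∪ CoCp H B b)).ncard) ?_ (J ∪ CoCp H B b)
        (Set.union_subset hJB hDB) ?_ h2 rfl
      · rw [← hn]
        refine Set.ncard_lt_ncard ?_ (hB.subset Set.sdiff_subset)
        refine ⟨fun x hx => ⟨hx.1, fun h => hx.2 (Or.inl h)⟩, ?_⟩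
        intro hsub
        exact (hsub ⟨hb, hbJ⟩).2 (Or.inr (CoCp_self H B b))
      · rintro j (hj | hj)
        · exact (hcl j hj).trans Set.subset_union_left
        · rw [CoCp_eq hj]
          exact Set.subset_union_right

theorem series (hB : B.Finite) {y u : V} (hy : y ∉ B) (hyB : ∀ b ∈ B, H.Adj y b) (hu : u ∈ B)
    (hZ : Dec H (CoCp H B u) (CoCp H B u))
    (hc : ∀ v ∈ B, Dec H (insert y (CoCp H B v)) (insert y (CoCp H B v))) : Dec H B B := by
  refine series_aux hB hy hyB hc _ (CoCp H B u) (CoCp_sub hu) ?_ hZ rfl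
  intro j hj
  rw [CoCp_eq hj]

end Pool.Agent.H8.CR
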