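import Pool.Agent.H8.CR.Cone
import Pool.Agent.H8.CR.Series

/-!
# Anchors, first part

`t` valid, `B = supp t ⊆ E`, `F = al H t` (pure and full on `B`). For `u ∈ B` let `D_u = CoCp H B u` (the
component of `u` in the complement of `H[B]`); if `x ∈ B \ D_u` then `x` is adjacent to all of `D_u`
(`CoCp_adj`). `Op H B F u` is the set of the `x ∈ B \ D_u` such that `D_u` is not contained in one
component at `x`, i.e. not `D_u ⊆ Cp F x u` (equivalently not `D_u ⊆ Cp F x d` for `d ∈ D_u`).

* `anc_sub`: `x ∈ Op u`, `d ∈ D_u` ⇒ `Cp F x d ⊆ D_u`. This is `comp_sub` with `X = B`, `y = x`,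
  `D = D_u`: `hmod`: `t ∉ D_u` is adjacent to all of `D_u`. (`¬ D_u ⊆ Cp F x d`: else `u ∈ Cp F x d`,
  `Cp F x u = Cp F x d ⊇ D_u`.)
* `anc_a`: `x ∈ Op u`, `x' ∈ B \ D_u`, `x' ∉ Op u`, `x ~ x'`, `d ∈ D_u` ⇒ `F x d x'`.
  The triangle `x, x', d` is resolved. `F x x' d`: `Cp_class` gives `Cp F x d = Cp F x' d ⊇ D_u`
  (as `x' ∉ Op u`), contradiction. `F x' d x`: `x' ∈ Cp F x d ⊆ D_u` (`anc_sub`), contradiction.
* `anc_b`: `Op u` is closed: `p, q ∈ Op u` adjacent, `s ∈ B \ Op u` adjacent to both. If `s ∈ D_u`: `F p s q`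
  would give `p ∈ Cp F q s ⊆ D_u`, impossible; `F q s p` similarly; so `F p q s`. If `s ∉ D_u`: by
  `anc_a` `F p u s` and `F q u s`, so `p, q ∈ Cp F s u`, and `Cp_adj` gives `F p q s`.
* `anc_c`: `x ∈ Op u` ⇒ `CoCp H B x ⊆ Op u`. `CoCp H B x` is disjoint from `D_u`. Otherwise there are
  `x1 ∈ Op u`, `x' ∈ CoCp H B x \ Op u` with `x1 ≁ x'` (follow a chain in the complement). `D_u` is
  contained in `Y' := Cp F x' u`. For adjacent `d, d' ∈ D_u`: `F d d' x'` (`Cp_adj`), so
  `F d d' x1` by `d1` (`x1 ≁ x'`). Hence if `D_u` were connected, `D_u ⊆ Cp F x1 u`, contradiction: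
  `D_u` is not connected. `x1 ∉ Y'` (elements of `Y'` are adjacent to `x'`). By `nb_conn`
  `N(x1) ∩ Y'` is connected. It equals `D_u`: if `s ∈ Y' \ D_u` is adjacent to `x1`, then `s ~ u`,
  `F s u x'` (`Cp_adj`), `d1` gives `F s u x1`, so `s ∈ Cp F x1 u ⊆ D_u` (`anc_sub`), contradiction.
  So `D_u` is connected, contradiction.
* `anc_d`: if `Op u = ∅` then `D_u` is closed and connected. Closed: `p, q ∈ D_u` adjacent,
  `s ∈ B \ D_u`: `p, q ∈ Cp F s u`, `Cp_adj`. Connected: if `D_u = B` use `supp_conn`. Otherwise choose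
  `x ∈ B \ D_u` with `(Cp F x u).ncard` minimal. If `D_u = Cp F x u`: connected by `Cp_conn`. Otherwise
  there is `s ∈ Cp F x u \ D_u` (`D_u ⊆ Cp F x u` since `Op u = ∅`), `s ∈ B \ D_u`, `s ~ u`. As
  `Cp F x u` is closed and contains `s, u`: `Cp F s u ⊆ Cp F x u` (`closed_Cp`), and `s ∉ Cp F s u`:
  strictly smaller, contradiction.
-/

namespace Pool.Agent.H8.CR

open Relation

variable {V : Type*} {H : SimpleGraph V} {E : Set V} {t : DT V}

/-- The vertices at which the co-component of `u` is not contained in one component. -/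
def Op (H : SimpleGraph V) (B : Set V) (F : V → V → V → Prop) (u : V) : Set V :=
  {x | x ∈ B ∧ x ∉ CoCp H B u ∧ ¬ CoCp H B u ⊆ Cp F x u}

theorem anc_sub (ht : Valid H E t) (hE : t.supp ⊆ E) {u x d : V} (hu : u ∈ t.supp)
    (hx : x ∈ Op H t.supp (al H t) u) (hd : d ∈ CoCp H t.supp u) :
    Cp (al H t) x d ⊆ CoCp H t.supp u := by
  have hF := al_pure ht hE
  obtain ⟨hx1, hx2, hx3⟩ := hx
  refine comp_sub hF hx1 (CoCp_sub hu) (fun d' hd' => (CoCp_adj hu hd' hx1 hx2).symm) ?_
    (CoCp_coConn u) hd ?_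
  · intro s hs _ hsD p hp q hq _
    exact (CoCp_adj hu hq hs hsD).symm
  · intro hsub
    apply hx3
    have hux : u ∈ Cp (al H t) x d := hsub (CoCp_self _ _ _)
    rw [Cp_eq hF hux]
    exact hsub

theorem anc_a (ht : Valid H E t) (hE : t.supp ⊆ E) {u x x' d : V} (hu : u ∈ t.supp)
    (hx : x ∈ Op H t.supp (al H t) u) (hx' : x' ∈ t.supp) (h1 : x' ∉ CoCp H t.supp u)
    (h2 : x' ∉ Op H t.supp (al H t) u) (hxx : H.Adj x x') (hd : d ∈ CoCp H t.supp u) :
    al H t x d x' := by
  have hF := al_pure ht hE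
  have hxs := anc_sub ht hE hu hx hd
  obtain ⟨hx1, hx2, hx3⟩ := hx
  have hsub : CoCp H t.supp u ⊆ Cp (al H t) x' u := by
    by_contra hcon
    exact h2 ⟨hx', h1, hcon⟩
  have hdx : H.Adj d x := CoCp_adj hu hd hx1 hx2
  have hdx' : H.Adj d x' := CoCp_adj hu hd hx' h1
  have hdB : d ∈ t.supp := CoCp_sub hu hd
  rcases al_full t H x x' d ⟨hx1, hx', hdB, hxx, hdx.symm, hdx'.symm⟩ with h | h | h
  · exfalso
    apply hx3
    have h3 : Cp (al H t) x d = Cp (al H t) x' d := Cp_class hF h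
    have h4 : Cp (al H t) x' d = Cp (al H t) x' u := Cp_eq hF (hsub hd)
    have h5 : CoCp H t.supp u ⊆ Cp (al H t) x d := by
      rw [h3, h4]
      exact hsub
    have h6 : u ∈ Cp (al H t) x d := h5 (CoCp_self _ _ _)
    rw [Cp_eq hF h6]
    exact h5
  · exact h
  · exfalso
    exact h1 (hxs (ReflTransGen.single (hF.symm _ _ _ h)))

theorem anc_b (ht : Valid H E t) (hE : t.supp ⊆ E) {u : V} (hu : u ∈ t.supp) :
    Closed H t.supp (al H t) (Op H t.supp (al H t) u) := by
  have hF := al_pure ht hE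
  refine ⟨fun x hx => hx.1, ?_⟩
  intro p q s hp hq hpq hs hsn hsp hsq
  by_cases hsD : s ∈ CoCp H t.supp u
  · rcases al_full t H p q s ⟨hp.1, hq.1, hs, hpq, hsp.symm, hsq.symm⟩ with h | h | h
    · exact h
    · exfalso
      exact hp.2.1 (anc_sub ht hE hu hq hsD (ReflTransGen.single (hF.symm _ _ _ h)))
    · exfalso
      exact hq.2.1 (anc_sub ht hE hu hp hsD (ReflTransGen.single (hF.symm _ _ _ h)))
  · have h1 := anc_a ht hE hu hp hs hsD hsn hsp.symm (CoCp_self H t.supp u)
    have h2 := anc_a ht hE hu hq hs hsD hsn hsq.symm (CoCp_self H t.supp u)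
    have hsu : H.Adj s u := (CoCp_adj hu (CoCp_self H t.supp u) hs hsD).symm
    exact Cp_adj hF hs hu hsu (ReflTransGen.single (hF.symm _ _ _ h1))
      (ReflTransGen.single (hF.symm _ _ _ h2)) hpq

theorem anc_c (ht : Valid H E t) (hE : t.supp ⊆ E) {u x : V} (hu : u ∈ t.supp)
    (hx : x ∈ Op H t.supp (al H t) u) :
    CoCp H t.supp x ⊆ Op H t.supp (al H t) u := by
  have hF := al_pure ht hE
  intro z hz
  have hch : ReflTransGen (fun a b => a ∈ t.supp ∧ b ∈ t.supp ∧ ¬ H.Adj a b) x z := hz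
  clear hz
  induction hch with
  | refl => exact hx
  | tail _ hstep ih =>
    rename_i x1 x' _
    obtain ⟨_, hx'B, hnadj⟩ := hstep
    by_contra hno
    have hx'D : x' ∉ CoCp H t.supp u :=
      fun h => hnadj (CoCp_adj hu h ih.1 ih.2.1).symm
    have hsub : CoCp H t.supp u ⊆ Cp (al H t) x' u := by
      by_contra hcon
      exact hno ⟨hx'B, hx'D, hcon⟩
    have hx'u : H.Adj x' u := (CoCp_adj hu (CoCp_self H t.supp u) hx'B hx'D).symm
    -- the co-component is not connected
    have hnc : ¬ Conn H (CoCp H t.supp u) := by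
      intro hconn
      apply ih.2.2
      intro d hd
      have hr := hconn u (CoCp_self H t.supp u) d hd
      have hr' : ReflTransGen (fun a b => al H t a b x1) u d := by
        refine ReflTransGen.mono ?_ _ _ hr
        intro a b hab
        obtain ⟨hadj, ha, hb⟩ := hab
        exact hF.d1 a b x' x1 (Cp_adj hF hx'B hu hx'u (hsub ha) (hsub hb) hadj) ih.1 hnadj
          (CoCp_adj hu ha ih.1 ih.2.1).symm (CoCp_adj hu hb ih.1 ih.2.1).symm
      exact hr'
    apply hnc
    have hx1Y : x1 ∉ Cp (al H t) x' u := fun h => hnadj (Cp_sub hF hu hx'u h).2.symm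
    have hcon := nb_conn ht hE ⟨u, Cp_self _ _ _⟩ (Cp_conn hF x' u)
      (Cp_closed hF hx'B hu hx'u) (hE ih.1) hx1Y
    have heq : H.neighborSet x1 ∩ Cp (al H t) x' u = CoCp H t.supp u := by
      apply Set.Subset.antisymm
      · rintro s ⟨hs1, hs2⟩
        have hs1' : H.Adj x1 s := hs1
        by_contra hsD
        have hsB := (Cp_sub hF hu hx'u hs2).1
        have hsu : H.Adj s u := (CoCp_adj hu (CoCp_self H t.supp u) hsB hsD).symm
        have h1 : al H t s u x' := Cp_adj hF hx'B hu hx'u hs2 (Cp_self _ _ _) hsu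
        have h2 : al H t s u x1 := hF.d1 s u x' x1 h1 ih.1 hnadj hs1'
          (CoCp_adj hu (CoCp_self H t.supp u) ih.1 ih.2.1).symm
        exact hsD (anc_sub ht hE hu ih (CoCp_self H t.supp u)
          (ReflTransGen.single (hF.symm _ _ _ h2)))
      · intro d hd
        exact ⟨(CoCp_adj hu hd ih.1 ih.2.1).symm, hsub hd⟩
    rw [heq] at hcon
    exact hcon

theorem anc_d (ht : Valid H E t) (hE : t.supp ⊆ E) {u : V} (hu : u ∈ t.supp)
    (h : Op H t.supp (al H t) u = ∅) :
    Closed H t.supp (al H t) (CoCp H t.supp u) ∧ Conn H (CoCp H t.supp u) := by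
  have hF := al_pure ht hE
  have hsub : ∀ x ∈ t.supp, x ∉ CoCp H t.supp u → CoCp H t.supp u ⊆ Cp (al H t) x u := by
    intro x hx hxD
    by_contra hcon
    have h1 : x ∈ Op H t.supp (al H t) u := ⟨hx, hxD, hcon⟩
    rw [h] at h1
    exact h1
  have hadj : ∀ x ∈ t.supp, x ∉ CoCp H t.supp u → H.Adj x u :=
    fun x hx hxD => (CoCp_adj hu (CoCp_self H t.supp u) hx hxD).symm
  refine ⟨⟨CoCp_sub hu, ?_⟩, ?_⟩
  · intro p q s hp hq hpq hs hsD _ _
    exact Cp_adj hF hs hu (hadj s hs hsD) (hsub s hs hsD hp) (hsub s hs hsD hq) hpq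
  · by_cases hall : ∀ x ∈ t.supp, x ∈ CoCp H t.supp u
    · have heq : CoCp H t.supp u = t.supp := Set.Subset.antisymm (CoCp_sub hu) hall
      rw [heq]
      exact supp_conn ht hE
    · have hind : ∀ n : ℕ, ∀ x ∈ t.supp, x ∉ CoCp H t.supp u →
          (Cp (al H t) x u).ncard = n → Conn H (CoCp H t.supp u) := by
        intro n
        induction n using Nat.strong_induction_on with
        | _ n ih =>
          intro x hx hxD hn
          by_cases hex : ∃ s ∈ Cp (al H t) x u, s ∉ CoCp H t.supp u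
          · obtain ⟨s, hs, hsD⟩ := hex
            have hsB := (Cp_sub hF hu (hadj x hx hxD) hs).1
            have hsu := hadj s hsB hsD
            have hle : Cp (al H t) s u ⊆ Cp (al H t) x u :=
              closed_Cp hF (Cp_closed hF hx hu (hadj x hx hxD)) hs (Cp_self _ _ _) hsu
            have hns : s ∉ Cp (al H t) s u :=
              fun h => (H.irrefl (Cp_sub hF hu hsu h).2)
            have hfin : (Cp (al H t) x u).Finite :=
              (supp_finite t).subset (fun z hz => (Cp_sub hF hu (hadj x hx hxD) hz).1)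
            have hlt : (Cp (al H t) s u).ncard < (Cp (al H t) x u).ncard :=
              Set.ncard_lt_ncard ⟨hle, fun h => hns (h hs)⟩ hfin
            exact ih _ (by omega) s hsB hsD rfl
          · have heq : Cp (al H t) x u = CoCp H t.supp u := by
              apply Set.Subset.antisymm
              · intro s hs
                by_contra hsD
                exact hex ⟨s, hs, hsD⟩
              · exact hsub x hx hxD
            rw [← heq]
            exact Cp_conn hF x u
      have hall' : ∃ x ∈ t.supp, x ∉ CoCp H t.supp u := by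
        by_contra hcon
        apply hall
        intro x hx
        by_contra hxD
        exact hcon ⟨x, hx, hxD⟩
      obtain ⟨x, hx, hxD⟩ := hall'
      exact hind _ x hx hxD rfl

end Pool.Agent.H8.CR
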