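import Pool.Agent.H8.CR.Anc1

/-!
# Anchors, second part

Notation of `Anc1`. An *anchor* is a co-component `D_u` which is closed and connected.

* `anc_f1`: impossible: `D_i`, `D_j` closed and not connected, `D_i ∩ D_j = ∅`, `Op i = D_j`, `Op j = D_i`.
  Let `M = D_i ∪ D_j`. `M` is connected (complete join of two nonempty sets). `M` is closed:
  `p, q ∈ D_i` or both in `D_j`: closedness of that set (for `s ∉ M`). `p ∈ D_i`, `q ∈ D_j`, `s ∈ B \ M`:
  `F p s q` gives `s ∈ Cp F q p ⊆ D_i` (`anc_sub`, `q ∈ Op i`), impossible; `F q s p` gives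
  `s ∈ Cp F p q ⊆ D_j` (`p ∈ Op j`), impossible; so `F p q s`. So `Zp H M` (`dec_of_closed`,
  `Zp_of_dec`). `D_i` is not connected: there are a set `I' ⊆ D_i` without edges to `D_i \ I'` and
  `p' ∈ I'`, `p'' ∈ D_i \ I'` (take the set of vertices reachable from `p'` in `D_i`); similarly
  `J' ⊆ D_j`, `q' ∈ J'`, `q'' ∈ D_j \ J'`. Let `φ` be the indicator of the pairs between `I'` and `J'`. Zero
  sum on triangles of `M`: a triangle with `p ∈ I'`, `q ∈ J'`, third vertex `s`: if `s ∈ D_i` then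
  `s ∈ I'` (adjacent to `p`), so `φ s q = 1`, `φ p s = 0`; similarly `s ∈ D_j`. So `φ = f + f`;
  but along the 4-cycle `p' q' p'' q''` the values are `1, 0, 0, 0`, sum `1`, and `f`-sum is `0`.
* `anc_f2`: impossible: `D_i, D_j, D_k` with `Op i = D_j`, `Op j = D_k`, `D_k ≠ D_i` (disjoint), `D_i`
  closed, `D_j` not connected (and `D_j ∩ D_i = ∅`). Let `d = i ∈ D_i`. `d ∉ D_j`, `d ∉ D_k = Op j`, so
  `D_j ⊆ Y := Cp F d j`. `Y` is connected, `D_j` is not, so there is `s ∈ Y \ D_j`. `s ∈ B` is adjacent to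
  all of `D_j` (`CoCp_adj`), so `F s j d` (`Cp_adj`). `Cp_class`: `Cp F s d = Cp F j d`.
  `j ∈ D_j = Op i`, so `D_i ⊄ Cp F j d`, hence `D_i ⊄ Cp F s d`. If `s ∉ D_i`, this says
  `s ∈ Op i = D_j`, contradiction. So `s ∈ D_i`, `s ~ d`, `j ∉ D_i` is adjacent to both, `D_i` closed:
  `F s d j`, which contradicts `F s j d`.
* `anchor`: there is an anchor. Strong induction on `(supp t).ncard` over all trees (`E` fixed).
  Suppose there is no anchor. By `anc_d` `Op u ≠ ∅` for all `u ∈ B`. Let `u ∈ B`, `v ∈ Op u`; `D_v ⊆ Op u`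
  (`anc_c`). If `Op u ≠ D_v`: `Op u` is a proper subset of `B` (`u ∉ Op u`), it is closed
  (`anc_b`) and connected (the co-components contained in `Op u` are at least two, complete to each
  other). Take a tree `t'` for `Op u` (`closed_restrict_tree`, with `Sp t → Sp t'` on `Op u`); by
  induction there is `w ∈ Op u` such that `CoCp H (Op u) w` is connected and closed for `al H t'`. Now
  `CoCp H (Op u) w = D_w` (`D_w ⊆ Op u` by `anc_c`), and it is closed in `B` for `F`: by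
  `al H t' = Rs F (Op u)` (both are full and pure, one contains the other) and `closed_trans`. So `D_w` is
  an anchor, contradiction. Hence `Op u = D_v` for every `v ∈ Op u`, and `D_v` is closed (`anc_b`), so it
  is not connected. So: for all `u ∈ B` there is `v ∈ B` with `Op u = D_v`, `D_v` closed, not
  connected, `v ∉ D_u`. Start with any `u0`, get `i` from it (`D_i` closed, not connected), `j` with
  `Op i = D_j`, `k` with `Op j = D_k`. If `D_k = D_i`: `anc_f1`. Otherwise `anc_f2`.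
* `anchor_dec`: consequence with `dec_of_closed`.
-/

namespace Pool.Agent.H8.CR

open Relation

variable {V : Type*} {H : SimpleGraph V} {E : Set V} {t : DT V}

/-- If the set `D` is not connected there is a set of vertices without edges to the rest. -/
theorem Anc2_split {D : Set V} (h : ¬ Conn H D) : ∃ I' : Set V, I' ⊆ D ∧
    (∃ a ∈ D, a ∈ I') ∧ (∃ b ∈ D, b ∉ I') ∧ ∀ x ∈ D, ∀ y ∈ D, H.Adj x y → (x ∈ I' ↔ y ∈ I') := by
  unfold Conn at h
  push Not at h
  obtain ⟨a, ha, b, hb, hab⟩ := h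
  have step : ∀ x ∈ D, ∀ y ∈ D, H.Adj x y → Rch H D a x → Rch H D a y :=
    fun x hx y hy hxy hr => ReflTransGen.tail hr ⟨hxy, hx, hy⟩
  refine ⟨{x | x ∈ D ∧ Rch H D a x}, fun x hx => hx.1, ⟨a, ha, ha, ReflTransGen.refl⟩,
    ⟨b, hb, fun hb' => hab hb'.2⟩, ?_⟩
  intro x hx y hy hxy
  exact ⟨fun h => ⟨hy, step x hx y hy hxy h.2⟩, fun h => ⟨hx, step y hy x hx hxy.symm h.2⟩⟩

theorem Anc2_two (a : ZMod 2) : a + a = 0 := by
  revert a
  decide

open Classical in
theorem Anc2_noZp {D D' : Set V} (hd : ∀ x ∈ D, x ∉ D') (hj : ∀ x ∈ D, ∀ y ∈ D', H.Adj x y)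
    (h1 : ¬ Conn H D) (h2 : ¬ Conn H D') (hZ : Zp H (D ∪ D')) : False := by
  obtain ⟨I', hI, ⟨a, haD, ha⟩, ⟨b, hbD, hb⟩, hIa⟩ := Anc2_split h1
  obtain ⟨J', hJ, ⟨c, hcD, hc⟩, ⟨d, hdD, hd'⟩, hJa⟩ := Anc2_split h2
  obtain ⟨α, hα⟩ : ∃ α : V → ZMod 2, α = fun x => if x ∈ I' then 1 else 0 := ⟨_, rfl⟩
  obtain ⟨β, hβ⟩ : ∃ β : V → ZMod 2, β = fun x => if x ∈ J' then 1 else 0 := ⟨_, rfl⟩
  have hα0 : ∀ x ∈ D', α x = 0 := by
    intro x hx
    rw [hα]
    exact if_neg fun h => hd x (hI h) hx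
  have hβ0 : ∀ x ∈ D, β x = 0 := by
    intro x hx
    rw [hβ]
    exact if_neg fun h => hd x hx (hJ h)
  have hαa : ∀ x ∈ D, ∀ y ∈ D, H.Adj x y → α x = α y := by
    intro x hx y hy hxy
    rw [hα]
    simp only [hIa x hx y hy hxy]
  have hβa : ∀ x ∈ D', ∀ y ∈ D', H.Adj x y → β x = β y := by
    intro x hx y hy hxy
    rw [hβ]
    simp only [hJa x hx y hy hxy]
  have ea : α a = 1 := by rw [hα]; exact if_pos ha
  have eb : α b = 0 := by rw [hα]; exact if_neg hb
  have ec : β c = 1 := by rw [hβ]; exact if_pos hc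
  have ed : β d = 0 := by rw [hβ]; exact if_neg hd'
  have t2 : ∀ u ∈ D, ∀ v ∈ D, ∀ w ∈ D', H.Adj u v →
      (α u * β v + α v * β u) + (α v * β w + α w * β v) + (α u * β w + α w * β u) = 0 := by
    intro u hu v hv w hw huv
    rw [hβ0 u hu, hβ0 v hv, hα0 w hw, hαa u hu v hv huv]
    simp only [mul_zero, add_zero, zero_add]
    exact Anc2_two _
  have t3 : ∀ u ∈ D', ∀ v ∈ D', ∀ w ∈ D, H.Adj u v →
      (α u * β v + α v * β u) + (α v * β w + α w * β v) + (α u * β w + α w * β u) = 0 := by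
    intro u hu v hv w hw huv
    rw [hα0 u hu, hα0 v hv, hβ0 w hw, hβa u hu v hv huv]
    simp only [mul_zero, add_zero, zero_mul, zero_add]
    exact Anc2_two _
  obtain ⟨f, hf⟩ := hZ (fun x y => α x * β y + α y * β x) (fun x y => add_comm _ _) (by
    rintro u v w ⟨hu, hv, hw, huv, huw, hvw⟩
    rcases hu with hu | hu <;> rcases hv with hv | hv <;> rcases hw with hw | hw
    · rw [hβ0 u hu, hβ0 v hv, hβ0 w hw]
      simp only [mul_zero, add_zero]
    · exact t2 u hu v hv w hw huv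
    · have := t2 u hu w hw v hv huw
      linear_combination this
    · have := t3 v hv w hw u hu hvw
      linear_combination this
    · have := t2 v hv w hw u hu hvw
      linear_combination this
    · have := t3 u hu w hw v hv huw
      linear_combination this
    · exact t3 u hu v hv w hw huv
    · rw [hα0 u hu, hα0 v hv, hα0 w hw]
      simp only [zero_mul, add_zero])
  have e1 := hf a (Or.inl haD) c (Or.inr hcD) (hj a haD c hcD)
  have e2 := hf b (Or.inl hbD) c (Or.inr hcD) (hj b hbD c hcD)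
  have e3 := hf b (Or.inl hbD) d (Or.inr hdD) (hj b hbD d hdD)
  have e4 := hf a (Or.inl haD) d (Or.inr hdD) (hj a haD d hdD)
  rw [ea, ec, hα0 c hcD, zero_mul, add_zero, mul_one] at e1
  rw [eb, hα0 c hcD, zero_mul, zero_mul, add_zero] at e2
  rw [eb, hα0 d hdD, zero_mul, zero_mul, add_zero] at e3
  rw [ed, hα0 d hdD, zero_mul, mul_zero, add_zero] at e4
  have : (1 : ZMod 2) = 0 := by
    have h5 : (1 : ZMod 2) = (f a + f a) + (f b + f b) + (f c + f c) + (f d + f d) := by
      linear_combination e1 + e2 + e3 + e4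
    rw [h5]
    simp only [Anc2_two, add_zero]
  exact one_ne_zero this

theorem anc_f1 (ht : Valid H E t) (hE : t.supp ⊆ E) {i j : V} (hi : i ∈ t.supp)
    (hj : j ∈ t.supp) (hij : j ∉ CoCp H t.supp i)
    (hci : Closed H t.supp (al H t) (CoCp H t.supp i))
    (hcj : Closed H t.supp (al H t) (CoCp H t.supp j))
    (hni : ¬ Conn H (CoCp H t.supp i)) (hnj : ¬ Conn H (CoCp H t.supp j))
    (hoi : Op H t.supp (al H t) i = CoCp H t.supp j)
    (hoj : Op H t.supp (al H t) j = CoCp H t.supp i) : False := by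
  have hF := al_pure ht hE
  have hfull := al_full t H
  have hdis : ∀ x ∈ CoCp H t.supp i, x ∉ CoCp H t.supp j := by
    intro x hx hx'
    apply hij
    rw [← CoCp_eq hx, CoCp_eq hx']
    exact CoCp_self H _ j
  have hsi := CoCp_sub (H := H) hi
  have hsj := CoCp_sub (H := H) hj
  have hadj : ∀ x ∈ CoCp H t.supp i, ∀ y ∈ CoCp H t.supp j, H.Adj x y := fun x hx y hy =>
    CoCp_adj hi hx (hsj hy) fun h => hdis y h hy
  have hiD := CoCp_self H t.supp i
  have hjD := CoCp_self H t.supp j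
  have hMsub : CoCp H t.supp i ∪ CoCp H t.supp j ⊆ t.supp := Set.union_subset hsi hsj
  have hconn : Conn H (CoCp H t.supp i ∪ CoCp H t.supp j) := by
    have s1 : ∀ x ∈ CoCp H t.supp i ∪ CoCp H t.supp j,
        Rch H (CoCp H t.supp i ∪ CoCp H t.supp j) x i := by
      rintro x (hx | hx)
      · have a1 : Rch H (CoCp H t.supp i ∪ CoCp H t.supp j) x j :=
          ReflTransGen.single ⟨hadj x hx j hjD, Or.inl hx, Or.inr hjD⟩
        exact ReflTransGen.tail a1 ⟨(hadj i hiD j hjD).symm, Or.inr hjD, Or.inl hiD⟩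
      · exact ReflTransGen.single ⟨(hadj i hiD x hx).symm, Or.inr hx, Or.inl hiD⟩
    intro a ha b hb
    exact ReflTransGen.trans (s1 a ha) (Rch_symm (s1 b hb))
  have key : ∀ p ∈ CoCp H t.supp i, ∀ q ∈ CoCp H t.supp j, ∀ s ∈ t.supp,
      s ∉ CoCp H t.supp i ∪ CoCp H t.supp j → H.Adj s p → H.Adj s q → al H t p q s := by
    intro p hp q hq s hs hsn hsp hsq
    have htri : Tri H t.supp p q s :=
      ⟨hsi hp, hsj hq, hs, hadj p hp q hq, hsp.symm, hsq.symm⟩
    rcases hfull p q s htri with h | h | h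
    · exact h
    · exfalso
      apply hsn
      left
      exact anc_sub ht hE hi (by rw [hoi]; exact hq) hp (ReflTransGen.single h)
    · exfalso
      apply hsn
      right
      exact anc_sub ht hE hj (by rw [hoj]; exact hp) hq (ReflTransGen.single h)
  have hclosed : Closed H t.supp (al H t) (CoCp H t.supp i ∪ CoCp H t.supp j) := by
    refine ⟨hMsub, ?_⟩
    intro p q s hp hq hpq hs hsn hsp hsq
    rcases hp with hp | hp <;> rcases hq with hq | hq
    · exact hci.2 p q s hp hq hpq hs (fun h => hsn (Or.inl h)) hsp hsq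
    · exact key p hp q hq s hs hsn hsp hsq
    · exact hF.symm _ _ _ (key q hq p hp s hs hsn hsq hsp)
    · exact hcj.2 p q s hp hq hpq hs (fun h => hsn (Or.inr h)) hsp hsq
  have hdec : Dec H E (CoCp H t.supp i ∪ CoCp H t.supp j) :=
    dec_of_closed ht hE ⟨i, Or.inl hiD⟩ hconn hclosed
  exact Anc2_noZp hdis hadj hni hnj (Zp_of_dec hdec (hMsub.trans hE))

theorem anc_f2 (ht : Valid H E t) (hE : t.supp ⊆ E) {i j k : V} (hi : i ∈ t.supp)
    (hj : j ∈ t.supp) (hk : k ∈ t.supp) (hij : j ∉ CoCp H t.supp i)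
    (hik : k ∉ CoCp H t.supp i)
    (hci : Closed H t.supp (al H t) (CoCp H t.supp i))
    (hnj : ¬ Conn H (CoCp H t.supp j))
    (hoi : Op H t.supp (al H t) i = CoCp H t.supp j)
    (hoj : Op H t.supp (al H t) j = CoCp H t.supp k) : False := by
  have hF := al_pure ht hE
  have hiD := CoCp_self H t.supp i
  have hjD := CoCp_self H t.supp j
  have hij' : i ∉ CoCp H t.supp j := by
    intro h
    apply hij
    rw [CoCp_eq h]
    exact hjD
  have hik' : i ∉ CoCp H t.supp k := by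
    intro h
    apply hik
    rw [CoCp_eq h]
    exact CoCp_self H _ k
  have hadjij : H.Adj i j := CoCp_adj hi hiD hj hij
  have hsub : CoCp H t.supp j ⊆ Cp (al H t) i j := by
    by_contra hn
    apply hik'
    rw [← hoj]
    exact ⟨hi, hij', hn⟩
  obtain ⟨s, hsY, hsj⟩ : ∃ s ∈ Cp (al H t) i j, s ∉ CoCp H t.supp j := by
    by_contra hn
    push Not at hn
    apply hnj
    rw [Set.Subset.antisymm hsub hn]
    exact Cp_conn hF i j
  obtain ⟨hsB, his⟩ := Cp_sub hF hj hadjij hsY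
  have hjs : H.Adj j s := CoCp_adj hj hjD hsB hsj
  have hFs : al H t s j i :=
    Cp_adj hF hi hj hadjij hsY (Cp_self _ _ _) hjs.symm
  have hcls := Cp_class hF hFs
  have hjo : j ∈ Op H t.supp (al H t) i := by
    rw [hoi]
    exact hjD
  have hnot : ¬ CoCp H t.supp i ⊆ Cp (al H t) s i := by
    rw [hcls]
    exact hjo.2.2
  by_cases hsi : s ∈ CoCp H t.supp i
  · have h1 := hci.2 s i j hsi hiD his.symm hj hij hjs hadjij.symm
    exact hF.cons _ _ _ h1 hFs
  · apply hsj
    rw [← hoi]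
    exact ⟨hsB, hsi, hnot⟩

theorem Anc2_al {t' : DT V} (ht' : Valid H E t')
    (hs : t'.supp ⊆ t.supp)
    (hsp : ∀ u v w, u ∈ t'.supp → v ∈ t'.supp → w ∈ t'.supp → Sp t u v w → Sp t' u v w) :
    al H t' = Rs (al H t) t'.supp := by
  funext u v w
  apply propext
  constructor
  · rintro ⟨⟨hu, hv, hw, huv, huw, hvw⟩, hst⟩
    have htri : Tri H t.supp u v w := ⟨hs hu, hs hv, hs hw, huv, huw, hvw⟩
    refine ⟨⟨htri, ?_⟩, hu, hv, hw⟩
    rcases al_full t H u v w htri with h | h | h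
    · exact h.2
    · exact absurd (hsp u w v hu hw hv h.2) (Sp_cons ht' hst)
    · exact absurd (hsp v w u hv hw hu h.2) (Sp_cons ht' (Sp_symm hst))
  · rintro ⟨⟨⟨-, -, -, huv, huw, hvw⟩, hst⟩, hu, hv, hw⟩
    exact ⟨⟨hu, hv, hw, huv, huw, hvw⟩, hsp u v w hu hv hw hst⟩

theorem Anc2_CoCp {B O : Set V} {w : V} (hO : O ⊆ B) (h : CoCp H B w ⊆ O) :
    CoCp H O w = CoCp H B w := by
  apply Set.Subset.antisymm
  · intro x hx
    exact ReflTransGen.mono (p := fun a b => a ∈ B ∧ b ∈ B ∧ ¬ H.Adj a b)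
      (fun a b hab => ⟨hO hab.1, hO hab.2.1, hab.2.2⟩) w x hx
  · intro x hx
    have hx' : ReflTransGen (fun a b => a ∈ B ∧ b ∈ B ∧ ¬ H.Adj a b) w x := hx
    change ReflTransGen (fun a b => a ∈ O ∧ b ∈ O ∧ ¬ H.Adj a b) w x
    clear hx
    induction hx' with
    | refl => exact ReflTransGen.refl
    | tail hab hbc ih =>
      exact ReflTransGen.tail ih ⟨h hab, h (ReflTransGen.tail hab hbc), hbc.2.2⟩

theorem Anc2_step (ht : Valid H E t) (hE : t.supp ⊆ E)
    (ih : ∀ t' : DT V, t'.supp.ncard < t.supp.ncard → Valid H E t' → t'.supp ⊆ E →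
      ∃ u ∈ t'.supp, Closed H t'.supp (al H t') (CoCp H t'.supp u) ∧ Conn H (CoCp H t'.supp u))
    (hno : ∀ u ∈ t.supp, ¬ (Closed H t.supp (al H t) (CoCp H t.supp u) ∧
      Conn H (CoCp H t.supp u))) {u : V} (hu : u ∈ t.supp) :
    ∃ v ∈ t.supp, v ∉ CoCp H t.supp u ∧ Op H t.supp (al H t) u = CoCp H t.supp v ∧
      Closed H t.supp (al H t) (CoCp H t.supp v) ∧ ¬ Conn H (CoCp H t.supp v) := by
  have hne : (Op H t.supp (al H t) u).Nonempty := by
    rw [Set.nonempty_iff_ne_empty]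
    intro h
    exact hno u hu (anc_d ht hE hu h)
  obtain ⟨v, hv⟩ := hne
  have hvB : v ∈ t.supp := hv.1
  have hvu : v ∉ CoCp H t.supp u := hv.2.1
  have hsub := anc_c ht hE hu hv
  have hclo := anc_b ht hE hu
  have hOB : Op H t.supp (al H t) u ⊆ t.supp := fun x hx => hx.1
  by_cases heq : Op H t.supp (al H t) u = CoCp H t.supp v
  · rw [heq] at hclo
    exact ⟨v, hvB, hvu, heq, hclo, fun hc => hno v hvB ⟨hclo, hc⟩⟩
  · exfalso
    obtain ⟨v', hv', hvn⟩ : ∃ v' ∈ Op H t.supp (al H t) u, v' ∉ CoCp H t.supp v := by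
      by_contra hn
      push Not at hn
      exact heq (Set.Subset.antisymm hn hsub)
    have hvD := CoCp_self H t.supp v
    have hconn : Conn H (Op H t.supp (al H t) u) := by
      have s1 : ∀ x ∈ Op H t.supp (al H t) u, Rch H (Op H t.supp (al H t) u) x v := by
        intro x hx
        by_cases hxD : x ∈ CoCp H t.supp v
        · have a1 : H.Adj x v' := CoCp_adj hvB hxD hv'.1 hvn
          have a2 : H.Adj v v' := CoCp_adj hvB hvD hv'.1 hvn
          have a3 : Rch H (Op H t.supp (al H t) u) x v' := ReflTransGen.single ⟨a1, hx, hv'⟩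
          exact ReflTransGen.tail a3 ⟨a2.symm, hv', hv⟩
        · have a1 : H.Adj v x := CoCp_adj hvB hvD hx.1 hxD
          exact ReflTransGen.single ⟨a1.symm, hx, hv⟩
      intro a ha b hb
      exact ReflTransGen.trans (s1 a ha) (Rch_symm (s1 b hb))
    obtain ⟨t', ht's, ht'v, hsp⟩ := closed_restrict_tree ht hE ⟨v, hv⟩ hconn hclo
    have hsp' : ∀ u v w, u ∈ t'.supp → v ∈ t'.supp → w ∈ t'.supp → Sp t u v w → Sp t' u v w := by
      intro a b c ha hb hc
      rw [ht's] at ha hb hc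
      exact hsp a b c ha hb hc
    have hs' : t'.supp ⊆ t.supp := by
      rw [ht's]
      exact hOB
    have hlt : t'.supp.ncard < t.supp.ncard := by
      apply Set.ncard_lt_ncard _ (supp_finite t)
      refine ⟨hs', fun h => ?_⟩
      have h2 := h hu
      rw [ht's] at h2
      exact h2.2.1 (CoCp_self H _ u)
    obtain ⟨w, hw, hwc, hwn⟩ := ih t' hlt ht'v (hs'.trans hE)
    rw [Anc2_al ht'v hs' hsp'] at hwc
    rw [ht's] at hwc hwn hw
    have hDw : CoCp H t.supp w ⊆ Op H t.supp (al H t) u := anc_c ht hE hu hw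
    rw [Anc2_CoCp hOB hDw] at hwc hwn
    exact hno w hw.1 ⟨closed_trans hclo hwc, hwn⟩

theorem Anc2_main (n : ℕ) : ∀ t : DT V, t.supp.ncard = n → Valid H E t → t.supp ⊆ E →
    ∃ u ∈ t.supp, Closed H t.supp (al H t) (CoCp H t.supp u) ∧ Conn H (CoCp H t.supp u) := by
  induction n using Nat.strong_induction_on with
  | _ n ih =>
    intro t hn ht hE
    by_contra hno
    push Not at hno
    have hno' : ∀ u ∈ t.supp, ¬ (Closed H t.supp (al H t) (CoCp H t.supp u) ∧
        Conn H (CoCp H t.supp u)) := fun u hu h => hno u hu h.1 h.2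
    have ih' : ∀ t' : DT V, t'.supp.ncard < t.supp.ncard → Valid H E t' → t'.supp ⊆ E →
        ∃ u ∈ t'.supp, Closed H t'.supp (al H t') (CoCp H t'.supp u) ∧
          Conn H (CoCp H t'.supp u) := by
      intro t' hlt hv hs
      exact ih t'.supp.ncard (by rw [← hn]; exact hlt) t' rfl hv hs
    obtain ⟨u0, hu0⟩ := supp_nonempty t
    obtain ⟨i, hi, -, -, hci, hni⟩ := Anc2_step ht hE ih' hno' hu0
    obtain ⟨j, hj, hij, hoi, hcj, hnj⟩ := Anc2_step ht hE ih' hno' hi
    obtain ⟨k, hk, -, hoj, -, -⟩ := Anc2_step ht hE ih' hno' hj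
    by_cases hki : k ∈ CoCp H t.supp i
    · rw [CoCp_eq hki] at hoj
      exact anc_f1 ht hE hi hj hij hci hcj hni hnj hoi hoj
    · exact anc_f2 ht hE hi hj hk hij hki hci hnj hoi hoj

theorem anchor (ht : Valid H E t) (hE : t.supp ⊆ E) :
    ∃ u ∈ t.supp, Closed H t.supp (al H t) (CoCp H t.supp u) ∧ Conn H (CoCp H t.supp u) :=
  Anc2_main _ t rfl ht hE

theorem anchor_dec {B : Set V} (h : Dec H E B) (hB : B ⊆ E) :
    ∃ u ∈ B, Dec H E (CoCp H B u) := by
  obtain ⟨t, rfl, ht⟩ := h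
  obtain ⟨u, hu, h1, h2⟩ := anchor ht hB
  exact ⟨u, hu, dec_of_closed ht hB ⟨u, CoCp_self H _ u⟩ h2 h1⟩

end Pool.Agent.H8.CR
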