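import Pool.Agent.H8.CR.Split

/-!
# The quotient of a piece without cone vertices is decomposable

Setting: `NCd H X F P A W`, `Dec H X X`, `X` finite. Let `ρ : V → V` choose a representative of every class:
`ρ b ∈ A b` for `b ∈ Vx P` and `ρ b' = ρ b` for `b' ∈ A b`. Let `B = Vx P` and `R = ρ '' B`.

* `ncd_facts` (for `u, v ∈ B`): (N0) `A b ⊆ B`; (N1) if `u ~ v` then `(u, v) ∈ P` or `v ∈ A u`
  [if `v ∈ W u` then `v ∈ B ∩ W u = A u`; else `edge` for `u ∈ W u`, `v ∉ W u` gives `(u, v) ∈ P`];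
  (N2) `(u, v) ∈ P ⇒ (ρ u, ρ v) ∈ P` [`pcl` for `ρ u ∈ A u`, then symmetry, then `pcl` for `ρ v ∈ A v`];
  (N3) `ρ u ~ ρ v ⇒ (u, v) ∈ P` [(N1) for `ρ u, ρ v`: `(ρ u, ρ v) ∈ P` or `ρ v ∈ A (ρ u)`; the latter
  gives `ρ (ρ v) = ρ (ρ u)`, i.e. `ρ v = ρ u`, contradiction; then `pcl` for `u ∈ A (ρ u) = A u` ..];
  (N4) `(u, v) ∈ P ⇒ v ∉ A u`, `u ∉ W v`.. [`v ∈ A u` would give `(v, v) ∈ P` by `pcl`].
* `blowup_dec`: `Dec H R R`. `X` is finite. Claim: for every finite set `R' ⊆ R`, with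
  `X' = (X \ ⋃ r ∈ R', W r) ∪ R'`: `Dec H X' X'`. Induction on `R'`. For `r ∈ R \ R'`:
  `X'' = insert r (X' \ W r)` is the set for `insert r R'`: `R' ∩ W r = ∅`, because
  `r' ∈ R' ∩ W r ⊆ B ∩ W r = A r` gives `r' = ρ r' = ρ r = r`. (`ρ r = r` for `r ∈ R`.)
  Apply `split` with `E = X'`, `W := X' ∩ W r`, `a0 = r`. `r ∈ X'`: `r ∈ X`, and `r ∉ W r'` for `r' ∈ R'`
  (same argument). `h1`, `h2`: for `p ∈ X' ∩ W r`, `q ∈ X' \ W r` (`q ∈ X`): `p ~ q ↔ p ∈ A r ∧ (r, q) ∈ P` by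
  `edge`, in particular `r ~ q ↔ (r, q) ∈ P`. Note `X' \ (X' ∩ W r) = X' \ W r`.
  At the end `R' = R` (finite as a subset of `X`): `X \ ⋃ r ∈ R, W r = ∅`. Let `Y` be this set. It is
  disjoint from `B` (`b ∈ A b = A (ρ b) ⊆ W (ρ b)`). There is no edge between `q ∈ Y` and
  `p ∈ X \ Y`: `p ∈ W r`, `q ∉ W r`, so `(r, q) ∈ P`, `q ∈ B`, contradiction. `H[X]` is connected
  (`supp_conn`) and contains elements of `B`, so `Y = ∅`. Hence the set is `R`.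
-/

namespace Pool.Agent.H8.CR

variable {V : Type*} {H : SimpleGraph V} {X : Set V} {F : V → V → V → Prop} {P : Set (V × V)}
  {A W : V → Set V} {ρ : V → V}

/-- `ρ` chooses a representative of every class. -/
structure Rep (P : Set (V × V)) (A : V → Set V) (ρ : V → V) : Prop where
  mem : ∀ b ∈ Vx P, ρ b ∈ A b
  eq : ∀ b ∈ Vx P, ∀ b' ∈ A b, ρ b' = ρ b

theorem exists_rep (h : NCd H X F P A W) : ∃ ρ, Rep P A ρ := by
  have : Nonempty V := ⟨h.ne.some.1⟩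
  refine ⟨fun b => Classical.epsilon (fun x => x ∈ A b), ⟨?_, ?_⟩⟩
  · intro b hb
    exact Classical.epsilon_spec (p := fun x => x ∈ A b) ⟨b, h.self b hb⟩
  · intro b hb b' hb'
    show Classical.epsilon (fun x => x ∈ A b') = Classical.epsilon (fun x => x ∈ A b)
    rw [h.cls b hb b' hb']

theorem ncd_sub (h : NCd H X F P A W) {b : V} (hb : b ∈ Vx P) : A b ⊆ Vx P := by
  intro x hx
  have h1 : x ∈ Vx P ∩ W b := by
    rw [h.inter b hb]
    exact hx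
  exact h1.1

theorem ncd_rho (h : NCd H X F P A W) (hρ : Rep P A ρ) {b : V} (hb : b ∈ Vx P) :
    ρ b ∈ Vx P ∧ A (ρ b) = A b ∧ ρ (ρ b) = ρ b ∧ b ∈ A (ρ b) ∧ ρ b ∈ X ∧ b ∈ X := by
  have hm := hρ.mem b hb
  have h2 : A (ρ b) = A b := h.cls b hb _ hm
  refine ⟨ncd_sub h hb hm, h2, hρ.eq b hb _ hm, ?_, (h.sub b hb).2 ((h.sub b hb).1 hm),
    (h.sub b hb).2 ((h.sub b hb).1 (h.self b hb))⟩
  rw [h2]
  exact h.self b hb

theorem ncd_n1 (h : NCd H X F P A W) {u v : V} (hu : u ∈ Vx P) (hv : v ∈ Vx P)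
    (huv : H.Adj u v) : (u, v) ∈ P ∨ v ∈ A u := by
  by_cases hw : v ∈ W u
  · right
    have h1 : v ∈ Vx P ∩ W u := ⟨hv, hw⟩
    rw [h.inter u hu] at h1
    exact h1
  · left
    exact ((h.edge u hu u ((h.sub u hu).1 (h.self u hu)) v
      ((h.sub v hv).2 ((h.sub v hv).1 (h.self v hv))) hw).1 huv).2

theorem ncd_n2 (h : NCd H X F P A W) (hρ : Rep P A ρ) {u v : V} (huv : (u, v) ∈ P) :
    (ρ u, ρ v) ∈ P ∧ H.Adj (ρ u) (ρ v) := by
  have hu : u ∈ Vx P := ⟨v, huv⟩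
  have hv : v ∈ Vx P := ⟨u, h.sy _ _ huv⟩
  have h1 : (ρ u, v) ∈ P := h.pcl u hu _ (hρ.mem u hu) v huv
  have h2 : (ρ v, ρ u) ∈ P := h.pcl v hv _ (hρ.mem v hv) _ (h.sy _ _ h1)
  have h3 := h.sy _ _ h2
  exact ⟨h3, (h.ad _ _ h3).1⟩

theorem ncd_n3 (h : NCd H X F P A W) (hρ : Rep P A ρ) {u v : V} (hu : u ∈ Vx P)
    (hv : v ∈ Vx P) (huv : H.Adj (ρ u) (ρ v)) : (u, v) ∈ P := by
  obtain ⟨hu1, hu2, hu3, hu4, -, -⟩ := ncd_rho h hρ hu
  obtain ⟨hv1, hv2, hv3, hv4, -, -⟩ := ncd_rho h hρ hv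
  rcases ncd_n1 h hu1 hv1 huv with h1 | h1
  · have h2 : (u, ρ v) ∈ P := h.pcl (ρ u) hu1 u hu4 _ h1
    have h3 : (v, u) ∈ P := h.pcl (ρ v) hv1 v hv4 _ (h.sy _ _ h2)
    exact h.sy _ _ h3
  · have h2 := hρ.eq (ρ u) hu1 _ h1
    rw [hu3, hv3] at h2
    rw [h2] at huv
    exact absurd huv (H.loopless.irrefl _)

theorem ncd_n4 (h : NCd H X F P A W) {u v : V} (huv : (u, v) ∈ P) : v ∉ A u ∧ v ∉ W u := by
  have hu : u ∈ Vx P := ⟨v, huv⟩
  have hv : v ∈ Vx P := ⟨u, h.sy _ _ huv⟩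
  have h1 : v ∉ A u := by
    intro h2
    have h3 := h.pcl u hu v h2 v huv
    exact H.loopless.irrefl _ (h.ad _ _ h3).1
  refine ⟨h1, fun h2 => h1 ?_⟩
  rw [← h.inter u hu]
  exact ⟨hv, h2⟩

theorem blowup_dec (hX : X.Finite) (h : NCd H X F P A W) (hρ : Rep P A ρ) (hD : Dec H X X) :
    Dec H (ρ '' Vx P) (ρ '' Vx P) := by
  have hR : ∀ r ∈ ρ '' Vx P, r ∈ Vx P ∧ ρ r = r ∧ r ∈ X ∧ r ∈ W r := by
    rintro r ⟨b, hb, rfl⟩
    obtain ⟨h1, h2, h3, h4, h5, h6⟩ := ncd_rho h hρ hb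
    exact ⟨h1, h3, h5, (h.sub _ h1).1 (h.self _ h1)⟩
  have hDj : ∀ r ∈ ρ '' Vx P, ∀ r' ∈ ρ '' Vx P, r' ∈ W r → r' = r := by
    intro r hr r' hr' hw
    obtain ⟨h1, h2, -, -⟩ := hR r hr
    obtain ⟨h1', h2', -, -⟩ := hR r' hr'
    have h3 : r' ∈ A r := by
      rw [← h.inter r h1]
      exact ⟨h1', hw⟩
    have h4 := hρ.eq r h1 r' h3
    rw [h2, h2'] at h4
    exact h4
  have key : ∀ R' : Set V, R'.Finite → R' ⊆ ρ '' Vx P →
      Dec H ({x | x ∈ X ∧ ∀ s ∈ R', x ∉ W s} ∪ R') ({x | x ∈ X ∧ ∀ s ∈ R', x ∉ W s} ∪ R') := by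
    intro R' hR'
    induction R', hR' using Set.Finite.induction_on with
    | empty =>
      intro _
      have h1 : ({x | x ∈ X ∧ ∀ s ∈ (∅ : Set V), x ∉ W s} ∪ ∅) = X := by
        ext x
        simp
      rw [h1]
      exact hD
    | @insert r R' hr hfin ih =>
      intro hsub
      have hrR : r ∈ ρ '' Vx P := hsub (Set.mem_insert _ _)
      have hsub' : R' ⊆ ρ '' Vx P := fun x hx => hsub (Set.mem_insert_of_mem _ hx)
      have hD' := ih hsub'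
      obtain ⟨hr1, hr2, hr3, hr4⟩ := hR r hrR
      have hX' : ({x | x ∈ X ∧ ∀ s ∈ R', x ∉ W s} ∪ R') ⊆ X := by
        rintro x (hx | hx)
        · exact hx.1
        · exact (hR x (hsub' hx)).2.2.1
      have e : {x | x ∈ X ∧ ∀ s ∈ insert r R', x ∉ W s} ∪ insert r R' =
          insert r (({x | x ∈ X ∧ ∀ s ∈ R', x ∉ W s} ∪ R') \
            (({x | x ∈ X ∧ ∀ s ∈ R', x ∉ W s} ∪ R') ∩ W r)) := by
        ext x
        constructor
        · rintro (⟨hx1, hx2⟩ | hx | hx)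
          · right
            exact ⟨Or.inl ⟨hx1, fun s hs => hx2 s (Set.mem_insert_of_mem _ hs)⟩,
              fun hx3 => hx2 r (Set.mem_insert _ _) hx3.2⟩
          · left
            exact hx
          · right
            refine ⟨Or.inr hx, fun hx3 => hr ?_⟩
            rw [← hDj r hrR x (hsub' hx) hx3.2]
            exact hx
        · rintro (hx | ⟨hx1 | hx1, hx2⟩)
          · right
            left
            exact hx
          · left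
            refine ⟨hx1.1, ?_⟩
            rintro s (rfl | hs)
            · exact fun hx3 => hx2 ⟨Or.inl hx1, hx3⟩
            · exact hx1.2 s hs
          · right
            right
            exact hx1
      rw [e]
      refine split ⟨Set.inter_subset_left, ⟨Or.inl ⟨hr3, ?_⟩, hr4⟩, ?_, ?_⟩ hD'
      · intro s hs hrs
        apply hr
        rw [hDj s (hsub' hs) r hrR hrs]
        exact hs
      · rintro p ⟨hp1, hp2⟩ q hq hqn hpq
        have hqW : q ∉ W r := fun h1 => hqn ⟨hq, h1⟩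
        exact (h.ad _ _ ((h.edge r hr1 p hp2 q (hX' hq) hqW).1 hpq).2).1
      · rintro p ⟨hp1, hp2⟩ q hq hqn hpq q' hq' hqn' hrq'
        have hqW : q ∉ W r := fun h1 => hqn ⟨hq, h1⟩
        have hqW' : q' ∉ W r := fun h1 => hqn' ⟨hq', h1⟩
        have h1 := ((h.edge r hr1 p hp2 q (hX' hq) hqW).1 hpq).1
        have h2 := ((h.edge r hr1 r hr4 q' (hX' hq') hqW').1 hrq').2
        exact (h.edge r hr1 p hp2 q' (hX' hq') hqW').2 ⟨h1, h2⟩
  have hfin : (ρ '' Vx P).Finite := hX.subset fun x hx => (hR x hx).2.2.1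
  have h1 := key _ hfin subset_rfl
  have hY : {x | x ∈ X ∧ ∀ s ∈ ρ '' Vx P, x ∉ W s} = ∅ := by
    rw [Set.eq_empty_iff_forall_notMem]
    intro q hq
    obtain ⟨t, ht, hv⟩ := hD
    have hconn := supp_conn hv (by rw [ht])
    rw [ht] at hconn
    obtain ⟨⟨b, z⟩, hbz⟩ := h.ne
    have hb : b ∈ Vx P := ⟨z, hbz⟩
    obtain ⟨hb1, hb2, hb3, hb4, hb5, hb6⟩ := ncd_rho h hρ hb
    have hreach := hconn q hq.1 b hb6
    have hmem : b ∈ {x | x ∈ X ∧ ∀ s ∈ ρ '' Vx P, x ∉ W s} := by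
      clear hb hbz hb1 hb2 hb3 hb4 hb5 hb6
      have hreach' : Relation.ReflTransGen (fun x y => H.Adj x y ∧ x ∈ X ∧ y ∈ X) q b := hreach
      clear hreach
      induction hreach' with
      | refl => exact hq
      | @tail x y _ hxy ih =>
        obtain ⟨hadj, hx, hy⟩ := hxy
        refine ⟨hy, fun s hs hys => ?_⟩
        obtain ⟨hs1, -, -, -⟩ := hR s hs
        have h2 := ((h.edge s hs1 y hys x hx (ih.2 s hs)).1 hadj.symm).2
        have h3 : x ∈ Vx P := ⟨s, h.sy _ _ h2⟩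
        obtain ⟨hx1, hx2, hx3, hx4, hx5, hx6⟩ := ncd_rho h hρ h3
        exact ih.2 (ρ x) ⟨x, h3, rfl⟩ ((h.sub _ hx1).1 hx4)
    exact hmem.2 (ρ b) ⟨b, hb, rfl⟩ ((h.sub _ hb1).1 hb4)
  rw [hY, Set.empty_union] at h1
  exact h1

end Pool.Agent.H8.CR
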