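import Pool.Agent.H8.CR.Defs

/-!
# Property `Zp` for blow-ups

`S` a vertex set, `ρ : V → V` with `ρ u ∈ Q` for `u ∈ S`, `Q ⊆ S`, `ρ q = q` for `q ∈ Q`; two elements
`u, v ∈ S` with `ρ u ≠ ρ v` are adjacent iff `ρ u, ρ v` are; every class `{u ∈ S | ρ u = q}` is connected
and has `Zp`; and `Zp H Q`. Then `Zp H S`.

Proof. Let `φ` be symmetric on the edges of `S` with zero sum on triangles. For every `q ∈ Q` get `f_q`
with `φ a b = f_q a + f_q b` on edges of the class of `q`; put `g u = f_{ρ u} u` and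
`ψ a b = φ a b + g a + g b` (symmetric, zero sum on triangles in `S`, zero on edges inside classes). For
`u, u'` adjacent in one class and `v ∈ S` in another class adjacent to them (`v ~ u ↔ v ~ u'`), the triangle
gives `ψ u v = ψ u' v`. By connectivity of the classes `ψ u v` depends only on `ρ u` and `v`, and by
symmetry only on `ρ u` and `ρ v`: `ψ u v = ψ (ρ u) (ρ v)`. Apply `Zp H Q` to `ψ`: `ψ q q' = k q + k q'`.
Then `f u = g u + k (ρ u)` works: for an edge inside a class `k (ρ u) + k (ρ v) = 0`.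
-/

namespace Pool.Agent.H8.CR

open Relation

variable {V : Type*} {H : SimpleGraph V}

theorem blow_zp {S Q : Set V} {ρ : V → V} (hρ : ∀ u ∈ S, ρ u ∈ Q) (hQ : Q ⊆ S)
    (hid : ∀ q ∈ Q, ρ q = q)
    (hadj : ∀ u ∈ S, ∀ v ∈ S, ρ u ≠ ρ v → (H.Adj u v ↔ H.Adj (ρ u) (ρ v)))
    (hc : ∀ q ∈ Q, Conn H {u | u ∈ S ∧ ρ u = q}) (hz : ∀ q ∈ Q, Zp H {u | u ∈ S ∧ ρ u = q})
    (hZQ : Zp H Q) : Zp H S := by
  classical
  intro φ hsym htri
  have hz' : ∀ q, ∃ f : V → ZMod 2, q ∈ Q → ∀ a ∈ S, ρ a = q → ∀ b ∈ S, ρ b = q →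
      H.Adj a b → φ a b = f a + f b := by
    intro q
    by_cases hq : q ∈ Q
    · obtain ⟨f, hf⟩ := hz q hq φ hsym (by
        rintro a b c ⟨ha, hb, hc, h1, h2, h3⟩
        exact htri a b c ⟨ha.1, hb.1, hc.1, h1, h2, h3⟩)
      exact ⟨f, fun _ a ha ha' b hb hb' hab => hf a ⟨ha, ha'⟩ b ⟨hb, hb'⟩ hab⟩
    · exact ⟨fun _ => 0, fun h => absurd h hq⟩
  choose f hf using hz'
  obtain ⟨g, hg⟩ : ∃ g : V → ZMod 2, g = fun u => f (ρ u) u := ⟨_, rfl⟩
  obtain ⟨ψ, hψ⟩ : ∃ ψ : V → V → ZMod 2, ψ = fun a b => φ a b + g a + g b := ⟨_, rfl⟩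
  have hψsym : ∀ a b, ψ a b = ψ b a := by
    intro a b
    rw [hψ]
    simp only
    rw [hsym a b, add_right_comm]
  have hψtri : ∀ a b c, Tri H S a b c → ψ a b + ψ b c + ψ a c = 0 := by
    intro a b c h
    have h1 := htri a b c h
    have key : ∀ x y z s t u : ZMod 2, x + y + z = 0 →
        (x + s + t) + (y + t + u) + (z + s + u) = 0 := by decide
    rw [hψ]
    exact key _ _ _ _ _ _ h1
  have hψcls : ∀ a ∈ S, ∀ b ∈ S, ρ a = ρ b → H.Adj a b → ψ a b = 0 := by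
    intro a ha b hb hab h
    have h1 := hf (ρ a) (hρ a ha) a ha rfl b hb hab.symm h
    have key : ∀ x s t : ZMod 2, x = s + t → x + s + t = 0 := by decide
    rw [hψ, hg]
    simp only
    rw [← hab]
    exact key _ _ _ h1
  have hstep : ∀ v ∈ S, ∀ a ∈ S, ∀ b ∈ S, ρ a = ρ b → H.Adj a b → ρ a ≠ ρ v → H.Adj a v →
      H.Adj b v ∧ ψ a v = ψ b v := by
    intro v hv a ha b hb hab h hne hav
    have hbv : H.Adj b v := by
      rw [hadj b hb v hv (hab ▸ hne), ← hab]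
      exact (hadj a ha v hv hne).mp hav
    refine ⟨hbv, ?_⟩
    have h1 := hψtri a b v ⟨ha, hb, hv, h, hav, hbv⟩
    rw [hψcls a ha b hb hab h] at h1
    have key : ∀ x y : ZMod 2, 0 + x + y = 0 → y = x := by decide
    exact key _ _ h1
  have hreach : ∀ v ∈ S, ∀ a ∈ S, ρ a ≠ ρ v → H.Adj a v → ψ a v = ψ (ρ a) v := by
    intro v hv a ha hne hav
    have hqa := hρ a ha
    have hr := hc (ρ a) hqa a ⟨ha, rfl⟩ (ρ a) ⟨hQ hqa, hid _ hqa⟩
    have hind : ∀ z, ReflTransGen (fun x y => H.Adj x y ∧ x ∈ {u | u ∈ S ∧ ρ u = ρ a} ∧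
        y ∈ {u | u ∈ S ∧ ρ u = ρ a}) a z → H.Adj z v ∧ ψ a v = ψ z v := by
      intro z hz
      induction hz with
      | refl => exact ⟨hav, rfl⟩
      | tail _ h2 ih =>
        obtain ⟨h3, h4, h5⟩ := h2
        obtain ⟨h6, h7⟩ := hstep v hv _ h4.1 _ h5.1 (h4.2.trans h5.2.symm) h3
          (by rw [h4.2]; exact hne) ih.1
        exact ⟨h6, ih.2.trans h7⟩
    exact (hind _ hr).2
  have hall : ∀ a ∈ S, ∀ b ∈ S, ρ a ≠ ρ b → H.Adj a b → ψ a b = ψ (ρ a) (ρ b) := by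
    intro a ha b hb hne hab
    have hqa := hρ a ha
    have h1 := hreach b hb a ha hne hab
    have hid' := hid _ hqa
    have h2 : H.Adj (ρ a) b := by
      rw [hadj (ρ a) (hQ hqa) b hb (by rw [hid']; exact hne), hid']
      exact (hadj a ha b hb hne).mp hab
    have h3 := hreach (ρ a) (hQ hqa) b hb (by rw [hid']; exact hne.symm) h2.symm
    rw [h1, hψsym, h3, hψsym]
  obtain ⟨k, hk⟩ := hZQ ψ hψsym (by
    rintro a b c ⟨ha, hb, hc, h1, h2, h3⟩
    exact hψtri a b c ⟨hQ ha, hQ hb, hQ hc, h1, h2, h3⟩)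
  refine ⟨fun u => g u + k (ρ u), ?_⟩
  intro a ha b hb hab
  simp only
  by_cases h : ρ a = ρ b
  · have h1 := hf (ρ a) (hρ a ha) a ha rfl b hb h.symm hab
    have key : ∀ x s t u : ZMod 2, x = s + t → x = (s + u) + (t + u) := by decide
    rw [← h, hg]
    simp only
    rw [← h]
    exact key _ _ _ _ h1
  · have h1 := hall a ha b hb h hab
    rw [hk _ (hρ a ha) _ (hρ b hb) ((hadj a ha b hb h).mp hab), hψ] at h1
    simp only at h1
    have key : ∀ x s t u v : ZMod 2, x + s + t = u + v → x = (s + u) + (t + v) := by decide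
    exact key _ _ _ _ _ h1

end Pool.Agent.H8.CR
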