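import Pool.Agent.H8.CR.ChDefs
import Pool.Agent.H8.CR.Tree3

/-!
# Induced paths and induced cycles

* `exists_ipath`: if `b` can be reached from `a ≠ b` inside the set `Z` then there is an induced path from
  `a` to `b` inside `Z`: a sequence `x 0 = a, ..., x m = b`, `m ≥ 1`, in `Z`, injective, with
  `x i ~ x j ↔ i + 1 = j ∨ j + 1 = i` for `i, j ≤ m`. Proof: let `m` be the least length of a sequence
  `x 0 = a, ..., x m = b` in `Z` with `x i ~ x (i + 1)` (`Rch` gives one: e.g.
  `ReflTransGen` and a chain; strong induction / `Nat.find`). If `x i = x j` or `x i ~ x j` with `i < j`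
  (resp. `i + 1 < j`) then one can shortcut the sequence: contradiction.
* `no_ipath_closed`: `G` chordal, `x 0, ..., x m` an induced path (as above), `m ≥ 2`, `z` different from all
  `x i`, `z ~ x i ↔ i = 0 ∨ i = m`. Contradiction: `cycleGraph (m + 2)` embeds into `G` by
  `i ↦ x i` for `i ≤ m` and `m + 1 ↦ z` (`SimpleGraph.cycleGraph_adj'` or
  `cycleGraph_adj`: adjacency in `cycleGraph n` is difference `±1` modulo `n`; for `i, j < n`, `i < j`:
  adjacent iff `j = i + 1` or (`i = 0` and `j = n - 1`)).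
* `cyc_adj`: helper: for `n ≥ 3` (or `n ≥ 4`), `i j : Fin n`, `i < j`:
  `(cycleGraph n).Adj i j ↔ j = i + 1 ∨ (i = 0 ∧ j = n - 1)` (values).
-/

namespace Pool.Agent.H8.CR

open Relation

variable {U : Type*} {G : SimpleGraph U}

/-- `x 0, ..., x m` is an induced path. -/
def IPath (G : SimpleGraph U) (m : ℕ) (x : ℕ → U) : Prop :=
  (∀ i ≤ m, ∀ j ≤ m, x i = x j → i = j) ∧
    ∀ i ≤ m, ∀ j ≤ m, (G.Adj (x i) (x j) ↔ i + 1 = j ∨ j + 1 = i)

theorem cha_seq {Z : Set U} {a b : U} (h : Rch G Z a b) (ha : a ∈ Z) :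
    ∃ (m : ℕ) (x : ℕ → U), x 0 = a ∧ x m = b ∧ (∀ i ≤ m, x i ∈ Z) ∧
      ∀ i < m, G.Adj (x i) (x (i + 1)) := by
  have h' : ReflTransGen (fun x y => G.Adj x y ∧ x ∈ Z ∧ y ∈ Z) a b := h
  clear h
  induction h' with
  | refl => exact ⟨0, fun _ => a, rfl, rfl, fun _ _ => ha, fun i hi => absurd hi (by omega)⟩
  | @tail c d _ hcd ih =>
    obtain ⟨m, x, h0, h1, h2, h3⟩ := ih
    refine ⟨m + 1, fun i => if i ≤ m then x i else d, ?_, ?_, ?_, ?_⟩
    · simp [h0]
    · simp
    · intro i hi
      by_cases him : i ≤ m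
      · simp only [him, if_true]
        exact h2 i him
      · simp only [him, if_false]
        exact hcd.2.2
    · intro i hi
      by_cases him : i < m
      · have h4 : i ≤ m := him.le
        have h5 : i + 1 ≤ m := him
        simp only [h4, h5, if_true]
        exact h3 i him
      · have h4 : i = m := by omega
        subst h4
        have h5 : ¬ (i + 1 ≤ i) := by omega
        simp only [le_refl, h5, if_true, if_false]
        rw [h1]
        exact hcd.1

theorem cha_short {Z : Set U} {a b : U} {m : ℕ} {x : ℕ → U} (h0 : x 0 = a) (h1 : x m = b)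
    (h2 : ∀ i ≤ m, x i ∈ Z) (h3 : ∀ i < m, G.Adj (x i) (x (i + 1))) {i d : ℕ}
    (hi : i + d ≤ m) (hl : i + d < m → G.Adj (x i) (x (i + 1 + d)))
    (hl' : i + d = m → x i = b) :
    ∃ y : ℕ → U, y 0 = a ∧ y (m - d) = b ∧ (∀ k ≤ m - d, y k ∈ Z) ∧
      ∀ k < m - d, G.Adj (y k) (y (k + 1)) := by
  refine ⟨fun k => if k ≤ i then x k else x (k + d), ?_, ?_, ?_, ?_⟩
  · simp [h0]
  · by_cases h4 : m - d ≤ i
    · have h5 : m - d = i := by omega
      simp only [h5, le_refl, if_true]
      exact hl' (by omega)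
    · simp only [h4, if_false]
      rw [← h1]
      congr 1
      omega
  · intro k hk
    by_cases h4 : k ≤ i
    · simp only [h4, if_true]
      exact h2 k (by omega)
    · simp only [h4, if_false]
      exact h2 _ (by omega)
  · intro k hk
    rcases lt_trichotomy k i with h4 | h4 | h4
    · have h5 : k ≤ i := h4.le
      have h6 : k + 1 ≤ i := h4
      simp only [h5, h6, if_true]
      exact h3 k (by omega)
    · subst h4
      have h6 : ¬ (k + 1 ≤ k) := by omega
      simp only [le_refl, h6, if_true, if_false]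
      exact hl (by omega)
    · have h5 : ¬ (k ≤ i) := by omega
      have h6 : ¬ (k + 1 ≤ i) := by omega
      simp only [h5, h6, if_false]
      have h7 := h3 (k + d) (by omega)
      have h8 : k + 1 + d = k + d + 1 := by omega
      rw [h8]
      exact h7

theorem exists_ipath {Z : Set U} {a b : U} (h : Rch G Z a b) (hab : a ≠ b) :
    ∃ (m : ℕ) (x : ℕ → U), 1 ≤ m ∧ x 0 = a ∧ x m = b ∧ (∀ i ≤ m, x i ∈ Z) ∧ IPath G m x := by
  classical
  have ha : a ∈ Z := by
    have h' : ReflTransGen (fun x y => G.Adj x y ∧ x ∈ Z ∧ y ∈ Z) a b := h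
    rcases h'.cases_head with h1 | ⟨c, h1, -⟩
    · exact absurd h1 hab
    · exact h1.2.1
  have hex := cha_seq h ha
  let m := Nat.find hex
  obtain ⟨x, h0, h1, h2, h3⟩ := Nat.find_spec hex
  have hmin : ∀ m' < m, ¬ ∃ x : ℕ → U, x 0 = a ∧ x m' = b ∧ (∀ i ≤ m', x i ∈ Z) ∧
      ∀ i < m', G.Adj (x i) (x (i + 1)) := fun m' hm' => Nat.find_min hex hm'
  change x m = b at h1
  change ∀ i ≤ m, x i ∈ Z at h2
  change ∀ i < m, G.Adj (x i) (x (i + 1)) at h3
  clear_value m
  have hrep : ∀ i j, i < j → j ≤ m → x i ≠ x j := by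
    intro i j hij hj he
    refine hmin (m - (j - i)) (by omega) (cha_short h0 h1 h2 h3 (i := i) (d := j - i) (by omega)
      ?_ ?_)
    · intro h4
      have h5 : i + 1 + (j - i) = j + 1 := by omega
      rw [h5, he]
      exact h3 j (by omega)
    · intro h4
      have h5 : j = m := by omega
      rw [he, h5, h1]
  have hchord : ∀ i j, i + 1 < j → j ≤ m → ¬ G.Adj (x i) (x j) := by
    intro i j hij hj he
    refine hmin (m - (j - i - 1)) (by omega) (cha_short h0 h1 h2 h3 (i := i) (d := j - i - 1)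
      (by omega) ?_ ?_)
    · intro h4
      have h5 : i + 1 + (j - i - 1) = j := by omega
      rw [h5]
      exact he
    · intro h4
      omega
  refine ⟨m, x, ?_, h0, h1, h2, ?_, ?_⟩
  · by_contra h4
    have h5 : m = 0 := by omega
    rw [h5, h0] at h1
    exact hab h1
  · intro i hi j hj hij
    rcases lt_trichotomy i j with h4 | h4 | h4
    · exact absurd hij (hrep i j h4 hj)
    · exact h4
    · exact absurd hij.symm (hrep j i h4 hi)
  · intro i hi j hj
    constructor
    · intro hadj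
      rcases lt_trichotomy i j with h4 | h4 | h4
      · left
        by_contra h5
        exact hchord i j (by omega) hj hadj
      · rw [h4] at hadj
        exact absurd hadj (G.loopless.irrefl _)
      · right
        by_contra h5
        exact hchord j i (by omega) hi hadj.symm
    · rintro (h4 | h4)
      · rw [← h4]
        exact h3 i (by omega)
      · rw [← h4]
        exact (h3 j (by omega)).symm

theorem cyc_adj {n : ℕ} (hn : 3 ≤ n) (i j : Fin n) (hij : i < j) :
    (SimpleGraph.cycleGraph n).Adj i j ↔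
      (j : ℕ) = (i : ℕ) + 1 ∨ ((i : ℕ) = 0 ∧ (j : ℕ) + 1 = n) := by
  have hi := i.isLt
  have hj := j.isLt
  have hij' : (i : ℕ) < (j : ℕ) := hij
  have h1 : ((i - j : Fin n) : ℕ) = n - (j : ℕ) + (i : ℕ) := by
    rw [Fin.sub_def]
    exact Nat.mod_eq_of_lt (by omega)
  have h2 : ((j - i : Fin n) : ℕ) = (j : ℕ) - (i : ℕ) := by
    rw [Fin.sub_def]
    show (n - (i : ℕ) + (j : ℕ)) % n = (j : ℕ) - (i : ℕ)
    have h3 : n - (i : ℕ) + (j : ℕ) = ((j : ℕ) - (i : ℕ)) + n := by omega
    rw [h3, Nat.add_mod_right]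
    exact Nat.mod_eq_of_lt (by omega)
  rw [SimpleGraph.cycleGraph_adj', h1, h2]
  omega

theorem no_ipath_closed (hG : Chordal G) {m : ℕ} (hm : 2 ≤ m) {x : ℕ → U} (hx : IPath G m x)
    {z : U} (hz : ∀ i ≤ m, z ≠ x i) (hz' : ∀ i ≤ m, (G.Adj z (x i) ↔ i = 0 ∨ i = m)) :
    False := by
  let f : Fin (m + 2) → U := fun i => if (i : ℕ) ≤ m then x i else z
  have hf1 : ∀ i : Fin (m + 2), (i : ℕ) ≤ m → f i = x i := fun i hi => if_pos hi
  have hf2 : ∀ i : Fin (m + 2), ¬ (i : ℕ) ≤ m → f i = z := fun i hi => if_neg hi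
  have hadj : ∀ i j : Fin (m + 2), i < j →
      (G.Adj (f i) (f j) ↔ (SimpleGraph.cycleGraph (m + 2)).Adj i j) := by
    intro i j hij
    have hij' : (i : ℕ) < (j : ℕ) := hij
    have hj := j.isLt
    have hi : (i : ℕ) ≤ m := by omega
    rw [cyc_adj (by omega) i j hij, hf1 i hi]
    by_cases hjm : (j : ℕ) ≤ m
    · rw [hf1 j hjm, hx.2 i hi j hjm]
      omega
    · rw [hf2 j hjm, G.adj_comm, hz' i hi]
      omega
  have hinj : Function.Injective f := by
    intro i j hij
    have hi := i.isLt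
    have hj := j.isLt
    apply Fin.ext
    by_cases him : (i : ℕ) ≤ m <;> by_cases hjm : (j : ℕ) ≤ m
    · rw [hf1 i him, hf1 j hjm] at hij
      exact hx.1 i him j hjm hij
    · rw [hf1 i him, hf2 j hjm] at hij
      exact absurd hij.symm (hz i him)
    · rw [hf2 i him, hf1 j hjm] at hij
      exact absurd hij (hz j hjm)
    · omega
  refine (hG (m + 2) (by omega)).false ⟨⟨f, hinj⟩, ?_⟩
  intro i j
  show G.Adj (f i) (f j) ↔ (SimpleGraph.cycleGraph (m + 2)).Adj i j
  rcases lt_trichotomy i j with h | h | h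
  · exact hadj i j h
  · subst h
    exact ⟨fun h => absurd h (G.loopless.irrefl _),
      fun h => absurd h ((SimpleGraph.cycleGraph (m + 2)).loopless.irrefl _)⟩
  · exact ⟨fun h' => ((hadj j i h).1 h'.symm).symm, fun h' => ((hadj j i h).2 h'.symm).symm⟩

end Pool.Agent.H8.CR
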