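import Pool.Agent.H8.CR.ChA

/-!
# Separators and domination in chordal graphs

* `ch_sep`: `G` chordal; `D`, `D'` connected, disjoint, no edges between them; `s ≠ t` outside `D ∪ D'`, each
  of `s`, `t` has a neighbour in `D` and one in `D'`. Then `s ~ t`. Suppose not. Take induced paths
  `x` from `s` to `t` in `D ∪ {s, t}` (length `m ≥ 2`) and `y` from `s` to `t` in `D' ∪ {s, t}` (length
  `l ≥ 2`). The sequence `q i = x i` (`i ≤ m`), `q (m + j) = y (l - j)` (`j ≤ l - 2`) is an induced path from
  `s` to `y 2`, and `z = y 1` is adjacent exactly to `q 0 = s` and to the last element `y 2`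
  (if `l = 2` the last element is `t = x m`). `no_ipath_closed`.
* `ch_dom`: `G` chordal, `D` connected and nonempty, `S` a finite clique disjoint from `D`, every `s ∈ S` has
  a neighbour in `D`. Then some `d ∈ D` is adjacent to all of `S`. Choose `d ∈ D` with the maximal
  number of neighbours in `S`. Suppose `t ∈ S`, `t ≁ d`. Take an induced path `x` from `d` to `t` in
  `D ∪ {t}`, length `m ≥ 2`; `x i ∈ D` for `i < m`; put `d' = x (m - 1) ∈ D`, adjacent to `t`. Every
  `s ∈ S` adjacent to `d` is adjacent to `d'`: let `i < m` be the largest index `≤ m - 1` with `s ~ x i`; if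
  `i < m - 1` then the path `x i, ..., x m` (length `m - i ≥ 2`) and `z = s` contradict
  `no_ipath_closed` (`s ~ t` as `S` is a clique, `s ≠ t` since `s ~ d`). So `d'` has more neighbours in `S`.
-/

namespace Pool.Agent.H8.CR

open Relation

variable {U : Type*} {G : SimpleGraph U}

/-- An induced path from `s` to `t` whose inner vertices are in the connected set `D`. -/
theorem ch_path {D : Set U} (hD : Conn G D) {s t : U} (hst : s ≠ t)
    (h1 : ∃ d ∈ D, G.Adj s d) (h2 : ∃ d ∈ D, G.Adj t d) :
    ∃ (m : ℕ) (x : ℕ → U), 1 ≤ m ∧ x 0 = s ∧ x m = t ∧ IPath G m x ∧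
      ∀ i, 0 < i → i < m → x i ∈ D := by
  obtain ⟨d1, hd1, e1⟩ := h1
  obtain ⟨d2, hd2, e2⟩ := h2
  have hs : s ∈ D ∪ {s, t} := Or.inr (Or.inl rfl)
  have ht : t ∈ D ∪ {s, t} := Or.inr (Or.inr rfl)
  have hr : Rch G (D ∪ {s, t}) s t := by
    have r1 : Rch G (D ∪ {s, t}) s d1 := ReflTransGen.single ⟨e1, hs, Or.inl hd1⟩
    have r2 : Rch G (D ∪ {s, t}) d1 d2 := Rch_mono (Set.subset_union_left) (hD d1 hd1 d2 hd2)
    have r3 : Rch G (D ∪ {s, t}) d2 t := ReflTransGen.single ⟨e2.symm, Or.inl hd2, ht⟩
    exact (r1.trans r2).trans r3
  obtain ⟨m, x, hm, h0, hx, hZ, hI⟩ := exists_ipath hr hst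
  refine ⟨m, x, hm, h0, hx, hI, fun i hi him => ?_⟩
  rcases hZ i him.le with h | h | h
  · exact h
  · exfalso
    have := hI.1 i him.le 0 (Nat.zero_le _) (h.trans h0.symm)
    omega
  · exfalso
    have := hI.1 i him.le m le_rfl (h.trans hx.symm)
    omega

theorem ch_sep (hG : Chordal G) {D D' : Set U} (hD : Conn G D) (hD' : Conn G D')
    (hdis : ∀ x ∈ D, ∀ y ∈ D', x ≠ y ∧ ¬ G.Adj x y) {s t : U} (hst : s ≠ t)
    (hs : s ∉ D) (hs' : s ∉ D') (ht : t ∉ D) (ht' : t ∉ D')
    (h1 : ∃ d ∈ D, G.Adj s d) (h2 : ∃ d ∈ D, G.Adj t d) (h3 : ∃ d ∈ D', G.Adj s d)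
    (h4 : ∃ d ∈ D', G.Adj t d) : G.Adj s t := by
  by_contra hadj
  obtain ⟨m, x, hm, hx0, hxm, hx, hxD⟩ := ch_path hD hst h1 h2
  obtain ⟨l, y, hl, hy0, hyl, hy, hyD⟩ := ch_path hD' hst h3 h4
  have hm2 : 2 ≤ m := by
    by_contra hlt
    have e : m = 1 := by omega
    subst e
    have := (hx.2 0 (by omega) 1 le_rfl).2 (Or.inl rfl)
    rw [hx0, hxm] at this
    exact hadj this
  have hl2 : 2 ≤ l := by
    by_contra hlt
    have e : l = 1 := by omega
    subst e
    have := (hy.2 0 (by omega) 1 le_rfl).2 (Or.inl rfl)
    rw [hy0, hyl] at this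
    exact hadj this
  -- a vertex of `x` and an inner vertex of `y`
  have hne : ∀ i ≤ m, ∀ k, 0 < k → k < l → x i ≠ y k := by
    intro i hi k hk hkl
    have hyk := hyD k hk hkl
    rcases Nat.eq_zero_or_pos i with h | h
    · subst h
      rw [hx0]
      exact fun e => hs' (e ▸ hyk)
    · rcases Nat.lt_or_ge i m with h' | h'
      · exact (hdis _ (hxD i h h') _ hyk).1
      · have e : i = m := by omega
        subst e
        rw [hxm]
        exact fun e => ht' (e ▸ hyk)
  have hadj2 : ∀ i ≤ m, ∀ k, 0 < k → k < l →
      (G.Adj (x i) (y k) ↔ (i = 0 ∧ k = 1) ∨ (i = m ∧ k + 1 = l)) := by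
    intro i hi k hk hkl
    have hyk := hyD k hk hkl
    rcases Nat.eq_zero_or_pos i with h | h
    · subst h
      rw [hx0, ← hy0, hy.2 0 (by omega) k hkl.le]
      omega
    · rcases Nat.lt_or_ge i m with h' | h'
      · constructor
        · intro hc
          exact absurd hc (hdis _ (hxD i h h') _ hyk).2
        · intro hc
          omega
      · have e : i = m := by omega
        subst e
        rw [hxm, ← hyl, hy.2 l le_rfl k hkl.le]
        omega
  set q : ℕ → U := fun i => if i ≤ m then x i else y (l + m - i) with hq
  have hq1 : ∀ i, i ≤ m → q i = x i := fun i hi => if_pos hi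
  have hq2 : ∀ i, ¬ i ≤ m → q i = y (l + m - i) := fun i hi => if_neg hi
  refine no_ipath_closed hG (m := m + l - 2) (x := q) (z := y 1) (by omega) ⟨?_, ?_⟩ ?_ ?_
  · intro i hi j hj hij
    by_cases h : i ≤ m
    · by_cases h' : j ≤ m
      · rw [hq1 i h, hq1 j h'] at hij
        exact hx.1 i h j h' hij
      · rw [hq1 i h, hq2 j h'] at hij
        exact absurd hij (hne i h _ (by omega) (by omega))
    · by_cases h' : j ≤ m
      · rw [hq2 i h, hq1 j h'] at hij
        exact absurd hij.symm (hne j h' _ (by omega) (by omega))
      · rw [hq2 i h, hq2 j h'] at hij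
        have := hy.1 _ (by omega) _ (by omega) hij
        omega
  · intro i hi j hj
    by_cases h : i ≤ m
    · by_cases h' : j ≤ m
      · rw [hq1 i h, hq1 j h']
        exact hx.2 i h j h'
      · rw [hq1 i h, hq2 j h', hadj2 i h _ (by omega) (by omega)]
        omega
    · by_cases h' : j ≤ m
      · rw [hq2 i h, hq1 j h', G.adj_comm, hadj2 j h' _ (by omega) (by omega)]
        omega
      · rw [hq2 i h, hq2 j h', hy.2 _ (by omega) _ (by omega)]
        omega
  · intro i hi
    by_cases h : i ≤ m
    · rw [hq1 i h]
      exact (hne i h 1 (by omega) (by omega)).symm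
    · rw [hq2 i h]
      intro e
      have := hy.1 1 (by omega) _ (by omega) e
      omega
  · intro i hi
    by_cases h : i ≤ m
    · rw [hq1 i h, G.adj_comm, hadj2 i h 1 (by omega) (by omega)]
      omega
    · rw [hq2 i h, hy.2 1 (by omega) _ (by omega)]
      omega

theorem ch_dom (hG : Chordal G) {D S : Set U} (hD : Conn G D) (hne : D.Nonempty)
    (hS : G.IsClique S) (hf : S.Finite) (hdis : ∀ s ∈ S, s ∉ D)
    (hn : ∀ s ∈ S, ∃ d ∈ D, G.Adj s d) : ∃ d ∈ D, ∀ s ∈ S, G.Adj s d := by
  classical
  have key : ∀ k : ℕ, ∀ d ∈ D,
      hf.toFinset.card - (hf.toFinset.filter (fun s => G.Adj s d)).card = k →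
      ∃ d ∈ D, ∀ s ∈ S, G.Adj s d := by
    intro k
    induction k using Nat.strong_induction_on with
    | _ k ih =>
      intro d hd hk
      by_cases hall : ∀ s ∈ S, G.Adj s d
      · exact ⟨d, hd, hall⟩
      · push Not at hall
        obtain ⟨t, htS, htd⟩ := hall
        have hdt : d ≠ t := fun e => hdis t htS (e ▸ hd)
        obtain ⟨dt, hdt1, hdt2⟩ := hn t htS
        -- an induced path from `d` to `t` in `D ∪ {t}`
        have ht : t ∈ D ∪ {t} := Or.inr rfl
        have hr : Rch G (D ∪ {t}) d t :=
          (Rch_mono Set.subset_union_left (hD d hd dt hdt1)).trans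
            (ReflTransGen.single ⟨hdt2.symm, Or.inl hdt1, ht⟩)
        obtain ⟨m, x, hm, hx0, hxm, hZ, hI⟩ := exists_ipath hr hdt
        have hxD : ∀ i, i < m → x i ∈ D := by
          intro i him
          rcases hZ i him.le with h | h
          · exact h
          · exfalso
            have := hI.1 i him.le m le_rfl ((Set.mem_singleton_iff.mp h).trans hxm.symm)
            omega
        have hm2 : 2 ≤ m := by
          by_contra hlt
          have e : m = 1 := by omega
          subst e
          have := (hI.2 0 (by omega) 1 le_rfl).2 (Or.inl rfl)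
          rw [hx0, hxm] at this
          exact htd this.symm
        have hadj' : G.Adj t (x (m - 1)) := by
          have := (hI.2 m le_rfl (m - 1) (by omega)).2 (Or.inr (by omega))
          rwa [hxm] at this
        have hsub : ∀ s ∈ S, G.Adj s d → G.Adj s (x (m - 1)) := by
          intro s hsS hsd
          by_contra hcon
          have hst : s ≠ t := fun e => htd (e ▸ hsd)
          -- the largest index `i ≤ m - 1` with `s ~ x i`
          have hex : ∃ i, i ≤ m - 1 ∧ G.Adj s (x i) ∧
              ∀ j, i < j → j ≤ m - 1 → ¬ G.Adj s (x j) := by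
            have h0 : G.Adj s (x 0) := by rw [hx0]; exact hsd
            set P : Finset ℕ := (Finset.range m).filter (fun i => G.Adj s (x i)) with hP
            have hPne : P.Nonempty :=
              ⟨0, Finset.mem_filter.mpr ⟨Finset.mem_range.mpr (by omega), h0⟩⟩
            have hmem := Finset.mem_filter.mp (P.max'_mem hPne)
            refine ⟨P.max' hPne, ?_, hmem.2, ?_⟩
            · have := Finset.mem_range.mp hmem.1
              omega
            · intro j hj hjm hadj
              have h1 : j ∈ P :=
                Finset.mem_filter.mpr ⟨Finset.mem_range.mpr (by omega), hadj⟩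
              have h2 := P.le_max' j h1
              omega
          obtain ⟨i, him, hi, hmax⟩ := hex
          have hi' : i < m - 1 := by
            rcases Nat.lt_or_ge i (m - 1) with h | h
            · exact h
            · exfalso
              have e : i = m - 1 := by omega
              rw [e] at hi
              exact hcon hi
          refine no_ipath_closed hG (m := m - i) (x := fun j => x (i + j)) (z := s) (by omega)
            ⟨?_, ?_⟩ ?_ ?_
          · intro a ha b hb hab
            have := hI.1 (i + a) (by omega) (i + b) (by omega) hab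
            omega
          · intro a ha b hb
            show G.Adj (x (i + a)) (x (i + b)) ↔ _
            rw [hI.2 (i + a) (by omega) (i + b) (by omega)]
            omega
          · intro a ha
            show s ≠ x (i + a)
            rcases Nat.lt_or_ge (i + a) m with h | h
            · exact fun e => hdis s hsS (e ▸ hxD _ h)
            · have e : i + a = m := by omega
              rw [e, hxm]
              exact hst
          · intro a ha
            show G.Adj s (x (i + a)) ↔ _
            constructor
            · intro hadj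
              by_contra hcc
              push Not at hcc
              exact hmax (i + a) (by omega) (by omega) hadj
            · rintro (h | h)
              · subst h
                exact hi
              · have e : i + a = m := by omega
                rw [e, hxm]
                exact hS hsS htS hst
        have hlt : (hf.toFinset.filter (fun s => G.Adj s d)).card <
            (hf.toFinset.filter (fun s => G.Adj s (x (m - 1)))).card := by
          apply Finset.card_lt_card
          refine ⟨?_, ?_⟩
          · intro s hs
            rw [Finset.mem_filter] at hs ⊢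
            exact ⟨hs.1, hsub s (hf.mem_toFinset.mp hs.1) hs.2⟩
          · intro hcon
            have h1 : t ∈ hf.toFinset.filter (fun s => G.Adj s (x (m - 1))) :=
              Finset.mem_filter.mpr ⟨hf.mem_toFinset.mpr htS, hadj'⟩
            exact htd (Finset.mem_filter.mp (hcon h1)).2
        have hle : (hf.toFinset.filter (fun s => G.Adj s (x (m - 1)))).card ≤
            hf.toFinset.card := Finset.card_filter_le _ _
        exact ih _ (by omega) (x (m - 1)) (hxD _ (by omega)) rfl
  obtain ⟨d, hd⟩ := hne
  exact key _ d hd rfl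

end Pool.Agent.H8.CR
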