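import Pool.Agent.H8.CR.ChA2

/-!
# Minimal separators of chordal graphs

`G` is a chordal graph on a finite vertex set.

* `MinSep G W S`: `S ⊆ W`, some two vertices of `W \ S` are not connected in `W \ S`, and `S` is minimal with
  this property.
* `exists_minsep`: if some two vertices of `W` are different and not adjacent, then there is a minimal
  separator: `S = W \ {x, y}` is a separator; take one with the least number of elements.
* `full_comp`: let `W` be connected, `S` a minimal separator, `D` a component of `W \ S` (i.e.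
  `D = {z | z ∈ W \ S ∧ Rch G (W \ S) x z}` for an `x ∈ W \ S`). Every `s ∈ S` has a neighbour in
  `D`. Otherwise let `S' = S \ {s}`. The set `D` has no neighbour in `W \ S'` outside `D`, and there is a
  vertex of `W \ S'` outside `D`, namely `s`; so `S'` separates `x` from `s`: contradiction to
  minimality.
* `sep_clique`: `S` is a clique: `ch_sep` for two different components.
* `sep_dom`: for every component `D` of `W \ S` there is `d ∈ D` adjacent to all of `S` (`ch_dom`).
* `sep_ne`: `S` is nonempty if `W` is connected.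
* `sep_small`: if `R ⊆ S` and some two vertices of `W \ R` are not connected in `W \ R` then
  `R = S` (minimality).
-/

namespace Pool.Agent.H8.CR

open Relation

variable {U : Type*} {G : SimpleGraph U} {W S : Set U}

/-- `S` separates two vertices of `W`. -/
def IsSep (G : SimpleGraph U) (W S : Set U) : Prop :=
  S ⊆ W ∧ ∃ x ∈ W \ S, ∃ y ∈ W \ S, ¬ Rch G (W \ S) x y

/-- `S` is a minimal separator of `W`. -/
def MinSep (G : SimpleGraph U) (W S : Set U) : Prop :=
  IsSep G W S ∧ ∀ S' ⊆ S, IsSep G W S' → S' = S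

/-- The component of `x` in `W \ S`. -/
def Cmp (G : SimpleGraph U) (W S : Set U) (x : U) : Set U := {z | z ∈ W \ S ∧ Rch G (W \ S) x z}

theorem exists_minsep (hf : W.Finite) (h : ∃ x ∈ W, ∃ y ∈ W, x ≠ y ∧ ¬ G.Adj x y) :
    ∃ S, MinSep G W S := by
  obtain ⟨x, hx, y, hy, hxy, hn⟩ := h
  have h0 : IsSep G W (W \ {x, y}) := by
    have e : W \ (W \ {x, y}) ⊆ {x, y} := by
      intro z hz
      by_contra hc
      exact hz.2 ⟨hz.1, hc⟩
    refine ⟨Set.diff_subset, x, ⟨hx, fun h => h.2 (by simp)⟩, y, ⟨hy, fun h => h.2 (by simp)⟩, ?_⟩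
    intro hr
    have hr' := Rch_mono e hr
    have key : ∀ z, Rch G {x, y} x z → z = x := by
      intro z hz
      induction hz with
      | refl => rfl
      | tail _ hab ih =>
        subst ih
        obtain ⟨a1, a2, a3⟩ := hab
        rcases a3 with h | h
        · exact h
        · rw [Set.mem_singleton_iff] at h
          subst h
          exact absurd a1 hn
    exact hxy (key y hr').symm
  have hfin : {S : Set U | IsSep G W S}.Finite := hf.finite_subsets.subset (fun S hS => hS.1)
  obtain ⟨S, hS⟩ := hfin.exists_minimal ⟨_, h0⟩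
  refine ⟨S, hS.prop, fun S' hS' h' => ?_⟩
  exact hS.eq_of_le h' hS'

theorem cmp_rch {x z : U} (hz : z ∈ Cmp G W S x) (hx : x ∈ W \ S) :
    Rch G (Cmp G W S x) x z := by
  have key : ∀ z, Rch G (W \ S) x z → Rch G (Cmp G W S x) x z := by
    intro z hz
    induction hz with
    | refl => exact ReflTransGen.refl
    | @tail b c hb hbc ih =>
      obtain ⟨a1, a2, a3⟩ := hbc
      refine ih.tail ⟨a1, ⟨a2, hb⟩, ⟨a3, ?_⟩⟩
      exact ReflTransGen.tail hb ⟨a1, a2, a3⟩
  exact key z hz.2

theorem cmp_mem {x z : U} (hz : z ∈ Cmp G W S x) : x ∈ W \ S := by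
  rcases ReflTransGen.cases_head hz.2 with h | ⟨c, hc, _⟩
  · exact h ▸ hz.1
  · exact hc.2.1

theorem cmp_conn (x : U) : Conn G (Cmp G W S x) := by
  intro a ha b hb
  exact (Rch_symm (cmp_rch ha (cmp_mem ha))).trans (cmp_rch hb (cmp_mem hb))

theorem cmp_out {x z q : U} (hz : z ∈ Cmp G W S x) (hq : q ∈ W \ S) (hzq : G.Adj z q) :
    q ∈ Cmp G W S x :=
  ⟨hq, ReflTransGen.tail hz.2 ⟨hzq, hz.1, hq⟩⟩

theorem cmp_self {x : U} (hx : x ∈ W \ S) : x ∈ Cmp G W S x := ⟨hx, ReflTransGen.refl⟩

theorem full_comp (hS : MinSep G W S) (hW : Conn G W) {x : U} (hx : x ∈ W \ S) {s : U}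
    (hs : s ∈ S) : ∃ d ∈ Cmp G W S x, G.Adj s d := by
  by_contra hc
  push Not at hc
  have hsW : s ∈ W := hS.1.1 hs
  have hsub : S \ {s} ⊆ S := Set.diff_subset
  have hxS' : x ∈ W \ (S \ {s}) := ⟨hx.1, fun h => hx.2 h.1⟩
  have hsep : IsSep G W (S \ {s}) := by
    refine ⟨hsub.trans hS.1.1, x, hxS', s, ⟨hsW, fun h => h.2 rfl⟩, ?_⟩
    intro hr
    have key : ∀ z, Rch G (W \ (S \ {s})) x z → z ∈ Cmp G W S x := by
      intro z hz
      induction hz with
      | refl => exact cmp_self hx
      | @tail b c hb hbc ih =>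
        obtain ⟨a1, a2, a3⟩ := hbc
        refine cmp_out ih ⟨a3.1, fun hcS => ?_⟩ a1
        have : c = s := by
          by_contra hne
          exact a3.2 ⟨hcS, hne⟩
        subst this
        exact hc b ih a1.symm
    exact (key s hr).1.2 hs
  have h := hS.2 _ hsub hsep
  have : s ∈ S \ {s} := by rw [h]; exact hs
  exact this.2 rfl

theorem sep_clique (hG : Chordal G) (hS : MinSep G W S) (hW : Conn G W) : G.IsClique S := by
  intro s hs t ht hst
  obtain ⟨x, hx, y, hy, hxy⟩ := hS.1.2
  refine ch_sep hG (cmp_conn (G := G) (W := W) (S := S) x) (cmp_conn (G := G) (W := W) (S := S) y)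
    ?_ hst (fun h => h.1.2 hs) (fun h => h.1.2 hs) (fun h => h.1.2 ht) (fun h => h.1.2 ht)
    (full_comp hS hW hx hs) (full_comp hS hW hx ht) (full_comp hS hW hy hs)
    (full_comp hS hW hy ht)
  intro a ha b hb
  refine ⟨fun h => ?_, fun h => ?_⟩
  · subst h
    exact hxy (ha.2.trans (Rch_symm hb.2))
  · exact hxy ((cmp_out ha hb.1 h).2.trans (Rch_symm hb.2))

theorem sep_dom (hG : Chordal G) (hf : W.Finite) (hS : MinSep G W S) (hW : Conn G W) {x : U}
    (hx : x ∈ W \ S) : ∃ d ∈ Cmp G W S x, ∀ s ∈ S, G.Adj s d :=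
  ch_dom hG (cmp_conn x) ⟨x, cmp_self hx⟩ (sep_clique hG hS hW) (hf.subset hS.1.1)
    (fun _ hs h => h.1.2 hs) (fun _ hs => full_comp hS hW hx hs)

theorem sep_ne (hS : MinSep G W S) (hW : Conn G W) : S.Nonempty := by
  by_contra hne
  rw [Set.not_nonempty_iff_eq_empty] at hne
  obtain ⟨x, hx, y, hy, hxy⟩ := hS.1.2
  subst hne
  apply hxy
  have := hW x hx.1 y hy.1
  exact Rch_mono (by simp) this

theorem sep_small (hS : MinSep G W S) {R : Set U} (hR : R ⊆ S) {x y : U} (hx : x ∈ W \ R)
    (hy : y ∈ W \ R) (hxy : ¬ Rch G (W \ R) x y) : R = S :=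
  hS.2 R hR ⟨hR.trans hS.1.1, x, hx, y, hy, hxy⟩

end Pool.Agent.H8.CR
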