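import Pool.Agent.H8.CR.ChB

/-!
# Clean separations

`SepD G W S W1 W2`: `W = W1 ∪ W2`, `W1 ∩ W2 = S`, `S` a nonempty clique, no edges between `W1 \ S` and
`W2 \ S`, both `W1 \ S`, `W2 \ S` contain a vertex adjacent to all of `S`, `W1`, `W2` are connected, and no
proper subset `R` of `S` separates two vertices of `W \ R`. The notion is symmetric in `W1`, `W2`.

* `exists_sepD`: `G` chordal, `W` finite, connected, not a clique. Take a minimal separator `S`
  (`exists_minsep`), `x ∈ W \ S`, `y ∈ W \ S` in different components, `D = Cmp x`, `W1 = D ∪ S`,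
  `W2 = W \ D`. `W1` connected: `D` is connected, every `s ∈ S` has a neighbour in `D` (`full_comp`).
  `W2` connected: every `z ∈ W \ (D ∪ S)` lies in its component `Cmp z ⊆ W2` (connected), which has a
  neighbour of every `s ∈ S`; `S` is a nonempty clique (`sep_clique`, `sep_ne`). No edges between `D` and
  `W2 \ S`: `cmp_out`. Dominating vertices: `sep_dom` for `x` and for `y` (`Cmp y ⊆ W2 \ S`).
* `shortcut`: let `SepD`. For every set `Z` and `a, b ∈ Z ∩ W1` which are connected in `Z ∩ W`: they are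
  connected in `Z ∩ W1`. Invariant along the path from `a`: the current vertex `z` is in `W1` and reachable
  from `a` in `Z ∩ W1`, or `z ∈ W2 \ S` and some `s ∈ S ∩ Z` is reachable from `a` in `Z ∩ W1`. From
  `z ∈ W1` to `z' ∈ W2 \ S`: then `z ∈ S` (no edges between `W1 \ S` and `W2 \ S`), `s = z`. From
  `z ∈ W2 \ S` to `z' ∈ W1`: `z' ∈ S`, and `s = z'` or `s ~ z'` (clique), both in `Z ∩ W1`.
* `exists_maxcl`: in a finite graph every clique is contained in a maximal clique.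
-/

namespace Pool.Agent.H8.CR

open Relation

variable {U : Type*} {G : SimpleGraph U} {W S W1 W2 : Set U}

/-- A clean separation. -/
structure SepD (G : SimpleGraph U) (W S W1 W2 : Set U) : Prop where
  un : W1 ∪ W2 = W
  int : W1 ∩ W2 = S
  cl : G.IsClique S
  ne : S.Nonempty
  no : ∀ x ∈ W1, x ∉ S → ∀ y ∈ W2, y ∉ S → ¬ G.Adj x y
  d1 : ∃ d ∈ W1, d ∉ S ∧ ∀ s ∈ S, G.Adj s d
  d2 : ∃ d ∈ W2, d ∉ S ∧ ∀ s ∈ S, G.Adj s d
  c1 : Conn G W1
  c2 : Conn G W2
  min : ∀ R ⊆ S, ∀ x ∈ W \ R, ∀ y ∈ W \ R, ¬ Rch G (W \ R) x y → R = S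

theorem SepD.symm (h : SepD G W S W1 W2) : SepD G W S W2 W1 where
  un := by rw [Set.union_comm]; exact h.un
  int := by rw [Set.inter_comm]; exact h.int
  cl := h.cl
  ne := h.ne
  no := fun x hx hxS y hy hyS hxy => h.no y hy hyS x hx hxS hxy.symm
  d1 := h.d2
  d2 := h.d1
  c1 := h.c2
  c2 := h.c1
  min := h.min

/-- connectivity from one vertex -/
private theorem conn_of_reach {T : Set U} {s0 : U} (h : ∀ z ∈ T, Rch G T z s0) : Conn G T :=
  fun a ha b hb => (h a ha).trans (Rch_symm (h b hb))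

theorem exists_sepD (hG : Chordal G) (hf : W.Finite) (hW : Conn G W)
    (h : ∃ x ∈ W, ∃ y ∈ W, x ≠ y ∧ ¬ G.Adj x y) : ∃ S W1 W2, SepD G W S W1 W2 := by
  obtain ⟨S, hS⟩ := exists_minsep hf h
  obtain ⟨hSW, x, hx, y, hy, hxy⟩ := hS.1
  have hcl := sep_clique hG hS hW
  have hne := sep_ne hS hW
  obtain ⟨s0, hs0⟩ := hne
  have hDW : Cmp G W S x ⊆ W \ S := fun z hz => hz.1
  -- components are equal or disjoint
  have hdj : ∀ z, z ∉ Cmp G W S x → z ∈ W \ S → ∀ w ∈ Cmp G W S z, w ∉ Cmp G W S x := by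
    intro z hz hzW w hw hw'
    exact hz ⟨hzW, hw'.2.trans (Rch_symm hw.2)⟩
  have hself : ∀ z ∈ W \ S, z ∈ Cmp G W S z := fun z hz => ⟨hz, ReflTransGen.refl⟩
  refine ⟨S, Cmp G W S x ∪ S, W \ Cmp G W S x, ?_⟩
  refine
    { un := ?_, int := ?_, cl := hcl, ne := ⟨s0, hs0⟩, no := ?_, d1 := ?_, d2 := ?_, c1 := ?_,
      c2 := ?_, min := ?_ }
  · ext z
    constructor
    · rintro ((hz | hz) | hz)
      · exact (hDW hz).1
      · exact hSW hz
      · exact hz.1
    · intro hz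
      by_cases hzD : z ∈ Cmp G W S x
      · exact Or.inl (Or.inl hzD)
      · exact Or.inr ⟨hz, hzD⟩
  · ext z
    constructor
    · rintro ⟨hz | hz, hz'⟩
      · exact absurd hz hz'.2
      · exact hz
    · intro hz
      exact ⟨Or.inr hz, hSW hz, fun hzD => (hDW hzD).2 hz⟩
  · rintro a (ha | ha) haS b hb hbS hab
    · exact hb.2 (cmp_out ha ⟨hb.1, hbS⟩ hab)
    · exact haS ha
  · obtain ⟨d, hd, hd'⟩ := sep_dom hG hf hS hW hx
    exact ⟨d, Or.inl hd, (hDW hd).2, hd'⟩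
  · obtain ⟨d, hd, hd'⟩ := sep_dom hG hf hS hW hy
    have hyD : y ∉ Cmp G W S x := fun hyD => hxy hyD.2
    exact ⟨d, ⟨hd.1.1, hdj y hyD hy d hd⟩, hd.1.2, hd'⟩
  · apply conn_of_reach (s0 := s0)
    rintro z (hz | hz)
    · obtain ⟨d, hd, hsd⟩ := full_comp hS hW hx hs0
      have h1 : Rch G (Cmp G W S x ∪ S) z d :=
        Rch_mono Set.subset_union_left (cmp_conn x z hz d hd)
      exact h1.tail ⟨hsd.symm, Or.inl hd, Or.inr hs0⟩
    · by_cases hzs : z = s0
      · rw [hzs]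
        exact ReflTransGen.refl
      · exact ReflTransGen.single ⟨hcl hz hs0 hzs, Or.inr hz, Or.inr hs0⟩
  · have hSW2 : ∀ s ∈ S, s ∈ W \ Cmp G W S x := fun s hs => ⟨hSW hs, fun hsD => (hDW hsD).2 hs⟩
    apply conn_of_reach (s0 := s0)
    intro z hz
    by_cases hzS : z ∈ S
    · by_cases hzs : z = s0
      · rw [hzs]
        exact ReflTransGen.refl
      · exact ReflTransGen.single ⟨hcl hzS hs0 hzs, hSW2 z hzS, hSW2 s0 hs0⟩
    · have hzW : z ∈ W \ S := ⟨hz.1, hzS⟩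
      obtain ⟨d, hd, hsd⟩ := full_comp hS hW hzW hs0
      have hsub : Cmp G W S z ⊆ W \ Cmp G W S x := fun w hw => ⟨hw.1.1, hdj z hz.2 hzW w hw⟩
      have h1 : Rch G (W \ Cmp G W S x) z d :=
        Rch_mono hsub (cmp_conn z z (hself z hzW) d hd)
      exact h1.tail ⟨hsd.symm, hsub hd, hSW2 s0 hs0⟩
  · intro R hR a ha b hb hab
    exact sep_small hS hR ha hb hab

theorem shortcut (h : SepD G W S W1 W2) {Z : Set U} {a b : U} (ha : a ∈ Z ∩ W1)
    (hb : b ∈ Z ∩ W1) (hab : Rch G (Z ∩ W) a b) : Rch G (Z ∩ W1) a b := by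
  have hS1 : S ⊆ W1 := by
    rw [← h.int]
    exact Set.inter_subset_left
  have key : ∀ z, Rch G (Z ∩ W) a z → (z ∈ W1 ∧ Rch G (Z ∩ W1) a z) ∨
      (z ∈ W2 ∧ z ∉ S ∧ ∃ s ∈ S, s ∈ Z ∧ Rch G (Z ∩ W1) a s) := by
    intro z hz
    induction hz with
    | refl => exact Or.inl ⟨ha.2, ReflTransGen.refl⟩
    | @tail z z' _ hst ih =>
      obtain ⟨hadj, hzZ, hzZ'⟩ := hst
      rcases ih with ⟨h1, h2⟩ | ⟨h1, h2, s, hs, hsZ, h3⟩
      · by_cases hz1 : z' ∈ W1
        · exact Or.inl ⟨hz1, h2.tail ⟨hadj, ⟨hzZ.1, h1⟩, ⟨hzZ'.1, hz1⟩⟩⟩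
        · have hz2 : z' ∈ W2 := by
            have := hzZ'.2
            rw [← h.un] at this
            exact this.resolve_left hz1
          have hzS' : z' ∉ S := fun hc => hz1 (hS1 hc)
          have hzS : z ∈ S := by
            by_contra hc
            exact h.no z h1 hc z' hz2 hzS' hadj
          exact Or.inr ⟨hz2, hzS', z, hzS, hzZ.1, h2⟩
      · by_cases hzS' : z' ∈ S
        · refine Or.inl ⟨hS1 hzS', ?_⟩
          by_cases hsz : s = z'
          · rw [← hsz]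
            exact h3
          · exact h3.tail ⟨h.cl hs hzS' hsz, ⟨hsZ, hS1 hs⟩, ⟨hzZ'.1, hS1 hzS'⟩⟩
        · have hz2 : z' ∈ W2 := by
            by_contra hc
            have := hzZ'.2
            rw [← h.un] at this
            exact h.no z' (this.resolve_right hc) hzS' z h1 h2 hadj.symm
          exact Or.inr ⟨hz2, hzS', s, hs, hsZ, h3⟩
  rcases key b hab with ⟨-, h1⟩ | ⟨h1, h2, -⟩
  · exact h1
  · exfalso
    apply h2
    rw [← h.int]
    exact ⟨hb.2, h1⟩

theorem exists_maxcl [Finite U] (G : SimpleGraph U) {Q : Set U} (hQ : G.IsClique Q) :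
    ∃ K, Maximal (fun s : Set U => G.IsClique s) K ∧ Q ⊆ K := by
  obtain ⟨K, hQK, hK⟩ := (Set.toFinite {s : Set U | G.IsClique s}).exists_le_maximal hQ
  exact ⟨K, hK, hQK⟩

end Pool.Agent.H8.CR
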