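import Pool.Agent.H8.CR.ChC

/-!
# States

`MC G` is the type of the maximal cliques. `StW G W` are the invariants of a state `W`.

Let `h : SepD G W S W1 W2` and `StW G W`.

* `st_cases`: a maximal clique `K ⊆ W` is contained in `W1` or in `W2` (two vertices `x ∈ K \ W2`,
  `y ∈ K \ W1` would be adjacent, but `x ∈ W1 \ S`, `y ∈ W2 \ S`), and not in both (then `K ⊆ S`, and
  `insert d S` is a clique larger than `K`, `d` from `SepD.d1`).
* `st_adj`: maximal cliques `K1 ⊆ W1`, `K2 ⊆ W2`: `(CRG G).Adj K1 K2 ↔ S ⊆ K1 ∧ S ⊆ K2`.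
  `⇐`: `K1 ∩ K2 = S` (`K1 ∩ K2 ⊆ W1 ∩ W2 = S`), nonempty; `K1 ≠ K2` (`st_cases`). Separation: `a ∈ K1 \ K2`,
  `b ∈ K2 \ K1`, so `a ∈ W1 \ S`, `b ∈ W2 \ S`. Suppose a walk from `a` to `b` in `G` avoids `S`. Then
  `Rch G Sᶜ a b`, by `cvx` `Rch G (Sᶜ ∩ W) a b`; but in `W \ S` there are no edges between `W1 \ S` and
  `W2 \ S`, so one cannot get from `a` to `b`.
  `⇒`: let `R = K1 ∩ K2 ⊆ S`. There are `a ∈ K1 \ S`, `b ∈ K2 \ S` (as `K1, K2 ⊄ S`, `st_cases`), so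
  `a ∈ K1 \ K2`, `b ∈ K2 \ K1` (`a ∈ W1 \ S` is not in `W2`). `R` separates them in `G`, so
  `¬ Rch G (W \ R) a b` (a chain gives a walk avoiding `R`). `SepD.min` gives `R = S`.
* `walk_rch`: helper: a walk in `G` all of whose vertices are in `Z` gives `Rch G Z`, and conversely.
* `st_side`: `StW G W1`. `conn`: `SepD.c1`. `ne`: `S` nonempty. `ext`: `Q ⊆ W1` a clique. If `Q ⊆ S` replace `Q`
  by `insert d S` with `d ∈ W1 \ S` adjacent to all of `S`. So we may assume `Q ⊄ S`, `q ∈ Q \ S`.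
  By `ext` for `W` there is a maximal clique `K ⊆ W` with `Q ⊆ K`; `K ⊆ W1` because `q ∈ K`, `q ∈ W1 \ S`
  (`st_cases`: if `K ⊆ W2` then `q ∈ W1 ∩ W2 = S`). `cvx`: `cvx` for `W`, then `shortcut`
  (`Z ∩ W1 ⊆ W`). `nb`: let `K0 ⊄ W1`. If `K0 ⊆ W` then `K0 ⊆ W2` and by `st_adj` (symmetric) for
  `K ⊆ W1`: `Adj K0 K ↔ S ⊆ K0 ∧ S ⊆ K`: if `S ⊆ K0` take `R = S`, otherwise the first alternative. If
  `K0 ⊄ W` use `nb` for `W`.
-/

namespace Pool.Agent.H8.CR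

open Relation

variable {U : Type*} {G : SimpleGraph U} {W S W1 W2 : Set U}

/-- The maximal cliques of `G`. -/
abbrev MC (G : SimpleGraph U) : Type _ := {K : Set U // Maximal (fun s : Set U => G.IsClique s) K}

/-- The invariants of a state. -/
structure StW (G : SimpleGraph U) (W : Set U) : Prop where
  conn : Conn G W
  ne : W.Nonempty
  ext : ∀ Q ⊆ W, G.IsClique Q → ∃ K : MC G, Q ⊆ K.1 ∧ K.1 ⊆ W
  cvx : ∀ Z : Set U, ∀ a ∈ Z ∩ W, ∀ b ∈ Z ∩ W, Rch G Z a b → Rch G (Z ∩ W) a b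
  nb : ∀ K0 : MC G, ¬ K0.1 ⊆ W → (∀ K : MC G, K.1 ⊆ W → ¬ (CRG G).Adj K0 K) ∨
    ∃ R : Set U, ∀ K : MC G, K.1 ⊆ W → ((CRG G).Adj K0 K ↔ R ⊆ K.1)

theorem walk_rch {Z : Set U} {a b : U} (p : G.Walk a b) (hp : ∀ x ∈ p.support, x ∈ Z) :
    Rch G Z a b := by
  induction p with
  | nil => exact ReflTransGen.refl
  | cons h q ih =>
    refine ReflTransGen.head ⟨h, hp _ ?_, hp _ ?_⟩ (ih fun x hx => hp x ?_)
    · exact SimpleGraph.Walk.start_mem_support _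
    · rw [SimpleGraph.Walk.support_cons]
      exact List.mem_cons_of_mem _ (SimpleGraph.Walk.start_mem_support _)
    · rw [SimpleGraph.Walk.support_cons]
      exact List.mem_cons_of_mem _ hx

theorem rch_walk {Z : Set U} {a b : U} (ha : a ∈ Z) (h : Rch G Z a b) :
    ∃ p : G.Walk a b, ∀ x ∈ p.support, x ∈ Z := by
  induction h with
  | refl =>
    refine ⟨.nil, fun x hx => ?_⟩
    rw [SimpleGraph.Walk.support_nil, List.mem_singleton] at hx
    exact hx ▸ ha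
  | tail h1 h2 ih =>
    obtain ⟨p, hp⟩ := ih
    refine ⟨p.concat h2.1, fun x hx => ?_⟩
    rw [SimpleGraph.Walk.support_concat] at hx
    simp only [List.mem_append, List.mem_singleton] at hx
    rcases hx with hx | hx
    · exact hp x hx
    · exact hx ▸ h2.2.2

theorem SepD.s1 (h : SepD G W S W1 W2) : S ⊆ W1 := by
  rw [← h.int]; exact Set.inter_subset_left

theorem SepD.s2 (h : SepD G W S W1 W2) : S ⊆ W2 := by
  rw [← h.int]; exact Set.inter_subset_right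

theorem SepD.w1 (h : SepD G W S W1 W2) : W1 ⊆ W := by
  rw [← h.un]; exact Set.subset_union_left

theorem SepD.w2 (h : SepD G W S W1 W2) : W2 ⊆ W := by
  rw [← h.un]; exact Set.subset_union_right

theorem SepD.mem (h : SepD G W S W1 W2) {x : U} (h1 : x ∈ W1) (h2 : x ∈ W2) : x ∈ S := by
  rw [← h.int]; exact ⟨h1, h2⟩

theorem SepD.dcl (h : SepD G W S W1 W2) : ∃ d ∈ W1, d ∉ S ∧ G.IsClique (insert d S) := by
  obtain ⟨d, hd1, hdS, hd⟩ := h.d1
  refine ⟨d, hd1, hdS, ?_⟩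
  intro x hx y hy hxy
  rcases hx with rfl | hx
  · rcases hy with rfl | hy
    · exact absurd rfl hxy
    · exact (hd y hy).symm
  · rcases hy with rfl | hy
    · exact hd x hx
    · exact h.cl hx hy hxy

theorem st_cases (h : SepD G W S W1 W2) (K : MC G) (hK : K.1 ⊆ W) :
    (K.1 ⊆ W1 ∨ K.1 ⊆ W2) ∧ ¬ (K.1 ⊆ W1 ∧ K.1 ⊆ W2) := by
  constructor
  · by_contra hc
    rw [not_or] at hc
    obtain ⟨y, hyK, hy1⟩ := Set.not_subset.1 hc.1
    obtain ⟨x, hxK, hx2⟩ := Set.not_subset.1 hc.2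
    have hx1 : x ∈ W1 := by
      have := hK hxK
      rw [← h.un] at this
      exact this.resolve_right hx2
    have hy2 : y ∈ W2 := by
      have := hK hyK
      rw [← h.un] at this
      exact this.resolve_left hy1
    have hxS : x ∉ S := fun hs => hx2 (h.s2 hs)
    have hyS : y ∉ S := fun hs => hy1 (h.s1 hs)
    have hxy : x ≠ y := fun e => hx2 (e ▸ hy2)
    exact h.no x hx1 hxS y hy2 hyS (K.2.1 hxK hyK hxy)
  · rintro ⟨h1, h2⟩
    have hKS : K.1 ⊆ S := fun x hx => h.mem (h1 hx) (h2 hx)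
    obtain ⟨d, hd1, hdS, hcl⟩ := h.dcl
    have := K.2.2 hcl (hKS.trans (Set.subset_insert d S))
    exact hdS (hKS (this (Set.mem_insert d S)))

theorem no_cross (h : SepD G W S W1 W2) {a b : U} (ha : a ∈ W1) (haS : a ∉ S)
    (hab : Rch G (Sᶜ ∩ W) a b) : b ∈ W1 ∧ b ∉ S := by
  induction hab with
  | refl => exact ⟨ha, haS⟩
  | tail h1 h2 ih =>
    obtain ⟨hadj, -, hcS, hcW⟩ := h2
    rename_i c
    refine ⟨?_, hcS⟩
    rw [← h.un] at hcW
    rcases hcW with hc | hc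
    · exact hc
    · exact absurd hadj (h.no _ ih.1 ih.2 _ hc hcS)

theorem st_adj (h : SepD G W S W1 W2) (hs : StW G W) (K1 K2 : MC G) (h1 : K1.1 ⊆ W1)
    (h2 : K2.1 ⊆ W2) : (CRG G).Adj K1 K2 ↔ S ⊆ K1.1 ∧ S ⊆ K2.1 := by
  have hKS1 : ∃ a ∈ K1.1, a ∉ S := by
    by_contra hc
    push Not at hc
    exact (st_cases h K1 (h1.trans h.w1)).2 ⟨h1, fun x hx => h.s2 (hc x hx)⟩
  have hKS2 : ∃ a ∈ K2.1, a ∉ S := by
    by_contra hc
    push Not at hc
    exact (st_cases h K2 (h2.trans h.w2)).2 ⟨fun x hx => h.s1 (hc x hx), h2⟩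
  have hRS : K1.1 ∩ K2.1 ⊆ S := fun x hx => h.mem (h1 hx.1) (h2 hx.2)
  constructor
  · intro hadj
    obtain ⟨a, haK, haS⟩ := hKS1
    obtain ⟨b, hbK, hbS⟩ := hKS2
    have ha : a ∈ K1.1 \ K2.1 := ⟨haK, fun ha2 => haS (h.mem (h1 haK) (h2 ha2))⟩
    have hb : b ∈ K2.1 \ K1.1 := ⟨hbK, fun hb1 => hbS (h.mem (h1 hb1) (h2 hbK))⟩
    have haW : a ∈ W \ (K1.1 ∩ K2.1) := ⟨h.w1 (h1 haK), fun hc => ha.2 hc.2⟩
    have hbW : b ∈ W \ (K1.1 ∩ K2.1) := ⟨h.w2 (h2 hbK), fun hc => hb.2 hc.1⟩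
    have hR : K1.1 ∩ K2.1 = S := by
      refine h.min _ hRS a haW b hbW ?_
      intro hr
      obtain ⟨p, hp⟩ := rch_walk haW hr
      obtain ⟨x, hx, hx'⟩ := hadj.2.2 a ha b hb p
      exact (hp x hx).2 hx'
    rw [← hR]
    exact ⟨Set.inter_subset_left, Set.inter_subset_right⟩
  · rintro ⟨hS1, hS2⟩
    have hR : K1.1 ∩ K2.1 = S := hRS.antisymm (Set.subset_inter hS1 hS2)
    refine ⟨?_, ?_, ?_⟩
    · rintro rfl
      exact (st_cases h K1 (h1.trans h.w1)).2 ⟨h1, h2⟩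
    · rw [hR]
      exact h.ne
    · intro a ha b hb p
      by_contra hc
      push Not at hc
      rw [hR] at hc
      have haS : a ∉ S := fun hh => ha.2 (hS2 hh)
      have hbS : b ∉ S := fun hh => hb.2 (hS1 hh)
      have hr : Rch G Sᶜ a b := walk_rch p hc
      have hr2 := hs.cvx Sᶜ a ⟨haS, h.w1 (h1 ha.1)⟩ b ⟨hbS, h.w2 (h2 hb.1)⟩ hr
      have hb1 := no_cross h (h1 ha.1) haS hr2
      exact hbS (h.mem hb1.1 (h2 hb.1))

theorem ext_aux (h : SepD G W S W1 W2) (hs : StW G W) {Q : Set U} (hQ : Q ⊆ W1)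
    (hc : G.IsClique Q) {q : U} (hq : q ∈ Q) (hqS : q ∉ S) :
    ∃ K : MC G, Q ⊆ K.1 ∧ K.1 ⊆ W1 := by
  obtain ⟨K, hQK, hKW⟩ := hs.ext Q (hQ.trans h.w1) hc
  refine ⟨K, hQK, ?_⟩
  rcases (st_cases h K hKW).1 with h1 | h2
  · exact h1
  · exact absurd (h.mem (hQ hq) (h2 (hQK hq))) hqS

theorem st_side (h : SepD G W S W1 W2) (hs : StW G W) : StW G W1 := by
  refine ⟨h.c1, h.ne.mono h.s1, ?_, ?_, ?_⟩
  · intro Q hQ hc
    by_cases hQS : Q ⊆ S
    · obtain ⟨d, hd1, hdS, hcl⟩ := h.dcl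
      obtain ⟨K, hK1, hK2⟩ := ext_aux h hs (Set.insert_subset hd1 h.s1) hcl
        (Set.mem_insert d S) hdS
      exact ⟨K, (hQS.trans (Set.subset_insert d S)).trans hK1, hK2⟩
    · obtain ⟨q, hq, hqS⟩ := Set.not_subset.1 hQS
      exact ext_aux h hs hQ hc hq hqS
  · intro Z a ha b hb hab
    exact shortcut h ha hb (hs.cvx Z a ⟨ha.1, h.w1 ha.2⟩ b ⟨hb.1, h.w1 hb.2⟩ hab)
  · intro K0 hK0
    by_cases hKW : K0.1 ⊆ W
    · have hK2 : K0.1 ⊆ W2 := (st_cases h K0 hKW).1.resolve_left hK0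
      by_cases hS : S ⊆ K0.1
      · right
        refine ⟨S, fun K hK => ?_⟩
        rw [SimpleGraph.adj_comm, st_adj h hs K K0 hK hK2]
        exact ⟨fun hh => hh.1, fun hh => ⟨hh, hS⟩⟩
      · left
        intro K hK hadj
        rw [SimpleGraph.adj_comm, st_adj h hs K K0 hK hK2] at hadj
        exact hS hadj.2
    · rcases hs.nb K0 hKW with h' | ⟨R, hR⟩
      · left
        intro K hK
        exact h' K (hK.trans h.w1)
      · right
        exact ⟨R, fun K hK => hR K (hK.trans h.w1)⟩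

end Pool.Agent.H8.CR
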