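import Mathlib

/-!
# Chordal graphs and reduced clique graphs
-/

namespace Pool.Agent.H8.CR

/-- A graph is chordal if it has no induced cycle on four or more vertices. -/
def Chordal {U : Type*} (G : SimpleGraph U) : Prop :=
  ∀ n : ℕ, 4 ≤ n → IsEmpty (SimpleGraph.cycleGraph n ↪g G)

/-- The reduced clique graph of `G`: its vertices are the maximal cliques of `G`; two different
maximal cliques `K`, `L` are adjacent if `K ∩ L` is nonempty and separates `K \ L` from
`L \ K`: every walk from a vertex of `K \ L` to a vertex of `L \ K` meets `K ∩ L`. -/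
def CRG {U : Type*} (G : SimpleGraph U) :
    SimpleGraph {K : Set U // Maximal (fun s : Set U => G.IsClique s) K} where
  Adj K L := K ≠ L ∧ (K.1 ∩ L.1).Nonempty ∧
    ∀ a ∈ K.1 \ L.1, ∀ b ∈ L.1 \ K.1, ∀ p : G.Walk a b, ∃ x ∈ p.support, x ∈ K.1 ∩ L.1
  symm := ⟨by
    rintro K L ⟨h1, h2, h3⟩
    refine ⟨h1.symm, by rwa [Set.inter_comm], fun a ha b hb p => ?_⟩
    obtain ⟨x, hx, hx'⟩ := h3 b hb a ha p.reverse
    rw [SimpleGraph.Walk.support_reverse, List.mem_reverse] at hx
    exact ⟨x, hx, by rwa [Set.inter_comm]⟩⟩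
  loopless := ⟨fun K h => h.1 rfl⟩

/-- `H` is the reduced clique graph of a finite chordal graph. -/
def IsCR {V : Type*} (H : SimpleGraph V) : Prop :=
  ∃ (U : Type) (_ : Finite U) (G : SimpleGraph U), Chordal G ∧ Nonempty (H ≃g CRG G)

end Pool.Agent.H8.CR
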