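import Pool.Agent.H8.CR.Defs

/-!
# Components of pure relations: basic facts

Let `F` be pure on `X`, `y ∈ X`, `v ∈ X` adjacent. `Cp F y v` is the component of `v` under the
relation `a b|y`.

* `Cp_sub`: every step `F a b y` gives `b ∈ X`, `H.Adj a y`, `H.Adj b y` (`Pure.tri`).
* `Cp_symm`, `Cp_eq`: the relation `a b|y` is symmetric (`Pure.symm`), so components are classes
  (`ReflTransGen.symmetric`).
* `Cp_conn`: a step `F a b y` is an edge `a b` between two elements of the component. (Every
  element of `Cp F y v` is reached from `v` by a path of elements of `Cp F y v`; then use symmetry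
  and transitivity.)
* `Cp_adj`: let `p, q ∈ Cp F y v` be adjacent. Show `F p q y`. There is a chain
  `p = x0, x1, ..., xk = q` with `F x_i x_{i+1} y`. We show by induction along the chain
  (e.g. `ReflTransGen.head_induction_on` for the statement
  `∀ p, chain p q → H.Adj p q → F p q y`, with `q` fixed): let the first step be `F p x1 y`,
  and the rest a chain from `x1` to `q`.
  - If `x1 = q`: done.
  - If `x1` is adjacent to `q`, then `F x1 q y` by induction. Now the rule
    K3 (`bd|a, cd|a, b ~ c ⇒ bc|a`) with `a = y`, `b = p`, `c = q`, `d = x1` gives `F p q y`.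
    K3 follows from `Pure.k` and `Pure.cons`: apply `k` to `F p x1 y` and the vertex `q`: either
    `F p x1 q` or (`F p q y` and ..). In the first case apply `k` to `F q x1 y` and the vertex `p`:
    either `F q x1 p`, which contradicts `F p x1 q` (consistency), or (`F q p y` and ..).
  - If `x1` is not adjacent to `q` (and `x1 ≠ q`): apply `d2` to `F x1 p y` (by symmetry) with
    `x = q`: `q ∈ X`, `q ≁ x1`, `q ~ p`, `q ~ y` (by `Cp_sub`), so `F q p y`.
  (The same case distinction works with `x1 = q` treated first.)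
-/

namespace Pool.Agent.H8.CR

open Relation

variable {V : Type*} {H : SimpleGraph V} {X : Set V} {F : V → V → V → Prop}

theorem comp1_symm {r : V → V → Prop} (hs : ∀ a b, r a b → r b a) {a b : V}
    (h : ReflTransGen r a b) : ReflTransGen r b a := by
  induction h with
  | refl => exact ReflTransGen.refl
  | tail _ hbc ih => exact ReflTransGen.head (hs _ _ hbc) ih

theorem Cp_self (F : V → V → V → Prop) (y v : V) : v ∈ Cp F y v := ReflTransGen.refl

/-- Rule K3. -/
theorem Pure.k3 (hF : Pure H X F) {a b c d : V} (h : F b d a) (h' : F c d a) (h1 : H.Adj b c) :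
    F b c a := by
  obtain ⟨hbX, hdX, haX, hbd, hba, hda⟩ := hF.tri _ _ _ h
  obtain ⟨hcX, -, -, hcd, hca, -⟩ := hF.tri _ _ _ h'
  rcases hF.k b d a c h hcX h1.symm hcd hca with h2 | h2
  · rcases hF.k c d a b h' hbX h1 hbd hba with h3 | h3
    · exact absurd (hF.symm _ _ _ h2) (hF.cons _ _ _ (hF.symm _ _ _ h3))
    · exact hF.symm _ _ _ h3.1
  · exact h2.1

theorem Cp_sub (hF : Pure H X F) {y v u : V} (hv : v ∈ X) (hyv : H.Adj y v)
    (hu : u ∈ Cp F y v) : u ∈ X ∧ H.Adj y u := by
  have hu' : ReflTransGen (fun a b => F a b y) v u := hu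
  rcases hu'.cases_tail with h | ⟨c, _, h⟩
  · rw [h]
    exact ⟨hv, hyv⟩
  · obtain ⟨-, huX, -, -, -, huy⟩ := hF.tri _ _ _ h
    exact ⟨huX, huy.symm⟩

theorem Cp_symm (hF : Pure H X F) {y v u : V} (h : u ∈ Cp F y v) : v ∈ Cp F y u := by
  exact comp1_symm (fun a b hab => hF.symm _ _ _ hab) h

theorem Cp_eq (hF : Pure H X F) {y v u : V} (h : u ∈ Cp F y v) : Cp F y u = Cp F y v := by
  ext w
  constructor
  · intro hw
    exact ReflTransGen.trans h hw
  · intro hw
    exact ReflTransGen.trans (Cp_symm hF h) hw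

theorem Cp_conn (hF : Pure H X F) (y v : V) : Conn H (Cp F y v) := by
  have key : ∀ u ∈ Cp F y v, Rch H (Cp F y v) v u := by
    intro u hu
    have hu' : ReflTransGen (fun a b => F a b y) v u := hu
    induction hu' with
    | refl => exact ReflTransGen.refl
    | tail hb hc ih =>
      have hb' : _ ∈ Cp F y v := hb
      exact ReflTransGen.tail (ih hb') ⟨(hF.tri _ _ _ hc).2.2.2.1, hb', hu⟩
  intro a ha b hb
  exact ReflTransGen.trans
    (comp1_symm (fun a b hab => ⟨hab.1.symm, hab.2.2, hab.2.1⟩) (key a ha)) (key b hb)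

theorem Cp_adj (hF : Pure H X F) {y v p q : V} (hy : y ∈ X) (hv : v ∈ X) (hyv : H.Adj y v)
    (hp : p ∈ Cp F y v) (hq : q ∈ Cp F y v) (hpq : H.Adj p q) : F p q y := by
  obtain ⟨hqX, hyq⟩ := Cp_sub hF hv hyv hq
  have hch : ReflTransGen (fun a b => F a b y) p q := ReflTransGen.trans (Cp_symm hF hp) hq
  clear hp hq
  induction hch using ReflTransGen.head_induction_on with
  | refl => exact absurd hpq (H.loopless.irrefl _)
  | head h' hcc ih =>
    rename_i a c
    by_cases hcq : c = q
    · rw [← hcq]
      exact h'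
    · by_cases hadj : H.Adj c q
      · exact hF.k3 h' (hF.symm _ _ _ (ih hadj)) hpq
      · exact hF.symm _ _ _ (hF.d2 c a y q (hF.symm _ _ _ h') hqX (fun h => hadj h.symm)
          hpq.symm hyq.symm)

end Pool.Agent.H8.CR
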