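import Pool.Agent.H8.CR.Comp2

/-!
# Restriction of pure relations

`Rs F Y` is the restriction of `F` to the vertex set `Y`.

* `Pure.restrict`, `Full.restrict`: all conditions are universal statements over `X`.
* `Rs_self`: `F` only holds on triangles inside `X`.
* `Cp_restrict`: if `S` is closed and `y, v ∈ S` are adjacent then the component of `v` at `y` for
  `Rs F S` is the one for `F`: `⊆` is clear (monotonicity of `ReflTransGen`), and by `closed_Cp` every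
  element of a chain `F a b y` from `v` lies in `S`.
* `Cp_restrict_of_sub`: more generally if `Cp F y v ⊆ Y` and `y ∈ Y` then
  `Cp (Rs F Y) y v = Cp F y v` (all vertices of a chain from `v` lie in `Cp F y v ⊆ Y`).
* `closed_restrict`: `S` closed in `X` and `Y ⊆ X` ⇒ `S ∩ Y` closed in `Y` for `Rs F Y`.
* `closed_trans`: `Y` closed in `X` and `S ⊆ Y` closed in `Y` for `Rs F Y` ⇒ `S` closed in `X`.
  (For `t ∈ X \ S`: if `t ∈ Y` use closedness in `Y`, else closedness of `Y`, as `p, q ∈ Y`.)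
-/

namespace Pool.Agent.H8.CR

open Relation

variable {V : Type*} {H : SimpleGraph V} {X : Set V} {F : V → V → V → Prop}

theorem Pure.restrict (hF : Pure H X F) {Y : Set V} (hY : Y ⊆ X) : Pure H Y (Rs F Y) := by
  refine ⟨?_, ?_, ?_, ?_, ?_, ?_⟩
  · rintro u v w ⟨h, hu, hv, hw⟩
    obtain ⟨-, -, -, h1, h2, h3⟩ := hF.tri u v w h
    exact ⟨hu, hv, hw, h1, h2, h3⟩
  · rintro u v w ⟨h, hu, hv, hw⟩
    exact ⟨hF.symm u v w h, hv, hu, hw⟩
  · rintro u v w ⟨h, hu, hv, hw⟩ h'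
    exact hF.cons u v w h h'.1
  · rintro u v w x ⟨h, hu, hv, hw⟩ hx h1 h2 h3
    exact ⟨hF.d1 u v w x h (hY hx) h1 h2 h3, hu, hv, hx⟩
  · rintro u v w x ⟨h, hu, hv, hw⟩ hx h1 h2 h3
    exact ⟨hF.d2 u v w x h (hY hx) h1 h2 h3, hx, hv, hw⟩
  · rintro a b c d ⟨h, ha, hb, hc⟩ hd h1 h2 h3
    rcases hF.k a b c d h (hY hd) h1 h2 h3 with h4 | ⟨h4, h5⟩
    · exact Or.inl ⟨h4, ha, hb, hd⟩
    · exact Or.inr ⟨⟨h4, ha, hd, hc⟩, ⟨h5, hb, hd, hc⟩⟩

theorem Full.restrict (hF : Full H X F) {Y : Set V} (hY : Y ⊆ X) : Full H Y (Rs F Y) := by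
  rintro u v w ⟨hu, hv, hw, h1, h2, h3⟩
  rcases hF u v w ⟨hY hu, hY hv, hY hw, h1, h2, h3⟩ with h | h | h
  · exact Or.inl ⟨h, hu, hv, hw⟩
  · exact Or.inr (Or.inl ⟨h, hu, hw, hv⟩)
  · exact Or.inr (Or.inr ⟨h, hv, hw, hu⟩)

theorem Rs_self (hF : Pure H X F) {Y : Set V} (hY : X ⊆ Y) : Rs F Y = F := by
  funext u v w
  refine propext ⟨fun h => h.1, fun h => ?_⟩
  obtain ⟨hu, hv, hw, -⟩ := hF.tri u v w h
  exact ⟨h, hY hu, hY hv, hY hw⟩

theorem Rs_Rs (F : V → V → V → Prop) {Y Z : Set V} (h : Z ⊆ Y) : Rs (Rs F Y) Z = Rs F Z := by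
  funext u v w
  refine propext ⟨fun h1 => ⟨h1.1.1, h1.2⟩, fun h1 => ⟨⟨h1.1, ?_⟩, h1.2⟩⟩
  exact ⟨h h1.2.1, h h1.2.2.1, h h1.2.2.2⟩

theorem Cp_restrict_of_sub {F : V → V → V → Prop} {Y : Set V} {y v : V}
    (hy : y ∈ Y) (h : Cp F y v ⊆ Y) : Cp (Rs F Y) y v = Cp F y v := by
  refine Set.Subset.antisymm (fun u hu => ?_) (fun u hu => ?_)
  · have hu' : ReflTransGen (fun a b => Rs F Y a b y) v u := hu
    exact ReflTransGen.mono (fun a b (hab : Rs F Y a b y) => hab.1) _ _ hu'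
  · have hu' : ReflTransGen (fun a b => F a b y) v u := hu
    show ReflTransGen (fun a b => Rs F Y a b y) v u
    induction hu' with
    | refl => exact ReflTransGen.refl
    | tail h1 h2 ih =>
      refine (ih h1).tail ⟨h2, h h1, h (ReflTransGen.tail h1 h2), hy⟩

theorem Cp_restrict (hF : Pure H X F) {S : Set V} (hS : Closed H X F S) {y v : V} (hy : y ∈ S)
    (hv : v ∈ S) (hyv : H.Adj y v) : Cp (Rs F S) y v = Cp F y v := by
  exact Cp_restrict_of_sub hy (closed_Cp hF hS hy hv hyv)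

theorem closed_restrict {S Y : Set V} (hS : Closed H X F S) (hY : Y ⊆ X) :
    Closed H Y (Rs F Y) (S ∩ Y) := by
  refine ⟨Set.inter_subset_right, ?_⟩
  intro p q t hp hq hpq ht htn htp htq
  have h1 : t ∉ S := fun h => htn ⟨h, ht⟩
  exact ⟨hS.2 p q t hp.1 hq.1 hpq (hY ht) h1 htp htq, hp.2, hq.2, ht⟩

theorem closed_trans {S Y : Set V} (hY : Closed H X F Y) (hS : Closed H Y (Rs F Y) S) :
    Closed H X F S := by
  refine ⟨hS.1.trans hY.1, ?_⟩
  intro p q t hp hq hpq ht htn htp htq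
  by_cases h1 : t ∈ Y
  · exact (hS.2 p q t hp hq hpq h1 htn htp htq).1
  · exact hY.2 p q t (hS.1 hp) (hS.1 hq) hpq ht h1 htp htq

end Pool.Agent.H8.CR
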