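import Pool.Agent.H8.CR.Tree4

/-!
# Property `Zp` for decomposable sets

`Zp H S`: every function `φ` on the edges inside `S` with values in `ZMod 2` with zero sum on triangles
is `φ a b = f a + f b`.

* `Zp_supp`: `t` valid, `supp t ⊆ E` ⇒ `Zp H t.supp`. Induction. Leaf: no edges (irreflexive).
  Node `l r`: get `f1` on `l`, `f2` on `r`; let `g = f1` on `l`, `g = f2` on `r` (disjoint), and
  `ψ a b = φ a b + g a + g b`; `ψ` vanishes on edges inside `l` and inside `r` and has zero sum on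
  triangles. Cross edges: let `M = {a ∈ l | a has a neighbour in r}`, `M' ⊆ r` similarly; all pairs
  in `M × M'` are edges. `M = N(b) ∩ l` for `b ∈ M'` is connected (`TC_nb`, `TC_conn`; `b ∈ E`), and for
  adjacent `m, m' ∈ M` the triangle `m, m', b` gives `ψ m b = ψ m' b`. So `ψ m b` does not depend on
  `m ∈ M` (connectivity of `M`), and likewise not on `b ∈ M'`: it is a constant `k`. Then
  `f = g` on `l`, `f = g + k` on `r` works.
* `Zp_of_dec`: `Dec H E C`, `C ⊆ E` ⇒ `Zp H C`.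
* `Zp_cone`: if `y ∈ S` is adjacent to all other elements of `S` then `Zp H S`: put `f y = 0`,
  `f d = φ y d`; the triangle `y, d, d'` gives the claim.
-/

namespace Pool.Agent.H8.CR

variable {V : Type*} {H : SimpleGraph V} {E : Set V}

private theorem t5_prop {S : Set V} (hc : Conn H S) (F : V → ZMod 2)
    (hF : ∀ m ∈ S, ∀ m' ∈ S, H.Adj m m' → F m = F m') : ∀ a ∈ S, ∀ b ∈ S, F a = F b := by
  intro a ha b hb
  have h := hc a ha b hb
  unfold Rch at h
  induction h with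
  | refl => rfl
  | tail h1 h2 ih => exact (ih h2.2.1).trans (hF _ h2.2.1 _ h2.2.2 h2.1)

private theorem t5_node {l r : DT V} (hl : Zp H l.supp) (hr : Zp H r.supp)
    (hcut : Cut H l.supp r.supp) (hcl : ∀ b ∈ r.supp, Conn H (H.neighborSet b ∩ l.supp))
    (hcr : ∀ a ∈ l.supp, Conn H (H.neighborSet a ∩ r.supp)) : Zp H (l.supp ∪ r.supp) := by
  classical
  intro φ hs hφ
  obtain ⟨f1, hf1⟩ := hl φ hs (fun a b c h => hφ a b c
    ⟨Or.inl h.1, Or.inl h.2.1, Or.inl h.2.2.1, h.2.2.2⟩)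
  obtain ⟨f2, hf2⟩ := hr φ hs (fun a b c h => hφ a b c
    ⟨Or.inr h.1, Or.inr h.2.1, Or.inr h.2.2.1, h.2.2.2⟩)
  obtain ⟨hd, ⟨a0, ha0, b0, hb0, h0⟩, hbi⟩ := hcut
  have hdis : ∀ x, x ∈ r.supp → x ∉ l.supp := fun x hx hx' => Set.disjoint_left.1 hd hx' hx
  have e1 : ∀ p x y : ZMod 2, p = x + y → p + x + y = 0 := by decide
  have e2 : ∀ p q r x y z : ZMod 2, p + q + r = 0 → p + x + y = 0 → r + x + z = q + y + z := by
    decide
  have e3 : ∀ p x y k : ZMod 2, p + x + y = k → p = x + (y + k) := by decide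
  have e4 : ∀ x y k : ZMod 2, x + y = x + k + (y + k) := by decide
  have e5 : ∀ p q r x y z : ZMod 2, p + q + r = 0 → q + y + z = 0 → p + x + y = r + x + z := by
    decide
  -- left side
  have hL : ∀ a ∈ l.supp, ∀ a' ∈ l.supp, ∀ b ∈ r.supp, H.Adj a b → H.Adj a' b →
      φ a b + f1 a + f2 b = φ a' b + f1 a' + f2 b := by
    intro a ha a' ha' b hb hab ha'b
    refine t5_prop (hcl b hb) (fun x => φ x b + f1 x + f2 b) ?_ a ⟨hab.symm, ha⟩ a'
      ⟨ha'b.symm, ha'⟩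
    intro m hm m' hm' hmm
    have h1 := hφ m m' b ⟨Or.inl hm.2, Or.inl hm'.2, Or.inr hb, hmm, hm.1.symm, hm'.1.symm⟩
    exact e2 _ _ _ _ _ _ h1 (e1 _ _ _ (hf1 m hm.2 m' hm'.2 hmm))
  have hR : ∀ a ∈ l.supp, ∀ b ∈ r.supp, ∀ b' ∈ r.supp, H.Adj a b → H.Adj a b' →
      φ a b + f1 a + f2 b = φ a b' + f1 a + f2 b' := by
    intro a ha b hb b' hb' hab hab'
    refine t5_prop (hcr a ha) (fun x => φ a x + f1 a + f2 x) ?_ b ⟨hab, hb⟩ b' ⟨hab', hb'⟩
    intro m hm m' hm' hmm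
    have h1 := hφ a m m' ⟨Or.inl ha, Or.inr hm.2, Or.inr hm'.2, hm.1, hm'.1, hmm⟩
    exact e5 _ _ _ _ _ _ h1 (e1 _ _ _ (hf2 m hm.2 m' hm'.2 hmm))
  have hk : ∀ a ∈ l.supp, ∀ b ∈ r.supp, H.Adj a b →
      φ a b + f1 a + f2 b = φ a0 b0 + f1 a0 + f2 b0 := by
    intro a ha b hb hab
    have h1 := hbi a ha b hb a0 ha0 b0 hb0 hab h0
    rw [hR a ha b hb b0 hb0 hab h1, hL a ha a0 ha0 b0 hb0 h1 h0]
  refine ⟨fun x => if x ∈ l.supp then f1 x else f2 x + (φ a0 b0 + f1 a0 + f2 b0), ?_⟩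
  rintro a (ha | ha) b (hb | hb) hab
  · simp only [if_pos ha, if_pos hb]
    exact hf1 a ha b hb hab
  · simp only [if_pos ha, if_neg (hdis b hb)]
    exact e3 _ _ _ _ (hk a ha b hb hab)
  · simp only [if_neg (hdis a ha), if_pos hb]
    rw [hs a b, add_comm]
    exact e3 _ _ _ _ (hk b hb a ha hab.symm)
  · simp only [if_neg (hdis a ha), if_neg (hdis b hb)]
    rw [hf2 a ha b hb hab]
    exact e4 _ _ _

theorem Zp_supp {t : DT V} (ht : Valid H E t) (hE : t.supp ⊆ E) : Zp H t.supp := by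
  induction t with
  | leaf v =>
    intro φ hs hφ
    refine ⟨fun _ => 0, ?_⟩
    intro a ha b hb hab
    have h1 : a = v := ha
    have h2 : b = v := hb
    rw [h1, h2] at hab
    exact absurd hab (H.loopless.irrefl v)
  | node l r ihl ihr =>
    obtain ⟨h1, h2, h3, h4⟩ := ht
    have hEl : l.supp ⊆ E := fun x hx => hE (Or.inl hx)
    have hEr : r.supp ⊆ E := fun x hx => hE (Or.inr hx)
    refine t5_node (ihl h3 hEl) (ihr h4 hEr) h1 (fun b hb => ?_) (fun a ha => ?_)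
    · exact TC_conn h3 hEl (TC_nb h3 (hEr hb) (fun h => Set.disjoint_left.1 h1.1 h hb))
    · exact TC_conn h4 hEr (TC_nb h4 (hEl ha) (fun h => Set.disjoint_left.1 h1.1 ha h))

theorem Zp_of_dec {C : Set V} (h : Dec H E C) (hC : C ⊆ E) : Zp H C := by
  obtain ⟨t, rfl, ht⟩ := h
  exact Zp_supp ht hC

theorem Zp_cone {S : Set V} {y : V} (hy : y ∈ S) (h : ∀ d ∈ S, d ≠ y → H.Adj y d) : Zp H S := by
  classical
  intro φ hs hφ
  have e1 : ∀ p q r : ZMod 2, p + q + r = 0 → q = p + r := by decide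
  refine ⟨fun x => if x = y then 0 else φ y x, ?_⟩
  intro a ha b hb hab
  by_cases h1 : a = y
  · have h2 : b ≠ y := fun h2 => by
      rw [h1, h2] at hab
      exact H.loopless.irrefl y hab
    simp only [if_pos h1, if_neg h2]
    rw [h1, zero_add]
  · by_cases h2 : b = y
    · simp only [if_neg h1, if_pos h2]
      rw [h2, add_zero, hs]
    · simp only [if_neg h1, if_neg h2]
      exact e1 _ _ _ (hφ y a b ⟨hy, ha, hb, h a ha h1, h b hb h2, hab⟩)

end Pool.Agent.H8.CR
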