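import Pool.Agent.H8.CR.Crit4
import Pool.Agent.H8.CR.Tree5
import Pool.Agent.H8.CR.Tree6

/-!
# Modules of links are coneable

* `comp_sub` (overlapping modules): `F` pure on `X`, `y ∈ X`, `D ⊆ X ∩ N(y)` a module of `H[N(y) ∩ X]`
  (`hmod`), `D` connected in the complement of `H`, `d ∈ D`. If `D ⊄ Y := Cp F y d` then `Y ⊆ D`.
  Suppose `Y ⊄ D`. Choose `z ∈ D \ Y`, `x ∈ Y \ D`. `Y` is a module of `H[N(y) ∩ X]` (`Cp_mod`) and
  connected, `Y ⊆ X ∩ N(y)`.
  (i) If some `x ∈ Y \ D` is adjacent to some `z ∈ D \ Y`: `x` is adjacent to all of `D` (`hmod`, as `x ~ y`).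
  Every `z' ∈ D \ Y` is adjacent to `x ∈ Y`, hence to all of `Y`. So `D \ Y` is complete to `D ∩ Y`, both
  are nonempty: contradiction to `CoConn H D`.
  (ii) Otherwise no `x ∈ Y \ D` is adjacent to any element of `D` (by `hmod` it would be adjacent to
  `z ∈ D \ Y`). So there is no edge between `Y \ D` and `Y ∩ D ∋ d`: contradiction to `Conn H Y`.
* `cone_union`: `t` valid with ambient set `supp t`, `y ∈ supp t`, `D ⊆ supp t ∩ N(y)` nonempty, and
  `Cp (al H t) y d ⊆ D` for all `d ∈ D`. Then `Dec H (insert y D) (insert y D)`. Let `α = al H t`,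
  `Y = insert y D`, `α' = Rs α Y`. Apply `crit` with `X = E = Y`: pure, full by restriction; connected and
  `Zp` because it is a cone (`Zp_cone`). Let `x, h ∈ Y` be adjacent. Show `Zp H (Cp α' x h)`.
  - If `y ∈ Cp α' x h`: all other elements are in `Y`, different from `y`, hence in `D`, adjacent to `y`:
    `Zp_cone`.
  - If `x = y`: `Cp α y h ⊆ D ⊆ Y`, so `Cp α' y h = Cp α y h` (`Cp_restrict_of_sub`), which is closed and
    connected for `α`: `Zp` by `dec_of_closed` and `Zp_of_dec`.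
  - Otherwise `x, h ∈ D`, `y ∉ Cp α' x h`. The triangle `x, h, y` is resolved by `α`. `α h y x` would give
    `y ∈ Cp α' x h`. If `α x h y`: `h ∈ Cp α y x =: B ⊆ D`, `B` is closed, `x, h ∈ B`, so
    `Cp α x h ⊆ B ⊆ D ⊆ Y`, and `Cp α' x h = Cp α x h`, `Zp` as before. If `α x y h`: `Cp_class`
    gives `Cp α x h = Cp α y h ⊆ D`, same conclusion.
* `cone`: `Dec H X X`, `X` finite, `y ∈ X`, `D ⊆ X` nonempty, contained in `N(y)`, a module of
  `H[N(y) ∩ X]`, `CoConn H D`. Then `Dec H (insert y D) (insert y D)`. Strong induction on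
  `X.ncard`. Take a tree `t` with support `X`, valid with ambient `X`, `α = al H t`. If for some `d ∈ D`
  `D ⊆ Y := Cp α y d` and `D ≠ Y`: `Y` is connected, so there is `s ∈ Y \ D` adjacent to an element of
  `D`, hence to all of `D` (`hmod`). `Dec H X Y` by `dec_of_closed`, so `Dec H Y Y`; `Y ⊆ X`, `y ∉ Y`.
  `D` is a module of `H[N(s) ∩ Y]`. By induction `Dec H (insert s D) (insert s D)`; `dec_swap`.
  Otherwise for every `d ∈ D`: `Cp α y d ⊆ D` (if `D ⊆ Cp α y d` then `D = Cp α y d`; else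
  `comp_sub`), so `cone_union` applies.
-/

namespace Pool.Agent.H8.CR

open Relation

variable {V : Type*} {H : SimpleGraph V} {X : Set V} {F : V → V → V → Prop}

theorem comp_sub (hF : Pure H X F) {y : V} (hy : y ∈ X) {D : Set V} (hDX : D ⊆ X)
    (hyD : ∀ d ∈ D, H.Adj y d)
    (hmod : ∀ t ∈ X, H.Adj y t → t ∉ D → ∀ p ∈ D, ∀ q ∈ D, H.Adj t p → H.Adj t q)
    (hco : CoConn H D) {d : V} (hd : d ∈ D) (hn : ¬ D ⊆ Cp F y d) : Cp F y d ⊆ D := by
  have hdX := hDX hd
  have hyd := hyD d hd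
  by_contra hcon
  obtain ⟨x0, hx0, hx0D⟩ := Set.not_subset.1 hcon
  obtain ⟨z0, hz0, hz0Y⟩ := Set.not_subset.1 hn
  by_cases hi : ∃ x z, x ∈ Cp F y d ∧ x ∉ D ∧ z ∈ D ∧ z ∉ Cp F y d ∧ H.Adj x z
  · obtain ⟨x, z, hx, hxD, hz, hzY, hxz⟩ := hi
    have hxX := Cp_sub hF hdX hyd hx
    obtain ⟨a', b', ⟨ha', hb', hab⟩, haY, hbY⟩ :=
      Crit2_exit (P := fun u => u ∈ Cp F y d) (hco d hd z hz) (Cp_self F y d) hzY
    have h1 : H.Adj x b' := hmod x hxX.1 hxX.2 hxD z hz b' hb' hxz
    have h2 : H.Adj b' a' := Cp_mod hF hy hdX hyd (hDX hb') (hyD b' hb') hbY hx haY h1.symm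
    exact hab h2.symm
  · push Not at hi
    obtain ⟨a', b', ⟨hab, haY, hbY⟩, haD, hbD⟩ :=
      Crit2_exit (P := fun u => u ∈ D) (Cp_conn hF y d d (Cp_self F y d) x0 hx0) hd hx0D
    have hbX := Cp_sub hF hdX hyd hbY
    have h1 : H.Adj b' z0 := hmod b' hbX.1 hbX.2 hbD a' haD z0 hz0 hab.symm
    exact hi b' z0 hbY hbD hz0 hz0Y h1

theorem cone_union {t : DT V} (ht : Valid H t.supp t) {y : V} {D : Set V} (hy : y ∈ t.supp)
    (hD : D ⊆ t.supp) (hyD : ∀ d ∈ D, H.Adj y d) (hne : D.Nonempty)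
    (hu : ∀ d ∈ D, Cp (al H t) y d ⊆ D) : Dec H (insert y D) (insert y D) := by
  have hα : Pure H t.supp (al H t) := al_pure ht le_rfl
  have hαf : Full H t.supp (al H t) := al_full t H
  have hYX : insert y D ⊆ t.supp := Set.insert_subset hy hD
  have hyY : y ∈ insert y D := Set.mem_insert _ _
  have hcone : ∀ d ∈ insert y D, d ≠ y → H.Adj y d := by
    rintro d (rfl | hd) hne'
    · exact absurd rfl hne'
    · exact hyD d hd
  have hzp : ∀ x ∈ t.supp, ∀ h ∈ t.supp, H.Adj x h → Zp H (Cp (al H t) x h) := by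
    intro x hx h hh hxh
    exact Zp_of_dec (dec_of_closed ht le_rfl ⟨h, Cp_self _ _ _⟩ (Cp_conn hα x h)
      (Cp_closed hα hx hh hxh)) fun u hu => (Cp_sub hα hh hxh hu).1
  have hP' : Pure H (insert y D) (Rs (al H t) (insert y D)) := hα.restrict hYX
  have hred : ∀ x ∈ insert y D, ∀ h ∈ insert y D, H.Adj x h →
      Cp (al H t) x h ⊆ insert y D → Zp H (Cp (Rs (al H t) (insert y D)) x h) := by
    intro x hx h hh hxh hsub
    rw [Cp_restrict_of_sub hx hsub]
    exact hzp x (hYX hx) h (hYX hh) hxh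
  have hG : Good0 H (insert y D) (insert y D) (Rs (al H t) (insert y D)) :=
    { pure := hP'
      full := hαf.restrict hYX
      conn := by
        have hto : ∀ a ∈ insert y D, Rch H (insert y D) y a := by
          intro a ha
          by_cases hay : a = y
          · rw [hay]
            exact ReflTransGen.refl
          · exact ReflTransGen.single ⟨hcone a ha hay, hyY, ha⟩
        intro a ha b hb
        exact (Rch_symm (hto a ha)).trans (hto b hb)
      ne := ⟨y, hyY⟩
      nb := fun u hu hu' => absurd hu hu' }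
  obtain ⟨t', ht', hv', -⟩ := crit ((supp_finite t).subset hYX) hG (Zp_cone hyY hcone) (by
    intro x hx h hh hxh
    by_cases hyc : y ∈ Cp (Rs (al H t) (insert y D)) x h
    · refine Zp_cone hyc fun d hd hdy => hcone d ?_ hdy
      exact (Cp_sub hP' hh hxh hd).1
    · have hhy : h ≠ y := by
        rintro rfl
        exact hyc (Cp_self _ _ _)
      have hhD : h ∈ D := (Set.mem_insert_iff.1 hh).resolve_left hhy
      by_cases hxy : x = y
      · subst hxy
        exact hred x hx h hh hxh ((hu h hhD).trans (Set.subset_insert _ _))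
      · have hxD : x ∈ D := (Set.mem_insert_iff.1 hx).resolve_left hxy
        have hyx := hyD x hxD
        have hyh := hyD h hhD
        refine hred x hx h hh hxh ?_
        rcases hαf x h y ⟨hYX hx, hYX hh, hy, hxh, hyx.symm, hyh.symm⟩ with h1 | h1 | h1
        · have hB : Closed H t.supp (al H t) (Cp (al H t) y x) := Cp_closed hα hy (hYX hx) hyx
          have h2 : h ∈ Cp (al H t) y x := ReflTransGen.single h1
          exact (closed_Cp hα hB (Cp_self _ _ _) h2 hxh).trans
            ((hu x hxD).trans (Set.subset_insert _ _))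
        · rw [Cp_class hα h1]
          exact (hu h hhD).trans (Set.subset_insert _ _)
        · exact absurd (ReflTransGen.single ⟨h1, hh, hyY, hx⟩) hyc)
  exact ⟨t', ht', hv'⟩

theorem cone (hX : X.Finite) (hD : Dec H X X) {y : V} (hy : y ∈ X) {D : Set V} (hDX : D ⊆ X)
    (hne : D.Nonempty) (hyD : ∀ d ∈ D, H.Adj y d)
    (hmod : ∀ t ∈ X, H.Adj y t → t ∉ D → ∀ p ∈ D, ∀ q ∈ D, H.Adj t p → H.Adj t q)
    (hco : CoConn H D) : Dec H (insert y D) (insert y D) := by
  suffices hmain : ∀ (n : ℕ) (X : Set V) (y : V), X.Finite → X.ncard = n → Dec H X X → y ∈ X →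
      D ⊆ X → (∀ d ∈ D, H.Adj y d) →
      (∀ t ∈ X, H.Adj y t → t ∉ D → ∀ p ∈ D, ∀ q ∈ D, H.Adj t p → H.Adj t q) →
      Dec H (insert y D) (insert y D) from
    hmain _ X y hX rfl hD hy hDX hyD hmod
  intro n
  induction n using Nat.strong_induction_on with
  | _ n ih =>
    intro X y hX hn hD hy hDX hyD hmod
    obtain ⟨t, rfl, ht⟩ := hD
    have hα : Pure H t.supp (al H t) := al_pure ht le_rfl
    by_cases hex : ∃ d ∈ D, D ⊆ Cp (al H t) y d ∧ D ≠ Cp (al H t) y d
    · obtain ⟨d, hd, hDY, hDne⟩ := hex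
      have hdX := hDX hd
      have hyd := hyD d hd
      have hYX : ∀ u ∈ Cp (al H t) y d, u ∈ t.supp ∧ H.Adj y u := fun u hu =>
        Cp_sub hα hdX hyd hu
      have hx0 : ∃ x0 ∈ Cp (al H t) y d, x0 ∉ D := by
        by_contra hc
        push Not at hc
        exact hDne (Set.Subset.antisymm hDY hc)
      obtain ⟨x0, hx0, hx0D⟩ := hx0
      obtain ⟨a', s, ⟨has, haY, hsY⟩, haD, hsD⟩ :=
        Crit2_exit (P := fun u => u ∈ D) (Cp_conn hα y d d (Cp_self _ y d) x0 hx0) hd hx0D
      have hsD' : ∀ q ∈ D, H.Adj s q := fun q hq =>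
        hmod s (hYX s hsY).1 (hYX s hsY).2 hsD a' haD q hq has.symm
      have hyY : y ∉ Cp (al H t) y d := fun h => (hYX y h).2.ne rfl
      have hsub : Cp (al H t) y d ⊆ t.supp := fun u hu => (hYX u hu).1
      have hdec : Dec H (Cp (al H t) y d) (Cp (al H t) y d) :=
        dec_mono (dec_of_closed ht le_rfl ⟨d, Cp_self _ _ _⟩ (Cp_conn hα y d)
          (Cp_closed hα hy hdX hyd)) hsub
      have hlt : (Cp (al H t) y d).ncard < n := by
        rw [← hn]
        exact Set.ncard_lt_ncard ⟨hsub, fun h => hyY (h hy)⟩ hX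
      have h1 := ih _ hlt (Cp (al H t) y d) s (hX.subset hsub) rfl hdec hsY hDY hsD'
        (fun u hu _ huD p hp q hq hup => hmod u (hYX u hu).1 (hYX u hu).2 huD p hp q hq hup)
      exact dec_swap hsD (fun h => (hyD y h).ne rfl) hsD' hyD h1
    · push Not at hex
      refine cone_union ht hy hDX hyD hne fun d hd => ?_
      by_cases h : D ⊆ Cp (al H t) y d
      · exact (hex d hd h).symm.subset
      · exact comp_sub hα hy hDX hyD hmod hco hd h

end Pool.Agent.H8.CR
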