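import Pool.Agent.H8.CR.Comp3
import Pool.Agent.H8.CR.Tree3

/-!
# One cut: the two sides inherit everything

Let `CutD H X F C1 C2 a b`, `F` pure on `X`, `A = Cp F b a ⊆ C1`, `B = Cp F a b ⊆ C2`; the edges
between `C1` and `C2` are exactly the pairs in `A × B` (by `Cp_biclique` all these pairs are edges).

* `CutD.symm`.
* `CutD.edge`: `x ∈ A`, `y ∈ B` ⇒ `x ~ y`, `Cp F y x = A`, `Cp F x y = B` (`Cp_biclique`).
* `CutD.closed`: `C1` is closed: `p, q ∈ C1` adjacent, `t ∈ C2` adjacent to both: `p, q ∈ A`,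
  `t ∈ B`, `Cp F t p = A ∋ q`, so `F p q t` by `Cp_adj`.
* `conn_side`: general: `S ⊆ X` connected set, `C1 ⊆ V`, `A ⊆ S ∩ C1` connected, every edge between
  `S ∩ C1` and `S \ C1` has its end in `C1` inside `A`. Then `S ∩ C1` is connected. Proof: along a path
  in `S` that starts at `x ∈ S ∩ C1`, the invariant is: the current vertex `z` is in `C1` and reachable
  from `x` inside `S ∩ C1`, or `z ∉ C1` and some element of `A` is reachable from `x` inside `S ∩ C1`.
* `CutD.good`: `Good0 H E X F ⇒ Good0 H E C1 (Rs F C1)`. Pure, full: restriction. Connected: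
  `conn_side` with `S = X` (`A` is connected by `Cp_conn`). Let `u ∈ E \ C1`.
  If `u ∈ C2`: `N(u) ∩ C1` is `A` if `u ∈ B` and `∅` otherwise (`cr`, `CutD.edge`); `A` is connected and
  closed (`Cp_closed`, `closed_restrict`).
  If `u ∉ X`: `S = N(u) ∩ X` is connected and closed, `N(u) ∩ C1 = S ∩ C1` is closed in `C1` by
  `closed_restrict`. Connected: if `S ∩ C1 = ∅` or `S ⊆ C1` clear. Otherwise there is an edge in `S`
  between `x ∈ C1` and `y ∉ C1`, so `x ∈ A`, `y ∈ B`, and `closed_Cp` gives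
  `A = Cp F y x ⊆ S`. Then `conn_side`.
-/

namespace Pool.Agent.H8.CR

open Relation

variable {V : Type*} {H : SimpleGraph V} {E X : Set V} {F : V → V → V → Prop} {C1 C2 : Set V}
  {a b : V}

theorem CutD.symm (h : CutD H X F C1 C2 a b) : CutD H X F C2 C1 b a where
  un := by rw [Set.union_comm, h.un]
  dj := h.dj.symm
  ha := h.hb
  hb := h.ha
  ab := h.ab.symm
  hA := h.hB
  hB := h.hA
  cr := fun x hx y hy hxy => by
    have := h.cr y hy x hx hxy.symm
    exact ⟨this.2, this.1⟩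

theorem CutD.crit1_sub1 (h : CutD H X F C1 C2 a b) : C1 ⊆ X := by
  rw [← h.un]; exact Set.subset_union_left

theorem CutD.crit1_sub2 (h : CutD H X F C1 C2 a b) : C2 ⊆ X := by
  rw [← h.un]; exact Set.subset_union_right

theorem CutD.crit1_mem2 (h : CutD H X F C1 C2 a b) {t : V} (ht : t ∈ X) (ht' : t ∉ C1) :
    t ∈ C2 := by
  rw [← h.un] at ht
  exact ht.resolve_left ht'

theorem CutD.edge (hF : Pure H X F) (h : CutD H X F C1 C2 a b) {x y : V} (hx : x ∈ Cp F b a)
    (hy : y ∈ Cp F a b) : H.Adj x y ∧ Cp F y x = Cp F b a ∧ Cp F x y = Cp F a b :=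
  Cp_biclique hF (h.crit1_sub1 h.ha) (h.crit1_sub2 h.hb) h.ab hx hy

theorem CutD.closed (hF : Pure H X F) (h : CutD H X F C1 C2 a b) : Closed H X F C1 := by
  refine ⟨h.crit1_sub1, ?_⟩
  intro p q t hp hq hpq ht htn htp htq
  have ht2 := h.crit1_mem2 ht htn
  have h1 := h.cr p hp t ht2 htp.symm
  have h2 := h.cr q hq t ht2 htq.symm
  have h3 := (h.edge hF h1.1 h1.2).2.1
  refine Cp_adj hF (y := t) (v := p) ht (h.crit1_sub1 hp) htp (Cp_self _ _ _) ?_ hpq
  rw [h3]
  exact h2.1

theorem conn_side {S C A : Set V} (hS : Conn H S) (hA : Conn H A) (hAS : A ⊆ S ∩ C)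
    (hc : ∀ x ∈ S ∩ C, ∀ y ∈ S, y ∉ C → H.Adj x y → x ∈ A) : Conn H (S ∩ C) := by
  intro x hx y hy
  have key : ∀ z, Rch H S x z → (z ∈ C → Rch H (S ∩ C) x z) ∧
      (z ∉ C → ∃ w ∈ A, Rch H (S ∩ C) x w) := by
    intro z hz
    induction hz with
    | refl => exact ⟨fun _ => ReflTransGen.refl, fun h => absurd hx.2 h⟩
    | @tail z z' _ hstep ih =>
      obtain ⟨hadj, hzS, hz'S⟩ := hstep
      constructor
      · intro hz'
        by_cases hz : z ∈ C
        · exact (ih.1 hz).tail ⟨hadj, ⟨hzS, hz⟩, ⟨hz'S, hz'⟩⟩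
        · obtain ⟨w, hw, hxw⟩ := ih.2 hz
          have hz'A := hc z' ⟨hz'S, hz'⟩ z hzS hz hadj.symm
          exact hxw.trans (Rch_mono hAS (hA w hw z' hz'A))
      · intro hz'
        by_cases hz : z ∈ C
        · exact ⟨z, hc z ⟨hzS, hz⟩ z' hz'S hz' hadj, ih.1 hz⟩
        · exact ih.2 hz
  exact (key y (hS x hx.1 y hy.1)).1 hy.2

theorem CutD.good (hG : Good0 H E X F) (h : CutD H X F C1 C2 a b) :
    Good0 H E C1 (Rs F C1) where
  pure := hG.pure.restrict h.crit1_sub1
  full := hG.full.restrict h.crit1_sub1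
  conn := by
    have h1 := conn_side (A := Cp F b a) hG.conn (Cp_conn hG.pure b a)
      (Set.subset_inter (h.hA.trans h.crit1_sub1) h.hA) (C := C1)
      (fun x hx y hy hyn hxy => (h.cr x hx.2 y (h.crit1_mem2 hy hyn) hxy).1)
    rwa [Set.inter_eq_self_of_subset_right h.crit1_sub1] at h1
  ne := ⟨a, h.ha⟩
  nb := by
    intro u hu hu1
    by_cases huX : u ∈ X
    · have hu2 := h.crit1_mem2 huX hu1
      by_cases hex : ∃ x, x ∈ H.neighborSet u ∩ C1
      · obtain ⟨x, hx, hx1⟩ := hex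
        have huB := (h.cr x hx1 u hu2 (SimpleGraph.Adj.symm hx)).2
        have heq : H.neighborSet u ∩ C1 = Cp F b a := by
          ext z
          constructor
          · rintro ⟨hz, hz1⟩
            exact (h.cr z hz1 u hu2 (SimpleGraph.Adj.symm hz)).1
          · intro hz
            exact ⟨(h.edge hG.pure hz huB).1.symm, h.hA hz⟩
        rw [heq]
        refine ⟨Cp_conn hG.pure b a, ?_⟩
        have h2 := closed_restrict (Cp_closed hG.pure (h.crit1_sub2 h.hb) (h.crit1_sub1 h.ha)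
          h.ab.symm) h.crit1_sub1
        rwa [Set.inter_eq_self_of_subset_left h.hA] at h2
      · have heq : H.neighborSet u ∩ C1 = ∅ := by
          rw [Set.eq_empty_iff_forall_notMem]
          exact fun x hx => hex ⟨x, hx⟩
        rw [heq]
        exact ⟨fun x hx => absurd hx (Set.notMem_empty x), Set.empty_subset _,
          fun p q t hp => absurd hp (Set.notMem_empty p)⟩
    · obtain ⟨hc, hcl⟩ := hG.nb u hu huX
      have heq : H.neighborSet u ∩ C1 = (H.neighborSet u ∩ X) ∩ C1 := by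
        rw [Set.inter_assoc, Set.inter_eq_self_of_subset_right h.crit1_sub1]
      rw [heq]
      refine ⟨?_, closed_restrict hcl h.crit1_sub1⟩
      by_cases hex : ∃ x ∈ (H.neighborSet u ∩ X) ∩ C1, ∃ y ∈ H.neighborSet u ∩ X,
          y ∉ C1 ∧ H.Adj x y
      · obtain ⟨x, hx, y, hy, hyn, hxy⟩ := hex
        have h1 := h.cr x hx.2 y (h.crit1_mem2 hy.2 hyn) hxy
        have h2 := closed_Cp hG.pure hcl hy hx.1 hxy.symm
        rw [(h.edge hG.pure h1.1 h1.2).2.1] at h2
        exact conn_side hc (Cp_conn hG.pure b a) (Set.subset_inter h2 h.hA)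
          (fun x hx y hy hyn hxy => (h.cr x hx.2 y (h.crit1_mem2 hy.2 hyn) hxy).1)
      · refine conn_side (A := ∅) hc (fun x hx => absurd hx (Set.notMem_empty x))
          (Set.empty_subset _) ?_
        intro x hx y hy hyn hxy
        exact absurd ⟨x, hx, y, hy, hyn, hxy⟩ hex

end Pool.Agent.H8.CR
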