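import Pool.Agent.H8.CR.Crit1

/-!
# One cut: assembling the tree, and the induction principle

* `CutD.tree`: valid trees `t1`, `t2` for the two sides give the valid tree `node t1 t2` for `X`.
  `Cut`: disjoint, edge `a b`, completeness: cross edges are exactly `A × B` (`cr`, `CutD.edge`).
  Ambient condition for `u ∈ E`, `u ∉ C1 ∪ C2 = X`: if `N(u)` meets `C1` and `C2`, then, as
  `N(u) ∩ X` is connected, it contains a cross edge `x y`, `x ∈ A`, `y ∈ B`; it is closed, so by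
  `closed_Cp` it contains `Cp F x y = B` and `Cp F y x = A`; all cross edges have both ends in
  `A ∪ B`: third alternative of `NC`.
  `Sp`: let `F u v w` (a triangle in `X`). All in `C1` or all in `C2`: hypotheses. `u, v ∈ C1`,
  `w ∈ C2` (or reversed): clear. `u, w ∈ C1`, `v ∈ C2`: then `u, w ∈ A`, `v ∈ B`,
  `w ∈ A = Cp F v u`, so `F u w v` by `Cp_adj`, contradicting `F u v w`. Other cases similar
  (use `symm`).
* `master`: strong induction on `X.ncard` (finite). If `X` has no edge, then `X` is a singleton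
  (connected, nonempty): the leaf; `F` has no facts. Otherwise use `hcut`, `CutD.good` for both sides
  (`CutD.symm`), the induction hypothesis for `C1`, `C2` (smaller: `b ∉ C1`, `a ∉ C2`) and `CutD.tree`.
-/

namespace Pool.Agent.H8.CR

open Relation

variable {V : Type*} {H : SimpleGraph V} {E X : Set V} {F : V → V → V → Prop} {C1 C2 : Set V}
  {a b : V}

theorem Crit2_exit {r : V → V → Prop} {P : V → Prop} {x y : V} (h : ReflTransGen r x y)
    (hx : P x) (hy : ¬ P y) : ∃ x' y', r x' y' ∧ P x' ∧ ¬ P y' := by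
  induction h with
  | refl => exact absurd hx hy
  | tail _ h2 ih =>
    rename_i c d _
    by_cases hc : P c
    · exact ⟨c, d, h2, hc, hy⟩
    · exact ih hc

theorem Crit2_no (hF : Pure H X F) (h : CutD H X F C1 C2 a b) {u v w : V} (hf : F u v w)
    (hu : u ∈ C1) (hw : w ∈ C1) (hv : v ∈ C2) : False := by
  obtain ⟨huX, hvX, hwX, huv, huw, hvw⟩ := hF.tri _ _ _ hf
  obtain ⟨hu1, hv1⟩ := h.cr u hu v hv huv
  obtain ⟨hw1, -⟩ := h.cr w hw v hv hvw.symm
  obtain ⟨-, h2, -⟩ := h.edge hF hu1 hv1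
  have h3 : F u w v := by
    refine Cp_adj hF hvX huX huv.symm (Cp_self F v u) ?_ huw
    rw [h2]
    exact hw1
  exact hF.cons _ _ _ hf h3

theorem CutD.tree (hG : Good0 H E X F) (h : CutD H X F C1 C2 a b) {t1 t2 : DT V}
    (h1 : t1.supp = C1) (h2 : t2.supp = C2) (hv1 : Valid H E t1) (hv2 : Valid H E t2)
    (hs1 : ∀ u v w, Rs F C1 u v w → Sp t1 u v w) (hs2 : ∀ u v w, Rs F C2 u v w → Sp t2 u v w) :
    (DT.node t1 t2).supp = X ∧ Valid H E (.node t1 t2) ∧
      ∀ u v w, F u v w → Sp (.node t1 t2) u v w := by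
  have hF := hG.pure
  have hX : ∀ x, x ∈ X → x ∈ C1 ∨ x ∈ C2 := by
    intro x hx
    rw [← h.un] at hx
    exact hx
  have hdis : ∀ x, x ∈ C1 → x ∈ C2 → False := fun x h1 h2 =>
    Set.disjoint_left.mp h.dj h1 h2
  refine ⟨?_, ⟨⟨?_, ?_, ?_⟩, ?_, hv1, hv2⟩, ?_⟩
  · show t1.supp ∪ t2.supp = X
    rw [h1, h2, h.un]
  · rw [h1, h2]
    exact h.dj
  · rw [h1, h2]
    exact ⟨a, h.ha, b, h.hb, h.ab⟩
  · rw [h1, h2]
    intro p hp q hq p' hp' q' hq' hpq hpq'
    exact (h.edge hF (h.cr p hp q hq hpq).1 (h.cr p' hp' q' hq' hpq').2).1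
  · rw [h1, h2]
    intro u hu hu1 hu2
    have huX : u ∉ X := fun hc => (hX u hc).elim hu1 hu2
    by_cases ha : ∃ x ∈ C1, x ∈ H.neighborSet u
    · by_cases hb : ∃ y ∈ C2, y ∈ H.neighborSet u
      · obtain ⟨x, hx, hxu⟩ := ha
        obtain ⟨y, hy, hyu⟩ := hb
        obtain ⟨hcn, hcl⟩ := hG.nb u hu huX
        have hxX : x ∈ X := by rw [← h.un]; exact Or.inl hx
        have hyX : y ∈ X := by rw [← h.un]; exact Or.inr hy
        obtain ⟨x', y', hr, hx', hy'⟩ := Crit2_exit (P := fun z => z ∈ C1)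
          (hcn x ⟨hxu, hxX⟩ y ⟨hyu, hyX⟩) hx (fun hc => hdis y hc hy)
        obtain ⟨hadj, hxS, hyS⟩ := hr
        have hy2 : y' ∈ C2 := (hX y' hyS.2).resolve_left hy'
        obtain ⟨hxA, hyB⟩ := h.cr x' hx' y' hy2 hadj
        obtain ⟨-, e1, e2⟩ := h.edge hF hxA hyB
        have hA := closed_Cp hF hcl hyS hxS hadj.symm
        have hB := closed_Cp hF hcl hxS hyS hadj
        rw [e1] at hA
        rw [e2] at hB
        refine Or.inr (Or.inr fun p hp q hq hpq => ?_)
        obtain ⟨h3, h4⟩ := h.cr p hp q hq hpq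
        exact ⟨(hA h3).1, (hB h4).1⟩
      · refine Or.inr (Or.inl fun y hy hc => hb ⟨y, hy, hc⟩)
    · exact Or.inl fun x hx hc => ha ⟨x, hx, hc⟩
  · intro u v w hf
    have ht := hF.tri _ _ _ hf
    show (u ∈ t1.supp ∧ v ∈ t1.supp ∧ w ∈ t2.supp) ∨
      (u ∈ t2.supp ∧ v ∈ t2.supp ∧ w ∈ t1.supp) ∨ Sp t1 u v w ∨ Sp t2 u v w
    rw [h1, h2]
    rcases hX u ht.1 with hu | hu
    · rcases hX v ht.2.1 with hv | hv
      · rcases hX w ht.2.2.1 with hw | hw
        · exact Or.inr (Or.inr (Or.inl (hs1 u v w ⟨hf, hu, hv, hw⟩)))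
        · exact Or.inl ⟨hu, hv, hw⟩
      · rcases hX w ht.2.2.1 with hw | hw
        · exact (Crit2_no hF h hf hu hw hv).elim
        · exact (Crit2_no hF h.symm (hF.symm _ _ _ hf) hv hw hu).elim
    · rcases hX v ht.2.1 with hv | hv
      · rcases hX w ht.2.2.1 with hw | hw
        · exact (Crit2_no hF h (hF.symm _ _ _ hf) hv hw hu).elim
        · exact (Crit2_no hF h.symm hf hu hw hv).elim
      · rcases hX w ht.2.2.1 with hw | hw
        · exact Or.inr (Or.inl ⟨hu, hv, hw⟩)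
        · exact Or.inr (Or.inr (Or.inr (hs2 u v w ⟨hf, hu, hv, hw⟩)))

theorem master (H : SimpleGraph V) (E : Set V) (Q : Set V → (V → V → V → Prop) → Prop)
    (hcut : ∀ (X : Set V) (F : V → V → V → Prop), X.Finite → Good0 H E X F → Q X F →
      (∃ a ∈ X, ∃ b ∈ X, H.Adj a b) →
      ∃ C1 C2 a b, CutD H X F C1 C2 a b ∧ Q C1 (Rs F C1) ∧ Q C2 (Rs F C2)) :
    ∀ (X : Set V) (F : V → V → V → Prop), X.Finite → Good0 H E X F → Q X F →
      ∃ t : DT V, t.supp = X ∧ Valid H E t ∧ ∀ u v w, F u v w → Sp t u v w := by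
  have key : ∀ (m : ℕ) (X : Set V) (F : V → V → V → Prop), X.ncard = m → X.Finite →
      Good0 H E X F → Q X F →
      ∃ t : DT V, t.supp = X ∧ Valid H E t ∧ ∀ u v w, F u v w → Sp t u v w := by
    intro m
    induction m using Nat.strong_induction_on with
    | _ m ih =>
      intro X F hm hfin hG hQ
      by_cases he : ∃ a ∈ X, ∃ b ∈ X, H.Adj a b
      · obtain ⟨C1, C2, a, b, hC, hQ1, hQ2⟩ := hcut X F hfin hG hQ he
        have hs1 : C1 ⊆ X := by rw [← hC.un]; exact Set.subset_union_left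
        have hs2 : C2 ⊆ X := by rw [← hC.un]; exact Set.subset_union_right
        have hb1 : b ∉ C1 := fun hc => Set.disjoint_left.mp hC.dj hc hC.hb
        have ha2 : a ∉ C2 := fun hc => Set.disjoint_left.mp hC.dj hC.ha hc
        have hl1 : C1.ncard < m := by
          rw [← hm]
          exact Set.ncard_lt_ncard ⟨hs1, fun hc => hb1 (hc (hs2 hC.hb))⟩ hfin
        have hl2 : C2.ncard < m := by
          rw [← hm]
          exact Set.ncard_lt_ncard ⟨hs2, fun hc => ha2 (hc (hs1 hC.ha))⟩ hfin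
        obtain ⟨t1, e1, v1, s1⟩ := ih _ hl1 C1 (Rs F C1) rfl (hfin.subset hs1) (hC.good hG) hQ1
        obtain ⟨t2, e2, v2, s2⟩ := ih _ hl2 C2 (Rs F C2) rfl (hfin.subset hs2)
          (hC.symm.good hG) hQ2
        exact ⟨.node t1 t2, hC.tree hG e1 e2 v1 v2 s1 s2⟩
      · obtain ⟨v, hv⟩ := hG.ne
        refine ⟨.leaf v, ?_, trivial, ?_⟩
        · show ({v} : Set V) = X
          refine Set.Subset.antisymm (Set.singleton_subset_iff.mpr hv) fun x hx => ?_
          have hr := hG.conn x hx v hv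
          rcases ReflTransGen.cases_head hr with h | ⟨c, ⟨h1, h2, h3⟩, -⟩
          · exact h
          · exact absurd ⟨x, h2, c, h3, h1⟩ he
        · intro u v' w hf
          have ht := hG.pure.tri _ _ _ hf
          exact absurd ⟨u, ht.1, v', ht.2.1, ht.2.2.2.1⟩ he
  intro X F h1 h2 h3
  exact key _ X F rfl h1 h2 h3

end Pool.Agent.H8.CR
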