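import Pool.Agent.H8.CR.Tree3

/-!
# The family of compatible sets of a tree

`Fam H t`: the nonempty subsets of `supp t` compatible with `t` (`t` valid, ambient `E ⊇ supp t`).

* `fam_side`: `S ∈ Fam (node l r)` meeting `l` ⇒ `S ∩ supp l ∈ Fam l`. `fam_lift`: `Fam l ⊆ Fam (node l r)`.
* `fam_cross`: if `S, S' ∈ Fam (node l r)` both meet both sides, then they share an element of `supp l`
  and an element of `supp r` (the ends of a cross edge, which exists by `Cut`).
* `fam_inter`: `S, S' ∈ Fam (node l r)` both meeting `l`: `(S ∩ S').Nonempty` iff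
  `((S ∩ supp l) ∩ (S' ∩ supp l)).Nonempty`. (A common element in `r`: both meet both sides.)
* `fam_cycle`: there is no sequence `f 0, ..., f (m - 1) ∈ Fam t`, `m ≥ 4`, such that for `i < j < m`:
  `(f i ∩ f j).Nonempty ↔ j = i + 1 ∨ (i = 0 ∧ j + 1 = m)`. Induction on `t`. Leaf: `f 0 = f 2 = {v}`.
  Node `l r`: if all `f i` meet `l`: restrict to `l` (`fam_side`, `fam_inter`), induction. Same for `r`.
  Otherwise some `f i` misses `l` (so is contained in `r`) and some `f j` misses `r`; `i ≠ j`. By symmetry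
  (exchange `l` and `r`: `valid_swap`, `TC_swap`) `i < j`. There is `p` with `i < p < j` such that `f p` meets
  both sides: otherwise all `f i, ..., f j` are contained in one side each, consecutive ones intersect,
  so they are on the same side. And there is `q` with `q > j` or `q < i` such that `f q` meets both sides
  (same argument along `j, j + 1, ..., m - 1, 0, ..., i`). `f p ∩ f q` is nonempty (`fam_cross`), but
  `p`, `q` are not consecutive on the cycle.
* `fam_helly`: a nonempty set `Q` of members of `Fam t`, pairwise intersecting, has a common element.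
  Induction on `t`. Leaf clear. Node: if all members meet `l`, restrict to `l`; the restrictions are pairwise
  intersecting (`fam_inter`). Same for `r`. Otherwise one member is contained in `r` and one in `l`; they
  do not intersect.
-/

namespace Pool.Agent.H8.CR

variable {V : Type*} {H : SimpleGraph V} {E : Set V}

/-- The nonempty compatible subsets of the support. -/
def Fam (H : SimpleGraph V) (t : DT V) : Set (Set V) :=
  {S | S.Nonempty ∧ S ⊆ t.supp ∧ TC H S t}

theorem fam_side {l r : DT V} {S : Set V} (hS : S ∈ Fam H (.node l r))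
    (h : (S ∩ l.supp).Nonempty) : S ∩ l.supp ∈ Fam H l :=
  ⟨h, Set.inter_subset_right,
    (TC_congr (S := S) (S' := S ∩ l.supp)
      (fun _ ha => ⟨fun h => ⟨h, ha⟩, fun h => h.1⟩)).1 hS.2.2.2.1⟩

theorem fam_lift {l r : DT V} (hv : Valid H E (.node l r)) {S : Set V} (hS : S ∈ Fam H l) :
    S ∈ Fam H (.node l r) := by
  have hd : ∀ b ∈ r.supp, b ∉ S := fun b hb hbS =>
    Set.disjoint_left.1 hv.1.1 (hS.2.1 hbS) hb
  exact ⟨hS.1, fun x hx => Or.inl (hS.2.1 hx), Or.inr (Or.inl hd), hS.2.2, TC_disj hd⟩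

theorem fam_swap {l r : DT V} {S : Set V} (hS : S ∈ Fam H (.node l r)) :
    S ∈ Fam H (.node r l) :=
  ⟨hS.1, fun _ hx => (hS.2.1 hx).symm, TC_swap hS.2.2⟩

theorem fam_cross {l r : DT V} (hv : Valid H E (.node l r)) {S S' : Set V}
    (hS : S ∈ Fam H (.node l r)) (hS' : S' ∈ Fam H (.node l r))
    (h1 : (S ∩ l.supp).Nonempty) (h2 : (S ∩ r.supp).Nonempty)
    (h3 : (S' ∩ l.supp).Nonempty) (h4 : (S' ∩ r.supp).Nonempty) :
    (∃ x ∈ l.supp, x ∈ S ∧ x ∈ S') ∧ ∃ x ∈ r.supp, x ∈ S ∧ x ∈ S' := by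
  obtain ⟨a, ha, b, hb, hab⟩ := hv.1.2.1
  have key : ∀ T : Set V, T ∈ Fam H (.node l r) → (T ∩ l.supp).Nonempty →
      (T ∩ r.supp).Nonempty → a ∈ T ∧ b ∈ T := by
    rintro T hT ⟨x, hx1, hx2⟩ ⟨y, hy1, hy2⟩
    rcases hT.2.2.1 with h | h | h
    · exact (h x hx2 hx1).elim
    · exact (h y hy2 hy1).elim
    · exact h a ha b hb hab
  have k1 := key S hS h1 h2
  have k2 := key S' hS' h3 h4
  exact ⟨⟨a, ha, k1.1, k2.1⟩, b, hb, k1.2, k2.2⟩

theorem fam_inter {l r : DT V} (hv : Valid H E (.node l r)) {S S' : Set V}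
    (hS : S ∈ Fam H (.node l r)) (hS' : S' ∈ Fam H (.node l r))
    (h1 : (S ∩ l.supp).Nonempty) (h3 : (S' ∩ l.supp).Nonempty) :
    (S ∩ S').Nonempty ↔ ((S ∩ l.supp) ∩ (S' ∩ l.supp)).Nonempty := by
  constructor
  · rintro ⟨x, hx, hx'⟩
    rcases hS.2.1 hx with h | h
    · exact ⟨x, ⟨hx, h⟩, hx', h⟩
    · obtain ⟨⟨y, hy, hyS, hyS'⟩, _⟩ := fam_cross hv hS hS' h1 ⟨x, hx, h⟩ h3 ⟨x, hx', h⟩
      exact ⟨y, ⟨hyS, hy⟩, hyS', hy⟩
  · rintro ⟨x, ⟨hx, _⟩, hx', _⟩
    exact ⟨x, hx, hx'⟩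

/-- Going along intersecting sets from a set that misses `l` to a set that misses `r` one meets a set
that meets both. -/
theorem fam_walk {l r : DT V} {n : ℕ} {g : ℕ → Set V} (hg : ∀ k ≤ n, g k ⊆ (DT.node l r).supp)
    (hc : ∀ k < n, (g k ∩ g (k + 1)).Nonempty) (h0 : ¬ (g 0 ∩ l.supp).Nonempty)
    (hn : ¬ (g n ∩ r.supp).Nonempty) (hne : (g n).Nonempty) :
    ∃ s, 0 < s ∧ s < n ∧ (g s ∩ l.supp).Nonempty ∧ (g s ∩ r.supp).Nonempty := by
  by_contra hcon
  have key : ∀ k, k ≤ n → ¬ (g k ∩ l.supp).Nonempty := by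
    intro k
    induction k with
    | zero => exact fun _ => h0
    | succ k ih =>
      intro hk h
      have ih' := ih (by omega)
      obtain ⟨x, hx, hx'⟩ := hc k (by omega)
      have hxr : x ∈ r.supp := (hg k (by omega) hx).resolve_left fun h => ih' ⟨x, hx, h⟩
      rcases Nat.lt_or_ge (k + 1) n with h' | h'
      · exact hcon ⟨k + 1, by omega, h', h, x, hx', hxr⟩
      · have : k + 1 = n := by omega
        rw [← this] at hn
        exact hn ⟨x, hx', hxr⟩
  obtain ⟨x, hx⟩ := hne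
  rcases hg n le_rfl hx with h | h
  · exact key n le_rfl ⟨x, hx, h⟩
  · exact hn ⟨x, hx, h⟩

theorem fam_cyc_aux {l r : DT V} (hv : Valid H E (.node l r)) {m : ℕ} {f : ℕ → Set V}
    (hf : ∀ i < m, f i ∈ Fam H (.node l r))
    (hi : ∀ i j, i < j → j < m → ((f i ∩ f j).Nonempty ↔ j = i + 1 ∨ (i = 0 ∧ j + 1 = m)))
    {i j : ℕ} (hij : i < j) (hj : j < m) (h1 : ¬ (f i ∩ l.supp).Nonempty)
    (h2 : ¬ (f j ∩ r.supp).Nonempty) : False := by
  have hm : 0 < m := by omega
  have hcons : ∀ a, (f (a % m) ∩ f ((a + 1) % m)).Nonempty := by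
    intro a
    have e : (a + 1) % m = (a % m + 1) % m := by simp [Nat.add_mod]
    have hb := Nat.mod_lt a hm
    rw [e]
    generalize a % m = b at hb ⊢
    rcases Nat.lt_or_ge (b + 1) m with h' | h'
    · rw [Nat.mod_eq_of_lt h']
      exact (hi b (b + 1) (by omega) h').2 (Or.inl rfl)
    · have h3 : b + 1 = m := by omega
      rw [h3, Nat.mod_self]
      rw [Set.inter_comm]
      exact (hi 0 b (by omega) hb).2 (Or.inr ⟨rfl, h3⟩)
  have hsub : ∀ a, f (a % m) ⊆ (DT.node l r).supp := fun a => (hf _ (Nat.mod_lt a hm)).2.1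
  have ei : i % m = i := Nat.mod_eq_of_lt (by omega)
  have ej : j % m = j := Nat.mod_eq_of_lt hj
  obtain ⟨s, hs0, hsn, hs1, hs2⟩ := fam_walk (l := l) (r := r) (n := j - i)
    (g := fun k => f ((i + k) % m))
    (fun k _ => hsub (i + k)) (fun k _ => hcons (i + k)) (by simpa [ei] using h1)
    (by
      have : i + (j - i) = j := by omega
      simpa only [this, ej] using h2)
    (by
      have : i + (j - i) = j := by omega
      simpa only [this, ej] using (hf j hj).1)
  obtain ⟨u, hu0, hun, hu1, hu2⟩ := fam_walk (l := r) (r := l) (n := m - j + i)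
    (g := fun k => f ((j + k) % m))
    (fun k _ => (hsub (j + k)).trans (Set.union_comm _ _).subset) (fun k _ => hcons (j + k))
    (by simpa [ej] using h2)
    (by
      have : (j + (m - j + i)) % m = i := by
        have e : j + (m - j + i) = i + m := by omega
        rw [e, Nat.add_mod_right, ei]
      simpa only [this] using h1)
    (by
      have : (j + (m - j + i)) % m = i := by
        have e : j + (m - j + i) = i + m := by omega
        rw [e, Nat.add_mod_right, ei]
      simpa only [this] using (hf i (by omega)).1)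
  have ep : (i + s) % m = i + s := Nat.mod_eq_of_lt (by omega)
  simp only [ep] at hs1 hs2
  rcases Nat.lt_or_ge (j + u) m with h' | h'
  · simp only [Nat.mod_eq_of_lt h'] at hu1 hu2
    have h3 := fam_cross hv (hf (i + s) (by omega)) (hf (j + u) h') hs1 hs2 hu2 hu1
    obtain ⟨⟨x, _, hx1, hx2⟩, _⟩ := h3
    rcases (hi (i + s) (j + u) (by omega) h').1 ⟨x, hx1, hx2⟩ with h | h <;> omega
  · have e : (j + u) % m = j + u - m := by
      rw [Nat.mod_eq_sub_mod h', Nat.mod_eq_of_lt (by omega)]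
    simp only [e] at hu1 hu2
    have h3 := fam_cross hv (hf (i + s) (by omega)) (hf (j + u - m) (by omega)) hs1 hs2 hu2 hu1
    obtain ⟨⟨x, _, hx1, hx2⟩, _⟩ := h3
    rcases (hi (j + u - m) (i + s) (by omega) (by omega)).1 ⟨x, hx2, hx1⟩ with h | h <;> omega

theorem fam_cycle {t : DT V} (hv : Valid H E t) {m : ℕ} (hm : 4 ≤ m) {f : ℕ → Set V}
    (hf : ∀ i < m, f i ∈ Fam H t)
    (hi : ∀ i j, i < j → j < m → ((f i ∩ f j).Nonempty ↔ j = i + 1 ∨ (i = 0 ∧ j + 1 = m))) :
    False := by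
  induction t generalizing f with
  | leaf v =>
    obtain ⟨x, hx⟩ := (hf 0 (by omega)).1
    obtain ⟨y, hy⟩ := (hf 2 (by omega)).1
    have h1 : x = v := (hf 0 (by omega)).2.1 hx
    have h2 : y = v := (hf 2 (by omega)).2.1 hy
    subst h1 h2
    rcases (hi 0 2 (by omega) (by omega)).1 ⟨y, hx, hy⟩ with h | h <;> omega
  | node l r ihl ihr =>
    have hcomm : ∀ {l r : DT V}, (DT.node l r).supp = (DT.node r l).supp := Set.union_comm _ _
    by_cases hl : ∀ i < m, (f i ∩ l.supp).Nonempty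
    · refine ihl hv.2.2.1 (f := fun i => f i ∩ l.supp) (fun i h => fam_side (hf i h) (hl i h)) ?_
      intro i j hij hj
      rw [← hi i j hij hj]
      exact (fam_inter hv (hf i (by omega)) (hf j hj) (hl i (by omega)) (hl j hj)).symm
    by_cases hr : ∀ i < m, (f i ∩ r.supp).Nonempty
    · refine ihr hv.2.2.2 (f := fun i => f i ∩ r.supp)
        (fun i h => fam_side (fam_swap (hf i h)) (hr i h)) ?_
      intro i j hij hj
      rw [← hi i j hij hj]
      exact (fam_inter (valid_swap hv) (fam_swap (hf i (by omega))) (fam_swap (hf j hj))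
        (hr i (by omega)) (hr j hj)).symm
    push Not at hl hr
    obtain ⟨i, him, hil⟩ := hl
    obtain ⟨j, hjm, hjr⟩ := hr
    have hil' : ¬ (f i ∩ l.supp).Nonempty := Set.not_nonempty_iff_eq_empty.2 hil
    have hjr' : ¬ (f j ∩ r.supp).Nonempty := Set.not_nonempty_iff_eq_empty.2 hjr
    rcases lt_trichotomy i j with h | h | h
    · exact fam_cyc_aux hv hf hi h hjm hil' hjr'
    · subst h
      obtain ⟨x, hx⟩ := (hf i him).1
      rcases (hf i him).2.1 hx with h | h
      · exact hil' ⟨x, hx, h⟩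
      · exact hjr' ⟨x, hx, h⟩
    · exact fam_cyc_aux (valid_swap hv) (fun i h => fam_swap (hf i h)) hi h him hjr' hil'

theorem fam_helly {t : DT V} (hv : Valid H E t) {Q : Set (Set V)} (hQ : Q ⊆ Fam H t)
    (hne : Q.Nonempty) (hp : ∀ S ∈ Q, ∀ S' ∈ Q, (S ∩ S').Nonempty) :
    ∃ v ∈ t.supp, ∀ S ∈ Q, v ∈ S := by
  induction t generalizing Q with
  | leaf v =>
    refine ⟨v, rfl, fun S hS => ?_⟩
    obtain ⟨x, hx⟩ := (hQ hS).1
    have h1 : x = v := (hQ hS).2.1 hx
    rwa [← h1]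
  | node l r ihl ihr =>
    by_cases hl : ∀ S ∈ Q, (S ∩ l.supp).Nonempty
    · obtain ⟨v, hv1, hv2⟩ := ihl hv.2.2.1 (Q := (fun S => S ∩ l.supp) '' Q)
        (by
          rintro _ ⟨S, hS, rfl⟩
          exact fam_side (hQ hS) (hl S hS))
        (hne.image _)
        (by
          rintro _ ⟨S, hS, rfl⟩ _ ⟨S', hS', rfl⟩
          exact (fam_inter hv (hQ hS) (hQ hS') (hl S hS) (hl S' hS')).1 (hp S hS S' hS'))
      exact ⟨v, Or.inl hv1, fun S hS => (hv2 _ ⟨S, hS, rfl⟩).1⟩
    by_cases hr : ∀ S ∈ Q, (S ∩ r.supp).Nonempty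
    · obtain ⟨v, hv1, hv2⟩ := ihr hv.2.2.2 (Q := (fun S => S ∩ r.supp) '' Q)
        (by
          rintro _ ⟨S, hS, rfl⟩
          exact fam_side (fam_swap (hQ hS)) (hr S hS))
        (hne.image _)
        (by
          rintro _ ⟨S, hS, rfl⟩ _ ⟨S', hS', rfl⟩
          exact (fam_inter (valid_swap hv) (fam_swap (hQ hS)) (fam_swap (hQ hS')) (hr S hS)
            (hr S' hS')).1 (hp S hS S' hS'))
      exact ⟨v, Or.inr hv1, fun S hS => (hv2 _ ⟨S, hS, rfl⟩).1⟩
    push Not at hl hr
    obtain ⟨S, hS, hSl⟩ := hl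
    obtain ⟨S', hS', hSr⟩ := hr
    obtain ⟨x, hx, hx'⟩ := hp S hS S' hS'
    exfalso
    rcases (hQ hS).2.1 hx with h | h
    · exact (Set.not_nonempty_iff_eq_empty.2 hSl) ⟨x, hx, h⟩
    · exact (Set.not_nonempty_iff_eq_empty.2 hSr) ⟨x, hx', h⟩

end Pool.Agent.H8.CR
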