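import Pool.Agent.H8.CR.FamA

/-!
# Adjacency in terms of compatible sets

`t` valid, `supp t ⊆ E`. `Lk H t v w x y`: some `S ∈ Fam t` contains `x` and `y` but not both `v` and `w`.

* `fam_singleton`: `{v} ∈ Fam t` for `v ∈ supp t`. `fam_univ`: `supp t ∈ Fam t`.
* `fam_adj`: `v ~ w` in `supp t` ⇒ some `S ∈ Fam t` contains both. Induction; node with `v ∈ l`, `w ∈ r`:
  `S = {x ∈ l | ∃ y ∈ r, x ~ y} ∪ {y ∈ r | ∃ x ∈ l, x ~ y}`; its part in `l` is `N(w) ∩ l`
  (completeness of the cut), compatible with `l` by `TC_nb` (`w ∈ E`, `w ∉ l`); similarly in `r`; at the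
  node the third alternative holds. If `v, w ∈ l`: induction and `fam_lift`.
* `fam_noreach`: `v ~ w` ⇒ not `ReflTransGen (Lk H t v w) v w`. Induction. Node, `v ∈ l`, `w ∈ r`: every `S`
  that meets both sides contains all ends of cross edges, so `v` and `w`. So everything reached from
  `v` stays in `l`, and `w ∉ l`. (The case `v ∈ r`, `w ∈ l` is symmetric.) Node, `v, w ∈ l`: suppose `w` is
  reachable. Show that it is reachable for `l`: invariant: the current `x` is in `l` and reachable from `v` by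
  `Lk H l v w`, or `x ∈ r` and some `m ∈ l` which is the end of a cross edge is reachable. A step by `S` from
  `x` to `y`: if `x, y ∈ l` use `S ∩ supp l` (`fam_side`). If exactly one of `x, y` is in `l`, or `x ∈ l`
  and `y ∈ r`, then `S` meets both sides, so it contains all ends of cross edges in `l`; use `S ∩ supp l`
  for a step between `x` and such an end `m` (there is one by `Cut`), or between `m` and `y`.
  If `x, y ∈ r`: nothing to do.
* `fam_reach`: `v, w ∈ supp t` different and not adjacent ⇒ `ReflTransGen (Lk H t v w) v w`. Induction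
  (leaf: `v = w`). Node, `v, w ∈ l`: induction and `fam_lift`. Node, `v ∈ l`, `w ∈ r`: three steps: by
  `supp l ∈ Fam t` (does not contain `w`) from `v` to an end `m1 ∈ l` of a cross edge; by the set `S` of all
  ends of cross edges from `m1` to `m2 ∈ r` (not both `v, w ∈ S`: otherwise completeness gives `v ~ w`);
  by `supp r` from `m2` to `w`.
-/

namespace Pool.Agent.H8.CR

open Relation

variable {V : Type*} {H : SimpleGraph V} {E : Set V}

/-- Some compatible set contains `x` and `y` but not both `v` and `w`. -/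
def Lk (H : SimpleGraph V) (t : DT V) (v w x y : V) : Prop :=
  ∃ S ∈ Fam H t, x ∈ S ∧ y ∈ S ∧ ¬ (v ∈ S ∧ w ∈ S)

theorem fam_singleton {t : DT V} (hv : Valid H E t) {v : V} (h : v ∈ t.supp) :
    {v} ∈ Fam H t := by
  induction t with
  | leaf u =>
    have h1 : v = u := h
    subst h1
    exact ⟨Set.singleton_nonempty v, fun x hx => hx, trivial⟩
  | node l r ihl ihr =>
    rcases h with h | h
    · exact fam_lift hv (ihl hv.2.2.1 h)
    · exact fam_swap (fam_lift (valid_swap hv) (ihr hv.2.2.2 h))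

theorem fam_univ (H : SimpleGraph V) (t : DT V) : t.supp ∈ Fam H t :=
  ⟨supp_nonempty t, le_rfl, TC_univ le_rfl⟩

/-- The ends of the cross edges. -/
def CS (H : SimpleGraph V) (l r : DT V) : Set V :=
  {x | x ∈ l.supp ∧ ∃ y ∈ r.supp, H.Adj x y} ∪ {y | y ∈ r.supp ∧ ∃ x ∈ l.supp, H.Adj x y}

theorem fam_cs {l r : DT V} (hv : Valid H E (.node l r)) (hE : (DT.node l r).supp ⊆ E) :
    CS H l r ∈ Fam H (.node l r) := by
  obtain ⟨a, ha, b, hb, hab⟩ := hv.1.2.1
  have hd : ∀ x, x ∈ l.supp → x ∈ r.supp → False := fun x h1 h2 =>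
    Set.disjoint_left.1 hv.1.1 h1 h2
  refine ⟨⟨a, Or.inl ⟨ha, b, hb, hab⟩⟩, ?_, Or.inr (Or.inr ?_), ?_, ?_⟩
  · rintro x (hx | hx)
    · exact Or.inl hx.1
    · exact Or.inr hx.1
  · intro a' ha' b' hb' h
    exact ⟨Or.inl ⟨ha', b', hb', h⟩, Or.inr ⟨hb', a', ha', h⟩⟩
  · refine (TC_congr (S := H.neighborSet b) (S' := CS H l r) ?_).1
      (TC_nb hv.2.2.1 (hE (Or.inr hb)) (fun h => hd b h hb))
    intro x hx
    constructor
    · intro h
      exact Or.inl ⟨hx, b, hb, SimpleGraph.Adj.symm h⟩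
    · rintro (⟨_, y, hy, hxy⟩ | h)
      · exact (hv.1.2.2 x hx y hy a ha b hb hxy hab).symm
      · exact (hd x hx h.1).elim
  · refine (TC_congr (S := H.neighborSet a) (S' := CS H l r) ?_).1
      (TC_nb hv.2.2.2 (hE (Or.inl ha)) (fun h => hd a ha h))
    intro x hx
    constructor
    · intro h
      exact Or.inr ⟨hx, a, ha, h⟩
    · rintro (h | ⟨_, y, hy, hxy⟩)
      · exact (hd x h.1 hx).elim
      · exact hv.1.2.2 a ha b hb y hy x hx hab hxy

theorem fam_adj {t : DT V} (ht : Valid H E t) (hE : t.supp ⊆ E) {v w : V} (hv : v ∈ t.supp)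
    (hw : w ∈ t.supp) (hvw : H.Adj v w) : ∃ S ∈ Fam H t, v ∈ S ∧ w ∈ S := by
  induction t with
  | leaf u =>
    have h1 : v = u := hv
    have h2 : w = u := hw
    subst h1 h2
    exact (H.irrefl hvw).elim
  | node l r ihl ihr =>
    have hlE : l.supp ⊆ E := fun z hz => hE (Or.inl hz)
    have hrE : r.supp ⊆ E := fun z hz => hE (Or.inr hz)
    rcases hv with hv | hv <;> rcases hw with hw | hw
    · obtain ⟨S, hS, h⟩ := ihl ht.2.2.1 hlE hv hw
      exact ⟨S, fam_lift ht hS, h⟩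
    · exact ⟨CS H l r, fam_cs ht hE, Or.inl ⟨hv, w, hw, hvw⟩, Or.inr ⟨hw, v, hv, hvw⟩⟩
    · exact ⟨CS H l r, fam_cs ht hE, Or.inr ⟨hv, w, hw, hvw.symm⟩, Or.inl ⟨hw, v, hv, hvw.symm⟩⟩
    · obtain ⟨S, hS, h⟩ := ihr ht.2.2.2 hrE hv hw
      exact ⟨S, fam_swap (fam_lift (valid_swap ht) hS), h⟩

/-- A compatible set which meets both sides contains the ends of all cross edges. -/
theorem fam_both {l r : DT V} {S : Set V} (hS : S ∈ Fam H (.node l r)) {x y : V} (hx : x ∈ S)
    (hxl : x ∈ l.supp) (hy : y ∈ S) (hyr : y ∈ r.supp) :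
    ∀ a ∈ l.supp, ∀ b ∈ r.supp, H.Adj a b → a ∈ S ∧ b ∈ S := by
  rcases hS.2.2.1 with h | h | h
  · exact (h x hxl hx).elim
  · exact (h y hyr hy).elim
  · exact h

theorem Lk_swap {l r : DT V} {v w x y : V} (h : Lk H (.node l r) v w x y) :
    Lk H (.node r l) v w x y := by
  obtain ⟨S, hS, h⟩ := h
  exact ⟨S, fam_swap hS, h⟩

theorem Lk_reach_swap {l r : DT V} {v w x y : V}
    (h : ReflTransGen (Lk H (.node l r) v w) x y) :
    ReflTransGen (Lk H (.node r l) v w) x y :=
  ReflTransGen.mono (fun _ _ h => Lk_swap h) _ _ h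

theorem Lk_reach_lift {l r : DT V} (ht : Valid H E (.node l r)) {v w x y : V}
    (h : ReflTransGen (Lk H l v w) x y) : ReflTransGen (Lk H (.node l r) v w) x y :=
  ReflTransGen.mono (fun _ _ ⟨S, hS, h⟩ => ⟨S, fam_lift ht hS, h⟩) _ _ h

theorem noreach_cross {l r : DT V} (ht : Valid H E (.node l r)) {v w : V}
    (hv : v ∈ l.supp) (hw : w ∈ r.supp) (hvw : H.Adj v w) :
    ¬ ReflTransGen (Lk H (.node l r) v w) v w := by
  intro h
  have key : ∀ x, ReflTransGen (Lk H (.node l r) v w) v x → x ∈ l.supp := by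
    intro x hx
    induction hx with
    | refl => exact hv
    | @tail x y _ hxy ih =>
      obtain ⟨S, hS, hxS, hyS, hn⟩ := hxy
      rcases hS.2.1 hyS with h | h
      · exact h
      · exact (hn (fam_both hS hxS ih hyS h v hv w hw hvw)).elim
  exact Set.disjoint_left.1 ht.1.1 (key w h) hw

theorem noreach_side {l r : DT V} (ht : Valid H E (.node l r)) {v w : V}
    (hv : v ∈ l.supp) (hw : w ∈ l.supp) (ih : ¬ ReflTransGen (Lk H l v w) v w) :
    ¬ ReflTransGen (Lk H (.node l r) v w) v w := by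
  obtain ⟨a, ha, b, hb, hab⟩ := ht.1.2.1
  have step : ∀ {S : Set V} {x y : V}, S ∈ Fam H (.node l r) → x ∈ S → y ∈ S → x ∈ l.supp →
      y ∈ l.supp → ¬ (v ∈ S ∧ w ∈ S) → Lk H l v w x y := by
    intro S x y hS hx hy hxl hyl hn
    exact ⟨S ∩ l.supp, fam_side hS ⟨x, hx, hxl⟩, ⟨hx, hxl⟩, ⟨hy, hyl⟩,
      fun h => hn ⟨h.1.1, h.2.1⟩⟩
  intro h
  have key : ∀ x, ReflTransGen (Lk H (.node l r) v w) v x →
      (x ∈ l.supp ∧ ReflTransGen (Lk H l v w) v x) ∨
      (x ∈ r.supp ∧ ∃ m ∈ l.supp, (∃ y ∈ r.supp, H.Adj m y) ∧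
        ReflTransGen (Lk H l v w) v m) := by
    intro x hx
    induction hx with
    | refl => exact Or.inl ⟨hv, ReflTransGen.refl⟩
    | @tail x y _ hxy ih2 =>
      obtain ⟨S, hS, hxS, hyS, hn⟩ := hxy
      rcases ih2 with ⟨hx, hr⟩ | ⟨hx, m, hm, ⟨z, hz, hmz⟩, hr⟩
      · rcases hS.2.1 hyS with hy | hy
        · exact Or.inl ⟨hy, hr.tail (step hS hxS hyS hx hy hn)⟩
        · have haS := (fam_both hS hxS hx hyS hy a ha b hb hab).1
          exact Or.inr ⟨hy, a, ha, ⟨b, hb, hab⟩, hr.tail (step hS hxS haS hx ha hn)⟩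
      · rcases hS.2.1 hyS with hy | hy
        · have hmS := (fam_both hS hyS hy hxS hx m hm z hz hmz).1
          exact Or.inl ⟨hy, hr.tail (step hS hmS hyS hm hy hn)⟩
        · exact Or.inr ⟨hy, m, hm, ⟨z, hz, hmz⟩, hr⟩
  rcases key w h with h | h
  · exact ih h.2
  · exact Set.disjoint_left.1 ht.1.1 hw h.1

theorem fam_noreach {t : DT V} (ht : Valid H E t) (hE : t.supp ⊆ E) {v w : V}
    (hv : v ∈ t.supp) (hw : w ∈ t.supp) (hvw : H.Adj v w) :
    ¬ ReflTransGen (Lk H t v w) v w := by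
  induction t with
  | leaf u =>
    have h1 : v = u := hv
    have h2 : w = u := hw
    subst h1 h2
    exact (H.irrefl hvw).elim
  | node l r ihl ihr =>
    have hlE : l.supp ⊆ E := fun z hz => hE (Or.inl hz)
    have hrE : r.supp ⊆ E := fun z hz => hE (Or.inr hz)
    rcases hv with hv | hv <;> rcases hw with hw | hw
    · exact noreach_side ht hv hw (ihl ht.2.2.1 hlE hv hw)
    · exact noreach_cross ht hv hw hvw
    · exact fun h => noreach_cross (valid_swap ht) hv hw hvw (Lk_reach_swap h)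
    · exact fun h => noreach_side (valid_swap ht) hv hw (ihr ht.2.2.2 hrE hv hw)
        (Lk_reach_swap h)

theorem reach_cross {l r : DT V} (ht : Valid H E (.node l r)) (hE : (DT.node l r).supp ⊆ E)
    {v w : V} (hv : v ∈ l.supp) (hw : w ∈ r.supp) (hvw : ¬ H.Adj v w) :
    ReflTransGen (Lk H (.node l r) v w) v w := by
  obtain ⟨a, ha, b, hb, hab⟩ := ht.1.2.1
  have hd : ∀ x, x ∈ l.supp → x ∈ r.supp → False := fun x h1 h2 =>
    Set.disjoint_left.1 ht.1.1 h1 h2
  have s1 : Lk H (.node l r) v w v a := ⟨l.supp, fam_lift ht (fam_univ H l), hv, ha,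
    fun h => hd w h.2 hw⟩
  have s2 : Lk H (.node l r) v w a b := by
    refine ⟨CS H l r, fam_cs ht hE, Or.inl ⟨ha, b, hb, hab⟩, Or.inr ⟨hb, a, ha, hab⟩, ?_⟩
    rintro ⟨h1 | h1, h2 | h2⟩
    · exact hd w h2.1 hw
    · obtain ⟨_, y, hy, hvy⟩ := h1
      obtain ⟨_, x, hx, hxw⟩ := h2
      exact hvw (ht.1.2.2 v hv y hy x hx w hw hvy hxw)
    · exact hd v hv h1.1
    · exact hd v hv h1.1
  have s3 : Lk H (.node l r) v w b w := ⟨r.supp,
    fam_swap (fam_lift (valid_swap ht) (fam_univ H r)), hb, hw, fun h => hd v hv h.1⟩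
  exact ((ReflTransGen.single s1).tail s2).tail s3

theorem fam_reach {t : DT V} (ht : Valid H E t) (hE : t.supp ⊆ E) {v w : V}
    (hv : v ∈ t.supp) (hw : w ∈ t.supp) (hne : v ≠ w) (hvw : ¬ H.Adj v w) :
    ReflTransGen (Lk H t v w) v w := by
  induction t with
  | leaf u =>
    have h1 : v = u := hv
    have h2 : w = u := hw
    exact (hne (h1.trans h2.symm)).elim
  | node l r ihl ihr =>
    have hlE : l.supp ⊆ E := fun z hz => hE (Or.inl hz)
    have hrE : r.supp ⊆ E := fun z hz => hE (Or.inr hz)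
    rcases hv with hv | hv <;> rcases hw with hw | hw
    · exact Lk_reach_lift ht (ihl ht.2.2.1 hlE hv hw)
    · exact reach_cross ht hE hv hw hvw
    · exact Lk_reach_swap (reach_cross (valid_swap ht)
        (fun x hx => hE (Or.symm hx)) hv hw hvw)
    · exact Lk_reach_swap (Lk_reach_lift (valid_swap ht) (ihr ht.2.2.2 hrE hv hw))

end Pool.Agent.H8.CR
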