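import Pool.Agent.H8.CR.Pc1

/-!
# Gluing the solutions of the pieces

`G` assigns to every piece a solution. `alp u v w`: `F u v w`, or `(u, v, w)` is unresolved and
`G (Pc (u, v)) u v w`. If `(u, v, w)` is unresolved then all its edges lie in the piece `P = Pc (u, v)`
(`Pc_unres`, `Pc_swap`, `Pc_eq`), so the piece does not depend on the chosen edge.

* symm, cons, full: from `F` and `PSol`.
* d1: `alp u v w`, `x ≁ w`, `x ~ u, v`. If `F u v w`: `Pure.d1`. Otherwise `(u, v, w)` is unresolved. The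
  triangle `(u, v, x)`: `F u v x` fine. `F u x v`: `d2` for `F x u v` and `w` (`w ≁ x`, `w ~ u, v`) gives
  `F w u v`, contradiction to unresolved. `F v x u`: similarly `F w v u`, contradiction. Otherwise it
  is unresolved, its edges lie in `P` too (it shares the edge `u v`), `PSol.d1`.
* d2: `alp u v w`, `x ≁ u`, `x ~ v, w`. If `F u v w`: `Pure.d2`. Otherwise `(u, v, w)` is unresolved. The
  triangle `(x, v, w)`: `F x v w` fine. `F v w x`: `d1` with `u ≁ x` gives `F v w u`, contradiction.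
  `F x w v`: `d2` with `u ≁ x` gives `F u w v`, contradiction. Otherwise unresolved, its edges lie in `P`
  (shares the edge `v w`), `PSol.d2`.
* k: `alp a b c`, `d` adjacent to `a, b, c`. If `F a b c`: `Pure.k`. Otherwise `(a, b, c)` is unresolved,
  `P` contains its edges, `Γ = G P`, `Γ a b c`.
  (I) If one of `F a b d`, `F a c d`, `F b c d` holds, then `d` is a cone vertex of `P`, so `F a b d` by
  `pc_cone`: fine.
  (II) If `F a d b` or `F a d c`: both hold (`Pure.k` for `F a d b` and `c`: `F a d c` or (`F a c b` ..), the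
  latter contradicts unresolved; similarly the other way round). By `Pc_fact` `(b, d) ∈ P`, `(c, d) ∈ P`,
  so `(d, b, c)` is unresolved by `pc_unres`, and `PSol.inv` gives `Γ d b c`, i.e. `alp b d c`; and
  `alp a d c` from `F a d c`: second alternative.
  (II') If `F b d a` or `F b d c`: symmetric.
  (III) If `F c d a` or `F c d b`: both hold; `(a, d), (b, d) ∈ P`, `(a, b, d)` is unresolved
  (`pc_unres`), `PSol.inv` with `(c, a, b, d)` gives `Γ a b c ↔ Γ a b d`: `alp a b d`.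
  (IV) Otherwise the triangles `(a, b, d)`, `(a, c, d)`, `(b, c, d)` are unresolved, all six edges are in
  `P`, `PSol.k`.

Status: complete (helper26).
-/

namespace Pool.Agent.H8.CR

open Relation

variable {V : Type*} {H : SimpleGraph V} {X : Set V} {F : V → V → V → Prop}
  {G : Set (V × V) → V → V → V → Prop}

/-- The relation glued from the solutions of the pieces. -/
def alp (H : SimpleGraph V) (X : Set V) (F : V → V → V → Prop)
    (G : Set (V × V) → V → V → V → Prop) (u v w : V) : Prop :=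
  F u v w ∨ (Unres H X F u v w ∧ G (Pc H X F (u, v)) u v w)

theorem glue1_perm1 (hF : Pure H X F) {u v w : V} (h : Unres H X F u v w) :
    Unres H X F v u w := by
  obtain ⟨⟨h1, h2, h3, h4, h5, h6⟩, n1, n2, n3⟩ := h
  exact ⟨⟨h2, h1, h3, h4.symm, h6, h5⟩, fun h => n1 (hF.symm _ _ _ h), n3, n2⟩

theorem glue1_perm2 (hF : Pure H X F) {u v w : V} (h : Unres H X F u v w) :
    Unres H X F u w v := by
  obtain ⟨⟨h1, h2, h3, h4, h5, h6⟩, n1, n2, n3⟩ := h
  exact ⟨⟨h1, h3, h2, h5, h4, h6.symm⟩, n2, n1, fun h => n3 (hF.symm _ _ _ h)⟩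

theorem glue1_mem (hF : Pure H X F) {u v w : V} (h : Unres H X F u v w) :
    (u, v) ∈ Pc H X F (u, v) ∧ (v, u) ∈ Pc H X F (u, v) ∧ (u, w) ∈ Pc H X F (u, v) ∧
      (w, u) ∈ Pc H X F (u, v) ∧ (v, w) ∈ Pc H X F (u, v) ∧ (w, v) ∈ Pc H X F (u, v) :=
  ⟨Pc_self _, Pc_swap (Pc_self _), (Pc_unres hF h).1, Pc_swap (Pc_unres hF h).1, (Pc_unres hF h).2,
    Pc_swap (Pc_unres hF h).2⟩

theorem glue1_mk {u v w : V} {e : V × V} (h : Unres H X F u v w) (he : (u, v) ∈ Pc H X F e)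
    (hg : G (Pc H X F e) u v w) : alp H X F G u v w :=
  Or.inr ⟨h, by rw [Pc_eq he]; exact hg⟩

theorem glue1_sol (hG : ∀ h ∈ X, ∀ x ∈ X, H.Adj h x →
    PSol H X F (Pc H X F (h, x)) (G (Pc H X F (h, x)))) {u v w : V} (h : Unres H X F u v w) :
    PSol H X F (Pc H X F (u, v)) (G (Pc H X F (u, v))) :=
  hG u h.1.1 v h.1.2.1 h.1.2.2.2.1

theorem glue_full (hF : Pure H X F) (hG : ∀ h ∈ X, ∀ x ∈ X, H.Adj h x →
    PSol H X F (Pc H X F (h, x)) (G (Pc H X F (h, x)))) : Full H X (alp H X F G) := by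
  intro u v w ht
  by_cases n1 : F u v w
  · exact Or.inl (Or.inl n1)
  by_cases n2 : F u w v
  · exact Or.inr (Or.inl (Or.inl n2))
  by_cases n3 : F v w u
  · exact Or.inr (Or.inr (Or.inl n3))
  have hu : Unres H X F u v w := ⟨ht, n1, n2, n3⟩
  obtain ⟨m1, m2, m3, m4, m5, m6⟩ := glue1_mem hF hu
  rcases (glue1_sol hG hu).full u v w m1 m3 m5 with h | h | h
  · exact Or.inl (Or.inr ⟨hu, h⟩)
  · exact Or.inr (Or.inl (glue1_mk (glue1_perm2 hF hu) m3 h))
  · exact Or.inr (Or.inr (glue1_mk (glue1_perm2 hF (glue1_perm1 hF hu)) m5 h))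

theorem glue_symm (hF : Pure H X F) (hG : ∀ h ∈ X, ∀ x ∈ X, H.Adj h x →
    PSol H X F (Pc H X F (h, x)) (G (Pc H X F (h, x)))) {u v w : V}
    (h : alp H X F G u v w) : alp H X F G v u w := by
  rcases h with h | ⟨hu, h⟩
  · exact Or.inl (hF.symm _ _ _ h)
  · obtain ⟨m1, m2, m3, m4, m5, m6⟩ := glue1_mem hF hu
    exact glue1_mk (glue1_perm1 hF hu) m2 ((glue1_sol hG hu).symm _ _ _ h)

theorem glue_d1 (hF : Pure H X F) (hG : ∀ h ∈ X, ∀ x ∈ X, H.Adj h x →
    PSol H X F (Pc H X F (h, x)) (G (Pc H X F (h, x)))) {u v w x : V}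
    (h : alp H X F G u v w) (hx : x ∈ X) (h1 : ¬ H.Adj x w) (h2 : H.Adj x u) (h3 : H.Adj x v) :
    alp H X F G u v x := by
  rcases h with h | ⟨hu, h⟩
  · exact Or.inl (hF.d1 _ _ _ _ h hx h1 h2 h3)
  · obtain ⟨m1, m2, m3, m4, m5, m6⟩ := glue1_mem hF hu
    obtain ⟨⟨t1, t2, t3, t4, t5, t6⟩, n1, n2, n3⟩ := id hu
    by_cases c1 : F u v x
    · exact Or.inl c1
    by_cases c2 : F u x v
    · exact absurd (hF.symm _ _ _ (hF.d2 x u v w (hF.symm _ _ _ c2) t3 (fun h => h1 h.symm)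
        t5.symm t6.symm)) n2
    by_cases c3 : F v x u
    · exact absurd (hF.symm _ _ _ (hF.d2 x v u w (hF.symm _ _ _ c3) t3 (fun h => h1 h.symm)
        t6.symm t5.symm)) n3
    have hu' : Unres H X F u v x := ⟨⟨t1, t2, hx, t4, h2.symm, h3.symm⟩, c1, c2, c3⟩
    obtain ⟨-, -, -, k4, -, k6⟩ := glue1_mem hF hu'
    exact Or.inr ⟨hu', (glue1_sol hG hu).d1 u v w x m1 m3 m5 k4 k6 h1 h⟩

theorem glue_d2 (hF : Pure H X F) (hG : ∀ h ∈ X, ∀ x ∈ X, H.Adj h x →
    PSol H X F (Pc H X F (h, x)) (G (Pc H X F (h, x)))) {u v w x : V}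
    (h : alp H X F G u v w) (hx : x ∈ X) (h1 : ¬ H.Adj x u) (h2 : H.Adj x v) (h3 : H.Adj x w) :
    alp H X F G x v w := by
  rcases h with h | ⟨hu, h⟩
  · exact Or.inl (hF.d2 _ _ _ _ h hx h1 h2 h3)
  · obtain ⟨m1, m2, m3, m4, m5, m6⟩ := glue1_mem hF hu
    obtain ⟨⟨t1, t2, t3, t4, t5, t6⟩, n1, n2, n3⟩ := id hu
    by_cases c1 : F x v w
    · exact Or.inl c1
    by_cases c2 : F v w x
    · exact absurd (hF.d1 v w x u c2 t1 (fun h => h1 h.symm) t4 t5) n3
    by_cases c3 : F x w v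
    · exact absurd (hF.d2 x w v u c3 t1 (fun h => h1 h.symm) t5 t4) n2
    have hu' : Unres H X F x v w := ⟨⟨hx, t2, t3, h2, h3, t6⟩, c1, c3, c2⟩
    have hu2 : Unres H X F v w x := glue1_perm2 hF (glue1_perm1 hF hu')
    obtain ⟨-, -, -, k4, -, k6⟩ := glue1_mem hF hu2
    rw [Pc_eq m5] at k4 k6
    exact glue1_mk hu' k4 ((glue1_sol hG hu).d2 u v w x m1 m3 m5 k4 k6 h1 h)

theorem glue_k (hF : Pure H X F) (hG : ∀ h ∈ X, ∀ x ∈ X, H.Adj h x →
    PSol H X F (Pc H X F (h, x)) (G (Pc H X F (h, x)))) {a b c d : V}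
    (h : alp H X F G a b c) (hd : d ∈ X) (h1 : H.Adj d a) (h2 : H.Adj d b) (h3 : H.Adj d c) :
    alp H X F G a b d ∨ (alp H X F G a d c ∧ alp H X F G b d c) := by
  rcases h with h | ⟨hu, h⟩
  · rcases hF.k a b c d h hd h1 h2 h3 with h4 | ⟨h4, h5⟩
    · exact Or.inl (Or.inl h4)
    · exact Or.inr ⟨Or.inl h4, Or.inl h5⟩
  · obtain ⟨m1, m2, m3, m4, m5, m6⟩ := glue1_mem hF hu
    obtain ⟨⟨t1, t2, t3, t4, t5, t6⟩, n1, n2, n3⟩ := id hu
    have hsol := glue1_sol hG hu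
    by_cases c1 : F a b d
    · exact Or.inl (Or.inl c1)
    have c2 : ¬ F a c d := fun hc => c1 (pc_cone hF m3 hc m1)
    have c3 : ¬ F b c d := fun hc => c1 (pc_cone hF m5 hc m1)
    by_cases c4 : F a d b ∨ F a d c
    · have hb : F a d b ∧ F a d c := by
        rcases c4 with c4 | c4
        · refine ⟨c4, ?_⟩
          rcases hF.k a d b c c4 t3 t5.symm h3.symm t6.symm with h4 | ⟨h4, -⟩
          · exact h4
          · exact absurd h4 n2
        · refine ⟨?_, c4⟩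
          rcases hF.k a d c b c4 t2 t4.symm h2.symm t6 with h4 | ⟨h4, -⟩
          · exact h4
          · exact absurd h4 n1
      have p1 : (b, d) ∈ Pc H X F (a, b) := by
        have := Pc_fact hF hb.1
        rwa [Pc_eq m2] at this
      have p2 : (c, d) ∈ Pc H X F (a, b) := by
        have := Pc_fact hF hb.2
        rwa [Pc_eq m4] at this
      have hu' : Unres H X F d b c :=
        pc_unres hF ⟨hd, t2, t3, h2, h3, t6⟩ (Pc_swap p1) (Pc_swap p2) m5
      have hg := ((hsol.inv a b c d m1 m3 m5 hb.1 hb.2).1).1 h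
      exact Or.inr ⟨Or.inl hb.2, glue_symm hF hG (glue1_mk hu' (Pc_swap p1) hg)⟩
    push Not at c4
    by_cases c5 : F b d a ∨ F b d c
    · have hb : F b d a ∧ F b d c := by
        rcases c5 with c5 | c5
        · refine ⟨c5, ?_⟩
          rcases hF.k b d a c c5 t3 t6.symm h3.symm t5.symm with h4 | ⟨h4, -⟩
          · exact h4
          · exact absurd h4 n3
        · refine ⟨?_, c5⟩
          rcases hF.k b d c a c5 t1 t4 h1.symm t5 with h4 | ⟨h4, -⟩
          · exact h4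
          · exact absurd (hF.symm _ _ _ h4) n1
      have p1 : (a, d) ∈ Pc H X F (a, b) := Pc_fact hF hb.1
      have p2 : (c, d) ∈ Pc H X F (a, b) := by
        have := Pc_fact hF hb.2
        rwa [Pc_eq m6] at this
      have hu' : Unres H X F d a c :=
        pc_unres hF ⟨hd, t1, t3, h1, h3, t5⟩ (Pc_swap p1) (Pc_swap p2) m3
      have hg := ((hsol.inv b a c d m2 m5 m3 hb.1 hb.2).1).1 (hsol.symm _ _ _ h)
      exact Or.inr ⟨glue_symm hF hG (glue1_mk hu' (Pc_swap p1) hg), Or.inl hb.2⟩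
    push Not at c5
    by_cases c6 : F c d a ∨ F c d b
    · have hb : F c d a ∧ F c d b := by
        rcases c6 with c6 | c6
        · refine ⟨c6, ?_⟩
          rcases hF.k c d a b c6 t2 t6 h2.symm t4.symm with h4 | ⟨h4, -⟩
          · exact h4
          · exact absurd (hF.symm _ _ _ h4) n3
        · refine ⟨?_, c6⟩
          rcases hF.k c d b a c6 t1 t5 h1.symm t4 with h4 | ⟨h4, -⟩
          · exact h4
          · exact absurd (hF.symm _ _ _ h4) n2
      have p1 : (a, d) ∈ Pc H X F (a, b) := by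
        have := Pc_fact hF hb.1
        rwa [Pc_eq m3] at this
      have p2 : (b, d) ∈ Pc H X F (a, b) := by
        have := Pc_fact hF hb.2
        rwa [Pc_eq m5] at this
      have hu' : Unres H X F a b d :=
        pc_unres hF ⟨t1, t2, hd, t4, h1.symm, h2.symm⟩ m1 p1 p2
      have hg := ((hsol.inv c a b d m4 m6 m1 hb.1 hb.2).2).1 h
      exact Or.inl (glue1_mk hu' m1 hg)
    push Not at c6
    have u1 : Unres H X F a b d := ⟨⟨t1, t2, hd, t4, h1.symm, h2.symm⟩, c1, c4.1, c5.1⟩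
    have u2 : Unres H X F a c d := ⟨⟨t1, t3, hd, t5, h1.symm, h3.symm⟩, c2, c4.2, c6.1⟩
    have u3 : Unres H X F b c d := ⟨⟨t2, t3, hd, t6, h2.symm, h3.symm⟩, c3, c5.2, c6.2⟩
    obtain ⟨-, -, p1, -, p2, -⟩ := glue1_mem hF u1
    obtain ⟨-, -, -, -, p3, -⟩ := glue1_mem hF u2
    rw [Pc_eq m3] at p3
    rcases hsol.k a b c d m1 m3 m5 p1 p2 p3 h with h4 | ⟨h4, h5⟩
    · exact Or.inl (glue1_mk u1 m1 h4)
    · exact Or.inr ⟨glue1_mk (glue1_perm2 hF u2) p1 h4, glue1_mk (glue1_perm2 hF u3) p2 h5⟩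

theorem glue_pure (hF : Pure H X F) (hG : ∀ h ∈ X, ∀ x ∈ X, H.Adj h x →
    PSol H X F (Pc H X F (h, x)) (G (Pc H X F (h, x)))) : Pure H X (alp H X F G) := by
  refine ⟨fun u v w h => ?_, fun _ _ _ h => glue_symm hF hG h, fun u v w h h' => ?_,
    fun _ _ _ _ h hx h1 h2 h3 => glue_d1 hF hG h hx h1 h2 h3,
    fun _ _ _ _ h hx h1 h2 h3 => glue_d2 hF hG h hx h1 h2 h3,
    fun _ _ _ _ h hd h1 h2 h3 => glue_k hF hG h hd h1 h2 h3⟩
  · rcases h with h | ⟨hu, -⟩
    · exact hF.tri _ _ _ h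
    · exact hu.1
  · rcases h with h | ⟨hu, h⟩
    · rcases h' with h' | ⟨hu', -⟩
      · exact hF.cons _ _ _ h h'
      · exact hu'.2.2.1 h
    · rcases h' with h' | ⟨-, h'⟩
      · exact hu.2.2.1 h'
      · obtain ⟨m1, m2, m3, m4, m5, m6⟩ := glue1_mem hF hu
        rw [Pc_eq m3] at h'
        exact (glue1_sol hG hu).cons u v w m1 m3 m5 h h'

end Pool.Agent.H8.CR
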