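import Pool.Agent.H8.CR.Comp1

/-!
# The closure `Cl` is contained in every pure relation which contains the base facts

* `Pure.k1a`, `Pure.k1b` (rule K1: `ab|c, bc|d, a ~ d ⇒ ab|d, ac|d`): `k` for `F a b c` and `d`:
  `F a b d` or `F b d c`; the second contradicts `F b c d`. `k` for `F b c d` and `a`: `F b c a`
  (contradicts `F a b c`) or `F c a d`.
* `Pure.k2a`, `Pure.k2b` (rule K2: `ab|c, cd|b, a ~ d ⇒ ab|d, cd|a`): `k` for `F a b c` and `d`:
  `F a b d` or `F b d c`; the second contradicts `F c d b`. `k` for `F c d b` and `a`: `F c d a` or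
  `F c a b`; the second contradicts `F a b c`.
* `Cl.le`: induction on `Cl`, using `Pure.symm`, `d1`, `d2`, the two rules above and `Pure.k3`.
-/

namespace Pool.Agent.H8.CR

variable {V : Type*} {H : SimpleGraph V} {X : Set V} {F F0 : V → V → V → Prop}

theorem Pure.k1a (hF : Pure H X F) {a b c d : V} (h : F a b c) (h' : F b c d) (h1 : H.Adj a d) :
    F a b d := by
  obtain ⟨ha, hb, hc, hab, hac, hbc⟩ := hF.tri _ _ _ h
  obtain ⟨_, _, hd, _, hbd, hcd⟩ := hF.tri _ _ _ h'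
  rcases hF.k a b c d h hd h1.symm hbd.symm hcd.symm with h2 | h2
  · exact h2
  · exact absurd h2.2 (hF.cons _ _ _ h')

theorem Pure.k1b (hF : Pure H X F) {a b c d : V} (h : F a b c) (h' : F b c d) (h1 : H.Adj a d) :
    F a c d := by
  obtain ⟨ha, hb, hc, hab, hac, hbc⟩ := hF.tri _ _ _ h
  obtain ⟨_, _, hd, _, hbd, hcd⟩ := hF.tri _ _ _ h'
  rcases hF.k b c d a h' ha hab hac h1 with h2 | h2
  · exact absurd h2 (hF.cons _ _ _ (hF.symm _ _ _ h))
  · exact hF.symm _ _ _ h2.2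

theorem Pure.k2a (hF : Pure H X F) {a b c d : V} (h : F a b c) (h' : F c d b) (h1 : H.Adj a d) :
    F a b d := by
  obtain ⟨ha, hb, hc, hab, hac, hbc⟩ := hF.tri _ _ _ h
  obtain ⟨_, hd, _, hcd, hcb, hdb⟩ := hF.tri _ _ _ h'
  rcases hF.k a b c d h hd h1.symm hdb hcd.symm with h2 | h2
  · exact h2
  · exact absurd (hF.symm _ _ _ h2.2) (hF.cons _ _ _ (hF.symm _ _ _ h'))

theorem Pure.k2b (hF : Pure H X F) {a b c d : V} (h : F a b c) (h' : F c d b) (h1 : H.Adj a d) :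
    F c d a := by
  obtain ⟨ha, hb, hc, hab, hac, hbc⟩ := hF.tri _ _ _ h
  obtain ⟨_, hd, _, hcd, hcb, hdb⟩ := hF.tri _ _ _ h'
  rcases hF.k c d b a h' ha hac h1 hab with h2 | h2
  · exact h2
  · exact absurd (hF.symm _ _ _ h2.1) (hF.cons _ _ _ h)

theorem Cl.le (hF : Pure H X F) (h0 : ∀ u v w, F0 u v w → F u v w) {u v w : V}
    (h : Cl H X F0 u v w) : F u v w := by
  induction h with
  | base h => exact h0 _ _ _ h
  | symm _ ih => exact hF.symm _ _ _ ih
  | d1 _ hx h1 h2 h3 ih => exact hF.d1 _ _ _ _ ih hx h1 h2 h3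
  | d2 _ hx h1 h2 h3 ih => exact hF.d2 _ _ _ _ ih hx h1 h2 h3
  | k1a _ _ h1 ih ih' => exact hF.k1a ih ih' h1
  | k1b _ _ h1 ih ih' => exact hF.k1b ih ih' h1
  | k2a _ _ h1 ih ih' => exact hF.k2a ih ih' h1
  | k2b _ _ h1 ih ih' => exact hF.k2b ih ih' h1
  | k3 _ _ h1 ih ih' => exact hF.k3 ih ih' h1

end Pool.Agent.H8.CR
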