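import Pool.Agent.H8.CR.Comp2

/-!
# Pieces: basic facts

`Link H X F h x x'`: triangle `h, x, x'`, not `hx|x'`, not `hx'|x`. `Mv`: moves `(h, x) → (h, x')` for
`Link h x x'` and `(h, x) → (x, h)`. `Pc e`: all ordered edges that can be reached from `e`.

* `Link_symm`, `Mv_symm` (so `Pc` gives classes): `Pc_symm`, `Pc_eq`, `Pc_swap`.
* `Link_of_fact`: `F x x' h ⇒ Link h x x'` (`cons`, `symm`). `Link_of_unres`.
* `Pc_edge`: members of `Pc (h, x)` are edges of `X` if `(h, x)` is one.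
* `Pc_fact`: `F u v w ⇒ (w, v) ∈ Pc (w, u)`. `Pc_unres`: `(u, v, w)` unresolved ⇒
  `(u, w) ∈ Pc (u, v)` and `(v, w) ∈ Pc (u, v)`.
* `pc_cone`: if `(r, x) ∈ Pc e` and `F r x y` then `F h z y` for all `(h, z) ∈ Pc e`. It suffices to show:
  `F r x y` and `Mv (r, x) (r', x')` imply `F r' x' y`; for the swap use `symm`. Let
  `Link r x x'`. If `x' ≁ y`: `d1` (`F r x y`, `x' ≁ y`, `x' ~ r`, `x' ~ x`) gives `F r x x'`, contradiction to
  `Link`. If `x' ~ y`: `k` for `F r x y` and `x'`: `F r x x'` (contradiction) or `F r x' y`.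
* `pc_unres`: three edges of one piece forming a triangle: it is unresolved. If, say, `F u v w` then by
  `pc_cone` all edges `h z` of the piece satisfy `F h z w`, in particular `F u w w`, impossible
  (`Pure.tri`, irreflexivity). Similarly for the other two facts (use `Pc_swap`).
-/

namespace Pool.Agent.H8.CR

open Relation

variable {V : Type*} {H : SimpleGraph V} {X : Set V} {F : V → V → V → Prop}

theorem Link_symm {h x x' : V} (hl : Link H X F h x x') : Link H X F h x' x := by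
  obtain ⟨⟨h1, h2, h3, h4, h5, h6⟩, h7, h8⟩ := hl
  exact ⟨⟨h1, h3, h2, h5, h4, h6.symm⟩, h8, h7⟩

theorem Link_of_fact (hF : Pure H X F) {h x x' : V} (hl : F x x' h) : Link H X F h x x' := by
  obtain ⟨h1, h2, h3, h4, h5, h6⟩ := hF.tri _ _ _ hl
  exact ⟨⟨h3, h1, h2, h5.symm, h6.symm, h4⟩,
    fun h' => hF.cons _ _ _ hl (hF.symm _ _ _ h'),
    fun h' => hF.cons _ _ _ (hF.symm _ _ _ hl) (hF.symm _ _ _ h')⟩

theorem Link_of_unres {h x x' : V} (hl : Unres H X F h x x') : Link H X F h x x' :=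
  ⟨hl.1, hl.2.1, hl.2.2.1⟩

theorem Pc1_mv_symm {e e' : V × V} (h : Mv H X F e e') : Mv H X F e' e := by
  rcases h with ⟨h1, h2⟩ | ⟨h1, h2⟩
  · refine Or.inl ⟨h1.symm, ?_⟩
    rw [h1]
    exact Link_symm h2
  · exact Or.inr ⟨h2.symm, h1.symm⟩

theorem Pc_self (e : V × V) : e ∈ Pc H X F e := ReflTransGen.refl

theorem Pc_symm {e e' : V × V} (h : e' ∈ Pc H X F e) : e ∈ Pc H X F e' := by
  have key : ∀ z, ReflTransGen (Mv H X F) e z → ReflTransGen (Mv H X F) z e := by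
    intro z hz
    induction hz with
    | refl => exact ReflTransGen.refl
    | tail h1 h2 ih => exact ReflTransGen.head (Pc1_mv_symm h2) ih
  exact key e' h

theorem Pc_eq {e e' : V × V} (h : e' ∈ Pc H X F e) : Pc H X F e' = Pc H X F e := by
  ext z
  constructor
  · intro hz
    exact ReflTransGen.trans h hz
  · intro hz
    exact ReflTransGen.trans (Pc_symm h) hz

theorem Pc_swap {e : V × V} {a b : V} (h : (a, b) ∈ Pc H X F e) : (b, a) ∈ Pc H X F e :=
  ReflTransGen.tail h (Or.inr ⟨rfl, rfl⟩)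

theorem Pc_link {e : V × V} {a b c : V} (h : (a, b) ∈ Pc H X F e) (hl : Link H X F a b c) :
    (a, c) ∈ Pc H X F e :=
  ReflTransGen.tail h (Or.inl ⟨rfl, hl⟩)

theorem Pc_edge {h x a b : V} (hh : h ∈ X) (hx : x ∈ X) (hhx : H.Adj h x)
    (hab : (a, b) ∈ Pc H X F (h, x)) : a ∈ X ∧ b ∈ X ∧ H.Adj a b := by
  have key : ∀ z, ReflTransGen (Mv H X F) (h, x) z → z.1 ∈ X ∧ z.2 ∈ X ∧ H.Adj z.1 z.2 := by
    intro z hz
    induction hz with
    | refl => exact ⟨hh, hx, hhx⟩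
    | tail h1 h2 ih =>
      rename_i z z'
      rcases h2 with ⟨h3, h4⟩ | ⟨h3, h4⟩
      · rw [h3]
        exact ⟨h4.1.1, h4.1.2.2.1, h4.1.2.2.2.2.1⟩
      · rw [h3, h4]
        exact ⟨ih.2.1, ih.1, ih.2.2.symm⟩
  exact key (a, b) hab

theorem Pc_fact (hF : Pure H X F) {u v w : V} (h : F u v w) : (w, v) ∈ Pc H X F (w, u) :=
  Pc_link (Pc_self _) (Link_of_fact hF h)

theorem Pc_unres (hF : Pure H X F) {u v w : V} (h : Unres H X F u v w) :
    (u, w) ∈ Pc H X F (u, v) ∧ (v, w) ∈ Pc H X F (u, v) := by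
  refine ⟨Pc_link (Pc_self _) (Link_of_unres h), ?_⟩
  obtain ⟨⟨h1, h2, h3, h4, h5, h6⟩, h7, h8, h9⟩ := h
  refine Pc_link (b := u) (Pc_swap (Pc_self _)) ?_
  exact ⟨⟨h2, h1, h3, h4.symm, h6, h5⟩, fun h' => h7 (hF.symm _ _ _ h'), h9⟩

theorem pc_cone (hF : Pure H X F) {e : V × V} {r x y : V} (he : (r, x) ∈ Pc H X F e)
    (h : F r x y) {a b : V} (hab : (a, b) ∈ Pc H X F e) : F a b y := by
  have hy : y ∈ X := (hF.tri _ _ _ h).2.2.1
  have key : ∀ z, ReflTransGen (Mv H X F) (r, x) z → F z.1 z.2 y := by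
    intro z hz
    induction hz with
    | refl => exact h
    | tail h1 h2 ih =>
      rename_i z z'
      rcases h2 with ⟨h3, h4⟩ | ⟨h3, h4⟩
      · rw [h3]
        obtain ⟨⟨g1, g2, g3, g4, g5, g6⟩, h5, -⟩ := h4
        by_cases ha : H.Adj z'.2 y
        · rcases hF.k _ _ _ z'.2 ih g3 g5.symm g6.symm ha with h6 | ⟨h6, -⟩
          · exact absurd h6 h5
          · exact h6
        · exact absurd (hF.d1 _ _ _ z'.2 ih g3 ha g5.symm g6.symm) h5
      · rw [h3, h4]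
        exact hF.symm _ _ _ ih
  have h2 : (a, b) ∈ Pc H X F (r, x) := by
    rw [Pc_eq he]; exact hab
  exact key (a, b) h2

theorem pc_unres (hF : Pure H X F) {e : V × V} {u v w : V} (ht : Tri H X u v w)
    (h1 : (u, v) ∈ Pc H X F e) (h2 : (u, w) ∈ Pc H X F e) (h3 : (v, w) ∈ Pc H X F e) :
    Unres H X F u v w := by
  refine ⟨ht, ?_, ?_, ?_⟩
  · intro h
    have h4 : F u w w := pc_cone hF h1 h h2
    exact H.irrefl (hF.tri _ _ _ h4).2.2.2.2.2
  · intro h
    have h4 : F u v v := pc_cone hF h2 h h1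
    exact H.irrefl (hF.tri _ _ _ h4).2.2.2.2.2
  · intro h
    have h4 : F u v u := pc_cone hF h3 h h1
    exact H.irrefl (hF.tri _ _ _ h4).2.2.2.2.1

end Pool.Agent.H8.CR
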