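import Pool.Agent.H8.CR.Pc1

/-!
# Clusters

* `link_cp`: `Link h x x'` implies `Cp F x h = Cp F x' h` (components at `x` and at `x'` containing `h`).
  If `F x x' h`: `Cp_class`. Otherwise the triangle is unresolved. It suffices to show: if
  `F h1 h2 x` and `(h1, x, x')` is a triangle unresolved then `F h1 h2 x'` and
  `(h2, x, x')` is an unresolved triangle (then follow the chain from `h`; the other inclusion by
  symmetry). First `x' ~ h2`: otherwise `d2` applied to `F h1' ..`: take the fact `F h2 h1 x` with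
  `u = h2`, `v = h1`, `w = x` and the vertex `x'` (`x' ≁ h2`, `x' ~ h1`, `x' ~ x`): `F x' h1 x`,
  contradiction. Now all four are adjacent. `k` for `F h1 h2 x` and `x'`: `F h1 h2 x'` or
  (`F h1 x' x` and ..); the second contradicts unresolved. So `F h1 h2 x'`, `F h1 h2 x`. The
  triangle `(h2, x, x')`: if `F h2 x x'`: `k` with the vertex `h1`: `F h2 x h1` (contradicts
  `F h1 h2 x`) or (`F h2 h1 x'` and `F x h1 x'`), the latter contradicts unresolved. If
  `F h2 x' x`: same with `x, x'` exchanged. If `F x x' h2`: `k` with `h1`: `F x x' h1` (contradiction)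
  or (`F x h1 h2` and ..), contradicts `F h1 h2 x`.
* `clus_step`: `F h h' x` and `Link h' x x'` imply `Link h x x'` and `F h h' x'`.
  First `x' ~ h`: otherwise `d2` applied to `F h h' x` (`u = h`, `v = h'`, `w = x`) and `x'`:
  `F x' h' x`, i.e. `F h' x' x`, contradiction to `Link h' x x'`. `k` for `F h h' x` and `x'`:
  `F h h' x'` or (`F h x' x` and `F h' x' x`), the latter contradicts `Link h' x x'`. So
  `F h h' x'`. If `F h x x'`: `k` with the vertex `h'`: `F h x h'` (contradicts `F h h' x`) or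
  (.. and `F x h' x'`), contradicts `Link h' x x'`. If `F h x' x`: `k` with `h'`:
  `F h x' h'` (contradicts `F h h' x'`) or (.. and `F x' h' x`), contradiction. So `Link h x x'`.
* `uc_cp`: `x' ∈ Uc h x ⇒ Cp F x' h = Cp F x h` (chain, `link_cp`).
* `uc_eq`: `h' ∈ Cp F x h ⇒ Uc h' x = Uc h x`. It suffices to treat one step: `F h h' x`
  (chain, note that `Cp F x h` does not change). `⊆`: along the chain of links at `h'` from `x`:
  invariant `F h h' z` and `z ∈ Uc h x` (`clus_step`). `⊇`: symmetric, `F h' h x`.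
* `uc_pc`: `x' ∈ Uc h x`, `(h, x) ∈ Pc e ⇒ (h, x') ∈ Pc e`. `uc_sub`: members of `Uc h x` are in `X` and
  adjacent to `h` (if `x` is).
* `uc_conn`: `Uc h x` is connected.
-/

namespace Pool.Agent.H8.CR

open Relation

variable {V : Type*} {H : SimpleGraph V} {X : Set V} {F : V → V → V → Prop}

theorem clus_step (hF : Pure H X F) {h h' x x' : V} (h1 : F h h' x) (h2 : Link H X F h' x x') :
    Link H X F h x x' ∧ F h h' x' := by
  obtain ⟨xh, xh', xx, ahh', ahx, ah'x⟩ := hF.tri _ _ _ h1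
  obtain ⟨⟨-, -, xx', -, ah'x', axx'⟩, n1, n2⟩ := h2
  have ahx' : H.Adj x' h := by
    by_contra hn
    exact n2 (hF.symm _ _ _ (hF.d2 h h' x x' h1 xx' hn ah'x'.symm axx'.symm))
  have h3 : F h h' x' := by
    rcases hF.k h h' x x' h1 xx' ahx' ah'x'.symm axx'.symm with h4 | ⟨-, h4⟩
    · exact h4
    · exact absurd h4 n2
  refine ⟨⟨⟨xh, xx, xx', ahx, ahx'.symm, axx'⟩, ?_, ?_⟩, h3⟩
  · intro h4
    rcases hF.k h x x' h' h4 xh' ahh'.symm ah'x ah'x' with h5 | ⟨-, h5⟩
    · exact hF.cons _ _ _ h1 h5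
    · exact n1 (hF.symm _ _ _ h5)
  · intro h4
    rcases hF.k h x' x h' h4 xh' ahh'.symm ah'x' ah'x with h5 | ⟨-, h5⟩
    · exact hF.cons _ _ _ h3 h5
    · exact n2 (hF.symm _ _ _ h5)

theorem Pc2_step (hF : Pure H X F) {h1 h2 x x' : V}
    (hu : Unres H X F h1 x x') (h : F h1 h2 x) :
    F h1 h2 x' ∧ Unres H X F h2 x x' := by
  obtain ⟨⟨y1, yx, yx', a1x, a1x', axx'⟩, n1, n2, n3⟩ := hu
  obtain ⟨-, y2, -, a12, -, a2x⟩ := hF.tri _ _ _ h
  have a2x' : H.Adj x' h2 := by
    by_contra hn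
    exact n2 (hF.symm _ _ _
      (hF.d2 h2 h1 x x' (hF.symm _ _ _ h) yx' hn a1x'.symm axx'.symm))
  have h3 : F h1 h2 x' := by
    rcases hF.k h1 h2 x x' h yx' a1x'.symm a2x' axx'.symm with h4 | ⟨h4, -⟩
    · exact h4
    · exact absurd h4 n2
  refine ⟨h3, ⟨y2, yx, yx', a2x, a2x'.symm, axx'⟩, ?_, ?_, ?_⟩
  · intro h4
    rcases hF.k h2 x x' h1 h4 y1 a12 a1x a1x' with h5 | ⟨-, h5⟩
    · exact hF.cons _ _ _ (hF.symm _ _ _ h) h5
    · exact n1 (hF.symm _ _ _ h5)
  · intro h4
    rcases hF.k h2 x' x h1 h4 y1 a12 a1x' a1x with h5 | ⟨-, h5⟩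
    · exact hF.cons _ _ _ (hF.symm _ _ _ h3) h5
    · exact n2 (hF.symm _ _ _ h5)
  · intro h4
    rcases hF.k x x' h2 h1 h4 y1 a1x a1x' a12 with h5 | ⟨h5, -⟩
    · exact n3 h5
    · exact hF.cons _ _ _ h (hF.symm _ _ _ h5)

theorem Pc2_sub (hF : Pure H X F) {h x x' : V} (hu : Unres H X F h x x') :
    Cp F x h ⊆ Cp F x' h := by
  have key : ∀ z, ReflTransGen (fun a b => F a b x) h z →
      ReflTransGen (fun a b => F a b x') h z ∧ Unres H X F z x x' := by
    intro z hz
    induction hz with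
    | refl => exact ⟨ReflTransGen.refl, hu⟩
    | tail _ h2 ih =>
      obtain ⟨h3, h4⟩ := Pc2_step hF ih.2 h2
      exact ⟨ReflTransGen.tail ih.1 h3, h4⟩
  intro z hz
  exact (key z hz).1

theorem Pc2_unres_symm {h x x' : V} (hu : Unres H X F h x x') (hF : Pure H X F) :
    Unres H X F h x' x := by
  obtain ⟨⟨y1, yx, yx', a1x, a1x', axx'⟩, n1, n2, n3⟩ := hu
  exact ⟨⟨y1, yx', yx, a1x', a1x, axx'.symm⟩, n2, n1, fun h4 => n3 (hF.symm _ _ _ h4)⟩

theorem link_cp (hF : Pure H X F) {h x x' : V} (hl : Link H X F h x x') :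
    Cp F x h = Cp F x' h := by
  by_cases hf : F x x' h
  · exact Cp_class hF hf
  · have hu : Unres H X F h x x' := ⟨hl.1, hl.2.1, hl.2.2, hf⟩
    exact Set.Subset.antisymm (Pc2_sub hF hu) (Pc2_sub hF (Pc2_unres_symm hu hF))

theorem uc_cp (hF : Pure H X F) {h x x' : V} (hx : x' ∈ Uc H X F h x) :
    Cp F x' h = Cp F x h := by
  have key : ∀ z, ReflTransGen (Link H X F h) x z → Cp F z h = Cp F x h := by
    intro z hz
    induction hz with
    | refl => rfl
    | tail _ h2 ih => rw [← ih, link_cp hF h2]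
  exact key x' hx

theorem Pc2_uc_sub (hF : Pure H X F) {h h' x : V} (hh : F h h' x) :
    Uc H X F h' x ⊆ Uc H X F h x := by
  have key : ∀ z, ReflTransGen (Link H X F h') x z →
      ReflTransGen (Link H X F h) x z ∧ F h h' z := by
    intro z hz
    induction hz with
    | refl => exact ⟨ReflTransGen.refl, hh⟩
    | tail _ h2 ih =>
      obtain ⟨h3, h4⟩ := clus_step hF ih.2 h2
      exact ⟨ReflTransGen.tail ih.1 h3, h4⟩
  intro z hz
  exact (key z hz).1

theorem uc_eq (hF : Pure H X F) {h h' x : V} (hh : h' ∈ Cp F x h) :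
    Uc H X F h' x = Uc H X F h x := by
  have key : ∀ z, ReflTransGen (fun a b => F a b x) h z →
      Uc H X F z x = Uc H X F h x := by
    intro z hz
    induction hz with
    | refl => rfl
    | tail _ h2 ih =>
      rw [← ih]
      exact Set.Subset.antisymm (Pc2_uc_sub hF h2) (Pc2_uc_sub hF (hF.symm _ _ _ h2))
  exact key h' hh

theorem uc_self (h x : V) : x ∈ Uc H X F h x := ReflTransGen.refl

theorem uc_symm {h x x' : V} (hx : x' ∈ Uc H X F h x) : Uc H X F h x' = Uc H X F h x := by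
  ext w
  constructor
  · intro hw
    exact ReflTransGen.trans hx hw
  · intro hw
    exact ReflTransGen.trans (comp1_symm (fun a b hab => Link_symm hab) hx) hw

theorem uc_pc {e : V × V} {h x x' : V} (he : (h, x) ∈ Pc H X F e) (hx : x' ∈ Uc H X F h x) :
    (h, x') ∈ Pc H X F e := by
  have key : ∀ z, ReflTransGen (Link H X F h) x z → (h, z) ∈ Pc H X F e := by
    intro z hz
    induction hz with
    | refl => exact he
    | tail _ h2 ih => exact Pc_link ih h2
  exact key x' hx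

theorem uc_sub {h x x' : V} (hh : x ∈ X) (hhx : H.Adj h x) (hx : x' ∈ Uc H X F h x) :
    x' ∈ X ∧ H.Adj h x' := by
  have hx' : ReflTransGen (Link H X F h) x x' := hx
  rcases hx'.cases_tail with h1 | ⟨c, _, h1⟩
  · rw [h1]
    exact ⟨hh, hhx⟩
  · obtain ⟨⟨-, -, h2, -, h3, -⟩, -, -⟩ := h1
    exact ⟨h2, h3⟩

theorem uc_conn (h x : V) : Conn H (Uc H X F h x) := by
  have key : ∀ u ∈ Uc H X F h x, Rch H (Uc H X F h x) x u := by
    intro u hu
    have hu' : ReflTransGen (Link H X F h) x u := hu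
    induction hu' with
    | refl => exact ReflTransGen.refl
    | tail hb hc ih =>
      have hb' : _ ∈ Uc H X F h x := hb
      exact ReflTransGen.tail (ih hb') ⟨hc.1.2.2.2.2.2, hb', hu⟩
  intro a ha b hb
  exact ReflTransGen.trans
    (comp1_symm (fun a b hab => ⟨hab.1.symm, hab.2.2, hab.2.1⟩) (key a ha)) (key b hb)

end Pool.Agent.H8.CR
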