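import Pool.Agent.H8.CR.Pc2

/-!
# Clean cuts

Let `(h, x)` be an edge of `X`, `P = Pc (h, x)`, and assume that no edge of `P` has a cone vertex:
`∀ (r, z) ∈ P, ∀ y, ¬ F r z y`. Let `A = Cp F x h`, `U = Uc h x`.

* `AU_mem`: for `p ∈ A`, `q ∈ U`: `p ~ q`, `(p, q) ∈ P`, `Cp F q p = A`, `Uc p q = U`.
  `Cp F q h = A` by `uc_cp`; so `p ∈ Cp F q h`, `p ~ q` (`Cp_sub`), `Cp F q p = A` (`Cp_eq`);
  `Uc p x = U` by `uc_eq`, and `q ∈ Uc p x`, so `Uc p q = U` (`uc_symm`). `(p, q) ∈ P`: `(h, q) ∈ P`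
  (`uc_pc`), and along the chain from `h` to `p` of facts `F a b q` we have
  `Link q a b` (`Link_of_fact`), so `(q, a) ∈ P ⇒ (q, b) ∈ P`.
* `nc_third`: `p ∈ A`, `q ∈ U`, `y ∈ X` adjacent to both: `y ∈ A` or `y ∈ U`. Not `F p q y` (no cone
  vertex). If `F p y q` then `y ∈ Cp F q p = A`. Otherwise `Link p q y` (not `F p q y`, not `F p y q`), so
  `y ∈ Uc p q = U`.
* `AU_disj`: `A ∩ U = ∅` (all pairs are adjacent).
* `nc_cut`: assume `Zp H X`. There is `W` with `A ⊆ W ⊆ X`, `U ∩ W = ∅`, and for `p ∈ W`, `q ∈ X \ W`: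
  `p ~ q ↔ p ∈ A ∧ q ∈ U`. Let `φ` be the indicator (values in `ZMod 2`) of the pairs in
  `A × U ∪ U × A`. It has zero sum on the triangles of `X`: if a triangle has a pair in
  `A × U`, the third vertex is in `A ∪ U` (`nc_third`), and exactly two of the pairs are in
  `A × U ∪ U × A`. So `φ a b = f a + f b` on edges. `W = {z ∈ X | f z = f h}`. `A` is connected and
  `φ = 0` inside, so `A ⊆ W`; `U` is connected (`uc_conn`), `f x ≠ f h`, so `U ∩ W = ∅`. An edge
  between `p ∈ W` and `q ∈ X \ W` has `φ p q = 1`, so `p ∈ A, q ∈ U` or `p ∈ U, q ∈ A`; the second is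
  impossible. The converse is `AU_mem`.
-/

namespace Pool.Agent.H8.CR

open Relation

variable {V : Type*} {H : SimpleGraph V} {X : Set V} {F : V → V → V → Prop} {h x : V}

theorem AU_mem (hF : Pure H X F) (hh : h ∈ X) (hx : x ∈ X) (hhx : H.Adj h x) {p q : V}
    (hp : p ∈ Cp F x h) (hq : q ∈ Uc H X F h x) :
    H.Adj p q ∧ (p, q) ∈ Pc H X F (h, x) ∧ Cp F q p = Cp F x h ∧
      Uc H X F p q = Uc H X F h x := by
  have hcp : Cp F q h = Cp F x h := uc_cp hF hq
  obtain ⟨hqX, hhq⟩ := uc_sub hx hhx hq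
  have hp' : p ∈ Cp F q h := by rw [hcp]; exact hp
  obtain ⟨-, hqp⟩ := Cp_sub hF hh hhq.symm hp'
  have huc : Uc H X F p x = Uc H X F h x := uc_eq hF hp
  have hq' : q ∈ Uc H X F p x := by rw [huc]; exact hq
  have hchain : ∀ z, ReflTransGen (fun a b => F a b q) h z → (q, z) ∈ Pc H X F (h, x) := by
    intro z hz
    induction hz with
    | refl => exact Pc_swap (uc_pc (Pc_self _) hq)
    | tail _ h2 ih => exact Pc_link ih (Link_of_fact hF h2)
  exact ⟨hqp.symm, Pc_swap (hchain p hp'), (Cp_eq hF hp').trans hcp, (uc_symm hq').trans huc⟩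

theorem nc_third (hF : Pure H X F) (hh : h ∈ X) (hx : x ∈ X) (hhx : H.Adj h x)
    (hnc : ∀ r z, (r, z) ∈ Pc H X F (h, x) → ∀ y, ¬ F r z y) {p q y : V}
    (hp : p ∈ Cp F x h) (hq : q ∈ Uc H X F h x) (hy : y ∈ X) (hyp : H.Adj y p)
    (hyq : H.Adj y q) : y ∈ Cp F x h ∨ y ∈ Uc H X F h x := by
  obtain ⟨h1, h2, h3, h4⟩ := AU_mem hF hh hx hhx hp hq
  have hpX := (Cp_sub hF hh hhx.symm hp).1
  have hqX := (uc_sub hx hhx hq).1
  have h5 := hnc p q h2 y
  by_cases h6 : F p y q
  · left
    rw [← h3]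
    exact ReflTransGen.single h6
  · right
    rw [← h4]
    exact ReflTransGen.single ⟨⟨hpX, hqX, hy, h1, hyp.symm, hyq.symm⟩, h5, h6⟩

theorem Pc3_zmod_ne {a b : ZMod 2} (h : a ≠ b) : a + b = 1 := by
  revert a b
  decide

theorem Pc3_zmod_zero {a b : ZMod 2} (h : 0 = a + b) : a = b := by
  revert a b
  decide

theorem nc_cut (hF : Pure H X F) (hh : h ∈ X) (hx : x ∈ X) (hhx : H.Adj h x)
    (hnc : ∀ r z, (r, z) ∈ Pc H X F (h, x) → ∀ y, ¬ F r z y) (hZ : Zp H X) :
    ∃ W : Set V, Cp F x h ⊆ W ∧ W ⊆ X ∧ (∀ q ∈ Uc H X F h x, q ∉ W) ∧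
      ∀ p ∈ W, ∀ q ∈ X, q ∉ W → (H.Adj p q ↔ p ∈ Cp F x h ∧ q ∈ Uc H X F h x) := by
  classical
  have hthird : ∀ p q y, p ∈ Cp F x h → q ∈ Uc H X F h x → y ∈ X → H.Adj y p → H.Adj y q →
      y ∈ Cp F x h ∨ y ∈ Uc H X F h x := fun p q y hp hq hy hyp hyq =>
    nc_third hF hh hx hhx hnc hp hq hy hyp hyq
  have hadj : ∀ p q, p ∈ Cp F x h → q ∈ Uc H X F h x → H.Adj p q := fun p q hp hq =>
    (AU_mem hF hh hx hhx hp hq).1
  have hconnA := Cp_conn hF x h
  have hconnU : Conn H (Uc H X F h x) := uc_conn h x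
  have hAX : ∀ p ∈ Cp F x h, p ∈ X := fun p hp => (Cp_sub hF hh hhx.symm hp).1
  have hUX : ∀ q ∈ Uc H X F h x, q ∈ X := fun q hq => (uc_sub hx hhx hq).1
  have hhA : h ∈ Cp F x h := Cp_self F x h
  have hxU : x ∈ Uc H X F h x := uc_self h x
  generalize Cp F x h = A at *
  generalize Uc H X F h x = U at *
  have hdisj : ∀ z, z ∈ A → z ∈ U → False := fun z h1 h2 => H.irrefl (hadj z z h1 h2)
  obtain ⟨f, hf⟩ := hZ (fun a b => if (a ∈ A ∧ b ∈ U) ∨ (a ∈ U ∧ b ∈ A) then 1 else 0)
    (by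
      intro a b
      have : ((a ∈ A ∧ b ∈ U) ∨ (a ∈ U ∧ b ∈ A)) ↔ ((b ∈ A ∧ a ∈ U) ∨ (b ∈ U ∧ a ∈ A)) := by
        tauto
      simp only [this])
    (by
      rintro a b c ⟨ha, hb, hc, hab, hac, hbc⟩
      have t1 := hthird a b c
      have t2 := hthird b a c
      have t3 := hthird b c a
      have t4 := hthird c b a
      have t5 := hthird a c b
      have t6 := hthird c a b
      have d1 := hdisj a
      have d2 := hdisj b
      have d3 := hdisj c
      by_cases ha1 : a ∈ A <;> by_cases ha2 : a ∈ U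
      · exact (d1 ha1 ha2).elim
      · by_cases hb1 : b ∈ A <;> by_cases hb2 : b ∈ U
        · exact (d2 hb1 hb2).elim
        · by_cases hc1 : c ∈ A <;> by_cases hc2 : c ∈ U
          · exact (d3 hc1 hc2).elim
          · simp [ha2, hb2, hc2]
          · simp [ha1, ha2, hb1, hb2, hc1, hc2]
            decide
          · simp [ha2, hb2, hc1, hc2]
        · by_cases hc1 : c ∈ A <;> by_cases hc2 : c ∈ U
          · exact (d3 hc1 hc2).elim
          · simp [ha1, ha2, hb1, hb2, hc1, hc2]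
            decide
          · simp [ha1, ha2, hb1, hb2, hc1, hc2]
            decide
          · exfalso
            rcases t1 ha1 hb2 hc hac.symm hbc.symm with h1 | h1
            · exact hc1 h1
            · exact hc2 h1
        · by_cases hc1 : c ∈ A <;> by_cases hc2 : c ∈ U
          · exact (d3 hc1 hc2).elim
          · simp [ha2, hb1, hb2, hc2]
          · exfalso
            rcases t5 ha1 hc2 hb hab.symm hbc with h1 | h1
            · exact hb1 h1
            · exact hb2 h1
          · simp [ha2, hb1, hb2, hc1, hc2]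
      · by_cases hb1 : b ∈ A <;> by_cases hb2 : b ∈ U
        · exact (d2 hb1 hb2).elim
        · by_cases hc1 : c ∈ A <;> by_cases hc2 : c ∈ U
          · exact (d3 hc1 hc2).elim
          · simp [ha1, ha2, hb1, hb2, hc1, hc2]
            decide
          · simp [ha1, ha2, hb1, hb2, hc1, hc2]
            decide
          · exfalso
            rcases t2 hb1 ha2 hc hbc.symm hac.symm with h1 | h1
            · exact hc1 h1
            · exact hc2 h1
        · by_cases hc1 : c ∈ A <;> by_cases hc2 : c ∈ U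
          · exact (d3 hc1 hc2).elim
          · simp [ha1, ha2, hb1, hb2, hc1, hc2]
            decide
          · simp [ha1, hb1, hc1]
          · simp [ha1, hb1, hc1, hc2]
        · by_cases hc1 : c ∈ A <;> by_cases hc2 : c ∈ U
          · exact (d3 hc1 hc2).elim
          · exfalso
            rcases t6 hc1 ha2 hb hbc hab.symm with h1 | h1
            · exact hb1 h1
            · exact hb2 h1
          · simp [ha1, hb1, hb2, hc1]
          · simp [ha1, hb1, hb2, hc1, hc2]
      · by_cases hb1 : b ∈ A <;> by_cases hb2 : b ∈ U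
        · exact (d2 hb1 hb2).elim
        · by_cases hc1 : c ∈ A <;> by_cases hc2 : c ∈ U
          · exact (d3 hc1 hc2).elim
          · simp [ha1, ha2, hb2, hc2]
          · exfalso
            rcases t3 hb1 hc2 ha hab hac with h1 | h1
            · exact ha1 h1
            · exact ha2 h1
          · simp [ha1, ha2, hb2, hc1, hc2]
        · by_cases hc1 : c ∈ A <;> by_cases hc2 : c ∈ U
          · exact (d3 hc1 hc2).elim
          · exfalso
            rcases t4 hc1 hb2 ha hac hab with h1 | h1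
            · exact ha1 h1
            · exact ha2 h1
          · simp [ha1, ha2, hb1, hc1]
          · simp [ha1, ha2, hb1, hc1, hc2]
        · simp [ha1, ha2, hb1, hb2])
  have hfA : ∀ p ∈ A, f p = f h := by
    intro p hp
    have hch := hconnA h hhA p hp
    unfold Rch at hch
    induction hch with
    | refl => rfl
    | @tail b c _ h2 ih =>
      obtain ⟨hbc, hb, hc⟩ := h2
      have h3 := hf b (hAX b hb) c (hAX c hc) hbc
      have hb2 : b ∉ U := fun h4 => hdisj b hb h4
      have hc2 : c ∉ U := fun h4 => hdisj c hc h4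
      simp only [hb2, hc2, and_false, false_and, or_false, if_false] at h3
      rw [← Pc3_zmod_zero h3]
      exact ih hb
  have hfU : ∀ p ∈ U, f p = f x := by
    intro p hp
    have hch := hconnU x hxU p hp
    unfold Rch at hch
    induction hch with
    | refl => rfl
    | @tail b c _ h2 ih =>
      obtain ⟨hbc, hb, hc⟩ := h2
      have h3 := hf b (hUX b hb) c (hUX c hc) hbc
      have hb2 : b ∉ A := fun h4 => hdisj b h4 hb
      have hc2 : c ∉ A := fun h4 => hdisj c h4 hc
      simp only [hb2, hc2, and_false, false_and, or_false, if_false] at h3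
      rw [← Pc3_zmod_zero h3]
      exact ih hb
  have hfx : f x ≠ f h := by
    intro h1
    have h3 := hf h hh x hx hhx
    simp only [hhA, hxU, and_self, true_or, if_true, h1] at h3
    rw [CharTwo.add_self_eq_zero] at h3
    exact one_ne_zero h3
  refine ⟨{z | z ∈ X ∧ f z = f h}, fun p hp => ⟨hAX p hp, hfA p hp⟩, fun z hz => hz.1, ?_, ?_⟩
  · rintro q hq ⟨-, h1⟩
    exact hfx (by rw [← hfU q hq]; exact h1)
  · rintro p ⟨hpX, hpf⟩ q hqX hqn
    constructor
    · intro hpq
      have hqf : f q ≠ f h := fun h1 => hqn ⟨hqX, h1⟩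
      have h3 := hf p hpX q hqX hpq
      have h4 : f p + f q = 1 := Pc3_zmod_ne (by rw [hpf]; exact hqf.symm)
      rw [h4] at h3
      by_contra hcon
      have h5 : (p ∈ A ∧ q ∈ U) ∨ (p ∈ U ∧ q ∈ A) := by
        by_contra h6
        simp only [h6, if_false] at h3
        exact zero_ne_one h3
      rcases h5 with h6 | h6
      · exact hcon h6
      · exact hfx (by rw [← hfU p h6.1]; exact hpf)
    · rintro ⟨hp, hq⟩
      exact hadj p q hp hq

end Pool.Agent.H8.CR
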