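import Pool.Agent.H8.CR.Bl1
import Pool.Agent.H8.CR.Bl2
import Pool.Agent.H8.CR.Tree5
import Pool.Agent.H8.CR.Comp3

/-!
# The solution of a piece without cone vertices

Setting: `NCd H X F P A W`, `Rep P A ρ`, `R = ρ '' Vx P`, a tree `t` with `t.supp = R`, `Valid H R t`, and
`Γ u v w := Sp t (ρ u) (ρ v) (ρ w)`. So `al H t` is pure and full on `R` (`al_pure`, `al_full`).
For `(u, v), (u, w), (v, w) ∈ P` the triple `ρ u, ρ v, ρ w` is a triangle in `R` (`ncd_n2`), so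
`Γ u v w ↔ al H t (ρ u) (ρ v) (ρ w)`.

* `sol_symm`: `Sp_symm`. `sol_cons`: `Sp_cons`. `sol_full`: `al_full`.
* `sol_d1`: `(x, u), (x, v) ∈ P`, `x ≁ w`. Then `ρ x ≁ ρ w` (`ncd_n3`: otherwise `(x, w) ∈ P`, adjacent).
  `Pure.d1` for `al H t`. `sol_d2`: similarly.
* `sol_k`: `Pure.k`.
* `sol_inv`: `F a d b` and `(a, b) ∈ P`: `d ∈ Cp F b a = A a` (`cp`), so `ρ d = ρ a`.
* `side_eq`: for `(x, h) ∈ P` the set `Side = {u | RTG (F u w x ∨ ((u,w) ∈ P ∧ (x,u) ∈ P ∧ (x,w) ∈ P ∧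
  Γ u w x)) h u}` equals `{u | u ∈ Vx P ∧ ρ u ∈ Cp (al H t) (ρ x) (ρ h)}`.
  `⊆`: invariant: `(x, u) ∈ P` and `ρ u ∈ Cp ..`. Step `F u w x`: `w ∈ Cp F x u = A u` (`cp` for
  `(u, x) ∈ P`), so `ρ w = ρ u` and `(w, x) ∈ P` (`pcl`). Step of the second kind: `al H t (ρ u) (ρ w) (ρ x)`.
  `⊇`: first, if `u ∈ Side` with `(x, u) ∈ P`, then `A u ⊆ Side`, as `A u = Cp F x u` is connected by
  steps `F a b x`. Follow the chain of `Cp (al H t) (ρ x) (ρ h)`: for `l ∈ R` reached, `l ∈ Side` and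
  `(x, l) ∈ P`: start: `ρ h ∈ A h`. Step `al H t l l' (ρ x)`: `l, l'` adjacent, `l', ρ x` adjacent, so
  `(l, l') ∈ P`, `(x, l') ∈ P` by `ncd_n3` (as `ρ l = l`), and `Γ l l' x` holds. Finally
  `u ∈ A (ρ u)`.
* `sol_zp`: `blow_zp` with `S = Side`, `Q = Cp (al H t) (ρ x) (ρ h)`: `Q ⊆ R`. Adjacency between different
  classes: `ncd_n1`, `ncd_n2`, `ncd_n3`. The class of `q ∈ Q` is `A q = Cp F x q`: connected
  (`Cp_conn`), `Zp` by hypothesis `hz`. `Zp H Q`: `Q` is closed and connected for `al H t`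
  (`Cp_closed`, `Cp_conn`), so `Dec H R Q` by `dec_of_closed` and `Zp_of_dec`.
-/

namespace Pool.Agent.H8.CR

open Relation

variable {V : Type*} {H : SimpleGraph V} {X : Set V} {F : V → V → V → Prop} {P : Set (V × V)}
  {A W : V → Set V} {ρ : V → V} {t : DT V}

theorem Sol1_mem (hs : t.supp = ρ '' Vx P) {u : V} (hu : u ∈ Vx P) : ρ u ∈ t.supp := by
  rw [hs]
  exact ⟨u, hu, rfl⟩

theorem Sol1_vx (h : NCd H X F P A W) {u v : V} (huv : (u, v) ∈ P) : u ∈ Vx P ∧ v ∈ Vx P :=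
  ⟨⟨v, huv⟩, ⟨u, h.sy u v huv⟩⟩

theorem Sol1_tri (h : NCd H X F P A W) (hρ : Rep P A ρ) (hs : t.supp = ρ '' Vx P) {u v w : V}
    (h1 : (u, v) ∈ P) (h2 : (u, w) ∈ P) (h3 : (v, w) ∈ P) :
    Tri H t.supp (ρ u) (ρ v) (ρ w) :=
  ⟨Sol1_mem hs (Sol1_vx h h1).1, Sol1_mem hs (Sol1_vx h h1).2, Sol1_mem hs (Sol1_vx h h2).2,
    (ncd_n2 h hρ h1).2, (ncd_n2 h hρ h2).2, (ncd_n2 h hρ h3).2⟩

theorem Sol1_valid (hs : t.supp = ρ '' Vx P) (ht : Valid H (ρ '' Vx P) t) :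
    Valid H t.supp t := by
  rw [hs]
  exact ht

theorem sol_fields (hF : Pure H X F) (h : NCd H X F P A W) (hρ : Rep P A ρ)
    (hs : t.supp = ρ '' Vx P) (ht : Valid H (ρ '' Vx P) t) :
    (∀ u v w, (u, v) ∈ P → (u, w) ∈ P → (v, w) ∈ P → Sp t (ρ u) (ρ v) (ρ w) →
      ¬ Sp t (ρ u) (ρ w) (ρ v)) ∧
    (∀ u v w, (u, v) ∈ P → (u, w) ∈ P → (v, w) ∈ P → Sp t (ρ u) (ρ v) (ρ w) ∨
      Sp t (ρ u) (ρ w) (ρ v) ∨ Sp t (ρ v) (ρ w) (ρ u)) ∧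
    (∀ u v w x, (u, v) ∈ P → (u, w) ∈ P → (v, w) ∈ P → (x, u) ∈ P → (x, v) ∈ P →
      ¬ H.Adj x w → Sp t (ρ u) (ρ v) (ρ w) → Sp t (ρ u) (ρ v) (ρ x)) ∧
    (∀ u v w x, (u, v) ∈ P → (u, w) ∈ P → (v, w) ∈ P → (x, v) ∈ P → (x, w) ∈ P →
      ¬ H.Adj x u → Sp t (ρ u) (ρ v) (ρ w) → Sp t (ρ x) (ρ v) (ρ w)) ∧
    (∀ a b c d, (a, b) ∈ P → (a, c) ∈ P → (b, c) ∈ P → (a, d) ∈ P → (b, d) ∈ P →
      (c, d) ∈ P → Sp t (ρ a) (ρ b) (ρ c) → Sp t (ρ a) (ρ b) (ρ d) ∨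
        (Sp t (ρ a) (ρ d) (ρ c) ∧ Sp t (ρ b) (ρ d) (ρ c))) := by
  have hG : Pure H t.supp (al H t) := al_pure (Sol1_valid hs ht) Set.Subset.rfl
  have hadj : ∀ {u v : V}, (u, v) ∈ P → H.Adj (ρ u) (ρ v) := fun huv => (ncd_n2 h hρ huv).2
  have hnadj : ∀ {x w : V}, x ∈ Vx P → w ∈ Vx P → ¬ H.Adj x w → ¬ H.Adj (ρ x) (ρ w) :=
    fun hx hw hn hc => hn (h.ad _ _ (ncd_n3 h hρ hx hw hc)).1
  refine ⟨?_, ?_, ?_, ?_, ?_⟩
  · intro u v w _ _ _ h4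
    exact Sp_cons ht h4
  · intro u v w h1 h2 h3
    rcases al_full t H _ _ _ (Sol1_tri h hρ hs h1 h2 h3) with h4 | h4 | h4
    · exact Or.inl h4.2
    · exact Or.inr (Or.inl h4.2)
    · exact Or.inr (Or.inr h4.2)
  · intro u v w x h1 h2 h3 h4 h5 hn hsp
    exact (hG.d1 _ _ _ (ρ x) ⟨Sol1_tri h hρ hs h1 h2 h3, hsp⟩ (Sol1_mem hs (Sol1_vx h h4).1)
      (hnadj (Sol1_vx h h4).1 (Sol1_vx h h2).2 hn) (hadj h4) (hadj h5)).2
  · intro u v w x h1 h2 h3 h4 h5 hn hsp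
    exact (hG.d2 _ _ _ (ρ x) ⟨Sol1_tri h hρ hs h1 h2 h3, hsp⟩ (Sol1_mem hs (Sol1_vx h h4).1)
      (hnadj (Sol1_vx h h4).1 (Sol1_vx h h1).1 hn) (hadj h4) (hadj h5)).2
  · intro a b c d h1 h2 h3 h4 h5 h6 hsp
    rcases hG.k _ _ _ (ρ d) ⟨Sol1_tri h hρ hs h1 h2 h3, hsp⟩ (Sol1_mem hs (Sol1_vx h h4).2)
      (hadj h4).symm (hadj h5).symm (hadj h6).symm with h7 | h7
    · exact Or.inl h7.2
    · exact Or.inr ⟨h7.1.2, h7.2.2⟩

theorem side_eq (hF : Pure H X F) (h : NCd H X F P A W) (hρ : Rep P A ρ)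
    (hs : t.supp = ρ '' Vx P) (ht : Valid H (ρ '' Vx P) t) {x a : V} (hxa : (x, a) ∈ P) :
    {u | ReflTransGen (fun u w => F u w x ∨ ((u, w) ∈ P ∧ (x, u) ∈ P ∧ (x, w) ∈ P ∧
      Sp t (ρ u) (ρ w) (ρ x))) a u} = {u | u ∈ Vx P ∧ ρ u ∈ Cp (al H t) (ρ x) (ρ a)} := by
  set r : V → V → Prop := fun u w => F u w x ∨ ((u, w) ∈ P ∧ (x, u) ∈ P ∧ (x, w) ∈ P ∧
      Sp t (ρ u) (ρ w) (ρ x)) with hr
  have claim1 : ∀ v w, ReflTransGen r a v → (x, v) ∈ P → w ∈ A v → ReflTransGen r a w := by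
    intro v w h1 h2 h3
    have h4 : w ∈ Cp F x v := by
      rw [← h.cp v x (h.sy x v h2)]
      exact h3
    have h5 : ReflTransGen (fun a b => F a b x) v w := h4
    exact h1.trans (ReflTransGen.mono (fun a b hab => Or.inl hab) _ _ h5)
  apply Set.Subset.antisymm
  · intro u hu
    have hu' : ReflTransGen r a u := hu
    have key : (x, u) ∈ P ∧ ρ u ∈ Cp (al H t) (ρ x) (ρ a) := by
      clear hu
      induction hu' with
      | refl => exact ⟨hxa, Cp_self _ _ _⟩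
      | @tail u w _ hstep ih =>
        obtain ⟨h1, h2⟩ := ih
        have hux := h.sy x u h1
        rcases hstep with h3 | ⟨h3, h4, h5, h6⟩
        · have h7 : w ∈ A u := by
            rw [h.cp u x hux]
            exact ReflTransGen.single h3
          have h8 : ρ w = ρ u := hρ.eq u ⟨x, hux⟩ w h7
          refine ⟨h.sy _ _ (h.pcl u ⟨x, hux⟩ w h7 x hux), ?_⟩
          rw [h8]
          exact h2
        · refine ⟨h5, ?_⟩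
          have h9 : ReflTransGen (fun a b => al H t a b (ρ x)) (ρ a) (ρ u) := h2
          exact h9.tail ⟨Sol1_tri h hρ hs h3 hux (h.sy _ _ h5), h6⟩
    exact ⟨⟨x, h.sy _ _ key.1⟩, key.2⟩
  · rintro u ⟨hu, hq⟩
    have claim2 : ∀ l, ReflTransGen (fun a b => al H t a b (ρ x)) (ρ a) l →
        ReflTransGen r a l ∧ (x, l) ∈ P ∧ ρ l = l := by
      intro l hl
      have haV := (Sol1_vx h hxa).2
      induction hl with
      | refl =>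
        have h1 := hρ.mem a haV
        refine ⟨claim1 a (ρ a) ReflTransGen.refl hxa h1, ?_, (ncd_rho h hρ haV).2.2.1⟩
        exact h.sy _ _ (h.pcl a haV (ρ a) h1 x (h.sy _ _ hxa))
      | @tail l l' _ hstep ih =>
        obtain ⟨i1, i2, i3⟩ := ih
        obtain ⟨⟨t1, t2, t3, t4, t5, t6⟩, hsp⟩ := hstep
        rw [hs] at t2
        obtain ⟨b, hb, rfl⟩ := t2
        obtain ⟨b1, b2, b3, b4, b5, b6⟩ := ncd_rho h hρ hb
        have hlV := (Sol1_vx h i2).2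
        have hxV := (Sol1_vx h i2).1
        have e1 : (l, ρ b) ∈ P := ncd_n3 h hρ hlV b1 (by rw [i3, b3]; exact t4)
        have e2 : (x, ρ b) ∈ P := ncd_n3 h hρ hxV b1 (by rw [b3]; exact t6.symm)
        refine ⟨i1.tail (Or.inr ⟨e1, i2, e2, ?_⟩), e2, b3⟩
        rw [i3, b3]
        exact hsp
    obtain ⟨c1, c2, c3⟩ := claim2 (ρ u) hq
    exact claim1 (ρ u) u c1 c2 (ncd_rho h hρ hu).2.2.2.1

theorem sol_zp (hF : Pure H X F) (hz : ∀ y ∈ X, ∀ v ∈ X, H.Adj y v → Zp H (Cp F y v))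
    (h : NCd H X F P A W) (hρ : Rep P A ρ)
    (hs : t.supp = ρ '' Vx P) (ht : Valid H (ρ '' Vx P) t) {x a : V} (hxa : (x, a) ∈ P) :
    Zp H {u | u ∈ Vx P ∧ ρ u ∈ Cp (al H t) (ρ x) (ρ a)} := by
  have ht' := Sol1_valid hs ht
  have hG : Pure H t.supp (al H t) := al_pure ht' Set.Subset.rfl
  have hxV := (Sol1_vx h hxa).1
  have haV := (Sol1_vx h hxa).2
  have hxm : ρ x ∈ t.supp := Sol1_mem hs hxV
  have ham : ρ a ∈ t.supp := Sol1_mem hs haV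
  have hxadj : H.Adj (ρ x) (ρ a) := (ncd_n2 h hρ hxa).2
  have hQ : ∀ q ∈ Cp (al H t) (ρ x) (ρ a), q ∈ Vx P ∧ ρ q = q ∧ q ∈ t.supp ∧ (x, q) ∈ P := by
    intro q hq
    obtain ⟨h1, h2⟩ := Cp_sub hG ham hxadj hq
    have h1' := h1
    rw [hs] at h1
    obtain ⟨b, hb, rfl⟩ := h1
    obtain ⟨b1, b2, b3, b4, b5, b6⟩ := ncd_rho h hρ hb
    exact ⟨b1, b3, h1', ncd_n3 h hρ hxV b1 (by rw [b3]; exact h2)⟩
  have hfib : ∀ q ∈ Cp (al H t) (ρ x) (ρ a), {u | u ∈ {u | u ∈ Vx P ∧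
      ρ u ∈ Cp (al H t) (ρ x) (ρ a)} ∧ ρ u = q} = Cp F x q := by
    intro q hq
    obtain ⟨q1, q2, q3, q4⟩ := hQ q hq
    rw [← h.cp q x (h.sy _ _ q4)]
    ext u
    constructor
    · rintro ⟨⟨hu, -⟩, rfl⟩
      exact (ncd_rho h hρ hu).2.2.2.1
    · intro hu
      have h1 : ρ u = q := (hρ.eq q q1 u hu).trans q2
      exact ⟨⟨ncd_sub h q1 hu, by rw [h1]; exact hq⟩, h1⟩
  refine blow_zp (Q := Cp (al H t) (ρ x) (ρ a)) (ρ := ρ) (fun u hu => hu.2) ?_ ?_ ?_ ?_ ?_ ?_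
  · intro q hq
    obtain ⟨q1, q2, q3, q4⟩ := hQ q hq
    exact ⟨q1, by rw [q2]; exact hq⟩
  · intro q hq
    exact (hQ q hq).2.1
  · rintro u ⟨hu, -⟩ v ⟨hv, -⟩ hne
    constructor
    · intro huv
      rcases ncd_n1 h hu hv huv with h1 | h1
      · exact (ncd_n2 h hρ h1).2
      · exact absurd (hρ.eq u hu v h1).symm hne
    · intro huv
      exact (h.ad _ _ (ncd_n3 h hρ hu hv huv)).1
  · intro q hq
    rw [hfib q hq]
    exact Cp_conn hF x q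
  · intro q hq
    rw [hfib q hq]
    obtain ⟨h1, h2, h3⟩ := h.ad _ _ (hQ q hq).2.2.2
    exact hz x h2 q h3 h1
  · have hsub : Cp (al H t) (ρ x) (ρ a) ⊆ t.supp := fun q hq => (hQ q hq).2.2.1
    exact Zp_of_dec (dec_of_closed ht' Set.Subset.rfl ⟨ρ a, Cp_self _ _ _⟩
      (Cp_conn hG (ρ x) (ρ a)) (Cp_closed hG hxm ham hxadj)) hsub

theorem psol_nc (hF : Pure H X F) (hz : ∀ y ∈ X, ∀ v ∈ X, H.Adj y v → Zp H (Cp F y v))
    (h : NCd H X F P A W) (hρ : Rep P A ρ)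
    (hs : t.supp = ρ '' Vx P) (ht : Valid H (ρ '' Vx P) t) :
    PSol H X F P (fun u v w => Sp t (ρ u) (ρ v) (ρ w)) := by
  obtain ⟨h1, h2, h3, h4, h5⟩ := sol_fields hF h hρ hs ht
  refine ⟨fun u v w h => Sp_symm h, h1, h2, h3, h4, h5, ?_, ?_⟩
  · intro a b c d hab _ _ hd _
    have hd' : d ∈ A a := by
      rw [h.cp a b hab]
      exact ReflTransGen.single hd
    have : ρ d = ρ a := hρ.eq a ⟨b, hab⟩ d hd'
    rw [this]
    exact ⟨Iff.rfl, Iff.rfl⟩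
  · intro x a hxa
    rw [side_eq hF h hρ hs ht hxa]
    exact sol_zp hF hz h hρ hs ht hxa

end Pool.Agent.H8.CR
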