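import Pool.Agent.H8.CR.Tree3

/-!
# Split lemma: the simple cases

Setting (`SpH`): `W ⊆ E`, `a0 ∈ W`, and the edges between `W` and `E \ W` form a complete bipartite graph
between `A = {x ∈ W | x has a neighbour in E \ W}` and `U = N(a0) \ W`; `a0 ∈ A` (unless there are
no such edges). `SpI t t'` says that the tree `t'` is a decomposition tree (ambient set
`insert a0 (E \ W)`) for the set obtained from `supp t` by contracting `supp t ∩ W` to `a0`,
together with compatibility statements.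

* `spi_in`: `supp t ⊆ W`: the leaf `a0`.
* `spi_out`: `supp t ∩ W = ∅`: `t` itself. (`Valid.mono`, `insert a0 (E \ W) ⊆ E`; `a0 ∉ supp t`, so
  `S \ {a0}` and `insert a0 S` agree with `S` on `supp t`: `TC_congr`.)
* `spi_swap`: exchange the sides of the root of the first tree.
* `spi_drop`: `t = node l r`, `supp r ⊆ W`, `l` meets both `W` and `E \ W`. Then `l'` works for `t`.
  (`TC H S (node l r)` implies `TC H S l`. The supports: `l` meets `W`.)
* `exists_A`: if `t` is valid, `supp t ⊆ E` and `supp t` meets `W` and the complement of `W`, then there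
  is `x ∈ supp t ∩ W` and `q ∈ supp t \ W` with `x ~ q` (connectivity, `supp_conn`).
* `spi_one`: `t = node l r`, `supp r ∩ W = ∅`, `supp l ∩ W ≠ ∅`. Then `node l' r` works. There is
  `a1 ∈ supp l ∩ W` with a neighbour in `E \ W`: if `supp l ⊄ W` by `exists_A`; otherwise the edge
  between `l` and `r` (from `Cut`) has its left end in `W`. By `h1`, `h2`: for `q ∈ E \ W`:
  `a0 ~ q ↔ a1 ~ q`; and every `x ∈ W` that has a neighbour `q ∈ E \ W` satisfies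
  `x ~ q' ↔ a0 ~ q'` for all `q' ∈ E \ W`. The support of `l'` is `(supp l \ W) ∪ {a0}`.
  `Cut`: replace `a0` by `a1` in the completeness condition of the old cut.
  Ambient condition for `u ∈ insert a0 (E \ W)` outside: `u ≠ a0` (`a0 ∈ supp l'`), `u ∈ E \ W`,
  `u ∉ supp l`; from `NC (supp l) (supp r) N(u)`: first alternative: `a1 ≁ u`, so `a0 ≁ u` and `N(u)` misses
  `supp l'`. Third alternative: for a cross edge `a0 b`, `a1 b` is an old cross edge, so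
  `a1 ~ u`, `a0 ~ u` and `b ~ u`.
  `tc0` (S misses `W ∩ supp t`): `NC` for `S \ {a0}`: first alternative fine; third: a cross edge
  `a0 b` would give the old cross edge `a1 b` with `a1 ∈ S`, impossible; the other cross edges are old.
  `tc1` (S contains `A ∩ supp t`, hence `a1`): first alternative impossible; second: `a0 ∉ supp r`;
  third: `a0 ∈ insert a0 S`, `b ∈ S` since `a1 b` is an old cross edge.
  `TC` for `r`: `TC_congr` (`a0 ∉ supp r`).
-/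

namespace Pool.Agent.H8.CR

variable {V : Type*} {H : SimpleGraph V}

/-- The hypotheses of the split lemma. -/
structure SpH (H : SimpleGraph V) (E W : Set V) (a0 : V) : Prop where
  hW : W ⊆ E
  ha : a0 ∈ W
  h1 : ∀ p ∈ W, ∀ q ∈ E, q ∉ W → H.Adj p q → H.Adj a0 q
  h2 : ∀ p ∈ W, ∀ q ∈ E, q ∉ W → H.Adj p q → ∀ q' ∈ E, q' ∉ W → H.Adj a0 q' → H.Adj p q'

/-- The invariant of the recursion in the split lemma. -/
structure SpI (H : SimpleGraph V) (E W : Set V) (a0 : V) (t t' : DT V) : Prop where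
  supp : t'.supp = {x | (x ∈ t.supp ∧ x ∉ W) ∨ (x = a0 ∧ ∃ w ∈ t.supp, w ∈ W)}
  valid : Valid H (insert a0 (E \ W)) t'
  tc0 : ∀ S, TC H S t → (∀ x ∈ t.supp, x ∈ W → x ∉ S) → TC H (S \ {a0}) t'
  tc1 : ∀ S, TC H S t → (∀ x ∈ t.supp, x ∈ W → (∃ q ∈ E, q ∉ W ∧ H.Adj x q) → x ∈ S) →
    TC H (insert a0 S) t'

variable {E W : Set V} {a0 : V}

theorem spi_in (h : SpH H E W a0) {t : DT V} (ht : t.supp ⊆ W) : SpI H E W a0 t (.leaf a0) := by
  refine ⟨?_, trivial, fun _ _ _ => trivial, fun _ _ _ => trivial⟩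
  ext x
  constructor
  · intro hx
    obtain ⟨w, hw⟩ := supp_nonempty t
    exact Or.inr ⟨hx, w, hw, ht hw⟩
  · rintro (⟨h1, h2⟩ | ⟨h1, -⟩)
    · exact absurd (ht h1) h2
    · exact h1

theorem spla_mono (h : SpH H E W a0) : insert a0 (E \ W) ⊆ E := by
  rintro x (hx | hx)
  · rw [hx]
    exact h.hW h.ha
  · exact hx.1

theorem spla_sdiff (h : SpH H E W a0) {t : DT V} (ht : ∀ x ∈ t.supp, x ∉ W) {S : Set V}
    (hS : TC H S t) : TC H (S \ {a0}) t := by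
  refine (TC_congr fun a ha => ?_).1 hS
  have hne : a ≠ a0 := fun e => ht a ha (e ▸ h.ha)
  exact ⟨fun haS => ⟨haS, hne⟩, fun haS => haS.1⟩

theorem spla_insert (h : SpH H E W a0) {t : DT V} (ht : ∀ x ∈ t.supp, x ∉ W) {S : Set V}
    (hS : TC H S t) : TC H (insert a0 S) t := by
  refine (TC_congr fun a ha => ?_).1 hS
  have hne : a ≠ a0 := fun e => ht a ha (e ▸ h.ha)
  exact ⟨fun haS => Or.inr haS, fun haS => haS.resolve_left hne⟩

theorem spi_out (h : SpH H E W a0) {t : DT V} (hv : Valid H E t) (ht : ∀ x ∈ t.supp, x ∉ W) :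
    SpI H E W a0 t t := by
  refine ⟨?_, hv.mono (spla_mono h), fun S hS _ => spla_sdiff h ht hS,
    fun S hS _ => spla_insert h ht hS⟩
  ext x
  constructor
  · intro hx
    exact Or.inl ⟨hx, ht x hx⟩
  · rintro (⟨h1, -⟩ | ⟨-, w, hw, hwW⟩)
    · exact h1
    · exact absurd hwW (ht w hw)

theorem spi_swap {l r t' : DT V} (h : SpI H E W a0 (.node r l) t') :
    SpI H E W a0 (.node l r) t' := by
  have hs : (DT.node l r).supp = (DT.node r l).supp := Set.union_comm _ _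
  refine ⟨?_, h.valid, fun S hS hn => h.tc0 S (TC_swap hS) ?_,
    fun S hS hn => h.tc1 S (TC_swap hS) ?_⟩
  · rw [hs]
    exact h.supp
  · rw [← hs]
    exact hn
  · rw [← hs]
    exact hn

theorem spi_drop {l r l' : DT V} (hr : r.supp ⊆ W) (hl : ∃ x ∈ l.supp, x ∈ W)
    (h : SpI H E W a0 l l') : SpI H E W a0 (.node l r) l' := by
  refine ⟨?_, h.valid, fun S hS hn => h.tc0 S hS.2.1 fun x hx => hn x (Or.inl hx),
    fun S hS hn => h.tc1 S hS.2.1 fun x hx => hn x (Or.inl hx)⟩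
  rw [h.supp]
  ext x
  constructor
  · rintro (⟨h1, h2⟩ | ⟨h1, w, hw, hwW⟩)
    · exact Or.inl ⟨Or.inl h1, h2⟩
    · exact Or.inr ⟨h1, w, Or.inl hw, hwW⟩
  · rintro (⟨h1, h2⟩ | ⟨h1, -⟩)
    · rcases h1 with h1 | h1
      · exact Or.inl ⟨h1, h2⟩
      · exact absurd (hr h1) h2
    · exact Or.inr ⟨h1, hl⟩

theorem exists_A {t : DT V} (hv : Valid H E t) (hE : t.supp ⊆ E) (h1 : ∃ x ∈ t.supp, x ∈ W)
    (h2 : ∃ x ∈ t.supp, x ∉ W) : ∃ x ∈ t.supp, x ∈ W ∧ ∃ q ∈ t.supp, q ∉ W ∧ H.Adj x q := by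
  obtain ⟨x, hx, hxW⟩ := h1
  obtain ⟨y, hy, hyW⟩ := h2
  obtain ⟨a, ha, b, hb, haA, hbB, hab⟩ := cross_of_rch (H := H) (A := t.supp ∩ W)
    (B := t.supp \ W) (S := t.supp)
    (Set.disjoint_left.2 fun z hz hz' => hz'.2 hz.2)
    (fun z hz => by
      by_cases hzW : z ∈ W
      · exact Or.inl ⟨hz, hzW⟩
      · exact Or.inr ⟨hz, hzW⟩)
    ⟨hx, hxW⟩ ⟨hy, hyW⟩ (supp_conn hv hE x hx y hy)
  exact ⟨a, ha, haA.2, b, hb, hbB.2, hab⟩

theorem spi_one (h : SpH H E W a0) {l r l' : DT V} (hv : Valid H E (.node l r))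
    (hE : (DT.node l r).supp ⊆ E) (hr : ∀ x ∈ r.supp, x ∉ W) (hl : ∃ x ∈ l.supp, x ∈ W)
    (hI : SpI H E W a0 l l') : SpI H E W a0 (.node l r) (.node l' r) := by
  obtain ⟨⟨hd, ⟨p, hp, q, hq, hpq⟩, hcomp⟩, hamb, hvl, hvr⟩ := hv
  have hlE : l.supp ⊆ E := fun x hx => hE (Or.inl hx)
  have hrE : r.supp ⊆ E := fun x hx => hE (Or.inr hx)
  obtain ⟨a1, ha1, ha1W, q1, hq1, hq1W, haq1⟩ :
      ∃ a1 ∈ l.supp, a1 ∈ W ∧ ∃ q1 ∈ E, q1 ∉ W ∧ H.Adj a1 q1 := by
    by_cases hh : ∃ x ∈ l.supp, x ∉ W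
    · obtain ⟨x, hx, hxW, q, hq, hqW, hxq⟩ := exists_A hvl hlE hl hh
      exact ⟨x, hx, hxW, q, hlE hq, hqW, hxq⟩
    · push Not at hh
      exact ⟨p, hp, hh p hp, q, hrE hq, hr q hq, hpq⟩
  have key1 : ∀ q ∈ E, q ∉ W → (H.Adj a0 q ↔ H.Adj a1 q) := fun q hq hqW =>
    ⟨fun h' => h.h2 a1 ha1W q1 hq1 hq1W haq1 q hq hqW h', fun h' => h.h1 a1 ha1W q hq hqW h'⟩
  have hmem : ∀ x, x ∈ l'.supp ↔ (x ∈ l.supp ∧ x ∉ W) ∨ (x = a0 ∧ ∃ w ∈ l.supp, w ∈ W) := by
    intro x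
    rw [hI.supp]
    rfl
  have ha0 : a0 ∈ l'.supp := (hmem a0).2 (Or.inr ⟨rfl, hl⟩)
  have hrep : ∀ x ∈ l'.supp, ∃ x' ∈ l.supp, ∀ q ∈ E, q ∉ W → (H.Adj x q ↔ H.Adj x' q) := by
    intro x hx
    rcases (hmem x).1 hx with ⟨h1, -⟩ | ⟨h1, -⟩
    · exact ⟨x, h1, fun _ _ _ => Iff.rfl⟩
    · refine ⟨a1, ha1, fun q hq hqW => ?_⟩
      rw [h1]
      exact key1 q hq hqW
  have hne : ∀ b ∈ r.supp, b ≠ a0 := fun b hb e => hr b hb (e ▸ h.ha)
  refine ⟨?_, ?_, ?_, ?_⟩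
  · ext x
    constructor
    · rintro (hx | hx)
      · rcases (hmem x).1 hx with ⟨h1, h2⟩ | ⟨h1, w, hw, hwW⟩
        · exact Or.inl ⟨Or.inl h1, h2⟩
        · exact Or.inr ⟨h1, w, Or.inl hw, hwW⟩
      · exact Or.inl ⟨Or.inr hx, hr x hx⟩
    · rintro (⟨h1, h2⟩ | ⟨h1, -⟩)
      · rcases h1 with h1 | h1
        · exact Or.inl ((hmem x).2 (Or.inl ⟨h1, h2⟩))
        · exact Or.inr h1
      · exact Or.inl ((hmem x).2 (Or.inr ⟨h1, hl⟩))
  · refine ⟨⟨?_, ?_, ?_⟩, ?_, hI.valid, hvr.mono (spla_mono h)⟩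
    · refine Set.disjoint_left.2 fun x hx hxr => ?_
      rcases (hmem x).1 hx with ⟨h1, -⟩ | ⟨h1, -⟩
      · exact Set.disjoint_left.1 hd h1 hxr
      · exact hne x hxr h1
    · by_cases hpW : p ∈ W
      · exact ⟨a0, ha0, q, hq, h.h1 p hpW q (hrE hq) (hr q hq) hpq⟩
      · exact ⟨p, (hmem p).2 (Or.inl ⟨hp, hpW⟩), q, hq, hpq⟩
    · intro a ha b hb a' ha' b' hb' hab hab'
      obtain ⟨x, hx, hxq⟩ := hrep a ha
      obtain ⟨x', hx', hxq'⟩ := hrep a' ha'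
      exact (hxq b' (hrE hb') (hr b' hb')).2
        (hcomp x hx b hb x' hx' b' hb' ((hxq b (hrE hb) (hr b hb)).1 hab)
          ((hxq' b' (hrE hb') (hr b' hb')).1 hab'))
    · intro u hu hul hur
      have hua : u ≠ a0 := fun e => hul (e ▸ ha0)
      obtain ⟨huE, huW⟩ := hu.resolve_left hua
      have hul' : u ∉ l.supp := fun h' => hul ((hmem u).2 (Or.inl ⟨h', huW⟩))
      rcases hamb u huE hul' hur with h1 | h1 | h1
      · refine Or.inl fun a ha hau => ?_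
        obtain ⟨x, hx, hxq⟩ := hrep a ha
        have h2 : H.Adj u a := hau
        exact h1 x hx (show H.Adj u x from ((hxq u huE huW).1 h2.symm).symm)
      · exact Or.inr (Or.inl h1)
      · refine Or.inr (Or.inr fun a ha b hb hab => ?_)
        obtain ⟨x, hx, hxq⟩ := hrep a ha
        obtain ⟨h2, h3⟩ := h1 x hx b hb ((hxq b (hrE hb) (hr b hb)).1 hab)
        have h4 : H.Adj u x := h2
        exact ⟨show H.Adj u a from ((hxq u huE huW).2 h4.symm).symm, h3⟩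
  · intro S hS hn
    refine ⟨?_, hI.tc0 S hS.2.1 fun x hx => hn x (Or.inl hx), spla_sdiff h hr hS.2.2⟩
    rcases hS.1 with h1 | h1 | h1
    · refine Or.inl fun a ha haS => ?_
      rcases (hmem a).1 ha with ⟨h2, -⟩ | ⟨h2, -⟩
      · exact h1 a h2 haS.1
      · exact haS.2 h2
    · exact Or.inr (Or.inl fun b hb hbS => h1 b hb hbS.1)
    · refine Or.inr (Or.inr fun a ha b hb hab => ?_)
      rcases (hmem a).1 ha with ⟨h2, h3⟩ | ⟨h2, -⟩
      · obtain ⟨h4, h5⟩ := h1 a h2 b hb hab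
        exact ⟨⟨h4, fun e => h3 (by rw [show a = a0 from e]; exact h.ha)⟩, h5, hne b hb⟩
      · rw [h2] at hab
        obtain ⟨h4, -⟩ := h1 a1 ha1 b hb ((key1 b (hrE hb) (hr b hb)).1 hab)
        exact absurd h4 (hn a1 (Or.inl ha1) ha1W)
  · intro S hS hn
    refine ⟨?_, hI.tc1 S hS.2.1 fun x hx => hn x (Or.inl hx), spla_insert h hr hS.2.2⟩
    rcases hS.1 with h1 | h1 | h1
    · exact absurd (hn a1 (Or.inl ha1) ha1W ⟨q1, hq1, hq1W, haq1⟩) (h1 a1 ha1)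
    · exact Or.inr (Or.inl fun b hb hbS => h1 b hb (hbS.resolve_left (hne b hb)))
    · refine Or.inr (Or.inr fun a ha b hb hab => ?_)
      rcases (hmem a).1 ha with ⟨h2, -⟩ | ⟨h2, -⟩
      · obtain ⟨h4, h5⟩ := h1 a h2 b hb hab
        exact ⟨Or.inr h4, Or.inr h5⟩
      · rw [h2] at hab
        obtain ⟨-, h5⟩ := h1 a1 ha1 b hb ((key1 b (hrE hb) (hr b hb)).1 hab)
        exact ⟨Or.inl h2, Or.inr h5⟩

end Pool.Agent.H8.CR
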