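import Pool.Agent.H8.CR.Tree2

/-!
# Replacing a leaf by a tree

Trees `l`, `r` whose supports have exactly the vertex `a0` in common, `X2 ⊆ supp r` contains `a0`, and
outside of `a0` the edges between `supp l` and `supp r` are: `x ~ z ↔ x ~ a0 ∧ z ∈ X2`.

* `sub_valid`: induction on `l`, generalizing nothing else (all hypotheses are inherited by the subtree
  that contains `a0`). Leaf: `l.sub a0 r = r` (as `a0 ∈ supp l`). Node `p q`; say `a0 ∈ p.supp`
  (`a0 ∉ q.supp` by disjointness; the other case is symmetric), `q.sub a0 r = q`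
  (`sub_of_notMem`), `(p.sub a0 r).supp = p.supp \ {a0} ∪ r.supp` (`supp_sub`).
  - Hypotheses for `p`: `hQ1`, `hQ2` for `u ∈ q.supp` follow from `hadj` (`u ∈ l.supp`, `u ≠ a0`).
  - `Valid H E' q`: `valid_upgrade` from the ambient set `E' ∩ E1`; for `u ∈ E' \ E1` we have
    `u ∈ r.supp` (by `hE`); then for `x ∈ q.supp`: `x ~ u ↔ x ~ a0 ∧ u ∈ X2`. If `u ∈ X2` then
    `N(u)` and `N(a0)` agree on `q.supp`, and `TC H N(a0) q` by `TC_nb` (`a0 ∈ E1`) and `TC_congr`;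
    if `u ∉ X2` use `TC_disj`.
  - `Cut` for `p' = p.sub a0 r` and `q`: disjoint as `r.supp ∩ l.supp = {a0}`; an edge: the old one
    (`a0 ∈ r.supp`); completeness: `z ∈ r.supp` behaves on `q.supp` like `a0` if `z ∈ X2` and has no
    neighbour there otherwise.
  - Ambient condition: `u ∈ E'`, `u ∉ p'.supp`, `u ∉ q.supp`; so `u ∉ r.supp`, `u ≠ a0`, `u ∉ l.supp`,
    `u ∈ E1`. `NC p q N(u)`: first alternative (`N(u)` misses `p`): `u ≁ a0`, and `hQ2` gives: `N(u)` misses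
    `l.supp` (so it misses `q`) or `N(u)` misses `r.supp` (so it misses `p'`). Second alternative: same.
    Third: a new cross edge `z y` (`z ∈ r.supp`, `y ∈ q`) has `y ~ a0`, `z ∈ X2`; `a0 y` is an old cross edge,
    so `u ~ a0`, `u ~ y`, and `u ~ z` by `hQ1`.
* `sub_TC`: the same induction for `TC`.
-/

namespace Pool.Agent.H8.CR

variable {V : Type*} {H : SimpleGraph V}

theorem Sub_mem {p r : DT V} {a0 : V} (h0 : a0 ∈ p.supp) {x : V} :
    x ∈ (p.sub a0 r).supp ↔ (x ∈ p.supp ∧ x ≠ a0) ∨ x ∈ r.supp := by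
  rw [supp_sub h0]
  rfl

theorem Sub_step {p q r : DT V} {a0 : V} {X2 E' E1 : Set V} (hcut : Cut H p.supp q.supp)
    (hamb : ∀ u ∈ E1, u ∉ p.supp → u ∉ q.supp → NC H p.supp q.supp (H.neighborSet u))
    (hq : Valid H E1 q) (h0 : a0 ∈ p.supp) (h0' : a0 ∈ X2) (hX2 : X2 ⊆ r.supp)
    (hd : ∀ x, x ∈ p.supp ∨ x ∈ q.supp → x ∈ r.supp → x = a0) (ha : a0 ∈ E1)
    (hE : ∀ u ∈ E', u ∉ r.supp → u ∈ E1)
    (hadj : ∀ x, x ∈ p.supp ∨ x ∈ q.supp → x ≠ a0 → ∀ z ∈ r.supp,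
      (H.Adj x z ↔ H.Adj x a0 ∧ z ∈ X2))
    (hQ1 : ∀ u ∈ E', u ∉ p.supp → u ∉ q.supp → u ∉ r.supp → H.Adj u a0 → ∀ z ∈ X2, H.Adj u z)
    (hQ2 : ∀ u ∈ E', u ∉ p.supp → u ∉ q.supp → u ∉ r.supp → ¬ H.Adj u a0 →
      (∀ x, x ∈ p.supp ∨ x ∈ q.supp → ¬ H.Adj u x) ∨ (∀ z ∈ r.supp, ¬ H.Adj u z)) :
    Cut H (p.sub a0 r).supp q.supp ∧
      (∀ u ∈ E', u ∉ (p.sub a0 r).supp → u ∉ q.supp →
        NC H (p.sub a0 r).supp q.supp (H.neighborSet u)) ∧ Valid H E' q := by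
  obtain ⟨hdj, ⟨a1, ha1, b1, hb1, hab1⟩, hcomp⟩ := hcut
  have hq0 : a0 ∉ q.supp := fun h => Set.disjoint_left.1 hdj h0 h
  have har : a0 ∈ r.supp := hX2 h0'
  have hne : ∀ y ∈ q.supp, y ≠ a0 := fun y hy h => hq0 (h ▸ hy)
  have hrep : ∀ x ∈ (p.sub a0 r).supp, ∃ x0 ∈ p.supp, ∃ c : Prop, ∀ y ∈ q.supp,
      (H.Adj x y ↔ H.Adj x0 y ∧ c) := by
    intro x hx
    rcases (Sub_mem h0).1 hx with ⟨hx, hxa⟩ | hx
    · exact ⟨x, hx, True, fun y hy => (and_true _).symm.to_iff⟩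
    · refine ⟨a0, h0, x ∈ X2, fun y hy => ?_⟩
      rw [H.adj_comm x y, H.adj_comm a0 y]
      exact hadj y (Or.inr hy) (hne y hy) x hx
  refine ⟨⟨?_, ?_, ?_⟩, ?_, ?_⟩
  · rw [Set.disjoint_left]
    intro x hx hxq
    rcases (Sub_mem h0).1 hx with ⟨hx, hxa⟩ | hx
    · exact Set.disjoint_left.1 hdj hx hxq
    · exact hne x hxq (hd x (Or.inr hxq) hx)
  · refine ⟨a1, (Sub_mem h0).2 ?_, b1, hb1, hab1⟩
    by_cases h : a1 = a0
    · exact Or.inr (h ▸ har)
    · exact Or.inl ⟨ha1, h⟩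
  · intro a hap b hb a' hap' b' hb' hab hab'
    obtain ⟨x0, hx0, c, hc⟩ := hrep a hap
    obtain ⟨x1, hx1, c', hc'⟩ := hrep a' hap'
    have h1 := (hc b hb).1 hab
    have h2 := (hc' b' hb').1 hab'
    exact (hc b' hb').2 ⟨hcomp x0 hx0 b hb x1 hx1 b' hb' h1.1 h2.1, h1.2⟩
  · intro u hu hup huq
    have hur : u ∉ r.supp := fun h => hup ((Sub_mem h0).2 (Or.inr h))
    have hup' : u ∉ p.supp := by
      intro h
      by_cases hua : u = a0
      · exact hur (hua ▸ har)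
      · exact hup ((Sub_mem h0).2 (Or.inl ⟨h, hua⟩))
    rcases hamb u (hE u hu hur) hup' huq with h | h | h
    · have hua : ¬ H.Adj u a0 := h a0 h0
      rcases hQ2 u hu hup' huq hur hua with h3 | h3
      · exact Or.inr (Or.inl fun b hb => h3 b (Or.inr hb))
      · refine Or.inl fun a hap => ?_
        rcases (Sub_mem h0).1 hap with ⟨hx, -⟩ | hx
        · exact h a hx
        · exact h3 a hx
    · exact Or.inr (Or.inl h)
    · refine Or.inr (Or.inr fun a hap b hb hab => ?_)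
      rcases (Sub_mem h0).1 hap with ⟨hx, -⟩ | hx
      · exact h a hx b hb hab
      · have h4 := (hadj b (Or.inr hb) (hne b hb) a hx).1 hab.symm
        have h5 := h a0 h0 b hb h4.1.symm
        exact ⟨hQ1 u hu hup' huq hur h5.1 a h4.2, h5.2⟩
  · refine valid_upgrade (X := E' ∩ E1) (hq.mono Set.inter_subset_right) ?_
    intro u hu hu1
    have hur : u ∈ r.supp := by
      by_contra h
      exact hu1 ⟨hu, hE u hu h⟩
    by_cases hux : u ∈ X2
    · refine (TC_congr ?_).2 (TC_nb hq ha hq0)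
      intro x hx
      have h6 := hadj x (Or.inr hx) (hne x hx) u hur
      show H.Adj u x ↔ H.Adj a0 x
      rw [H.adj_comm u x, H.adj_comm a0 x, h6]
      exact and_iff_left hux
    · refine TC_disj fun x hx h => ?_
      have h6 := hadj x (Or.inr hx) (hne x hx) u hur
      exact hux (h6.1 (SimpleGraph.Adj.symm h)).2

theorem Sub_NC {p q r : DT V} {a0 : V} {X2 S : Set V} (hcut : Cut H p.supp q.supp)
    (hNC : NC H p.supp q.supp S) (h0 : a0 ∈ p.supp)
    (hadj : ∀ x, x ∈ p.supp ∨ x ∈ q.supp → x ≠ a0 → ∀ z ∈ r.supp,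
      (H.Adj x z ↔ H.Adj x a0 ∧ z ∈ X2))
    (hc : (a0 ∈ S ∧ X2 ⊆ S) ∨ (a0 ∉ S ∧ ((∀ x, x ∈ p.supp ∨ x ∈ q.supp → x ∉ S) ∨
      (∀ z ∈ r.supp, z ∉ S)))) :
    NC H (p.sub a0 r).supp q.supp S := by
  have hq0 : a0 ∉ q.supp := fun h => Set.disjoint_left.1 hcut.1 h0 h
  have hne : ∀ y ∈ q.supp, y ≠ a0 := fun y hy h => hq0 (h ▸ hy)
  rcases hNC with h | h | h
  · rcases hc with ⟨h1, -⟩ | ⟨-, h1 | h1⟩
    · exact absurd h1 (h a0 h0)
    · exact Or.inr (Or.inl fun b hb => h1 b (Or.inr hb))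
    · refine Or.inl fun a hap => ?_
      rcases (Sub_mem h0).1 hap with ⟨hx, -⟩ | hx
      · exact h a hx
      · exact h1 a hx
  · exact Or.inr (Or.inl h)
  · refine Or.inr (Or.inr fun a hap b hb hab => ?_)
    rcases (Sub_mem h0).1 hap with ⟨hx, -⟩ | hx
    · exact h a hx b hb hab
    · have h4 := (hadj b (Or.inr hb) (hne b hb) a hx).1 hab.symm
      have h5 := h a0 h0 b hb h4.1.symm
      rcases hc with ⟨-, h1⟩ | ⟨h1, -⟩
      · exact ⟨h1 h4.2, h5.2⟩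
      · exact absurd h5.1 h1

theorem sub_valid {l r : DT V} {a0 : V} {X2 E' E1 : Set V} (hl : Valid H E1 l)
    (hr : Valid H E' r) (h0 : a0 ∈ l.supp) (h0' : a0 ∈ X2) (hX2 : X2 ⊆ r.supp)
    (hd : ∀ x ∈ l.supp, x ∈ r.supp → x = a0) (ha : a0 ∈ E1)
    (hE : ∀ u ∈ E', u ∉ r.supp → u ∈ E1)
    (hadj : ∀ x ∈ l.supp, x ≠ a0 → ∀ z ∈ r.supp, (H.Adj x z ↔ H.Adj x a0 ∧ z ∈ X2))
    (hQ1 : ∀ u ∈ E', u ∉ l.supp → u ∉ r.supp → H.Adj u a0 → ∀ z ∈ X2, H.Adj u z)
    (hQ2 : ∀ u ∈ E', u ∉ l.supp → u ∉ r.supp → ¬ H.Adj u a0 →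
      (∀ x ∈ l.supp, ¬ H.Adj u x) ∨ (∀ z ∈ r.supp, ¬ H.Adj u z)) :
    Valid H E' (l.sub a0 r) := by
  induction l with
  | leaf v =>
    have hv : v = a0 := (show a0 = v from h0).symm
    simp only [DT.sub, if_pos hv]
    exact hr
  | node p q ihp ihq =>
    obtain ⟨h1, h2, h3, h4⟩ := hl
    have har : a0 ∈ r.supp := hX2 h0'
    rcases h0 with h0 | h0
    · have hq0 : a0 ∉ q.supp := fun h => Set.disjoint_left.1 h1.1 h0 h
      obtain ⟨k1, k2, k3⟩ := Sub_step (r := r) (X2 := X2) (E' := E') h1 h2 h4 h0 h0' hX2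
        (fun x hx => hd x hx) ha hE (fun x hx => hadj x hx)
        (fun u hu hup huq hur => hQ1 u hu (fun h => h.elim hup huq) hur)
        (fun u hu hup huq hur hua => (hQ2 u hu (fun h => h.elim hup huq) hur hua).imp
          (fun h x hx => h x hx) id)
      show Valid H E' (.node (p.sub a0 r) (q.sub a0 r))
      rw [sub_of_notMem hq0]
      refine ⟨k1, k2, ihp h3 h0 (fun x hx => hd x (Or.inl hx)) (fun x hx => hadj x (Or.inl hx))
        ?_ ?_, k3⟩
      · intro u hu hup hur hua z hz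
        by_cases huq : u ∈ q.supp
        · exact (hadj u (Or.inr huq) (fun h => hq0 (h ▸ huq)) z (hX2 hz)).2 ⟨hua, hz⟩
        · exact hQ1 u hu (fun h => h.elim hup huq) hur hua z hz
      · intro u hu hup hur hua
        by_cases huq : u ∈ q.supp
        · exact Or.inr fun z hz h =>
            hua ((hadj u (Or.inr huq) (fun h => hq0 (h ▸ huq)) z hz).1 h).1
        · exact (hQ2 u hu (fun h => h.elim hup huq) hur hua).imp
            (fun h x hx => h x (Or.inl hx)) id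
    · have hp0 : a0 ∉ p.supp := fun h => Set.disjoint_left.1 h1.1 h h0
      obtain ⟨k1, k2, k3⟩ := Sub_step (r := r) (X2 := X2) (E' := E') h1.symm
        (fun u hu huq hup => (h2 u hu hup huq).symm) h3 h0 h0' hX2
        (fun x hx => hd x hx.symm) ha hE (fun x hx => hadj x hx.symm)
        (fun u hu huq hup hur => hQ1 u hu (fun h => h.elim hup huq) hur)
        (fun u hu huq hup hur hua => (hQ2 u hu (fun h => h.elim hup huq) hur hua).imp
          (fun h x hx => h x hx.symm) id)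
      show Valid H E' (.node (p.sub a0 r) (q.sub a0 r))
      rw [sub_of_notMem hp0]
      refine ⟨k1.symm, fun u hu hup huq => (k2 u hu huq hup).symm, k3,
        ihq h4 h0 (fun x hx => hd x (Or.inr hx)) (fun x hx => hadj x (Or.inr hx)) ?_ ?_⟩
      · intro u hu huq hur hua z hz
        by_cases hup : u ∈ p.supp
        · exact (hadj u (Or.inl hup) (fun h => hp0 (h ▸ hup)) z (hX2 hz)).2 ⟨hua, hz⟩
        · exact hQ1 u hu (fun h => h.elim hup huq) hur hua z hz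
      · intro u hu huq hur hua
        by_cases hup : u ∈ p.supp
        · exact Or.inr fun z hz h =>
            hua ((hadj u (Or.inl hup) (fun h => hp0 (h ▸ hup)) z hz).1 h).1
        · exact (hQ2 u hu (fun h => h.elim hup huq) hur hua).imp
            (fun h x hx => h x (Or.inr hx)) id

theorem sub_TC {l r : DT V} {a0 : V} {X2 E1 S : Set V} (hv : Valid H E1 l) (hl : TC H S l)
    (hr : TC H S r) (h0 : a0 ∈ l.supp) (h0' : a0 ∈ X2) (hX2 : X2 ⊆ r.supp)
    (hd : ∀ x ∈ l.supp, x ∈ r.supp → x = a0)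
    (hadj : ∀ x ∈ l.supp, x ≠ a0 → ∀ z ∈ r.supp, (H.Adj x z ↔ H.Adj x a0 ∧ z ∈ X2))
    (hc : (a0 ∈ S ∧ X2 ⊆ S) ∨ (a0 ∉ S ∧ ((∀ x ∈ l.supp, x ∉ S) ∨ (∀ z ∈ r.supp, z ∉ S)))) :
    TC H S (l.sub a0 r) := by
  induction l with
  | leaf v =>
    have hv : v = a0 := (show a0 = v from h0).symm
    simp only [DT.sub, if_pos hv]
    exact hr
  | node p q ihp ihq =>
    obtain ⟨h1, h2, h3, h4⟩ := hv
    obtain ⟨t1, t2, t3⟩ := hl
    rcases h0 with h0 | h0
    · have hq0 : a0 ∉ q.supp := fun h => Set.disjoint_left.1 h1.1 h0 h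
      show TC H S (.node (p.sub a0 r) (q.sub a0 r))
      rw [sub_of_notMem hq0]
      refine ⟨Sub_NC h1 t1 h0 (fun x hx => hadj x hx)
        (hc.imp id (And.imp id (Or.imp (fun h x hx => h x hx) id))),
        ihp h3 t2 h0 (fun x hx => hd x (Or.inl hx)) (fun x hx => hadj x (Or.inl hx))
        (hc.imp id (And.imp id (Or.imp (fun h x hx => h x (Or.inl hx)) id))), t3⟩
    · have hp0 : a0 ∉ p.supp := fun h => Set.disjoint_left.1 h1.1 h h0
      show TC H S (.node (p.sub a0 r) (q.sub a0 r))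
      rw [sub_of_notMem hp0]
      refine ⟨(Sub_NC h1.symm t1.symm h0 (fun x hx => hadj x hx.symm)
        (hc.imp id (And.imp id (Or.imp (fun h x hx => h x hx.symm) id)))).symm, t2,
        ihq h4 t3 h0 (fun x hx => hd x (Or.inr hx)) (fun x hx => hadj x (Or.inr hx))
        (hc.imp id (And.imp id (Or.imp (fun h x hx => h x (Or.inr hx)) id)))⟩

end Pool.Agent.H8.CR
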