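import Pool.Agent.H8.CR.SplA
import Pool.Agent.H8.CR.Sub

/-!
# Split lemma: both sides meet both parts

`t = node l r` valid, `supp t ⊆ E`, both `supp l` and `supp r` meet `W` and the complement of `W`; `SpI` for
`l, l'` and for `r, r'`. Then `l'.sub a0 r'` works for `t`.

By `exists_A` there are `a1 ∈ supp l ∩ W`, `u1 ∈ supp l \ W` adjacent, and `a2 ∈ supp r ∩ W`,
`u2 ∈ supp r \ W` adjacent. By `h1`, `h2`: `a0 ~ u1, u2`; every vertex of `W` which has a neighbour in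
`E \ W` has there exactly the neighbours of `a0`. So `a1 ~ u2` and `a2 ~ u1` are cross edges; by
completeness of the cut `a1 ~ a2` and `u1 ~ u2`.

(F) For `x ∈ supp l \ W`, `z ∈ supp r \ W`: `x ~ z ↔ x ~ a0 ∧ z ~ a0`.
  `⇐`: `x ~ a2` and `a1 ~ z` are cross edges, completeness gives `x ~ z`. `⇒`: `a1 ~ u2`, `x ~ z` give
  `a1 ~ z`, so `a0 ~ z`; `x ~ z`, `u1 ~ a2` give `x ~ a2`, so `a0 ~ x`.
(G) if `S` is compatible with `t` and contains `a1` and `a2`, or contains `u1, u2`, then all cross edges of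
  `t` have both ends in `S`. If `S` misses `W ∩ supp t` then `S` misses `supp l` or `supp r` (the third
  alternative of `NC` would give `a1 ∈ S`, as `a1 u2` is a cross edge).

Supports: `supp l' = (supp l \ W) ∪ {a0}`, `supp r' = (supp r \ W) ∪ {a0}`; `supp_sub`.
Apply `sub_valid` with `X2 = {a0} ∪ {z ∈ supp r \ W | z ~ a0}`, `E' = E1 = insert a0 (E \ W)`.
`hadj` is (F) (for `z = a0`: `x ~ a0 ↔ x ~ a0 ∧ True`). `hQ1`: `u ∈ E \ W` outside `supp t`, `u ~ a0`: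
then `u ~ a1, a2` (`h2`), so `N(u)` contains both ends of all cross edges; `z ∈ X2`, `z ≠ a0`:
`a1 ~ z` is a cross edge, so `u ~ z`. `hQ2`: `u ≁ a0`: then `u` is not adjacent to `a1` (`h1`); so the third
alternative of `NC (supp l) (supp r) N(u)` fails: `N(u)` misses `supp l` or `supp r`, so it misses
`supp l'` or `supp r'` (`u ≁ a0`).
`tc0`, `tc1`: `sub_TC` with the set `S \ {a0}` (`a0` not in it, second case by (G)), and
`insert a0 S` (contains `a0`; `X2 ⊆ insert a0 S`: `S` contains `a1, a2`, hence all ends of cross edges,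
and `z ∈ X2 \ {a0}` is the end of the cross edge `a1 z`).
-/

namespace Pool.Agent.H8.CR

variable {V : Type*} {H : SimpleGraph V} {E W : Set V} {a0 : V}

theorem spi_two (h : SpH H E W a0) {l r l' r' : DT V} (hv : Valid H E (.node l r))
    (hE : (DT.node l r).supp ⊆ E) (hl1 : ∃ x ∈ l.supp, x ∈ W) (hl2 : ∃ x ∈ l.supp, x ∉ W)
    (hr1 : ∃ x ∈ r.supp, x ∈ W) (hr2 : ∃ x ∈ r.supp, x ∉ W)
    (hIl : SpI H E W a0 l l') (hIr : SpI H E W a0 r r') :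
    SpI H E W a0 (.node l r) (l'.sub a0 r') := by
  obtain ⟨hcut, hamb, hvl, hvr⟩ := hv
  obtain ⟨hdj, -, hcomp⟩ := hcut
  have hLE : l.supp ⊆ E := fun x hx => hE (Or.inl hx)
  have hRE : r.supp ⊆ E := fun x hx => hE (Or.inr hx)
  obtain ⟨a1, ha1, ha1W, u1, hu1, hu1W, h11⟩ := exists_A hvl hLE hl1 hl2
  obtain ⟨a2, ha2, ha2W, u2, hu2, hu2W, h22⟩ := exists_A hvr hRE hr1 hr2
  have hp1 : ∀ q ∈ E, q ∉ W → (H.Adj a1 q ↔ H.Adj a0 q) := fun q hq hqW =>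
    ⟨fun h' => h.h1 a1 ha1W q hq hqW h',
      fun h' => h.h2 a1 ha1W u1 (hLE hu1) hu1W h11 q hq hqW h'⟩
  have hp2 : ∀ q ∈ E, q ∉ W → (H.Adj a2 q ↔ H.Adj a0 q) := fun q hq hqW =>
    ⟨fun h' => h.h1 a2 ha2W q hq hqW h',
      fun h' => h.h2 a2 ha2W u2 (hRE hu2) hu2W h22 q hq hqW h'⟩
  have b1 : H.Adj a1 u2 := (hp1 u2 (hRE hu2) hu2W).2 ((hp2 u2 (hRE hu2) hu2W).1 h22)
  have b2 : H.Adj a2 u1 := (hp2 u1 (hLE hu1) hu1W).2 ((hp1 u1 (hLE hu1) hu1W).1 h11)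
  have b3 : H.Adj a1 a2 := hcomp a1 ha1 u2 hu2 u1 hu1 a2 ha2 b1 b2.symm
  have hF : ∀ x ∈ l.supp, x ∉ W → ∀ z ∈ r.supp, z ∉ W →
      (H.Adj x z ↔ H.Adj x a0 ∧ H.Adj z a0) := by
    intro x hx hxW z hz hzW
    constructor
    · intro hxz
      have c1 : H.Adj a1 z := hcomp a1 ha1 u2 hu2 x hx z hz b1 hxz
      have c2 : H.Adj x a2 := hcomp x hx z hz u1 hu1 a2 ha2 hxz b2.symm
      exact ⟨((hp2 x (hLE hx) hxW).1 c2.symm).symm, ((hp1 z (hRE hz) hzW).1 c1).symm⟩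
    · rintro ⟨c1, c2⟩
      have c3 : H.Adj a2 x := (hp2 x (hLE hx) hxW).2 c1.symm
      have c4 : H.Adj a1 z := (hp1 z (hRE hz) hzW).2 c2.symm
      exact hcomp x hx a2 ha2 a1 ha1 z hz c3.symm c4
  have hG : ∀ S : Set V, NC H l.supp r.supp S → a1 ∈ S → a2 ∈ S →
      ∀ a ∈ l.supp, ∀ b ∈ r.supp, H.Adj a b → a ∈ S ∧ b ∈ S := by
    intro S hS h1 h2
    rcases hS with h3 | h3 | h3
    · exact absurd h1 (h3 a1 ha1)
    · exact absurd h2 (h3 a2 ha2)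
    · exact h3
  have ml : ∀ x, x ∈ l'.supp ↔ (x ∈ l.supp ∧ x ∉ W) ∨ x = a0 := by
    intro x
    rw [hIl.supp]
    constructor
    · rintro (h1 | ⟨h1, -⟩)
      · exact Or.inl h1
      · exact Or.inr h1
    · rintro (h1 | h1)
      · exact Or.inl h1
      · exact Or.inr ⟨h1, hl1⟩
  have mr : ∀ x, x ∈ r'.supp ↔ (x ∈ r.supp ∧ x ∉ W) ∨ x = a0 := by
    intro x
    rw [hIr.supp]
    constructor
    · rintro (h1 | ⟨h1, -⟩)
      · exact Or.inl h1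
      · exact Or.inr h1
    · rintro (h1 | h1)
      · exact Or.inl h1
      · exact Or.inr ⟨h1, hr1⟩
  have h0 : a0 ∈ l'.supp := (ml a0).2 (Or.inr rfl)
  have hne : ∀ z, z ∉ W → z ≠ a0 := fun z hz hza => hz (hza ▸ h.ha)
  obtain ⟨X2, hX2def⟩ : ∃ X2 : Set V, X2 = {z | z = a0 ∨ (z ∈ r.supp ∧ z ∉ W ∧ H.Adj z a0)} :=
    ⟨_, rfl⟩
  have mX : ∀ z, z ∈ X2 ↔ z = a0 ∨ (z ∈ r.supp ∧ z ∉ W ∧ H.Adj z a0) := by
    intro z
    rw [hX2def]
    rfl
  have h0' : a0 ∈ X2 := (mX a0).2 (Or.inl rfl)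
  have hX2 : X2 ⊆ r'.supp := by
    intro z hz
    rcases (mX z).1 hz with h1 | ⟨h1, h2, -⟩
    · exact (mr z).2 (Or.inr h1)
    · exact (mr z).2 (Or.inl ⟨h1, h2⟩)
  have hd : ∀ x ∈ l'.supp, x ∈ r'.supp → x = a0 := by
    intro x hx hx'
    rcases (ml x).1 hx with ⟨h1, -⟩ | h1
    · rcases (mr x).1 hx' with ⟨h2, -⟩ | h2
      · exact absurd h2 (Set.disjoint_left.1 hdj h1)
      · exact h2
    · exact h1
  have hadj : ∀ x ∈ l'.supp, x ≠ a0 → ∀ z ∈ r'.supp, (H.Adj x z ↔ H.Adj x a0 ∧ z ∈ X2) := by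
    intro x hx hxa z hz
    rcases (ml x).1 hx with ⟨hx1, hx2⟩ | h1
    · rcases (mr z).1 hz with ⟨hz1, hz2⟩ | h2
      · rw [hF x hx1 hx2 z hz1 hz2, mX]
        constructor
        · rintro ⟨c1, c2⟩
          exact ⟨c1, Or.inr ⟨hz1, hz2, c2⟩⟩
        · rintro ⟨c1, c2 | ⟨-, -, c2⟩⟩
          · exact absurd c2 (hne z hz2)
          · exact ⟨c1, c2⟩
      · subst h2
        exact ⟨fun c => ⟨c, h0'⟩, fun c => c.1⟩
    · exact absurd h1 hxa
  have hout : ∀ u ∈ insert a0 (E \ W), u ∉ l'.supp → u ∉ r'.supp →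
      u ∈ E ∧ u ∉ W ∧ u ∉ l.supp ∧ u ∉ r.supp := by
    intro u hu hul hur
    have hua : u ≠ a0 := fun h' => hul ((ml u).2 (Or.inr h'))
    rcases hu with hu | hu
    · exact absurd hu hua
    · exact ⟨hu.1, hu.2, fun h' => hul ((ml u).2 (Or.inl ⟨h', hu.2⟩)),
        fun h' => hur ((mr u).2 (Or.inl ⟨h', hu.2⟩))⟩
  have hX1 : ∀ z ∈ X2, z ≠ a0 → z ∈ r.supp ∧ H.Adj a1 z := by
    intro z hz hza
    rcases (mX z).1 hz with h1 | ⟨h1, h2, h3⟩
    · exact absurd h1 hza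
    · exact ⟨h1, (hp1 z (hRE h1) h2).2 h3.symm⟩
  refine ⟨?_, ?_, ?_, ?_⟩
  · rw [supp_sub h0]
    ext x
    constructor
    · rintro (⟨hx, hxa⟩ | hx)
      · rcases (ml x).1 hx with ⟨h1, h2⟩ | h1
        · exact Or.inl ⟨Or.inl h1, h2⟩
        · exact absurd h1 hxa
      · rcases (mr x).1 hx with ⟨h1, h2⟩ | h1
        · exact Or.inl ⟨Or.inr h1, h2⟩
        · exact Or.inr ⟨h1, a1, Or.inl ha1, ha1W⟩
    · rintro (⟨hx, hxW⟩ | ⟨hx, -⟩)
      · rcases hx with hx | hx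
        · exact Or.inl ⟨(ml x).2 (Or.inl ⟨hx, hxW⟩), hne x hxW⟩
        · exact Or.inr ((mr x).2 (Or.inl ⟨hx, hxW⟩))
      · exact Or.inr ((mr x).2 (Or.inr hx))
  · refine sub_valid (E1 := insert a0 (E \ W)) (X2 := X2) hIl.valid hIr.valid h0 h0' hX2 hd
      (Or.inl rfl) (fun u hu _ => hu) hadj ?_ ?_
    · intro u hu hul hur hua z hz
      obtain ⟨huE, huW, huL, huR⟩ := hout u hu hul hur
      by_cases hza : z = a0
      · rw [hza]
        exact hua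
      · obtain ⟨hzR, hz1⟩ := hX1 z hz hza
        exact (hG _ (hamb u huE huL huR) ((hp1 u huE huW).2 hua.symm).symm
          ((hp2 u huE huW).2 hua.symm).symm a1 ha1 z hzR hz1).2
    · intro u hu hul hur hua
      obtain ⟨huE, huW, huL, huR⟩ := hout u hu hul hur
      rcases hamb u huE huL huR with h3 | h3 | h3
      · refine Or.inl fun x hx hux => ?_
        rcases (ml x).1 hx with ⟨h4, -⟩ | h4
        · exact h3 x h4 hux
        · exact hua (h4 ▸ hux)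
      · refine Or.inr fun x hx hux => ?_
        rcases (mr x).1 hx with ⟨h4, -⟩ | h4
        · exact h3 x h4 hux
        · exact hua (h4 ▸ hux)
      · have h4 : H.Adj u a1 := (h3 a1 ha1 a2 ha2 b3).1
        exact absurd ((hp1 u huE huW).1 h4.symm).symm hua
  · rintro S ⟨hN, hTl, hTr⟩ hS
    refine sub_TC (E1 := insert a0 (E \ W)) (X2 := X2) hIl.valid
      (hIl.tc0 S hTl fun x hx => hS x (Or.inl hx)) (hIr.tc0 S hTr fun x hx => hS x (Or.inr hx))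
      h0 h0' hX2 hd hadj (Or.inr ⟨fun h' => h'.2 rfl, ?_⟩)
    rcases hN with h3 | h3 | h3
    · refine Or.inl fun x hx hxS => ?_
      rcases (ml x).1 hx with ⟨h4, -⟩ | h4
      · exact h3 x h4 hxS.1
      · exact hxS.2 h4
    · refine Or.inr fun x hx hxS => ?_
      rcases (mr x).1 hx with ⟨h4, -⟩ | h4
      · exact h3 x h4 hxS.1
      · exact hxS.2 h4
    · exact absurd (h3 a1 ha1 a2 ha2 b3).1 (hS a1 (Or.inl ha1) ha1W)
  · rintro S ⟨hN, hTl, hTr⟩ hS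
    have hs1 : a1 ∈ S := hS a1 (Or.inl ha1) ha1W ⟨u1, hLE hu1, hu1W, h11⟩
    have hs2 : a2 ∈ S := hS a2 (Or.inr ha2) ha2W ⟨u2, hRE hu2, hu2W, h22⟩
    refine sub_TC (E1 := insert a0 (E \ W)) (X2 := X2) hIl.valid
      (hIl.tc1 S hTl fun x hx => hS x (Or.inl hx)) (hIr.tc1 S hTr fun x hx => hS x (Or.inr hx))
      h0 h0' hX2 hd hadj (Or.inl ⟨Or.inl rfl, ?_⟩)
    intro z hz
    by_cases hza : z = a0
    · exact Or.inl hza
    · obtain ⟨hzR, hz1⟩ := hX1 z hz hza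
      exact Or.inr (hG S hN hs1 hs2 a1 ha1 z hzR hz1).2

end Pool.Agent.H8.CR
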