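import Pool.Agent.H8.CR.SplB

/-!
# The split lemma

`split_tree`: for every tree `t`, valid with ambient set `E ⊇ supp t`, there is `t'` with `SpI t t'`.
Induction on `t`, using `spi_in` if `supp t ⊆ W`, `spi_out` if `supp t ∩ W = ∅`; otherwise `t = node l r`
(a leaf is in one of the two cases) and: `r ∩ W = ∅`: `spi_one` (then `l` meets `W`);
`l ∩ W = ∅`: the same with `valid_swap`, `spi_swap`; `r ⊆ W`: `l` meets `W` (else previous case):
`spi_drop`; `l ⊆ W`: swap; otherwise `spi_two`.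
`split`: apply it to `t` with `supp t = E`; if `E ∩ W ≠ ∅` (`a0 ∈ W ⊆ E`) the support of `t'` is
`insert a0 (E \ W)`.
-/

namespace Pool.Agent.H8.CR

variable {V : Type*} {H : SimpleGraph V} {E W : Set V} {a0 : V}

theorem split_tree (h : SpH H E W a0) (t : DT V) (hv : Valid H E t) (hE : t.supp ⊆ E) :
    ∃ t', SpI H E W a0 t t' := by
  induction t with
  | leaf v =>
    by_cases hvW : v ∈ W
    · refine ⟨.leaf a0, spi_in h ?_⟩
      intro x hx
      rw [show x = v from hx]
      exact hvW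
    · refine ⟨.leaf v, spi_out h hv ?_⟩
      intro x hx
      rw [show x = v from hx]
      exact hvW
  | node l r ihl ihr =>
    have hEl : l.supp ⊆ E := fun x hx => hE (Or.inl hx)
    have hEr : r.supp ⊆ E := fun x hx => hE (Or.inr hx)
    obtain ⟨l', hl'⟩ := ihl hv.2.2.1 hEl
    obtain ⟨r', hr'⟩ := ihr hv.2.2.2 hEr
    have hv' : Valid H E (.node r l) := valid_swap hv
    have hE' : (DT.node r l).supp ⊆ E := by
      rintro x (hx | hx)
      · exact hEr hx
      · exact hEl hx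
    by_cases l1 : ∃ x ∈ l.supp, x ∈ W
    · by_cases r1 : ∃ x ∈ r.supp, x ∈ W
      · by_cases l2 : ∃ x ∈ l.supp, x ∉ W
        · by_cases r2 : ∃ x ∈ r.supp, x ∉ W
          · exact ⟨_, spi_two h hv hE l1 l2 r1 r2 hl' hr'⟩
          · push Not at r2
            exact ⟨_, spi_drop r2 l1 hl'⟩
        · push Not at l2
          exact ⟨_, spi_swap (spi_drop l2 r1 hr')⟩
      · push Not at r1
        exact ⟨_, spi_one h hv hE r1 l1 hl'⟩
    · push Not at l1
      by_cases r1 : ∃ x ∈ r.supp, x ∈ W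
      · exact ⟨_, spi_swap (spi_one h hv' hE' l1 r1 hr')⟩
      · push Not at r1
        refine ⟨_, spi_out h hv ?_⟩
        rintro x (hx | hx)
        · exact l1 x hx
        · exact r1 x hx

theorem split (h : SpH H E W a0) (hD : Dec H E E) :
    Dec H (insert a0 (E \ W)) (insert a0 (E \ W)) := by
  obtain ⟨t, ht, hv⟩ := hD
  obtain ⟨t', h'⟩ := split_tree h t hv ht.le
  refine ⟨t', ?_, h'.valid⟩
  rw [h'.supp, ht]
  ext x
  constructor
  · rintro (⟨h1, h2⟩ | ⟨rfl, -⟩)
    · exact Or.inr ⟨h1, h2⟩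
    · exact Or.inl rfl
  · rintro (rfl | ⟨h1, h2⟩)
    · exact Or.inr ⟨rfl, _, h.hW h.ha, h.ha⟩
    · exact Or.inl ⟨h1, h2⟩

end Pool.Agent.H8.CR
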