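import Pool.Agent.H8.CR.Defs

/-!
# Basic facts about decomposition trees (all by structural induction on the tree)

* `supp_nonempty`, `supp_finite`.
* `NC.symm`, `NC.mono_congr` (`NC` only depends on `S ∩ (A ∪ B)`), `TC_congr` (`TC` only depends on
  `S ∩ supp`).
* `Valid.mono`: the ambient set can be made smaller. `valid_swap`: exchange the two sides of a node.
* `TC_univ`: a set containing the support is compatible; `TC_disj`: a set disjoint from the support
  is compatible.
* `Sp_mem`, `Sp_symm`, `Sp_cons`: `Sp t u v w` implies `u, v, w ∈ supp`; it is symmetric in `u, v`;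
  for a valid tree `Sp t u v w` and `Sp t u w v` exclude each other (the sides are disjoint).
* `valid_upgrade`: a tree that is valid with ambient set `X` is valid with ambient set `E` if the
  neighbourhoods of all `u ∈ E \ X` are compatible.
* `supp_sub`, `sub_of_notMem`: the support after replacing the leaf `a`.
* `dec_nonempty`, `dec_mono`, `dec_finite`.
-/

namespace Pool.Agent.H8.CR

variable {V : Type*} {H : SimpleGraph V} {E X : Set V}

theorem supp_nonempty (t : DT V) : t.supp.Nonempty := by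
  induction t with
  | leaf v => exact ⟨v, rfl⟩
  | node l r ihl ihr =>
    obtain ⟨a, ha⟩ := ihl
    exact ⟨a, Or.inl ha⟩

theorem supp_finite (t : DT V) : t.supp.Finite := by
  induction t with
  | leaf v => exact Set.finite_singleton v
  | node l r ihl ihr => exact ihl.union ihr

theorem NC.symm {A B S : Set V} (h : NC H A B S) : NC H B A S := by
  rcases h with h | h | h
  · exact Or.inr (Or.inl h)
  · exact Or.inl h
  · exact Or.inr (Or.inr fun b hb a ha hab => (h a ha b hb hab.symm).symm)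

theorem NC_congr {A B S S' : Set V} (hA : ∀ a ∈ A, a ∈ S ↔ a ∈ S') (hB : ∀ b ∈ B, b ∈ S ↔ b ∈ S') :
    NC H A B S ↔ NC H A B S' := by
  constructor
  · rintro (h | h | h)
    · exact Or.inl fun a ha h' => h a ha ((hA a ha).2 h')
    · exact Or.inr (Or.inl fun b hb h' => h b hb ((hB b hb).2 h'))
    · exact Or.inr (Or.inr fun a ha b hb hab =>
        ⟨(hA a ha).1 (h a ha b hb hab).1, (hB b hb).1 (h a ha b hb hab).2⟩)
  · rintro (h | h | h)
    · exact Or.inl fun a ha h' => h a ha ((hA a ha).1 h')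
    · exact Or.inr (Or.inl fun b hb h' => h b hb ((hB b hb).1 h'))
    · exact Or.inr (Or.inr fun a ha b hb hab =>
        ⟨(hA a ha).2 (h a ha b hb hab).1, (hB b hb).2 (h a ha b hb hab).2⟩)

theorem TC_congr {S S' : Set V} {t : DT V} (h : ∀ a ∈ t.supp, a ∈ S ↔ a ∈ S') :
    TC H S t ↔ TC H S' t := by
  induction t with
  | leaf v => exact Iff.rfl
  | node l r ihl ihr =>
    have hl : ∀ a ∈ l.supp, a ∈ S ↔ a ∈ S' := fun a ha => h a (Or.inl ha)
    have hr : ∀ a ∈ r.supp, a ∈ S ↔ a ∈ S' := fun a ha => h a (Or.inr ha)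
    exact and_congr (NC_congr hl hr) (and_congr (ihl hl) (ihr hr))

theorem Cut.symm {A B : Set V} (h : Cut H A B) : Cut H B A := by
  obtain ⟨h1, ⟨a, ha, b, hb, hab⟩, h3⟩ := h
  exact ⟨h1.symm, ⟨b, hb, a, ha, hab.symm⟩,
    fun b hb a ha b' hb' a' ha' h4 h5 => (h3 a' ha' b' hb' a ha b hb h5.symm h4.symm).symm⟩

theorem Valid.mono {E' : Set V} {t : DT V} (h : Valid H E t) (hE : E' ⊆ E) : Valid H E' t := by
  induction t with
  | leaf v => exact trivial
  | node l r ihl ihr =>
    obtain ⟨h1, h2, h3, h4⟩ := h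
    exact ⟨h1, fun u hu => h2 u (hE hu), ihl h3, ihr h4⟩

theorem valid_swap {l r : DT V} (h : Valid H E (.node l r)) : Valid H E (.node r l) := by
  obtain ⟨h1, h2, h3, h4⟩ := h
  exact ⟨h1.symm, fun u hu hur hul => (h2 u hu hul hur).symm, h4, h3⟩

theorem TC_swap {S : Set V} {l r : DT V} (h : TC H S (.node l r)) : TC H S (.node r l) := by
  obtain ⟨h1, h2, h3⟩ := h
  exact ⟨h1.symm, h3, h2⟩

theorem TC_univ {S : Set V} {t : DT V} (h : t.supp ⊆ S) : TC H S t := by
  induction t with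
  | leaf v => exact trivial
  | node l r ihl ihr =>
    have hl : l.supp ⊆ S := fun a ha => h (Or.inl ha)
    have hr : r.supp ⊆ S := fun a ha => h (Or.inr ha)
    exact ⟨Or.inr (Or.inr fun a ha b hb _ => ⟨hl ha, hr hb⟩), ihl hl, ihr hr⟩

theorem TC_disj {S : Set V} {t : DT V} (h : ∀ a ∈ t.supp, a ∉ S) : TC H S t := by
  induction t with
  | leaf v => exact trivial
  | node l r ihl ihr =>
    have hl : ∀ a ∈ l.supp, a ∉ S := fun a ha => h a (Or.inl ha)
    have hr : ∀ a ∈ r.supp, a ∉ S := fun a ha => h a (Or.inr ha)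
    exact ⟨Or.inl hl, ihl hl, ihr hr⟩

theorem Sp_mem {t : DT V} {u v w : V} (h : Sp t u v w) : u ∈ t.supp ∧ v ∈ t.supp ∧ w ∈ t.supp := by
  induction t with
  | leaf v => exact h.elim
  | node l r ihl ihr =>
    rcases h with ⟨h1, h2, h3⟩ | ⟨h1, h2, h3⟩ | h | h
    · exact ⟨Or.inl h1, Or.inl h2, Or.inr h3⟩
    · exact ⟨Or.inr h1, Or.inr h2, Or.inl h3⟩
    · obtain ⟨h1, h2, h3⟩ := ihl h
      exact ⟨Or.inl h1, Or.inl h2, Or.inl h3⟩
    · obtain ⟨h1, h2, h3⟩ := ihr h
      exact ⟨Or.inr h1, Or.inr h2, Or.inr h3⟩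

theorem Sp_symm {t : DT V} {u v w : V} (h : Sp t u v w) : Sp t v u w := by
  induction t with
  | leaf v => exact h.elim
  | node l r ihl ihr =>
    rcases h with ⟨h1, h2, h3⟩ | ⟨h1, h2, h3⟩ | h | h
    · exact Or.inl ⟨h2, h1, h3⟩
    · exact Or.inr (Or.inl ⟨h2, h1, h3⟩)
    · exact Or.inr (Or.inr (Or.inl (ihl h)))
    · exact Or.inr (Or.inr (Or.inr (ihr h)))

theorem Sp_cons {t : DT V} (ht : Valid H E t) {u v w : V} (h : Sp t u v w) : ¬ Sp t u w v := by
  induction t with
  | leaf v => exact h.elim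
  | node l r ihl ihr =>
    obtain ⟨⟨hd, -, -⟩, -, htl, htr⟩ := ht
    have hlr : ∀ a, a ∈ l.supp → a ∈ r.supp → False := fun a ha hb =>
      Set.disjoint_left.1 hd ha hb
    intro h'
    rcases h with ⟨h1, h2, h3⟩ | ⟨h1, h2, h3⟩ | h | h
    · rcases h' with ⟨k1, k2, k3⟩ | ⟨k1, k2, k3⟩ | k | k
      · exact hlr _ h2 k3
      · exact hlr _ h1 k1
      · exact hlr _ (Sp_mem k).2.1 h3
      · exact hlr _ h1 (Sp_mem k).1
    · rcases h' with ⟨k1, k2, k3⟩ | ⟨k1, k2, k3⟩ | k | k
      · exact hlr _ k1 h1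
      · exact hlr _ k3 h2
      · exact hlr _ (Sp_mem k).1 h1
      · exact hlr _ h3 (Sp_mem k).2.1
    · obtain ⟨h1, h2, h3⟩ := Sp_mem h
      rcases h' with ⟨k1, k2, k3⟩ | ⟨k1, k2, k3⟩ | k | k
      · exact hlr _ h2 k3
      · exact hlr _ h1 k1
      · exact ihl htl h k
      · exact hlr _ h1 (Sp_mem k).1
    · obtain ⟨h1, h2, h3⟩ := Sp_mem h
      rcases h' with ⟨k1, k2, k3⟩ | ⟨k1, k2, k3⟩ | k | k
      · exact hlr _ k1 h1
      · exact hlr _ k3 h2
      · exact hlr _ (Sp_mem k).1 h1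
      · exact ihr htr h k

theorem valid_upgrade {t : DT V} (ht : Valid H X t)
    (h : ∀ u ∈ E, u ∉ X → TC H (H.neighborSet u) t) : Valid H E t := by
  induction t with
  | leaf v => exact trivial
  | node l r ihl ihr =>
    obtain ⟨h1, h2, h3, h4⟩ := ht
    refine ⟨h1, ?_, ihl h3 fun u hu hux => (h u hu hux).2.1,
      ihr h4 fun u hu hux => (h u hu hux).2.2⟩
    intro u hu hul hur
    by_cases hux : u ∈ X
    · exact h2 u hux hul hur
    · exact (h u hu hux).1

theorem sub_of_notMem {t s : DT V} {a : V} (h : a ∉ t.supp) : t.sub a s = t := by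
  induction t with
  | leaf v =>
    have hv : v ≠ a := fun hva => h (hva ▸ rfl)
    simp only [DT.sub, if_neg hv]
  | node l r ihl ihr =>
    have hl : a ∉ l.supp := fun ha => h (Or.inl ha)
    have hr : a ∉ r.supp := fun ha => h (Or.inr ha)
    show DT.node (l.sub a s) (r.sub a s) = DT.node l r
    rw [ihl hl, ihr hr]

theorem supp_sub {t s : DT V} {a : V} (h : a ∈ t.supp) : (t.sub a s).supp = t.supp \ {a} ∪ s.supp := by
  have aux : ∀ t : DT V, a ∉ t.supp → t.supp \ {a} = t.supp := fun t ht =>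
    Set.sdiff_singleton_eq_self ht
  induction t with
  | leaf v =>
    have hv : a = v := h
    simp only [DT.sub, if_pos hv.symm]
    show s.supp = ({v} : Set V) \ {a} ∪ s.supp
    rw [hv]; simp
  | node l r ihl ihr =>
    show (l.sub a s).supp ∪ (r.sub a s).supp = (l.supp ∪ r.supp) \ {a} ∪ s.supp
    rw [Set.union_sdiff_distrib]
    by_cases hl : a ∈ l.supp
    · by_cases hr : a ∈ r.supp
      · rw [ihl hl, ihr hr]
        ext x; simp only [Set.mem_union]; tauto
      · rw [ihl hl, sub_of_notMem hr, aux r hr]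
        ext x; simp only [Set.mem_union]; tauto
    · by_cases hr : a ∈ r.supp
      · rw [ihr hr, sub_of_notMem hl, aux l hl]
        ext x; simp only [Set.mem_union]; tauto
      · exact (h.elim hl hr).elim

theorem dec_nonempty {C : Set V} (h : Dec H E C) : C.Nonempty := by
  obtain ⟨t, rfl, -⟩ := h
  exact supp_nonempty t

theorem dec_finite {C : Set V} (h : Dec H E C) : C.Finite := by
  obtain ⟨t, rfl, -⟩ := h
  exact supp_finite t

theorem dec_mono {E' C : Set V} (h : Dec H E C) (hE : E' ⊆ E) : Dec H E' C := by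
  obtain ⟨t, h1, h2⟩ := h
  exact ⟨t, h1, h2.mono hE⟩

theorem dec_singleton (H : SimpleGraph V) (E : Set V) (v : V) : Dec H E {v} :=
  ⟨.leaf v, rfl, trivial⟩

end Pool.Agent.H8.CR
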