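import Pool.Agent.H8.CR.Tree1

/-!
# The relation of a valid tree is pure and full

* `sepS`: `t` valid (ambient `E ⊇ supp t`), `S` compatible, `u, v ∈ S`, `x ∉ S`, all in the support, `x`
  adjacent to `u` and `v`. Then `Sp t u v x`. Induction on `t`. Leaf: `u = v = x`, contradiction. Node
  `l r`: if all three are on the same side use the induction hypothesis. If `u, v` are on one side and
  `x` on the other: clear. If `u ∈ l`, `v ∈ r` (or conversely): `S` meets both sides, so by `NC` all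
  cross edges have both ends in `S`; `x ∈ l`: the cross edge `x v` gives `x ∈ S`, contradiction;
  `x ∈ r`: the cross edge `u x`, contradiction.
* `al_full`: induction; a triangle is split by the node as 2 + 1 or lies on one side.
* `al_pure`: all rules by induction on the tree (node `l r`, ambient `E ⊇ supp`).
  `tri`, `symm`, `cons`: `Sp_symm`, `Sp_cons`.
  d1: `Sp u v w`, `x ≁ w`, `x ~ u, v`. (i) `u, v ∈ l`, `w ∈ r`: if `x ∈ r` clear. If `x ∈ l`: the set
  `N(w)` is compatible with `l` (`w ∈ E`, `w ∉ l`; see `TC_nb` below, prove it here), contains `u, v`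
  but not `x`, so `sepS` gives `Sp l u v x`. (ii) `u, v, w ∈ l`: if `x ∈ l` induction, if `x ∈ r` clear.
  d2: `Sp u v w`, `x ≁ u`, `x ~ v, w`. (i) `u, v ∈ l`, `w ∈ r`: if `x ∈ l` clear. If `x ∈ r`: cross edges
  `u w` and `v x`, so `u ~ x` by completeness of the cut, contradiction. (ii) `u, v, w ∈ l`: if `x ∈ l`
  induction. If `x ∈ r`: `N(x)` is compatible with `l`, contains `v, w`, not `u`, so `sepS` gives
  `Sp l v w u`; contradiction to `Sp l u v w` (`Sp_cons`, `Sp_symm`).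
  k: `Sp a b c`, `d` adjacent to all. (i) `a, b ∈ l`, `c ∈ r`: `d ∈ r`: `Sp a b d`; `d ∈ l`: `Sp a d c` and
  `Sp b d c`. (ii) `a, b, c ∈ l`: `d ∈ r`: `Sp a b d`; `d ∈ l`: induction.
  (Same with `l` and `r` exchanged.)
* `TC_nb`: for `u ∈ E \ supp t` the set `N(u)` is compatible with `t` (induction, from `Valid`).
-/

namespace Pool.Agent.H8.CR

variable {V : Type*} {H : SimpleGraph V} {E : Set V}

theorem TC_nb {t : DT V} (ht : Valid H E t) {u : V} (hu : u ∈ E) (hu' : u ∉ t.supp) :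
    TC H (H.neighborSet u) t := by
  induction t with
  | leaf v => trivial
  | node l r ihl ihr =>
    obtain ⟨h1, h2, h3, h4⟩ := ht
    have hul : u ∉ l.supp := fun h => hu' (Or.inl h)
    have hur : u ∉ r.supp := fun h => hu' (Or.inr h)
    exact ⟨h2 u hu hul hur, ihl h3 hul, ihr h4 hur⟩

theorem sepS {t : DT V} {S : Set V} (hS : TC H S t) {u v x : V} (hu : u ∈ t.supp)
    (hv : v ∈ t.supp) (hx : x ∈ t.supp) (huS : u ∈ S) (hvS : v ∈ S) (hxS : x ∉ S)
    (hxu : H.Adj x u) (hxv : H.Adj x v) : Sp t u v x := by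
  induction t with
  | leaf y =>
    have e1 : u = y := hu
    have e2 : x = y := hx
    exact absurd (e2 ▸ e1 ▸ huS) hxS
  | node l r ihl ihr =>
    obtain ⟨h1, h2, h3⟩ := hS
    have key : ∀ a ∈ l.supp, ∀ b ∈ r.supp, a ∈ S → b ∈ S →
        ∀ a' ∈ l.supp, ∀ b' ∈ r.supp, H.Adj a' b' → a' ∈ S ∧ b' ∈ S := by
      intro a ha b hb haS hbS
      rcases h1 with h | h | h
      · exact absurd haS (h a ha)
      · exact absurd hbS (h b hb)
      · exact h
    rcases hu with hu | hu <;> rcases hv with hv | hv <;> rcases hx with hx | hx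
    · exact Or.inr (Or.inr (Or.inl (ihl h2 hu hv hx)))
    · exact Or.inl ⟨hu, hv, hx⟩
    · exact absurd (key u hu v hv huS hvS x hx v hv hxv).1 hxS
    · exact absurd (key u hu v hv huS hvS u hu x hx hxu.symm).2 hxS
    · exact absurd (key v hv u hu hvS huS x hx u hu hxu).1 hxS
    · exact absurd (key v hv u hu hvS huS v hv x hx hxv.symm).2 hxS
    · exact Or.inr (Or.inl ⟨hu, hv, hx⟩)
    · exact Or.inr (Or.inr (Or.inr (ihr h3 hu hv hx)))

private theorem sp_total (t : DT V) (H : SimpleGraph V) {u v w : V} (h : Tri H t.supp u v w) :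
    Sp t u v w ∨ Sp t u w v ∨ Sp t v w u := by
  induction t with
  | leaf y =>
    obtain ⟨hu, hv, -, huv, -, -⟩ := h
    have e1 : u = y := hu
    have e2 : v = y := hv
    exact absurd (e1.trans e2.symm) huv.ne
  | node l r ihl ihr =>
    obtain ⟨hu, hv, hw, huv, huw, hvw⟩ := h
    rcases hu with hu | hu <;> rcases hv with hv | hv <;> rcases hw with hw | hw
    · rcases ihl ⟨hu, hv, hw, huv, huw, hvw⟩ with h | h | h
      · exact Or.inl (Or.inr (Or.inr (Or.inl h)))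
      · exact Or.inr (Or.inl (Or.inr (Or.inr (Or.inl h))))
      · exact Or.inr (Or.inr (Or.inr (Or.inr (Or.inl h))))
    · exact Or.inl (Or.inl ⟨hu, hv, hw⟩)
    · exact Or.inr (Or.inl (Or.inl ⟨hu, hw, hv⟩))
    · exact Or.inr (Or.inr (Or.inr (Or.inl ⟨hv, hw, hu⟩)))
    · exact Or.inr (Or.inr (Or.inl ⟨hv, hw, hu⟩))
    · exact Or.inr (Or.inl (Or.inr (Or.inl ⟨hu, hw, hv⟩)))
    · exact Or.inl (Or.inr (Or.inl ⟨hu, hv, hw⟩))
    · rcases ihr ⟨hu, hv, hw, huv, huw, hvw⟩ with h | h | h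
      · exact Or.inl (Or.inr (Or.inr (Or.inr h)))
      · exact Or.inr (Or.inl (Or.inr (Or.inr (Or.inr h))))
      · exact Or.inr (Or.inr (Or.inr (Or.inr (Or.inr h))))

theorem al_full (t : DT V) (H : SimpleGraph V) : Full H t.supp (al H t) := by
  intro u v w h
  obtain ⟨hu, hv, hw, huv, huw, hvw⟩ := id h
  rcases sp_total t H h with h1 | h1 | h1
  · exact Or.inl ⟨h, h1⟩
  · exact Or.inr (Or.inl ⟨⟨hu, hw, hv, huw, huv, hvw.symm⟩, h1⟩)
  · exact Or.inr (Or.inr ⟨⟨hv, hw, hu, hvw, huv.symm, huw.symm⟩, h1⟩)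

private theorem sp_d1 {t : DT V} (ht : Valid H E t) (hE : t.supp ⊆ E) {u v w x : V}
    (h : Sp t u v w) (hx : x ∈ t.supp) (hwu : H.Adj w u) (hwv : H.Adj w v)
    (h1 : ¬ H.Adj x w) (h2 : H.Adj x u) (h3 : H.Adj x v) : Sp t u v x := by
  induction t with
  | leaf y => exact absurd h id
  | node l r ihl ihr =>
    obtain ⟨hc, hn, hl, hr⟩ := ht
    have hEl : l.supp ⊆ E := fun y hy => hE (Or.inl hy)
    have hEr : r.supp ⊆ E := fun y hy => hE (Or.inr hy)
    have dj : ∀ y, y ∈ l.supp → y ∉ r.supp := fun y hy hy' => Set.disjoint_left.1 hc.1 hy hy'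
    rcases h with ⟨hu, hv, hw⟩ | ⟨hu, hv, hw⟩ | h | h
    · rcases hx with hx | hx
      · have hw' : w ∉ l.supp := fun h => dj w h hw
        exact Or.inr (Or.inr (Or.inl (sepS (TC_nb hl (hEr hw) hw') hu hv hx hwu hwv
          (fun hh => h1 (SimpleGraph.Adj.symm hh)) h2 h3)))
      · exact Or.inl ⟨hu, hv, hx⟩
    · rcases hx with hx | hx
      · exact Or.inr (Or.inl ⟨hu, hv, hx⟩)
      · have hw' : w ∉ r.supp := dj w hw
        exact Or.inr (Or.inr (Or.inr (sepS (TC_nb hr (hEl hw) hw') hu hv hx hwu hwv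
          (fun hh => h1 (SimpleGraph.Adj.symm hh)) h2 h3)))
    · obtain ⟨hu, hv, hw⟩ := Sp_mem h
      rcases hx with hx | hx
      · exact Or.inr (Or.inr (Or.inl (ihl hl hEl h hx)))
      · exact Or.inl ⟨hu, hv, hx⟩
    · obtain ⟨hu, hv, hw⟩ := Sp_mem h
      rcases hx with hx | hx
      · exact Or.inr (Or.inl ⟨hu, hv, hx⟩)
      · exact Or.inr (Or.inr (Or.inr (ihr hr hEr h hx)))

private theorem sp_d2 {t : DT V} (ht : Valid H E t) (hE : t.supp ⊆ E) {u v w x : V}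
    (h : Sp t u v w) (hx : x ∈ t.supp) (huv : H.Adj u v) (huw : H.Adj u w)
    (h1 : ¬ H.Adj x u) (h2 : H.Adj x v) (h3 : H.Adj x w) : Sp t x v w := by
  induction t with
  | leaf y => exact absurd h id
  | node l r ihl ihr =>
    obtain ⟨hc, hn, hl, hr⟩ := ht
    have hEl : l.supp ⊆ E := fun y hy => hE (Or.inl hy)
    have hEr : r.supp ⊆ E := fun y hy => hE (Or.inr hy)
    have dj : ∀ y, y ∈ l.supp → y ∉ r.supp := fun y hy hy' => Set.disjoint_left.1 hc.1 hy hy'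
    rcases h with ⟨hu, hv, hw⟩ | ⟨hu, hv, hw⟩ | h | h
    · rcases hx with hx | hx
      · exact Or.inl ⟨hx, hv, hw⟩
      · exact absurd (hc.2.2 u hu w hw v hv x hx huw h2.symm).symm h1
    · rcases hx with hx | hx
      · exact absurd (hc.2.2 x hx v hv w hw u hu h2 huw.symm) h1
      · exact Or.inr (Or.inl ⟨hx, hv, hw⟩)
    · obtain ⟨hu, hv, hw⟩ := Sp_mem h
      rcases hx with hx | hx
      · exact Or.inr (Or.inr (Or.inl (ihl hl hEl h hx)))
      · have hx' : x ∉ l.supp := fun h => dj x h hx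
        have := sepS (TC_nb hl (hEr hx) hx') hv hw hu h2 h3 h1 huv huw
        exact absurd this (Sp_cons hl (Sp_symm h))
    · obtain ⟨hu, hv, hw⟩ := Sp_mem h
      rcases hx with hx | hx
      · have hx' : x ∉ r.supp := dj x hx
        have := sepS (TC_nb hr (hEl hx) hx') hv hw hu h2 h3 h1 huv huw
        exact absurd this (Sp_cons hr (Sp_symm h))
      · exact Or.inr (Or.inr (Or.inr (ihr hr hEr h hx)))

private theorem sp_k {t : DT V} {a b c d : V} (h : Sp t a b c) (hd : d ∈ t.supp) :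
    Sp t a b d ∨ (Sp t a d c ∧ Sp t b d c) := by
  induction t with
  | leaf y => exact absurd h id
  | node l r ihl ihr =>
    rcases h with ⟨ha, hb, hc⟩ | ⟨ha, hb, hc⟩ | h | h
    · rcases hd with hd | hd
      · exact Or.inr ⟨Or.inl ⟨ha, hd, hc⟩, Or.inl ⟨hb, hd, hc⟩⟩
      · exact Or.inl (Or.inl ⟨ha, hb, hd⟩)
    · rcases hd with hd | hd
      · exact Or.inl (Or.inr (Or.inl ⟨ha, hb, hd⟩))
      · exact Or.inr ⟨Or.inr (Or.inl ⟨ha, hd, hc⟩), Or.inr (Or.inl ⟨hb, hd, hc⟩)⟩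
    · obtain ⟨ha, hb, hc⟩ := Sp_mem h
      rcases hd with hd | hd
      · rcases ihl h hd with h1 | ⟨h1, h2⟩
        · exact Or.inl (Or.inr (Or.inr (Or.inl h1)))
        · exact Or.inr ⟨Or.inr (Or.inr (Or.inl h1)), Or.inr (Or.inr (Or.inl h2))⟩
      · exact Or.inl (Or.inl ⟨ha, hb, hd⟩)
    · obtain ⟨ha, hb, hc⟩ := Sp_mem h
      rcases hd with hd | hd
      · exact Or.inl (Or.inr (Or.inl ⟨ha, hb, hd⟩))
      · rcases ihr h hd with h1 | ⟨h1, h2⟩
        · exact Or.inl (Or.inr (Or.inr (Or.inr h1)))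
        · exact Or.inr ⟨Or.inr (Or.inr (Or.inr h1)), Or.inr (Or.inr (Or.inr h2))⟩

theorem al_pure {t : DT V} (ht : Valid H E t) (hE : t.supp ⊆ E) : Pure H t.supp (al H t) := by
  refine ⟨fun u v w h => h.1, ?_, ?_, ?_, ?_, ?_⟩
  · rintro u v w ⟨⟨hu, hv, hw, huv, huw, hvw⟩, h⟩
    exact ⟨⟨hv, hu, hw, huv.symm, hvw, huw⟩, Sp_symm h⟩
  · rintro u v w ⟨-, h⟩ ⟨-, h'⟩
    exact Sp_cons ht h h'
  · rintro u v w x ⟨⟨hu, hv, hw, huv, huw, hvw⟩, h⟩ hx h1 h2 h3
    exact ⟨⟨hu, hv, hx, huv, h2.symm, h3.symm⟩, sp_d1 ht hE h hx huw.symm hvw.symm h1 h2 h3⟩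
  · rintro u v w x ⟨⟨hu, hv, hw, huv, huw, hvw⟩, h⟩ hx h1 h2 h3
    exact ⟨⟨hx, hv, hw, h2, h3, hvw⟩, sp_d2 ht hE h hx huv huw h1 h2 h3⟩
  · rintro a b c d ⟨⟨ha, hb, hc, hab, hac, hbc⟩, h⟩ hd h1 h2 h3
    rcases sp_k h hd with h4 | ⟨h4, h5⟩
    · exact Or.inl ⟨⟨ha, hb, hd, hab, h1.symm, h2.symm⟩, h4⟩
    · exact Or.inr ⟨⟨⟨ha, hd, hc, h1.symm, hac, h3⟩, h4⟩, ⟨⟨hb, hd, hc, h2.symm, hbc, h3⟩, h5⟩⟩

end Pool.Agent.H8.CR
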